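import Pool.Agent.Q237.LV.FamB
import Pool.Agent.Helper923.HMertens

/-!
# Estimates for the resonator
-/

set_option autoImplicit false

namespace Pool.Agent.Q237.LV

open Finset
open scoped Classical

theorem DD_nonneg {P : Finset ℕ} {fp : ℕ → ℝ} (hf : ∀ p ∈ P, 0 ≤ fp p) : 0 ≤ DD P fp := by
  rw [DD_eq]
  refine prod_nonneg fun p hm => ?_
  have := hf p hm
  have := hp_nonneg p
  positivity

/-- Rankin's bound for the truncated main sum -/
theorem rankin {P : Finset ℕ} (hP : ∀ p ∈ P, p.Prime) {fp : ℕ → ℝ} (hf : ∀ p ∈ P, 0 ≤ fp p)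
    {N : ℕ} (hN : 1 ≤ N) {α : ℝ} (hα : 0 ≤ α) :
    DD P fp - DN N P fp ≤ DD P fp * ((N : ℝ) ^ (-α) *
      Real.exp (∑ p ∈ P, ((p : ℝ) ^ α - 1) * (fp p * (fp p + hp p)))) := by
  have hN0 : (0 : ℝ) < N := by exact_mod_cast hN
  obtain ⟨g, hg⟩ : ∃ g : ℕ → ℝ, g = fun p => fp p * (fp p + hp p) := ⟨_, rfl⟩
  have hg0 : ∀ p ∈ P, 0 ≤ g p := by
    intro p hm
    rw [hg]
    have := hf p hm
    have := hp_nonneg p
    positivity
  have e1 : DD P fp = ∑ S ∈ P.powerset, ∏ p ∈ S, g p := by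
    unfold DD
    exact sum_congr rfl fun S _ => by rw [inner_eq, hg]
  have e2 : DN N P fp = ∑ S ∈ SSt P N, ∏ p ∈ S, g p := by
    unfold DN
    exact sum_congr rfl fun S _ => by rw [inner_eq, hg]
  have e3 : DD P fp - DN N P fp = ∑ S ∈ P.powerset.filter (fun S => ¬ nn S ≤ N), ∏ p ∈ S, g p := by
    rw [e1, e2, ← sum_filter_add_sum_filter_not P.powerset (fun S => nn S ≤ N)]
    unfold SSt
    ring
  have h1 : ∀ S ∈ P.powerset.filter (fun S => ¬ nn S ≤ N), ∏ p ∈ S, g p ≤
      (N : ℝ) ^ (-α) * ∏ p ∈ S, ((p : ℝ) ^ α * g p) := by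
    intro S hS
    rw [mem_filter, mem_powerset] at hS
    have h2 : 0 ≤ ∏ p ∈ S, g p := prod_nonneg fun p hm => hg0 p (hS.1 hm)
    rw [prod_mul_distrib, ← nn_rpow, ← mul_assoc]
    have h3 : 1 ≤ (N : ℝ) ^ (-α) * ((nn S : ℕ) : ℝ) ^ α := by
      have h4 : (N : ℝ) ^ α ≤ ((nn S : ℕ) : ℝ) ^ α := by
        refine Real.rpow_le_rpow hN0.le ?_ hα
        exact_mod_cast (not_le.1 hS.2).le
      have h5 : (N : ℝ) ^ (-α) * (N : ℝ) ^ α = 1 := by
        rw [← Real.rpow_add hN0]
        simp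
      rw [← h5]
      exact mul_le_mul_of_nonneg_left h4 (by positivity)
    exact le_mul_of_one_le_left h2 h3
  have h2 : ∑ S ∈ P.powerset.filter (fun S => ¬ nn S ≤ N), ∏ p ∈ S, g p ≤
      (N : ℝ) ^ (-α) * ∏ p ∈ P, (1 + (p : ℝ) ^ α * g p) := by
    refine (sum_le_sum h1).trans ?_
    rw [← mul_sum, prod_one_add]
    refine mul_le_mul_of_nonneg_left ?_ (by positivity)
    refine sum_le_sum_of_subset_of_nonneg (filter_subset _ _) fun S hS _ => ?_
    rw [mem_powerset] at hS
    exact prod_nonneg fun p hm => mul_nonneg (by positivity) (hg0 p (hS hm))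
  have h3 : ∏ p ∈ P, (1 + (p : ℝ) ^ α * g p) ≤
      DD P fp * Real.exp (∑ p ∈ P, ((p : ℝ) ^ α - 1) * g p) := by
    rw [DD_eq, Real.exp_sum, ← prod_mul_distrib]
    refine prod_le_prod (fun p hm => ?_) fun p hm => ?_
    · have := hg0 p hm
      positivity
    · have h4 := hg0 p hm
      have hp1 : (1 : ℝ) ≤ (p : ℝ) ^ α := by
        refine Real.one_le_rpow ?_ hα
        exact_mod_cast (hP p hm).one_lt.le
      have h5 : 0 ≤ ((p : ℝ) ^ α - 1) * g p := mul_nonneg (by linarith) h4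
      have h6 := Real.add_one_le_exp (((p : ℝ) ^ α - 1) * g p)
      have h7 : fp p * (fp p + hp p) = g p := by rw [hg]
      rw [h7]
      calc 1 + (p : ℝ) ^ α * g p = 1 + g p + ((p : ℝ) ^ α - 1) * g p := by ring
        _ ≤ (1 + g p) * (((p : ℝ) ^ α - 1) * g p + 1) := by nlinarith
        _ ≤ (1 + g p) * Real.exp (((p : ℝ) ^ α - 1) * g p) := by gcongr
  rw [e3]
  calc _ ≤ _ := h2
    _ ≤ (N : ℝ) ^ (-α) * (DD P fp * Real.exp (∑ p ∈ P, ((p : ℝ) ^ α - 1) * g p)) :=
        mul_le_mul_of_nonneg_left h3 (by positivity)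
    _ = _ := by
        rw [hg]
        ring

/-- the diagonal is much smaller than the main sum -/
theorem DD_ge {P : Finset ℕ} {fp : ℕ → ℝ} (hf : ∀ p ∈ P, 0 ≤ fp p) (hf1 : ∀ p ∈ P, fp p ≤ 1)
    (hp2 : ∀ p ∈ P, 2 ≤ p) (N : ℕ) :
    (∑ S ∈ SSt P N, ff fp S ^ 2) * Real.exp ((1 / 4) * ∑ p ∈ P, fp p * hp p) ≤ DD P fp := by
  have h1 : ∑ S ∈ SSt P N, ff fp S ^ 2 ≤ ∏ p ∈ P, (1 + fp p ^ 2) := by
    rw [prod_one_add]
    have h2 : ∑ S ∈ SSt P N, ff fp S ^ 2 = ∑ S ∈ SSt P N, ∏ p ∈ S, fp p ^ 2 :=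
      sum_congr rfl fun S _ => by unfold ff; rw [prod_pow]
    rw [h2]
    unfold SSt
    exact sum_le_sum_of_subset_of_nonneg (filter_subset _ _) fun S _ _ =>
      prod_nonneg fun p _ => sq_nonneg _
  have h2 : (∏ p ∈ P, (1 + fp p ^ 2)) * Real.exp ((1 / 4) * ∑ p ∈ P, fp p * hp p) ≤ DD P fp := by
    rw [DD_eq, mul_sum, Real.exp_sum, ← prod_mul_distrib]
    refine prod_le_prod (fun p _ => by positivity) fun p hm => ?_
    have a1 := hf p hm
    have a2 := hf1 p hm
    have a3 := hp_nonneg p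
    have a4 : hp p ≤ 1 := by
      have := hp_anti (m := 1) (n := p) le_rfl (by have := hp2 p hm; omega)
      refine this.trans ?_
      unfold hp
      norm_num
    set x := fp p * hp p with hx
    have hx0 : 0 ≤ x := by positivity
    have hx1 : x ≤ 1 := by
      rw [hx]
      calc fp p * hp p ≤ 1 * 1 := by gcongr
        _ = 1 := one_mul 1
    have h3 : Real.exp (1 / 4 * x) ≤ 1 + x / 2 := by
      have h4 : Real.exp (1 / 4 * x) * Real.exp (-(1 / 4 * x)) = 1 := by
        rw [← Real.exp_add, add_neg_cancel, Real.exp_zero]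
      have h5 := Real.add_one_le_exp (-(1 / 4 * x))
      have h6 := Real.exp_pos (1 / 4 * x)
      have h7 : Real.exp (1 / 4 * x) * (1 - x / 4) ≤ 1 := by
        calc Real.exp (1 / 4 * x) * (1 - x / 4) ≤ Real.exp (1 / 4 * x) * Real.exp (-(1 / 4 * x)) :=
              mul_le_mul_of_nonneg_left (by linarith) h6.le
          _ = 1 := h4
      have h8 : 1 ≤ (1 + x / 2) * (1 - x / 4) := by nlinarith
      have h9 : 0 < 1 - x / 4 := by linarith
      by_contra hcon
      push Not at hcon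
      nlinarith
    have h4 : fp p * (fp p + hp p) = fp p ^ 2 + x := by rw [hx]; ring
    rw [h4]
    have h5 : fp p ^ 2 ≤ 1 := by nlinarith
    calc (1 + fp p ^ 2) * Real.exp (1 / 4 * x) ≤ (1 + fp p ^ 2) * (1 + x / 2) := by gcongr
      _ ≤ 1 + (fp p ^ 2 + x) := by nlinarith
  exact (mul_le_mul_of_nonneg_right h1 (Real.exp_pos _).le).trans h2

/-- the primes of the resonator -/
noncomputable def Py (y : ℕ) : Finset ℕ := (Ioc y (y ^ 2)).filter Nat.Prime

/-- the coefficients of the resonator at the primes -/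
noncomputable def fl (l : ℝ) (p : ℕ) : ℝ := l * hp p / Real.log p

theorem mem_Py {y p : ℕ} : p ∈ Py y ↔ (y < p ∧ p ≤ y ^ 2) ∧ p.Prime := by
  unfold Py
  rw [mem_filter, mem_Ioc]

theorem mass_Py : ∃ y0 : ℕ, 3 ≤ y0 ∧ ∀ y : ℕ, y0 ≤ y →
    1 / 2 ≤ ∑ p ∈ Py y, (1 : ℝ) / p ∧ ∑ p ∈ Py y, (1 : ℝ) / p ≤ 1 := by
  obtain ⟨C, hC0, hC⟩ := Pool.Agent.Helper923.HMertens.mertens_ratio
  obtain ⟨y0, hy0⟩ := exists_nat_ge (Real.exp (10 * C))
  refine ⟨max 3 y0, le_max_left _ _, fun y hy => ?_⟩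
  have hy3 : 3 ≤ y := (le_max_left _ _).trans hy
  have hyy : y0 ≤ y := (le_max_right _ _).trans hy
  have hyr : (1 : ℝ) < y := by
    have : 1 < y := by omega
    exact_mod_cast this
  have hlog : 0 < Real.log y := Real.log_pos hyr
  have h1 := hC y (y ^ 2) (by omega) (Nat.le_self_pow (by norm_num) y)
  have h2 : Real.log (((y ^ 2 : ℕ) : ℝ)) / Real.log y = 2 := by
    push_cast
    rw [Real.log_pow]
    field_simp
    norm_num
  rw [h2] at h1
  have h3 : C / Real.log y ≤ 1 / 10 := by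
    rw [div_le_iff₀ hlog]
    have h4 : 10 * C ≤ Real.log y := by
      rw [← Real.log_exp (10 * C)]
      refine Real.log_le_log (Real.exp_pos _) (hy0.trans ?_)
      exact_mod_cast hyy
    linarith
  have h4 := abs_le.1 (h1.trans h3)
  have h5 := Real.log_two_gt_d9
  have h6 := Real.log_two_lt_d9
  unfold Py
  constructor
  · linarith [h4.1]
  · linarith [h4.2]

/-- the sums over the primes of the resonator -/
theorem sums_Py {y : ℕ} (hy : 3 ≤ y) (h1 : 1 / 2 ≤ ∑ p ∈ Py y, (1 : ℝ) / p)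
    (h2 : ∑ p ∈ Py y, (1 : ℝ) / p ≤ 1) {l : ℝ} (hl : 0 ≤ l) :
    ∑ p ∈ Py y, fl l p ^ 2 ≤ l ^ 2 / Real.log y ^ 2 ∧
    ∑ p ∈ Py y, fl l p * hp p ≤ l / Real.log y ∧
    l / (4 * Real.log y) ≤ ∑ p ∈ Py y, fl l p * hp p := by
  have hyr : (1 : ℝ) < y := by
    have : 1 < y := by omega
    exact_mod_cast this
  have hlog : 0 < Real.log y := Real.log_pos hyr
  have hb : ∀ p ∈ Py y, Real.log y ≤ Real.log p ∧ Real.log p ≤ 2 * Real.log y ∧ 1 ≤ p := by
    intro p hm
    rw [mem_Py] at hm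
    have hp1 : 1 ≤ p := hm.2.one_lt.le
    refine ⟨Real.log_le_log (by linarith) (by exact_mod_cast hm.1.1.le), ?_, hp1⟩
    have h3 : (p : ℝ) ≤ (y : ℝ) ^ 2 := by exact_mod_cast hm.1.2
    have h4 := Real.log_le_log (by exact_mod_cast hp1) h3
    rw [Real.log_pow] at h4
    push_cast at h4
    exact h4
  refine ⟨?_, ?_, ?_⟩
  · calc ∑ p ∈ Py y, fl l p ^ 2 ≤ ∑ p ∈ Py y, l ^ 2 / Real.log y ^ 2 * (1 / (p : ℝ)) := by
          refine sum_le_sum fun p hm => ?_
          obtain ⟨b1, b2, b3⟩ := hb p hm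
          unfold fl
          rw [div_pow, mul_pow, hp_sq b3]
          have h3 : Real.log y ^ 2 ≤ Real.log p ^ 2 := pow_le_pow_left₀ hlog.le b1 2
          calc l ^ 2 * (1 / (p : ℝ)) / Real.log p ^ 2 ≤ l ^ 2 * (1 / (p : ℝ)) / Real.log y ^ 2 := by
                gcongr
            _ = _ := by ring
      _ = l ^ 2 / Real.log y ^ 2 * ∑ p ∈ Py y, (1 : ℝ) / p := by rw [mul_sum]
      _ ≤ l ^ 2 / Real.log y ^ 2 * 1 := by gcongr
      _ = _ := mul_one _
  · calc ∑ p ∈ Py y, fl l p * hp p ≤ ∑ p ∈ Py y, l / Real.log y * (1 / (p : ℝ)) := by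
          refine sum_le_sum fun p hm => ?_
          obtain ⟨b1, b2, b3⟩ := hb p hm
          unfold fl
          have h3 : l * hp p / Real.log p * hp p = l * (1 / (p : ℝ)) / Real.log p := by
            rw [← hp_sq b3]
            ring
          rw [h3]
          calc l * (1 / (p : ℝ)) / Real.log p ≤ l * (1 / (p : ℝ)) / Real.log y := by
                gcongr
            _ = _ := by ring
      _ = l / Real.log y * ∑ p ∈ Py y, (1 : ℝ) / p := by rw [mul_sum]
      _ ≤ l / Real.log y * 1 := by gcongr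
      _ = _ := mul_one _
  · calc l / (4 * Real.log y) = l / (2 * Real.log y) * (1 / 2) := by ring
      _ ≤ l / (2 * Real.log y) * ∑ p ∈ Py y, (1 : ℝ) / p := by gcongr
      _ = ∑ p ∈ Py y, l / (2 * Real.log y) * (1 / (p : ℝ)) := by rw [mul_sum]
      _ ≤ _ := by
          refine sum_le_sum fun p hm => ?_
          obtain ⟨b1, b2, b3⟩ := hb p hm
          unfold fl
          have h3 : l * hp p / Real.log p * hp p = l * (1 / (p : ℝ)) / Real.log p := by
            rw [← hp_sq b3]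
            ring
          rw [h3]
          have h4 : 0 < Real.log p := lt_of_lt_of_le hlog b1
          calc l / (2 * Real.log y) * (1 / (p : ℝ)) = l * (1 / (p : ℝ)) / (2 * Real.log y) := by ring
            _ ≤ l * (1 / (p : ℝ)) / Real.log p := by gcongr

/-- the resonator for `λ ^ 2 = log N log y / 28` -/
theorem res_main {y N : ℕ} (hy : 3 ≤ y) (h1 : 1 / 2 ≤ ∑ p ∈ Py y, (1 : ℝ) / p)
    (h2 : ∑ p ∈ Py y, (1 : ℝ) / p ≤ 1) {l R : ℝ} (hl : 0 ≤ l) (hR : R = Real.log N / Real.log y)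
    (hR28 : 28 ≤ R) (hlR : l ^ 2 = Real.log N * Real.log y / 28) (hN : 1 ≤ N)
    (hfl : ∀ p ∈ Py y, fl l p ≤ 1) :
    DD (Py y) (fl l) / 2 ≤ DN N (Py y) (fl l) ∧
    (∑ S ∈ SSt (Py y) N, ff (fl l) S ^ 2) * Real.exp (Real.sqrt R / 100) ≤ DD (Py y) (fl l) := by
  have hyr : (1 : ℝ) < y := by
    have : 1 < y := by omega
    exact_mod_cast this
  have hlog : 0 < Real.log y := Real.log_pos hyr
  obtain ⟨s1, s2, s3⟩ := sums_Py hy h1 h2 hl
  have hP : ∀ p ∈ Py y, p.Prime := fun p hm => (mem_Py.1 hm).2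
  have hf0 : ∀ p ∈ Py y, 0 ≤ fl l p := by
    intro p hm
    unfold fl
    have := hp_nonneg p
    have := Real.log_natCast_nonneg p
    positivity
  have hll : l / Real.log y = Real.sqrt (R / 28) := by
    rw [eq_comm, Real.sqrt_eq_iff_mul_self_eq (by positivity) (by positivity), hR]
    have : l / Real.log y * (l / Real.log y) = l ^ 2 / Real.log y ^ 2 := by ring
    rw [this, hlR]
    field_simp
  have hll2 : l ^ 2 / Real.log y ^ 2 = R / 28 := by
    rw [hlR, hR]
    field_simp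
  have hsq : Real.sqrt (R / 28) ≤ R / 28 := by
    rw [Real.sqrt_le_left (by positivity)]
    have : 1 ≤ R / 28 := by linarith
    nlinarith
  constructor
  · have h3 := rankin hP hf0 hN (α := 1 / Real.log y) (by positivity)
    have h4 : ∑ p ∈ Py y, ((p : ℝ) ^ (1 / Real.log y) - 1) * (fl l p * (fl l p + hp p)) ≤
        7 * (R / 28 + R / 28) := by
      calc ∑ p ∈ Py y, ((p : ℝ) ^ (1 / Real.log y) - 1) * (fl l p * (fl l p + hp p))
          ≤ ∑ p ∈ Py y, 7 * (fl l p ^ 2 + fl l p * hp p) := by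
            refine sum_le_sum fun p hm => ?_
            have a1 := hf0 p hm
            have a2 := hp_nonneg p
            have a3 : (p : ℝ) ^ (1 / Real.log y) ≤ 8 := by
              rw [mem_Py] at hm
              have hp0 : (0 : ℝ) < p := by exact_mod_cast hm.2.pos
              have h5 : (p : ℝ) ≤ (y : ℝ) ^ 2 := by exact_mod_cast hm.1.2
              have h6 := Real.log_le_log hp0 h5
              rw [Real.log_pow] at h6
              push_cast at h6
              rw [Real.rpow_def_of_pos hp0]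
              have h7 : Real.log p * (1 / Real.log y) ≤ 2 := by
                rw [mul_one_div, div_le_iff₀ hlog]
                exact h6
              refine (Real.exp_le_exp.2 h7).trans ?_
              have h8 := Real.exp_one_lt_d9
              have h9 : Real.exp 2 = Real.exp 1 * Real.exp 1 := by
                rw [← Real.exp_add]
                norm_num
              rw [h9]
              have h10 := Real.exp_pos 1
              nlinarith
            have a4 : fl l p * (fl l p + hp p) = fl l p ^ 2 + fl l p * hp p := by ring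
            rw [a4]
            refine mul_le_mul_of_nonneg_right (by linarith) (by positivity)
        _ = 7 * (∑ p ∈ Py y, fl l p ^ 2 + ∑ p ∈ Py y, fl l p * hp p) := by
            rw [← mul_sum, sum_add_distrib]
        _ ≤ 7 * (R / 28 + R / 28) := by
            rw [hll2] at s1
            rw [hll] at s2
            linarith
    have h5 : (N : ℝ) ^ (-(1 / Real.log y)) = Real.exp (-R) := by
      have hN0 : (0 : ℝ) < N := by exact_mod_cast hN
      rw [Real.rpow_def_of_pos hN0, hR]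
      congr 1
      ring
    have h6 : (N : ℝ) ^ (-(1 / Real.log y)) *
        Real.exp (∑ p ∈ Py y, ((p : ℝ) ^ (1 / Real.log y) - 1) * (fl l p * (fl l p + hp p))) ≤
        1 / 2 := by
      rw [h5, ← Real.exp_add]
      have h7 : -R + ∑ p ∈ Py y, ((p : ℝ) ^ (1 / Real.log y) - 1) * (fl l p * (fl l p + hp p)) ≤
          -1 := by linarith
      refine (Real.exp_le_exp.2 h7).trans ?_
      rw [Real.exp_neg]
      have h8 := Real.exp_one_gt_d9
      rw [inv_eq_one_div]
      exact one_div_le_one_div_of_le (by norm_num) (by linarith)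
    have h7 := DD_nonneg hf0
    have h8 := mul_le_mul_of_nonneg_left h6 h7
    linarith
  · refine le_trans ?_ (DD_ge hf0 hfl (fun p hm => (hP p hm).two_le) N)
    refine mul_le_mul_of_nonneg_left (Real.exp_le_exp.2 ?_) (sum_nonneg fun _ _ => sq_nonneg _)
    have h3 : l / (4 * Real.log y) = Real.sqrt (R / 28) / 4 := by
      rw [← hll]
      ring
    rw [h3] at s3
    have h4 : Real.sqrt R / 6 ≤ Real.sqrt (R / 28) := by
      have h5 : Real.sqrt R / 6 = Real.sqrt (R / 36) := by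
        rw [Real.sqrt_div (by linarith)]
        congr 1
        rw [show (36 : ℝ) = 6 ^ 2 by norm_num, Real.sqrt_sq (by norm_num)]
      rw [h5]
      exact Real.sqrt_le_sqrt (by
        have : 0 ≤ R := by linarith
        linarith)
    have h5 : 0 ≤ Real.sqrt R := Real.sqrt_nonneg _
    linarith

end Pool.Agent.Q237.LV
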