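import Pool.Agent.Q237.LV.FamB

/-!
# Sums over a single coset: the small part
-/

set_option autoImplicit false

namespace Pool.Agent.Q237.LV

open Finset
open scoped Classical

section

variable {q : ℕ} [Fact q.Prime]

/-- the truncated series over a set of integers -/
noncomputable def LC (C : Finset ℕ) (χ : DirichletCharacter ℂ q) : ℂ :=
  ∑ a ∈ C, ((hp a : ℝ) : ℂ) * χ ((a : ℕ) : ZMod q)

/-- the sum over a coset -/
theorem coset_sumC {N : ℕ} {P : Finset ℕ} (hP : ∀ p ∈ P, p.Prime) (hN : N < q) (fp : ℕ → ℝ)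
    (C : Finset ℕ) (H : Subgroup (DirichletCharacter ℂ q)) (χ : DirichletCharacter ℂ q) :
    ∑ ψ ∈ hf H, LC C (χ * ψ) * ((‖RR N P fp (χ * ψ)‖ ^ 2 : ℝ) : ℂ) =
      ((hf H).card : ℂ) * ∑ κ ∈ kf H, χ (κ : ZMod q) * ((Ts C (SSt P N) fp κ : ℝ) : ℂ) := by
  have h0 : ∀ ψ : DirichletCharacter ℂ q, LC C ψ * ((‖RR N P fp ψ‖ ^ 2 : ℝ) : ℂ) =
      ∑ x ∈ C ×ˢ SSt P N ×ˢ SSt P N, (((x.1 : ℝ) ^ (-(1 / 2) : ℝ) *
        (ff fp x.2.1 * ff fp x.2.2) : ℝ) : ℂ) *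
        ψ (((x.1 * nn x.2.1 : ℕ) : ZMod q) * (((nn x.2.2 : ℕ) : ZMod q))⁻¹) := by
    intro ψ
    have h1 : ((‖RR N P fp ψ‖ ^ 2 : ℝ) : ℂ) = ∑ x ∈ SSt P N ×ˢ SSt P N,
        ((ff fp x.1 * ff fp x.2 : ℝ) : ℂ) *
          (ψ ((nn x.1 : ℕ) : ZMod q) * ψ ((((nn x.2 : ℕ) : ZMod q))⁻¹)) := by
      rw [← Complex.normSq_eq_norm_sq, Complex.normSq_eq_conj_mul_self]
      unfold RR
      rw [map_sum, mul_comm, sum_mul_sum, sum_product]
      refine sum_congr rfl fun S' _ => sum_congr rfl fun S hS => ?_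
      have h2 := nn_ne_zero hP hN hS
      rw [map_mul, ← un_val h2, conj_apply, un_val h2, Complex.conj_ofReal]
      push_cast
      ring
    rw [h1]
    unfold LC
    rw [sum_mul_sum]
    symm
    rw [sum_product]
    refine sum_congr rfl fun x _ => sum_congr rfl fun z _ => ?_
    unfold hp
    push_cast
    rw [map_mul, map_mul]
    ring
  rw [sum_congr rfl (fun ψ _ => h0 (χ * ψ)), sum_coset_comb]
  congr 1
  refine sum_congr rfl fun κ _ => ?_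
  congr 1
  unfold Ts cls
  rw [sum_filter, Complex.ofReal_sum]
  refine sum_congr rfl fun x hx => ?_
  rw [mem_product, mem_product] at hx
  have h2 := nn_ne_zero hP hN hx.2.2
  have h3 : (κ : ZMod q) * ((nn x.2.2 : ℕ) : ZMod q) = ((x.1 * nn x.2.1 : ℕ) : ZMod q) ↔
      (κ : ZMod q) = ((x.1 * nn x.2.1 : ℕ) : ZMod q) * (((nn x.2.2 : ℕ) : ZMod q))⁻¹ := by
    rw [eq_mul_inv_iff_mul_eq₀ h2]
  by_cases h : (κ : ZMod q) * ((nn x.2.2 : ℕ) : ZMod q) = ((x.1 * nn x.2.1 : ℕ) : ZMod q)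
  · rw [if_pos h, if_pos (h3.1 h)]
  · rw [if_neg h, if_neg (fun h4 => h (h3.2 h4))]
    norm_num

/-- the small part of the class -/
noncomputable def clsS (A : ℕ) (C : Finset ℕ) (SS : Finset (Finset ℕ)) (κ : (ZMod q)ˣ) :
    Finset (ℕ × Finset ℕ × Finset ℕ) :=
  (cls C SS κ).filter (fun x => x.1 / Nat.gcd x.1 (nn x.2.2) ≤ A)

/-- the large part of the class -/
noncomputable def clsL (A : ℕ) (C : Finset ℕ) (SS : Finset (Finset ℕ)) (κ : (ZMod q)ˣ) :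
    Finset (ℕ × Finset ℕ × Finset ℕ) :=
  (cls C SS κ).filter (fun x => ¬ x.1 / Nat.gcd x.1 (nn x.2.2) ≤ A)

/-- the small part of the sum -/
noncomputable def TS (A : ℕ) (C : Finset ℕ) (SS : Finset (Finset ℕ)) (fp : ℕ → ℝ)
    (κ : (ZMod q)ˣ) : ℝ :=
  ∑ x ∈ clsS A C SS κ, (x.1 : ℝ) ^ (-(1 / 2) : ℝ) * (ff fp x.2.1 * ff fp x.2.2)

/-- the large part of the sum -/
noncomputable def TL (A : ℕ) (C : Finset ℕ) (SS : Finset (Finset ℕ)) (fp : ℕ → ℝ)
    (κ : (ZMod q)ˣ) : ℝ :=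
  ∑ x ∈ clsL A C SS κ, (x.1 : ℝ) ^ (-(1 / 2) : ℝ) * (ff fp x.2.1 * ff fp x.2.2)

theorem Ts_eq (A : ℕ) (C : Finset ℕ) (SS : Finset (Finset ℕ)) (fp : ℕ → ℝ) (κ : (ZMod q)ˣ) :
    Ts C SS fp κ = TS A C SS fp κ + TL A C SS fp κ := by
  unfold Ts TS TL clsS clsL
  exact (sum_filter_add_sum_filter_not _ _ _).symm

/-- the reduced form of an element of a class -/
theorem cls_red {P : Finset ℕ} (hP : ∀ p ∈ P, p.Prime) {C : Finset ℕ} {SS : Finset (Finset ℕ)}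
    {N : ℕ} (hC : ∀ c ∈ C, 1 ≤ c) (hSS : ∀ S ∈ SS, S ⊆ P ∧ nn S ≤ N) (hN : N < q)
    {κ : (ZMod q)ˣ} {x : ℕ × Finset ℕ × Finset ℕ} (hx : x ∈ cls C SS κ) :
    ∃ j a n : ℕ, 1 ≤ j ∧ 1 ≤ a ∧ 1 ≤ n ∧ x.1 = j * a ∧ nn x.2.2 = j * n ∧ Nat.Coprime a n ∧
      j = Nat.gcd x.1 (nn x.2.2) ∧ a = x.1 / Nat.gcd x.1 (nn x.2.2) ∧
      (κ : ZMod q) * (n : ZMod q) = ((a * nn x.2.1 : ℕ) : ZMod q) := by
  unfold cls at hx
  rw [mem_filter, mem_product, mem_product] at hx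
  obtain ⟨⟨h1, h2, h3⟩, h4⟩ := hx
  have hx1 := hC _ h1
  have hn : 0 < nn x.2.2 := nn_pos fun p hp => hP p ((hSS _ h3).1 hp)
  have hj : 0 < Nat.gcd x.1 (nn x.2.2) := Nat.gcd_pos_of_pos_left _ hx1
  obtain ⟨j, hjd⟩ : ∃ j : ℕ, j = Nat.gcd x.1 (nn x.2.2) := ⟨_, rfl⟩
  rw [← hjd] at hj
  obtain ⟨a, ha⟩ : j ∣ x.1 := by rw [hjd]; exact Nat.gcd_dvd_left _ _
  obtain ⟨n, hn'⟩ : j ∣ nn x.2.2 := by rw [hjd]; exact Nat.gcd_dvd_right _ _
  have hcop : Nat.Coprime a n := by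
    have h5 : Nat.gcd (j * a) (j * n) = j * Nat.gcd a n := Nat.gcd_mul_left j a n
    rw [← ha, ← hn', ← hjd] at h5
    have h6 : j * 1 = j * Nat.gcd a n := by rw [mul_one]; exact h5
    exact (Nat.eq_of_mul_eq_mul_left hj h6).symm
  have ha0 : 0 < a := by
    rcases Nat.eq_zero_or_pos a with h | h
    · rw [h, mul_zero] at ha
      omega
    · exact h
  have hn0 : 0 < n := by
    rcases Nat.eq_zero_or_pos n with h | h
    · rw [h, mul_zero] at hn'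
      omega
    · exact h
  refine ⟨j, a, n, hj, ha0, hn0, ha, hn', hcop, hjd, ?_, ?_⟩
  · rw [← hjd, ha, Nat.mul_div_cancel_left _ hj]
  · have hjN : j < q := by
      have h5 : j ≤ nn x.2.2 := Nat.le_of_dvd hn ⟨n, hn'⟩
      have h6 := (hSS _ h3).2
      omega
    have hjq : (j : ZMod q) ≠ 0 := by
      intro h
      rw [ZMod.natCast_eq_zero_iff] at h
      have := Nat.le_of_dvd hj h
      omega
    rw [hn', ha] at h4
    push_cast at h4
    have h5 : (j : ZMod q) * ((κ : ZMod q) * (n : ZMod q)) =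
        (j : ZMod q) * ((a * nn x.2.1 : ℕ) : ZMod q) := by
      push_cast
      calc (j : ZMod q) * ((κ : ZMod q) * (n : ZMod q)) = (κ : ZMod q) * (j * n) := by ring
        _ = j * a * (nn x.2.1 : ZMod q) := h4
        _ = _ := by ring
    exact mul_left_cancel₀ hjq h5

/-- the small part in a nontrivial class -/
theorem TS_bound {P : Finset ℕ} (hP : ∀ p ∈ P, p.Prime) {fp : ℕ → ℝ}
    (hf : ∀ p ∈ P, 0 ≤ fp p) {β : ℝ} (hβ1 : β ≤ 1 / 2)
    (hfβ : ∀ p ∈ P, fp p ≤ (p : ℝ) ^ (-β)) {C : Finset ℕ} {SS : Finset (Finset ℕ)} {A N : ℕ}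
    (hC : ∀ c ∈ C, 1 ≤ c) (hSS : ∀ S ∈ SS, S ⊆ P ∧ nn S ≤ N) (hA : 1 ≤ A)
    (hq : A * N * N < q) (κ : (ZMod q)ˣ) (hκ : κ ≠ 1) :
    TS A C SS fp κ = 0 ∨ ∃ U V : ℕ, 1 ≤ U ∧ 1 ≤ V ∧ U ≤ A * N ∧ V ≤ N ∧ Nat.Coprime U V ∧
      (κ : ZMod q) * (V : ZMod q) = (U : ZMod q) ∧ ¬ (U = 1 ∧ V = 1) ∧
      (∀ p : ℕ, p.Prime → p ∣ U → p ∈ P ∨ ∃ c ∈ C, p ∣ c) ∧
      (∀ p : ℕ, p.Prime → p ∣ V → p ∈ P) ∧
      TS A C SS fp κ ≤ DD P fp * ((U.divisors.card : ℝ) * ((U : ℝ) ^ (-β) * (V : ℝ) ^ (-β))) := by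
  by_cases hne : (clsS A C SS κ).Nonempty
  swap
  · left
    rw [not_nonempty_iff_eq_empty] at hne
    unfold TS
    rw [hne, sum_empty]
  · right
    obtain ⟨x0, h0⟩ := hne
    have h0' := h0
    unfold clsS at h0'
    rw [mem_filter] at h0'
    obtain ⟨h0c, h0A⟩ := h0'
    have hm0 := h0c
    unfold cls at hm0
    rw [mem_filter, mem_product, mem_product] at hm0
    obtain ⟨⟨hc0, hS0', hS0⟩, he0⟩ := hm0
    have pS0 : ∀ p ∈ x0.2.2, p.Prime := fun p hp => hP p ((hSS _ hS0).1 hp)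
    have pS0' : ∀ p ∈ x0.2.1, p.Prime := fun p hp => hP p ((hSS _ hS0').1 hp)
    have hn0 : 0 < nn x0.2.2 := nn_pos pS0
    have hn0' : 0 < nn x0.2.1 := nn_pos pS0'
    have hN0 := (hSS _ hS0).2
    have hN0' := (hSS _ hS0').2
    have hNpos : 1 ≤ N := le_trans hn0 hN0
    have hNN : N ≤ A * N * N := by
      calc N = 1 * N * 1 := by ring
        _ ≤ A * N * N := Nat.mul_le_mul (Nat.mul_le_mul hA le_rfl) hNpos
    have hNq : N < q := by omega
    obtain ⟨j0, a0, m0, hj0, ha0, hm0', e1, e2, hcop0, e3, e4, e5⟩ :=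
      cls_red hP hC hSS hNq h0c
    rw [← e4] at h0A
    -- the reduced fraction
    obtain ⟨g, hg⟩ : ∃ g : ℕ, g = Nat.gcd (a0 * nn x0.2.1) m0 := ⟨_, rfl⟩
    have hg0 : 0 < g := by
      rw [hg]
      exact Nat.gcd_pos_of_pos_right _ hm0'
    obtain ⟨U, hU⟩ : g ∣ a0 * nn x0.2.1 := by rw [hg]; exact Nat.gcd_dvd_left _ _
    obtain ⟨V, hV⟩ : g ∣ m0 := by rw [hg]; exact Nat.gcd_dvd_right _ _
    have hUV : Nat.Coprime U V := by
      have h1 : Nat.gcd (g * U) (g * V) = g * Nat.gcd U V := Nat.gcd_mul_left g U V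
      rw [← hU, ← hV, ← hg] at h1
      have h2 : g * 1 = g * Nat.gcd U V := by rw [mul_one]; exact h1
      exact (Nat.eq_of_mul_eq_mul_left hg0 h2).symm
    have hcn : 0 < a0 * nn x0.2.1 := Nat.mul_pos (by omega) hn0'
    have hU0 : 0 < U := by
      rcases Nat.eq_zero_or_pos U with h | h
      · rw [h, mul_zero] at hU
        omega
      · exact h
    have hV0 : 0 < V := by
      rcases Nat.eq_zero_or_pos V with h | h
      · rw [h, mul_zero] at hV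
        omega
      · exact h
    have hANle : a0 * nn x0.2.1 ≤ A * N := Nat.mul_le_mul h0A hN0'
    have hm0N : m0 ≤ N := by
      refine le_trans ?_ hN0
      rw [e2]
      exact Nat.le_mul_of_pos_left _ hj0
    have hgN : g ≤ N := (Nat.le_of_dvd hm0' ⟨V, hV⟩).trans hm0N
    have hgq : ((g : ℕ) : ZMod q) ≠ 0 := by
      intro h
      rw [ZMod.natCast_eq_zero_iff] at h
      have := Nat.le_of_dvd hg0 h
      omega
    have hκUV : (κ : ZMod q) * (V : ZMod q) = (U : ZMod q) := by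
      rw [hV, hU] at e5
      push_cast at e5
      have h1 : (g : ZMod q) * ((κ : ZMod q) * (V : ZMod q)) = (g : ZMod q) * (U : ZMod q) := by
        rw [← e5]
        ring
      exact mul_left_cancel₀ hgq h1
    have hsub : clsS A C SS κ ⊆ trip P C U V := by
      intro x hx
      unfold clsS at hx
      rw [mem_filter] at hx
      obtain ⟨hxc, hxA⟩ := hx
      have hm := hxc
      unfold cls at hm
      rw [mem_filter, mem_product, mem_product] at hm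
      obtain ⟨⟨hc, hS', hS⟩, he⟩ := hm
      obtain ⟨j, a, m, hj, ha, hm', f1, f2, hcop, f3, f4, f5⟩ := cls_red hP hC hSS hNq hxc
      rw [← f4] at hxA
      unfold trip
      rw [mem_filter, mem_product, mem_product, mem_powerset, mem_powerset]
      refine ⟨⟨hc, (hSS _ hS').1, (hSS _ hS).1⟩, ?_⟩
      have hmN : m ≤ N := by
        refine le_trans ?_ (hSS _ hS).2
        rw [f2]
        exact Nat.le_mul_of_pos_left _ hj
      have h1 : ((a * nn x.2.1 * m0 : ℕ) : ZMod q) = ((a0 * nn x0.2.1 * m : ℕ) : ZMod q) := by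
        push_cast
        push_cast at f5 e5
        rw [← f5, ← e5]
        ring
      have h2 : a * nn x.2.1 * m0 ≤ A * N * N :=
        Nat.mul_le_mul (Nat.mul_le_mul hxA (hSS _ hS').2) hm0N
      have h3 : a0 * nn x0.2.1 * m ≤ A * N * N := Nat.mul_le_mul hANle hmN
      have h4 : a * nn x.2.1 * m0 = a0 * nn x0.2.1 * m := by
        have h5 := (ZMod.natCast_eq_natCast_iff' _ _ q).1 h1
        rwa [Nat.mod_eq_of_lt (by omega), Nat.mod_eq_of_lt (by omega)] at h5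
      rw [hV, hU] at h4
      have h5 : g * (a * nn x.2.1 * V) = g * (m * U) := by
        calc g * (a * nn x.2.1 * V) = a * nn x.2.1 * (g * V) := by ring
          _ = g * U * m := h4
          _ = _ := by ring
      have h6 := Nat.eq_of_mul_eq_mul_left hg0 h5
      rw [f1, f2]
      calc j * a * nn x.2.1 * V = j * (a * nn x.2.1 * V) := by ring
        _ = j * (m * U) := by rw [h6]
        _ = _ := by ring
    have hUd : U ∣ a0 * nn x0.2.1 := ⟨g, by rw [hU, mul_comm]⟩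
    have hVd : V ∣ m0 := ⟨g, by rw [hV, mul_comm]⟩
    refine ⟨U, V, hU0, hV0, ?_, ?_, hUV, hκUV, ?_, ?_, ?_, ?_⟩
    · exact (Nat.le_of_dvd hcn hUd).trans hANle
    · exact (Nat.le_of_dvd hm0' hVd).trans hm0N
    · rintro ⟨h1, h2⟩
      rw [h1, h2, Nat.cast_one, mul_one] at hκUV
      exact hκ (Units.ext hκUV)
    · intro p hp hpU
      have h1 : p ∣ a0 * nn x0.2.1 := hpU.trans hUd
      rcases (Nat.Prime.dvd_mul hp).1 h1 with h | h
      · refine Or.inr ⟨x0.1, hc0, ?_⟩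
        rw [e1]
        exact Dvd.dvd.mul_left h j0
      · exact Or.inl ((hSS _ hS0').1 ((dvd_nn_iff pS0' hp).1 h))
    · intro p hp hpV
      have h1 : p ∣ nn x0.2.2 := by
        rw [e2]
        exact Dvd.dvd.mul_left (hpV.trans hVd) j0
      exact (hSS _ hS0).1 ((dvd_nn_iff pS0 hp).1 h1)
    · refine le_trans ?_ (trip_sum (C := C) hP hf hβ1 hfβ hU0 hV0 hUV)
      unfold TS
      refine sum_le_sum_of_subset_of_nonneg hsub fun x hx _ => ?_
      unfold trip at hx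
      rw [mem_filter, mem_product, mem_product, mem_powerset, mem_powerset] at hx
      have n1 : ∀ T : Finset ℕ, T ⊆ P → 0 ≤ ff fp T := fun T hT => ff_nonneg fun p hp => hf p (hT hp)
      have a1 := n1 _ hx.1.2.1
      have a2 := n1 _ hx.1.2.2
      positivity

/-- the integers up to `Y` without prime factors in `Q` -/
noncomputable def CQ (Q : Finset ℕ) (Y : ℕ) : Finset ℕ :=
  (Icc 1 Y).filter (fun a => ∀ p ∈ Q, ¬ p ∣ a)

theorem mem_CQ {Q : Finset ℕ} {Y a : ℕ} : a ∈ CQ Q Y ↔ (1 ≤ a ∧ a ≤ Y) ∧ ∀ p ∈ Q, ¬ p ∣ a := by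
  unfold CQ
  rw [mem_filter, mem_Icc]

/-- the diagonal part -/
theorem TS_one {A Y N : ℕ} {P Q : Finset ℕ} (hP : ∀ p ∈ P, p.Prime) (hQ : ∀ p ∈ Q, p.Prime)
    (hPQ : ∀ p ∈ P, p ∉ Q)
    {fp : ℕ → ℝ} (hf : ∀ p ∈ P, 0 ≤ fp p) (hNY : N ≤ Y) (hA : 1 ≤ A) :
    DN N P fp ≤ TS A (CQ Q Y) (SSt P N) fp (1 : (ZMod q)ˣ) := by
  have n1 : ∀ S ∈ SSt P N, 0 ≤ ff fp S := fun S hS =>
    ff_nonneg fun p hp => hf p ((mem_SSt.1 hS).1 hp)
  unfold DN TS
  obtain ⟨F, hF⟩ : ∃ F : (Σ _ : Finset ℕ, Finset ℕ) → ℕ × Finset ℕ × Finset ℕ,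
    F = fun z => (nn (z.1 \ z.2), z.2, z.1) := ⟨_, rfl⟩
  have e1 : ∑ S ∈ SSt P N, ∑ S' ∈ S.powerset, ff fp S * (ff fp S' * ∏ p ∈ S \ S', hp p) =
      ∑ z ∈ (SSt P N).sigma (fun S => S.powerset),
        ((F z).1 : ℝ) ^ (-(1 / 2) : ℝ) * (ff fp (F z).2.1 * ff fp (F z).2.2) := by
    rw [sum_sigma]
    refine sum_congr rfl fun S _ => sum_congr rfl fun S' _ => ?_
    rw [hF, prod_hp]
    simp only
    ring
  have hinj : Set.InjOn F (((SSt P N).sigma (fun S => S.powerset) : Finset _) :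
      Set (Σ _ : Finset ℕ, Finset ℕ)) := by
    intro z _ z' _ h
    rw [hF] at h
    simp only [Prod.mk.injEq] at h
    exact Sigma.ext h.2.2 (heq_of_eq h.2.1)
  rw [e1, ← sum_image (g := F)
    (f := fun x => (x.1 : ℝ) ^ (-(1 / 2) : ℝ) * (ff fp x.2.1 * ff fp x.2.2)) hinj]
  refine sum_le_sum_of_subset_of_nonneg ?_ ?_
  · intro x hx
    rw [mem_image] at hx
    obtain ⟨z, hz, rfl⟩ := hx
    rw [mem_sigma, mem_powerset, mem_SSt] at hz
    obtain ⟨⟨h1, h2⟩, h3⟩ := hz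
    have pS : ∀ p ∈ z.1, p.Prime := fun p hp => hP p (h1 hp)
    have h4 : nn z.1 = nn (z.1 \ z.2) * nn z.2 := (prod_sdiff h3).symm
    have h5 : 0 < nn z.2 := nn_pos fun p hp => pS p (h3 hp)
    have h6 : 0 < nn (z.1 \ z.2) := nn_pos fun p hp => pS p (mem_sdiff.1 hp).1
    have h7 : nn (z.1 \ z.2) ≤ nn z.1 := by
      rw [h4]
      exact Nat.le_mul_of_pos_right _ h5
    have h8 : nn z.2 ≤ nn z.1 := by
      rw [h4]
      exact Nat.le_mul_of_pos_left _ h6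
    rw [hF]
    unfold clsS cls
    rw [mem_filter, mem_filter, mem_product, mem_product, mem_SSt, mem_SSt, mem_CQ]
    refine ⟨⟨⟨⟨⟨h6, by simp only; omega⟩, ?_⟩, ⟨h3.trans h1, by simp only; omega⟩, h1, h2⟩, ?_⟩, ?_⟩
    · intro p hp hd
      have h9 := (dvd_nn_iff (fun p hp => pS p (mem_sdiff.1 hp).1) (hQ p hp)).1 hd
      exact hPQ p (h1 (mem_sdiff.1 h9).1) hp
    · simp only
      rw [Units.val_one, one_mul, h4]
    · simp only
      have h9 : nn (z.1 \ z.2) ∣ nn z.1 := by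
        rw [h4]
        exact dvd_mul_right _ _
      rw [Nat.gcd_eq_left h9, Nat.div_self h6]
      exact hA
  · intro x hx _
    unfold clsS cls at hx
    rw [mem_filter, mem_filter, mem_product, mem_product] at hx
    have a1 := n1 _ hx.1.1.2.1
    have a2 := n1 _ hx.1.1.2.2
    positivity

end

end Pool.Agent.Q237.LV
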