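import Mathlib

/-!
# Eventual inequalities
-/

set_option autoImplicit false

namespace Pool.Agent.Q237.LV

open Finset Filter

theorem evq (C a : ℝ) (ha : 0 < a) : ∀ᶠ q : ℕ in atTop, C ≤ (q : ℝ) ^ a :=
  ((tendsto_rpow_atTop ha).comp tendsto_natCast_atTop_atTop).eventually_ge_atTop C

theorem evL (C : ℝ) : ∀ᶠ q : ℕ in atTop, C ≤ Real.log q :=
  (Real.tendsto_log_atTop.comp tendsto_natCast_atTop_atTop).eventually_ge_atTop C

theorem evLL (C : ℝ) : ∀ᶠ q : ℕ in atTop, C ≤ Real.log (Real.log q) :=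
  (Real.tendsto_log_atTop.comp
    (Real.tendsto_log_atTop.comp tendsto_natCast_atTop_atTop)).eventually_ge_atTop C

theorem evLp (C a : ℝ) (ha : 0 < a) : ∀ᶠ q : ℕ in atTop, C ≤ Real.log q ^ a :=
  ((tendsto_rpow_atTop ha).comp
    (Real.tendsto_log_atTop.comp tendsto_natCast_atTop_atTop)).eventually_ge_atTop C

/-- `log log q` against powers of `log q` -/
theorem evLLp (c a : ℝ) (hc : 0 < c) (ha : 0 < a) :
    ∀ᶠ q : ℕ in atTop, Real.log (Real.log q) ≤ c * Real.log q ^ a := by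
  filter_upwards [evLp (2 / a / c) (a / 2) (by positivity), evL 1] with q h1 h2
  have hL0 : 0 < Real.log q := by linarith
  have h3 := Real.log_le_rpow_div hL0.le (by positivity : 0 < a / 2)
  have h4 : Real.log q ^ a = Real.log q ^ (a / 2) * Real.log q ^ (a / 2) := by
    rw [← Real.rpow_add hL0]
    congr 1
    ring
  have h5 : 0 < Real.log q ^ (a / 2) := Real.rpow_pos_of_pos hL0 _
  rw [h4]
  calc Real.log (Real.log q) ≤ Real.log q ^ (a / 2) / (a / 2) := h3
    _ = (2 / a / c) * c * Real.log q ^ (a / 2) := by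
        field_simp
    _ ≤ Real.log q ^ (a / 2) * c * Real.log q ^ (a / 2) := by gcongr
    _ = _ := by ring

/-- powers of `q` against `log q` -/
theorem evqL (C a : ℝ) (ha : 0 < a) : ∀ᶠ q : ℕ in atTop, C * Real.log q ≤ (q : ℝ) ^ a := by
  filter_upwards [evq (|C| * (2 / a)) (a / 2) (by positivity), eventually_ge_atTop 1] with q h1 h2
  have hq : (1 : ℝ) ≤ q := by exact_mod_cast h2
  have hq0 : (0 : ℝ) < q := by linarith
  have h3 : Real.log q ≤ (q : ℝ) ^ (a / 2) / (a / 2) := Real.log_le_rpow_div hq0.le (by positivity)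
  have hL : 0 ≤ Real.log q := Real.log_nonneg hq
  have h5 : (q : ℝ) ^ a = (q : ℝ) ^ (a / 2) * (q : ℝ) ^ (a / 2) := by
    rw [← Real.rpow_add hq0]
    congr 1
    ring
  have h6 : 0 < (q : ℝ) ^ (a / 2) := Real.rpow_pos_of_pos hq0 _
  rw [h5]
  calc C * Real.log q ≤ |C| * Real.log q := mul_le_mul_of_nonneg_right (le_abs_self C) hL
    _ ≤ |C| * ((q : ℝ) ^ (a / 2) / (a / 2)) := mul_le_mul_of_nonneg_left h3 (abs_nonneg C)
    _ = (|C| * (2 / a)) * (q : ℝ) ^ (a / 2) := by field_simp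
    _ ≤ (q : ℝ) ^ (a / 2) * (q : ℝ) ^ (a / 2) := by gcongr

end Pool.Agent.Q237.LV
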