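import Pool.Agent.Q237.LV.B6
import Pool.Agent.Q237.LV.Ev
import Pool.Agent.Helper112.Arith

/-!
# The parameters of the set of primes
-/

set_option autoImplicit false

namespace Pool.Agent.Q237.LV

open Finset Filter
open scoped Classical

theorem hitB (β : ℝ) (hβ : 0 < β) (hβ1 : β ≤ 1 / 2) : ∀ᶠ q : ℕ in atTop, ∀ [Fact q.Prime],
    ∀ K : Subgroup (ZMod q)ˣ,
      Real.log (Nat.card K) ≤ β / 32 * Real.sqrt (Real.log q * Real.log (Real.log q)) →
      ∃ Q : Finset ℕ, (∀ p ∈ Q, p.Prime) ∧ (Q.card : ℝ) ≤ Real.log q ^ (3 / 4 : ℝ) ∧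
        ∀ κ ∈ K, ∀ U V : ℕ, 1 ≤ U → 1 ≤ V → Nat.Coprime U V → ¬ (U = 1 ∧ V = 1) →
          (∀ p ∈ Q, ¬ p ∣ U) → (∀ p ∈ Q, ¬ p ∣ V) → (κ : ZMod q) * (V : ZMod q) = (U : ZMod q) →
          (U.divisors.card : ℝ) * ((U : ℝ) ^ (-β) * (V : ℝ) ^ (-β)) ≤ 1 / (20 * Nat.card K) := by
  obtain ⟨C, hC0, hC⟩ := Pool.Agent.Helper112.divisor_bound (β / 2) (by positivity)
  filter_upwards [evL 64, evLL 1, evLp (Real.log (20 * C) / (β / 32)) (1 / 2) (by norm_num),
    evLp 2 (1 / 8) (by norm_num), evLLp (1 / 4) 1 (by norm_num) (by norm_num),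
    eventually_ge_atTop 2] with q e1 e2 e3 e4 e5 hq2
  intro _ K hK
  obtain ⟨L, hL⟩ : ∃ L : ℝ, L = Real.log q := ⟨_, rfl⟩
  obtain ⟨ℓ, hℓ⟩ : ∃ ℓ : ℝ, ℓ = Real.log L := ⟨_, rfl⟩
  rw [← hL] at e1 e2 e3 e4 e5 hK ⊢
  rw [← hℓ] at e2 e5 hK
  rw [Real.rpow_one] at e5
  have hL0 : 0 < L := by linarith
  have hℓ0 : 0 < ℓ := by linarith
  have hq0 : (0 : ℝ) < q := by
    have : 0 < q := by omega
    exact_mod_cast this
  obtain ⟨w, hw⟩ : ∃ w : ℝ, w = Real.sqrt (L * ℓ) := ⟨_, rfl⟩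
  obtain ⟨v, hv⟩ : ∃ v : ℝ, v = Real.sqrt (L / ℓ) := ⟨_, rfl⟩
  rw [← hw] at hK
  have hwv : w * v = L := by
    rw [hw, hv, ← Real.sqrt_mul (by positivity)]
    have : L * ℓ * (L / ℓ) = L ^ 2 := by field_simp
    rw [this, Real.sqrt_sq hL0.le]
  have hwv2 : w = ℓ * v := by
    rw [hw, hv]
    have h1 : L * ℓ = ℓ ^ 2 * (L / ℓ) := by field_simp
    rw [h1, Real.sqrt_mul (by positivity), Real.sqrt_sq hℓ0.le]
  have hv2 : 2 ≤ v := by
    rw [hv]
    refine Real.le_sqrt_of_sq_le ?_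
    rw [le_div_iff₀ hℓ0]
    linarith
  have hvL : v ≤ L ^ (1 / 2 : ℝ) := by
    rw [hv, ← Real.sqrt_eq_rpow]
    refine Real.sqrt_le_sqrt ?_
    rw [div_le_iff₀ hℓ0]
    nlinarith only [e2, hL0]
  have hwL : L ^ (1 / 2 : ℝ) ≤ w := by
    rw [hw, ← Real.sqrt_eq_rpow]
    refine Real.sqrt_le_sqrt ?_
    nlinarith only [e2, hL0]
  have hw0 : 0 < w := lt_of_lt_of_le (by positivity) hwL
  have hw8 : 8 ≤ w := by
    refine le_trans ?_ hwL
    rw [← Real.sqrt_eq_rpow]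
    refine Real.le_sqrt_of_sq_le ?_
    linarith
  obtain ⟨X, hX⟩ : ∃ X : ℕ, X = ⌈Real.exp (w / 8)⌉₊ := ⟨_, rfl⟩
  have hX1 : Real.exp (w / 8) ≤ X := by rw [hX]; exact Nat.le_ceil _
  have hX2 : (X : ℝ) ≤ Real.exp (w / 4) := by
    have h1 : (X : ℝ) < Real.exp (w / 8) + 1 := by
      rw [hX]
      exact Nat.ceil_lt_add_one (Real.exp_pos _).le
    have h2 : (2 : ℝ) ≤ Real.exp (w / 8) := by
      have := Real.add_one_le_exp (w / 8)
      linarith
    have h3 : Real.exp (w / 4) = Real.exp (w / 8) * Real.exp (w / 8) := by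
      rw [← Real.exp_add]
      congr 1
      ring
    rw [h3]
    nlinarith only [h1, h2]
  obtain ⟨s, hs⟩ : ∃ s : ℕ, s = ⌊v⌋₊ := ⟨_, rfl⟩
  have hs1 : (s : ℝ) ≤ v := by rw [hs]; exact Nat.floor_le (by linarith)
  have hs2 : v / 2 ≤ s := by
    have : v < s + 1 := by rw [hs]; exact Nat.lt_floor_add_one v
    linarith
  have hs1' : 1 ≤ s := by
    have : (1 : ℝ) ≤ s := by linarith
    exact_mod_cast this
  have hs0 : (0 : ℝ) < s := by linarith
  obtain ⟨Q, hQ1, hQ2, hQ3⟩ := hitting K X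
  have hXs : X ^ (2 * s) < q := by
    have h1 : ((X ^ (2 * s) : ℕ) : ℝ) < q := by
      push_cast
      calc (X : ℝ) ^ (2 * s) ≤ Real.exp (w / 4) ^ (2 * s) := pow_le_pow_left₀ (by positivity) hX2 _
        _ = Real.exp (w * s / 2) := by
            rw [← Real.exp_nat_mul]
            congr 1
            push_cast
            ring
        _ ≤ Real.exp (L / 2) := by
            refine Real.exp_le_exp.2 ?_
            rw [← hwv]
            gcongr
        _ < Real.exp L := Real.exp_lt_exp.2 (by linarith)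
        _ = q := by rw [hL, Real.exp_log hq0]
    exact_mod_cast h1
  have hk1 : 1 ≤ Nat.card K := Nat.card_pos
  have hk0 : (0 : ℝ) < Nat.card K := by exact_mod_cast hk1
  have hkw : (Nat.card K : ℝ) ≤ Real.exp (β / 32 * w) := by
    rw [← Real.exp_log hk0]
    exact Real.exp_le_exp.2 hK
  refine ⟨Q, hQ1, ?_, ?_⟩
  · have h1 := choose_bound hs1' (hQ3 s hXs) hk1
    refine h1.trans ?_
    have h2 : (Nat.card K : ℝ) ^ (1 / (s : ℝ)) ≤ L ^ (1 / 8 : ℝ) := by
      calc (Nat.card K : ℝ) ^ (1 / (s : ℝ)) ≤ Real.exp (β / 32 * w) ^ (1 / (s : ℝ)) :=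
            Real.rpow_le_rpow hk0.le hkw (by positivity)
        _ = Real.exp (β / 32 * w / s) := by
            rw [← Real.exp_mul]
            congr 1
            ring
        _ ≤ Real.exp (ℓ * (1 / 8)) := by
            refine Real.exp_le_exp.2 ?_
            rw [div_le_iff₀ hs0, hwv2]
            calc β / 32 * (ℓ * v) ≤ (1 / 2) / 32 * (ℓ * v) := by gcongr
              _ ≤ ℓ * (1 / 8) * (v / 2) := by
                  have : 0 ≤ ℓ * v := by positivity
                  linarith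
              _ ≤ ℓ * (1 / 8) * s := by gcongr
        _ = L ^ (1 / 8 : ℝ) := by
            rw [Real.rpow_def_of_pos hL0, hℓ]
    calc 2 * (s : ℝ) * (Nat.card K : ℝ) ^ (1 / (s : ℝ)) ≤ 2 * L ^ (1 / 2 : ℝ) * L ^ (1 / 8 : ℝ) := by
          have := hs1.trans hvL
          gcongr
      _ ≤ L ^ (1 / 8 : ℝ) * L ^ (1 / 2 : ℝ) * L ^ (1 / 8 : ℝ) := by gcongr
      _ = L ^ (3 / 4 : ℝ) := by
          rw [← Real.rpow_add hL0, ← Real.rpow_add hL0]
          norm_num
  · intro κ hκ U V hU hV hUV hne hUQ hVQ hκUV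
    have hUVX : X < U * V := by
      by_contra hcon
      push Not at hcon
      obtain ⟨p, hp, hd⟩ := hQ2 U V ⟨hU, hV, hcon, hUV, hne, κ, hκ, hκUV⟩
      rcases hd with hd | hd
      · exact hUQ p hp hd
      · exact hVQ p hp hd
    have hU0 : (1 : ℝ) ≤ U := by exact_mod_cast hU
    have hV0 : (1 : ℝ) ≤ V := by exact_mod_cast hV
    have h1 := hC U hU
    have hXr : Real.exp (w / 8) ≤ (U : ℝ) * V := by
      refine hX1.trans ?_
      exact_mod_cast hUVX.le
    have h2 : (U : ℝ) ^ (β / 2) * ((U : ℝ) ^ (-β) * (V : ℝ) ^ (-β)) ≤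
        ((U : ℝ) * V) ^ (-(β / 2)) := by
      rw [Real.mul_rpow (by linarith) (by linarith), ← mul_assoc, ← Real.rpow_add (by linarith)]
      have h3 : β / 2 + -β = -(β / 2) := by ring
      rw [h3]
      refine mul_le_mul_of_nonneg_left ?_ (by positivity)
      exact Real.rpow_le_rpow_of_exponent_le hV0 (by linarith)
    have h3 : ((U : ℝ) * V) ^ (-(β / 2)) ≤ Real.exp (-(β / 16 * w)) := by
      calc ((U : ℝ) * V) ^ (-(β / 2)) ≤ Real.exp (w / 8) ^ (-(β / 2)) :=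
            Real.rpow_le_rpow_of_nonpos (Real.exp_pos _) hXr (by linarith)
        _ = Real.exp (-(β / 16 * w)) := by
            rw [← Real.exp_mul]
            congr 1
            ring
    have h4 : 20 * C ≤ Real.exp (β / 32 * w) := by
      rw [div_le_iff₀ (by positivity)] at e3
      have h5 : Real.log (20 * C) ≤ β / 32 * w := by
        refine e3.trans ?_
        rw [mul_comm]
        exact mul_le_mul_of_nonneg_left hwL (by positivity)
      rw [← Real.exp_log (by positivity : 0 < 20 * C)]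
      exact Real.exp_le_exp.2 h5
    have h5 : Real.exp (-(β / 16 * w)) =
        (Real.exp (β / 32 * w))⁻¹ * (Real.exp (β / 32 * w))⁻¹ := by
      rw [← Real.exp_neg, ← Real.exp_add]
      congr 1
      ring
    obtain ⟨E, hE⟩ : ∃ E : ℝ, E = Real.exp (β / 32 * w) := ⟨_, rfl⟩
    rw [← hE] at h4 h5 hkw
    have hE0 : 0 < E := by rw [hE]; exact Real.exp_pos _
    calc (U.divisors.card : ℝ) * ((U : ℝ) ^ (-β) * (V : ℝ) ^ (-β))
        ≤ (C * (U : ℝ) ^ (β / 2)) * ((U : ℝ) ^ (-β) * (V : ℝ) ^ (-β)) := by gcongr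
      _ = C * ((U : ℝ) ^ (β / 2) * ((U : ℝ) ^ (-β) * (V : ℝ) ^ (-β))) := by ring
      _ ≤ C * (E⁻¹ * E⁻¹) := by
          rw [← h5]
          exact mul_le_mul_of_nonneg_left (h2.trans h3) hC0.le
      _ ≤ (E / 20) * (E⁻¹ * (Nat.card K : ℝ)⁻¹) := by
          refine mul_le_mul (by linarith) ?_ (by positivity) (by positivity)
          exact mul_le_mul_of_nonneg_left (inv_anti₀ hk0 hkw) (by positivity)
      _ = 1 / (20 * Nat.card K) := by
          field_simp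

end Pool.Agent.Q237.LV
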