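import Pool.Agent.Q237.LV.B8

/-!
# The resonator with the sharp constant: assembly
-/

set_option autoImplicit false

namespace Pool.Agent.Q237.LV

open Finset Filter
open scoped Classical

/-- upper and lower bounds for the sum over the primes, in terms of the block parameters -/
theorem S1_bounds {η C lt S M W A : ℝ} (hη : 0 < η) (hη1 : η ≤ 1 / 20) (hM : 2 / η ≤ M)
    (hA : 1 / η ≤ A) (hW : W = A * M) (hlt : 0 < lt) (hC : C / lt ≤ η) (hC0 : 0 ≤ C)
    (h1 : S ≤ (1 + C / lt) * (1 / (M - 1)) / lt)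
    (h2 : (1 / (M + 1) - 1 / (W + 1) - C / lt * (1 / (M - 1))) / lt ≤ S) :
    S ≤ (1 + η) ^ 2 / (M * lt) ∧ (1 - 4 * η) / (M * lt) ≤ S := by
  have hM0 : 0 < M := lt_of_lt_of_le (by positivity) hM
  have hM2 : 2 ≤ M * η := by rwa [div_le_iff₀ hη] at hM
  have hM40 : 40 ≤ M := by nlinarith
  have hM1 : 0 < M - 1 := by linarith
  have hA0 : 0 < A := lt_of_lt_of_le (by positivity) hA
  have hA1 : 1 ≤ A * η := by rwa [div_le_iff₀ hη] at hA
  have hClt : 0 ≤ C / lt := by positivity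
  have k1 : 1 / (M - 1) ≤ (1 + η) / M := by
    rw [div_le_div_iff₀ hM1 hM0]
    nlinarith
  have k2 : (1 - η) / M ≤ 1 / (M + 1) := by
    rw [div_le_div_iff₀ hM0 (by linarith)]
    nlinarith
  have k3 : 1 / (W + 1) ≤ η / M := by
    rw [hW, div_le_div_iff₀ (by positivity) hM0]
    nlinarith [mul_le_mul_of_nonneg_right hA1 hM0.le]
  constructor
  · refine h1.trans ?_
    have h3 : (1 + η) ^ 2 / (M * lt) = (1 + η) * ((1 + η) / M) / lt := by
      field_simp
    rw [h3]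
    gcongr
  · refine le_trans ?_ h2
    have h3 : (1 - 4 * η) / (M * lt) = ((1 - 4 * η) / M) / lt := by
      field_simp
    rw [h3]
    refine div_le_div_of_nonneg_right ?_ hlt.le
    have h4 : C / lt * (1 / (M - 1)) ≤ η * ((1 + η) / M) := by gcongr
    have h5 : η * ((1 + η) / M) ≤ 2 * η / M := by
      rw [← mul_div_assoc]
      refine div_le_div_of_nonneg_right ?_ hM0.le
      nlinarith
    have h6 : (1 - 4 * η) / M = (1 - η) / M - η / M - 2 * η / M := by ring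
    rw [h6]
    linarith

theorem resB (η κ : ℝ) (hη : 0 < η) (hη1 : η ≤ 1 / 20) (hκ : 0 < κ) :
    ∀ᶠ q : ℕ in atTop, ∀ (N : ℕ) (Q : Finset ℕ), (1 / 4) * Real.log q ≤ Real.log N →
      Real.log N ≤ Real.log q → (Q.card : ℝ) ≤ Real.log q ^ (3 / 4 : ℝ) → 1 ≤ N →
      ∃ (P : Finset ℕ) (fp : ℕ → ℝ), (∀ p ∈ P, p.Prime) ∧ (∀ p ∈ P, p ∉ Q) ∧
        (∀ p ∈ P, 0 ≤ fp p) ∧ (∀ p ∈ P, fp p ≤ (p : ℝ) ^ (-(η / (2 * (1 + η))))) ∧
        DD P fp / 2 ≤ DN N P fp ∧
        (∑ S ∈ SSt P N, ff fp S ^ 2) *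
          Real.exp ((1 - 14 * η) * Real.sqrt (Real.log N / Real.log (Real.log q))) ≤ DD P fp ∧
        ∑ S ∈ SSt P N, ff fp S ^ 2 ≤ (q : ℝ) ^ κ := by
  obtain ⟨C, hC0, hC⟩ := sums_Pw
  obtain ⟨M, hM⟩ : ∃ M : ℕ, M = ⌈2 / η⌉₊ := ⟨_, rfl⟩
  obtain ⟨A, hA⟩ : ∃ A : ℕ, A = ⌈1 / η⌉₊ := ⟨_, rfl⟩
  have hM' : 2 / η ≤ (M : ℝ) := by rw [hM]; exact Nat.le_ceil _
  have hA' : 1 / η ≤ (A : ℝ) := by rw [hA]; exact Nat.le_ceil _
  have hM40 : (40 : ℝ) ≤ M := by
    refine le_trans ?_ hM'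
    rw [le_div_iff₀ hη]
    linarith
  have hA20 : (20 : ℝ) ≤ A := by
    refine le_trans ?_ hA'
    rw [le_div_iff₀ hη]
    linarith
  have hMn : 2 ≤ M := by
    have : (2 : ℝ) ≤ M := by linarith
    exact_mod_cast this
  have hAn : 1 ≤ A := by
    have : (1 : ℝ) ≤ A := by linarith
    exact_mod_cast this
  have hM0 : (0 : ℝ) < M := by linarith
  have hA0 : (0 : ℝ) < A := by linarith
  obtain ⟨B, hB⟩ : ∃ B : ℝ, B = 1 + η := ⟨_, rfl⟩
  have hB0 : 0 < B := by rw [hB]; linarith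
  have hB1 : 1 ≤ B := by rw [hB]; linarith
  -- the eventual inequalities, in terms of `L = log q` and `log L`
  have hev1 : ∀ᶠ q : ℕ in atTop, (A : ℝ) ^ 2 * (2 * Real.log (Real.log q)) ≤
      η ^ 2 * ((1 / 4) * Real.log q) := by
    have h1 : Tendsto (fun q : ℕ => Real.log q) atTop atTop :=
      Real.tendsto_log_atTop.comp tendsto_natCast_atTop_atTop
    have h2 := Real.isLittleO_log_id_atTop.comp_tendsto h1
    have h3 := h2.bound (c := η ^ 2 * (1 / 4) / ((A : ℝ) ^ 2 * 2)) (by positivity)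
    filter_upwards [h3, evL 1, evLL 0] with q h4 h5 h6
    simp only [Function.comp, id] at h4
    rw [Real.norm_eq_abs, Real.norm_eq_abs, abs_of_nonneg h6,
      abs_of_nonneg (by linarith : (0 : ℝ) ≤ Real.log q)] at h4
    calc (A : ℝ) ^ 2 * (2 * Real.log (Real.log q))
        ≤ (A : ℝ) ^ 2 * (2 * (η ^ 2 * (1 / 4) / ((A : ℝ) ^ 2 * 2) * Real.log q)) := by gcongr
      _ = _ := by field_simp
  have hpow : ∀ (a b : ℝ), 0 < a → ∀ᶠ q : ℕ in atTop, b ≤ Real.log q ^ a := fun a b ha =>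
    ((tendsto_rpow_atTop ha).comp
      (Real.tendsto_log_atTop.comp tendsto_natCast_atTop_atTop)).eventually_ge_atTop b
  filter_upwards [hev1, evL 1, evLL 1, evLL (M * Real.log 2 / η), evLL (C * M / (B * η)),
    evLL (1 / κ), hpow (1 / 4) (1 / η) (by norm_num), hpow (η / 2) (2 / η) (by positivity),
    eventually_ge_atTop 3, evLL (M * Real.log 2 / B)]
    with q e1 hL1 hℓ1 e2 e3 e4 e5 e6 hq3 e7
  intro N Q hN1 hN2 hQ hN
  obtain ⟨L, hL⟩ : ∃ L : ℝ, L = Real.log q := ⟨_, rfl⟩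
  obtain ⟨ℓ, hℓ⟩ : ∃ ℓ : ℝ, ℓ = Real.log L := ⟨_, rfl⟩
  obtain ⟨ν, hν⟩ : ∃ ν : ℝ, ν = Real.log N := ⟨_, rfl⟩
  rw [← hL] at e1 hL1 hℓ1 e2 e3 e4 e5 e6 hN1 hN2 hQ e7 ⊢
  rw [← hℓ] at e1 hℓ1 e2 e3 e4 e7 ⊢
  rw [← hν] at hN1 hN2 ⊢
  have hL0 : 0 < L := by linarith
  have hℓ0 : 0 < ℓ := by linarith
  have hν0 : 0 < ν := by linarith
  have hq0 : (0 : ℝ) < q := by
    have : 0 < q := by omega
    exact_mod_cast this
  obtain ⟨t, ht1, ht2, ht3, ht4⟩ := block_t (B := B) (M := M) hB0 (by omega) hL1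
  rw [← hℓ] at ht2 ht3
  obtain ⟨lt, hlt⟩ : ∃ lt : ℝ, lt = Real.log t := ⟨_, rfl⟩
  rw [← hlt] at ht2 ht3
  have hlt0 : 0 < lt := lt_of_lt_of_le (by positivity) ht3
  have ht2' : 2 ≤ t := by
    by_contra hcon
    have : t = 1 := by omega
    rw [this, Nat.cast_one, Real.log_one] at hlt
    linarith
  have hClt : C / lt ≤ η := by
    rw [div_le_iff₀ hlt0]
    have h1 : C ≤ η * (B / M * ℓ) := by
      rw [div_le_iff₀ (by positivity)] at e3
      have h2 : η * (B / M * ℓ) = ℓ * (B * η) / M := by ring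
      rw [h2, le_div_iff₀ hM0]
      exact e3
    exact h1.trans (mul_le_mul_of_nonneg_left ht3 hη.le)
  obtain ⟨y, hy⟩ : ∃ y : ℕ, y = t ^ M := ⟨_, rfl⟩
  obtain ⟨W, hW⟩ : ∃ W : ℕ, W = A * M := ⟨_, rfl⟩
  have hMW : M ≤ W := by rw [hW]; exact Nat.le_mul_of_pos_left M hAn
  obtain ⟨hS1, hS2, hS3⟩ := hC t M W ht2' hMn hMW
  rw [← hlt] at hS1 hS2 hS3
  obtain ⟨g1, g2⟩ := S1_bounds (A := (A : ℝ)) hη hη1 hM' hA' (by rw [hW]; push_cast; ring) hlt0
    hClt hC0 hS1 hS2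
  obtain ⟨ly, hly⟩ : ∃ ly : ℝ, ly = M * lt := ⟨_, rfl⟩
  rw [← hly] at g1 g2 ht2
  have hly0 : 0 < ly := by rw [hly]; positivity
  have hlogy : Real.log ((y : ℕ) : ℝ) = ly := by
    rw [hy, hly, hlt]
    push_cast
    rw [Real.log_pow]
  have hlyB : B * ℓ ≤ ly := by
    rw [hly]
    calc B * ℓ = M * (B / M * ℓ) := by field_simp
      _ ≤ M * lt := by gcongr
  have hly1 : 1 ≤ ly := by
    refine le_trans ?_ hlyB
    nlinarith only [hB1, hℓ1]
  have hlyℓ : ly ≤ (1 + 2 * η) * ℓ := by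
    refine ht2.trans ?_
    rw [div_le_iff₀ hη] at e2
    rw [hB]
    linarith
  have hly2 : ly ≤ 2 * ℓ := by
    refine hlyℓ.trans ?_
    nlinarith only [hη1, hℓ0]
  have hyL : L ^ B ≤ (y : ℝ) := by rw [hy]; exact ht1
  have hy0 : (0 : ℝ) < y := lt_of_lt_of_le (by positivity) hyL
  -- the set of primes
  obtain ⟨P, hPdef⟩ : ∃ P : Finset ℕ, P = Pw (t ^ M) (t ^ W) \ Q := ⟨_, rfl⟩
  have hPmem : ∀ p ∈ P, (y < p ∧ p ≤ t ^ W) ∧ p.Prime := by
    intro p hm
    rw [hPdef, Finset.mem_sdiff, mem_Pw, ← hy] at hm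
    exact hm.1
  have hPr : ∀ p ∈ P, (y : ℝ) ≤ p ∧ ly ≤ Real.log p ∧ Real.log p ≤ W * lt := by
    intro p hm
    obtain ⟨⟨k1, k2⟩, k3⟩ := hPmem p hm
    have k4 : (y : ℝ) ≤ p := by exact_mod_cast k1.le
    have k5 : (0 : ℝ) < p := by exact_mod_cast k3.pos
    refine ⟨k4, ?_, ?_⟩
    · rw [← hlogy]
      exact Real.log_le_log hy0 k4
    · have k6 : (p : ℝ) ≤ (t : ℝ) ^ W := by exact_mod_cast k2
      have k7 := Real.log_le_log k5 k6
      rw [Real.log_pow, ← hlt] at k7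
      exact k7
  obtain ⟨l, hl⟩ : ∃ l : ℝ, l = Real.sqrt ((1 - 6 * η) * ν * ly) := ⟨_, rfl⟩
  have h6η : 0 ≤ 1 - 6 * η := by linarith
  have hl0 : 0 ≤ l := by rw [hl]; exact Real.sqrt_nonneg _
  have hl2 : l ^ 2 = (1 - 6 * η) * ν * ly := by rw [hl, Real.sq_sqrt (by positivity)]
  have hf0 : ∀ p ∈ P, 0 ≤ fl l p := by
    intro p _
    unfold fl
    have := hp_nonneg p
    have := Real.log_natCast_nonneg p
    positivity
  -- the size of the coefficients
  have hllog : l / ly ≤ Real.sqrt L := by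
    refine Real.le_sqrt_of_sq_le ?_
    rw [div_pow, hl2]
    have h1 : (1 - 6 * η) * ν * ly / ly ^ 2 = (1 - 6 * η) * ν / ly := by
      field_simp
    rw [h1, div_le_iff₀ hly0]
    have h2 : (1 - 6 * η) * ν ≤ 1 * L := mul_le_mul (by linarith) hN2 hν0.le (by norm_num)
    nlinarith only [h2, hly1, hL0]
  have hfβ : ∀ p ∈ P, fl l p ≤ (p : ℝ) ^ (-(η / (2 * (1 + η)))) := by
    intro p hm
    obtain ⟨k1, k2, k3⟩ := hPr p hm
    have hp0 : (0 : ℝ) < p := by linarith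
    have hlp0 : 0 < Real.log p := by linarith
    have h1 : l / Real.log p ≤ (p : ℝ) ^ (1 / (2 * B)) := by
      calc l / Real.log p ≤ l / ly := div_le_div_of_nonneg_left hl0 hly0 k2
        _ ≤ Real.sqrt L := hllog
        _ = (L ^ B) ^ (1 / (2 * B)) := by
            rw [Real.sqrt_eq_rpow, ← Real.rpow_mul hL0.le]
            congr 1
            field_simp
        _ ≤ (p : ℝ) ^ (1 / (2 * B)) :=
            Real.rpow_le_rpow (by positivity) (hyL.trans k1) (by positivity)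
    unfold fl
    have h2 : l * hp p / Real.log p = (l / Real.log p) * hp p := by ring
    rw [h2]
    calc (l / Real.log p) * hp p ≤ (p : ℝ) ^ (1 / (2 * B)) * hp p :=
          mul_le_mul_of_nonneg_right h1 (hp_nonneg p)
      _ = (p : ℝ) ^ (-(η / (2 * (1 + η)))) := by
          unfold hp
          rw [← Real.rpow_add hp0]
          congr 1
          rw [hB]
          field_simp
          ring
  have hf1 : ∀ p ∈ P, fl l p ≤ η / 2 := by
    intro p hm
    obtain ⟨k1, k2, k3⟩ := hPr p hm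
    refine (hfβ p hm).trans ?_
    have hβ : 0 < η / (2 * (1 + η)) := by positivity
    calc (p : ℝ) ^ (-(η / (2 * (1 + η)))) ≤ (L ^ B) ^ (-(η / (2 * (1 + η)))) :=
          Real.rpow_le_rpow_of_nonpos (by positivity) (hyL.trans k1) (by linarith)
      _ = (L ^ (η / 2))⁻¹ := by
          rw [← Real.rpow_mul hL0.le, ← Real.rpow_neg hL0.le]
          congr 1
          rw [hB]
          field_simp
      _ ≤ (2 / η)⁻¹ := inv_anti₀ (by positivity) e6
      _ = η / 2 := by rw [inv_div]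
  have hp2 : ∀ p ∈ P, 2 ≤ p := fun p hm => (hPmem p hm).2.two_le
  -- the sums over the primes
  have hSP1 : ∑ p ∈ P, 1 / ((p : ℝ) * Real.log p) ≤ (1 + η) ^ 2 / ly := by
    refine le_trans ?_ g1
    rw [hPdef]
    refine sum_le_sum_of_subset_of_nonneg sdiff_subset fun p hm _ => ?_
    have := Real.log_natCast_nonneg p
    positivity
  have hSP0 : ∑ p ∈ P, 1 / (p : ℝ) ≤ Real.log ((W : ℝ) / M) + C / lt := by
    refine le_trans ?_ hS3
    rw [hPdef]
    exact sum_le_sum_of_subset_of_nonneg sdiff_subset fun p _ _ => by positivity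
  have hWM : (W : ℝ) / M = A := by
    rw [hW]
    push_cast
    field_simp
  rw [hWM] at hSP0
  have hs0A : Real.log (A : ℝ) + C / lt ≤ A := by
    have h1 := Real.log_le_sub_one_of_pos hA0
    linarith
  have hs00 : 0 ≤ Real.log (A : ℝ) + C / lt := by
    have h1 : 0 ≤ Real.log (A : ℝ) := Real.log_natCast_nonneg A
    positivity
  have hAly : (A : ℝ) ^ 2 * ly ≤ η ^ 2 * ν := by
    calc (A : ℝ) ^ 2 * ly ≤ (A : ℝ) ^ 2 * (2 * ℓ) := by gcongr
      _ ≤ η ^ 2 * ((1 / 4) * L) := e1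
      _ ≤ η ^ 2 * ν := by gcongr
  have hSP2 : (1 - 5 * η) / ly ≤ ∑ p ∈ P, 1 / ((p : ℝ) * Real.log p) := by
    have h1 : ∑ p ∈ Pw (t ^ M) (t ^ W), 1 / ((p : ℝ) * Real.log p) ≤
        ∑ p ∈ P, 1 / ((p : ℝ) * Real.log p) + Q.card * (1 / (y * ly)) := by
      have h2 : ∑ p ∈ Pw (t ^ M) (t ^ W), 1 / ((p : ℝ) * Real.log p) =
          ∑ p ∈ P, 1 / ((p : ℝ) * Real.log p) +
          ∑ p ∈ Pw (t ^ M) (t ^ W) ∩ Q, 1 / ((p : ℝ) * Real.log p) := by
        rw [hPdef, ← sum_union (disjoint_sdiff_inter _ _), sdiff_union_inter]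
      rw [h2]
      have h3 : ∑ p ∈ Pw (t ^ M) (t ^ W) ∩ Q, 1 / ((p : ℝ) * Real.log p) ≤
          ∑ p ∈ Pw (t ^ M) (t ^ W) ∩ Q, 1 / ((y : ℝ) * ly) := by
        refine sum_le_sum fun p hm => ?_
        rw [Finset.mem_inter, mem_Pw, ← hy] at hm
        have k1 : (y : ℝ) ≤ p := by exact_mod_cast hm.1.1.1.le
        have k2 : ly ≤ Real.log p := by
          rw [← hlogy]
          exact Real.log_le_log hy0 k1
        refine one_div_le_one_div_of_le (by positivity) ?_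
        exact mul_le_mul k1 k2 hly0.le (by positivity)
      rw [sum_const, nsmul_eq_mul] at h3
      have h4 : ((Pw (t ^ M) (t ^ W) ∩ Q).card : ℝ) ≤ Q.card := by
        exact_mod_cast card_le_card inter_subset_right
      have h5 : ((Pw (t ^ M) (t ^ W) ∩ Q).card : ℝ) * (1 / (y * ly)) ≤
          Q.card * (1 / (y * ly)) := mul_le_mul_of_nonneg_right h4 (by positivity)
      linarith
    have h2 : (Q.card : ℝ) * (1 / (y * ly)) ≤ η / ly := by
      have h3 : (Q.card : ℝ) ≤ η * y := by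
        have h4 : L ^ (3 / 4 : ℝ) ≤ η * L := by
          have h5 : L = L ^ (3 / 4 : ℝ) * L ^ (1 / 4 : ℝ) := by
            rw [← Real.rpow_add hL0]
            norm_num
          rw [div_le_iff₀ hη] at e5
          have h6 : 0 < L ^ (3 / 4 : ℝ) := Real.rpow_pos_of_pos hL0 _
          calc L ^ (3 / 4 : ℝ) = L ^ (3 / 4 : ℝ) * 1 := (mul_one _).symm
            _ ≤ L ^ (3 / 4 : ℝ) * (L ^ (1 / 4 : ℝ) * η) := mul_le_mul_of_nonneg_left e5 h6.le
            _ = η * (L ^ (3 / 4 : ℝ) * L ^ (1 / 4 : ℝ)) := by ring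
            _ = η * L := by rw [← h5]
        have h5 : L ≤ y := by
          refine le_trans ?_ hyL
          calc L = L ^ (1 : ℝ) := (Real.rpow_one L).symm
            _ ≤ L ^ B := Real.rpow_le_rpow_of_exponent_le hL1 hB1
        calc (Q.card : ℝ) ≤ L ^ (3 / 4 : ℝ) := hQ
          _ ≤ η * L := h4
          _ ≤ η * y := by gcongr
      calc (Q.card : ℝ) * (1 / (y * ly)) ≤ (η * y) * (1 / (y * ly)) := by gcongr
        _ = η / ly := by field_simp
    have h3 : (1 - 5 * η) / ly = (1 - 4 * η) / ly - η / ly := by ring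
    rw [h3]
    linarith
  refine ⟨P, fl l, fun p hm => (hPmem p hm).2, ?_, hf0, hfβ, ?_, ?_, ?_⟩
  · intro p hm
    rw [hPdef, Finset.mem_sdiff] at hm
    exact hm.2
  · -- the truncation
    have hα0 : 0 ≤ η / (A * ly) := by positivity
    have hmain := main_ineq (A := (A : ℝ)) hη hη1 hly0 hν0.le (by linarith) hl0 hl2 rfl hs0A hs00
      rfl hAly
    rw [hν] at hmain
    refine DN_ge_sharp (fun p hm => (hPmem p hm).2) hl0 hN hα0 hη.le (by linarith) ?_ hSP1 hSP0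
      hmain
    intro p hm
    obtain ⟨k1, k2, k3⟩ := hPr p hm
    have h1 : (W : ℝ) * lt = A * ly := by
      rw [hW, hly]
      push_cast
      ring
    rw [h1] at k3
    rw [div_mul_eq_mul_div, div_le_iff₀ (by positivity)]
    exact mul_le_mul_of_nonneg_left k3 hη.le
  · -- the gain
    have h1 := DD_ge_sharp (P := P) (fp := fl l) hη (by linarith) hf0 hf1 hp2 N
    refine le_trans (mul_le_mul_of_nonneg_left (Real.exp_le_exp.2 ?_)
      (sum_nonneg fun _ _ => sq_nonneg _)) h1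
    refine gain_ineq hη hη1 hly0 hν0.le hl0 hl2 ?_ hlyℓ
    have h2 : ∀ p ∈ P, fl l p * hp p = l * (1 / ((p : ℝ) * Real.log p)) := by
      intro p hm
      have hpp := (hPmem p hm).2
      have h3 : fl l p * hp p = l * hp p ^ 2 / Real.log p := by
        unfold fl
        ring
      rw [h3, hp_sq hpp.one_lt.le]
      have hp0 : (0 : ℝ) < p := by exact_mod_cast hpp.pos
      have hlp : 0 < Real.log p := Real.log_pos (by exact_mod_cast hpp.one_lt)
      field_simp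
    rw [sum_congr rfl h2, ← mul_sum]
    exact mul_le_mul_of_nonneg_left hSP2 hl0
  · -- the size of the diagonal
    have h1 : ∑ S ∈ SSt P N, ff (fl l) S ^ 2 ≤ ∏ p ∈ P, (1 + fl l p ^ 2) := by
      rw [prod_one_add]
      have h2 : ∑ S ∈ SSt P N, ff (fl l) S ^ 2 = ∑ S ∈ SSt P N, ∏ p ∈ S, fl l p ^ 2 :=
        sum_congr rfl fun S _ => by unfold ff; rw [prod_pow]
      rw [h2]
      unfold SSt
      exact sum_le_sum_of_subset_of_nonneg (filter_subset _ _) fun S _ _ =>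
        prod_nonneg fun p _ => sq_nonneg _
    have h2 : ∏ p ∈ P, (1 + fl l p ^ 2) ≤ Real.exp (∑ p ∈ P, fl l p ^ 2) := by
      rw [Real.exp_sum]
      refine prod_le_prod (fun p _ => by positivity) fun p _ => ?_
      have := Real.add_one_le_exp (fl l p ^ 2)
      linarith
    have h3 : ∑ p ∈ P, fl l p ^ 2 ≤ κ * L := by
      have h4 : ∀ p ∈ P, fl l p ^ 2 ≤ l ^ 2 / ly * (1 / ((p : ℝ) * Real.log p)) := by
        intro p hm
        obtain ⟨k1, k2, k3⟩ := hPr p hm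
        have hpp := (hPmem p hm).2
        have hp0 : (0 : ℝ) < p := by exact_mod_cast hpp.pos
        have hlp : 0 < Real.log p := by linarith
        have h5 : fl l p ^ 2 = l ^ 2 * hp p ^ 2 / Real.log p ^ 2 := by
          unfold fl
          ring
        rw [h5, hp_sq hpp.one_lt.le]
        have h6 : l ^ 2 * (1 / (p : ℝ)) / Real.log p ^ 2 =
            l ^ 2 / Real.log p * (1 / ((p : ℝ) * Real.log p)) := by
          field_simp
        rw [h6]
        gcongr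
      refine (sum_le_sum h4).trans ?_
      rw [← mul_sum]
      have h5 : l ^ 2 / ly = (1 - 6 * η) * ν := by
        rw [hl2]
        field_simp
      rw [h5]
      have h6 : (1 - 6 * η) * (1 + η) ^ 2 ≤ 1 := by
        have h7 : (1 - 6 * η) * (1 + η) ^ 2 = 1 - (4 * η + 11 * η ^ 2 + 6 * η ^ 3) := by ring
        have h8 : 0 ≤ 4 * η + 11 * η ^ 2 + 6 * η ^ 3 := by positivity
        linarith only [h7, h8]
      calc (1 - 6 * η) * ν * ∑ p ∈ P, 1 / ((p : ℝ) * Real.log p)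
          ≤ (1 - 6 * η) * ν * ((1 + η) ^ 2 / ly) := by gcongr
        _ = ((1 - 6 * η) * (1 + η) ^ 2) * (ν / ly) := by ring
        _ ≤ 1 * (ν / ly) := by gcongr
        _ = ν / ly := one_mul _
        _ ≤ κ * L := by
            rw [div_le_iff₀ hly0]
            rw [div_le_iff₀ hκ] at e4
            have h8 : ℓ ≤ ly := by nlinarith only [hB1, hlyB, hℓ0]
            have h7 : 1 ≤ κ * ly := by nlinarith only [h8, e4, hκ]
            nlinarith only [h7, hN2, hL0]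
    refine h1.trans (h2.trans ?_)
    rw [Real.rpow_def_of_pos hq0, ← hL]
    refine Real.exp_le_exp.2 ?_
    linarith

end Pool.Agent.Q237.LV
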