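import Pool.Agent.Q237.LV.B5
import Pool.Agent.Q237.LV.B9
import Pool.Agent.Q237.LV.B10

/-!
# Large central values in all the cosets
-/

set_option autoImplicit false

namespace Pool.Agent.Q237.LV

open Finset Filter
open scoped Classical

/-- the parameters that are powers of `q` -/
theorem parB (δ : ℝ) (hδ : 0 < δ) (hδ1 : δ ≤ 1 / 20) : ∀ᶠ q : ℕ in atTop, ∀ [Fact q.Prime],
    ∃ N A τ : ℕ, 1 ≤ N ∧ 1 ≤ A ∧ 1 ≤ τ ∧ N ≤ ⌊(q : ℝ) ^ (1 + δ)⌋₊ ∧ A * N * N < q ∧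
      (∀ w : ℕ, 1 ≤ w → w ≤ 2 * ⌊(q : ℝ) ^ (1 + δ)⌋₊ * N → w.divisors.card ≤ τ) ∧
      (1 / 2 - 2 * δ) * Real.log q ≤ Real.log N ∧ Real.log N ≤ Real.log q ∧
      (∀ k E : ℝ, 0 ≤ k → 0 ≤ E → k ≤ (q : ℝ) ^ (δ / 16) → E ≤ (q : ℝ) ^ (δ / 16) →
        k * (E * (((Nat.log 2 ⌊(q : ℝ) ^ (1 + δ)⌋₊ + 1 : ℕ) : ℝ) *
          ((τ : ℝ) * (3 * N * Real.sqrt ⌊(q : ℝ) ^ (1 + δ)⌋₊ / q + hp A)))) ≤ 1 / 20) ∧
      (∀ h k : ℝ, 0 < k → k ≤ (q : ℝ) ^ (δ / 16) → (q : ℝ) / 2 ≤ h * k →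
        40 * Real.sqrt ⌊(q : ℝ) ^ (1 + δ)⌋₊ * N ≤ h) := by
  obtain ⟨C, hC0, hC⟩ := Pool.Agent.Helper112.divisor_bound (δ / 48) (by positivity)
  filter_upwards [eventually_ge_atTop 3, evq 4 δ hδ, evq 1 (δ / 16) (by positivity),
    evqL 8 (δ / 16) (by positivity), evq (160 * (C + 1)) (δ / 4) (by positivity),
    evq 80 (7 * δ / 16) (by positivity), evq 4 (1 / 4) (by norm_num)]
    with q h3 e1 e2 e3 e4 e5 e6
  intro _
  have hq3 : (3 : ℝ) ≤ q := by exact_mod_cast h3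
  have hq1 : (1 : ℝ) ≤ q := by linarith
  have hq0 : (0 : ℝ) < q := by linarith
  have hL1 : 1 ≤ Real.log q := by
    have h1 := Real.exp_one_lt_d9
    have h2 := Real.log_le_log (Real.exp_pos 1) (by linarith : Real.exp 1 ≤ q)
    rwa [Real.log_exp] at h2
  have hmono : ∀ a b : ℝ, a ≤ b → (q : ℝ) ^ a ≤ (q : ℝ) ^ b := fun a b h =>
    Real.rpow_le_rpow_of_exponent_le hq1 h
  have hpos : ∀ a : ℝ, 0 < (q : ℝ) ^ a := fun a => Real.rpow_pos_of_pos hq0 a
  have hmul : ∀ a b : ℝ, (q : ℝ) ^ a * (q : ℝ) ^ b = (q : ℝ) ^ (a + b) := fun a b =>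
    (Real.rpow_add hq0 a b).symm
  obtain ⟨N, hN⟩ : ∃ N : ℕ, N = ⌊(q : ℝ) ^ (1 / 2 - δ)⌋₊ := ⟨_, rfl⟩
  obtain ⟨A, hA⟩ : ∃ A : ℕ, A = ⌈(q : ℝ) ^ δ⌉₊ := ⟨_, rfl⟩
  obtain ⟨Y, hY⟩ : ∃ Y : ℕ, Y = ⌊(q : ℝ) ^ (1 + δ)⌋₊ := ⟨_, rfl⟩
  obtain ⟨τ, hτ⟩ : ∃ τ : ℕ, τ = ⌈C * (q : ℝ) ^ (δ / 16)⌉₊ := ⟨_, rfl⟩
  rw [← hY]
  have hN1 : (N : ℝ) ≤ (q : ℝ) ^ (1 / 2 - δ) := by rw [hN]; exact Nat.floor_le (hpos _).le
  have hN2 : (q : ℝ) ^ (1 / 2 - δ) / 2 ≤ N := by
    have h1 : (q : ℝ) ^ (1 / 2 - δ) < N + 1 := by rw [hN]; exact Nat.lt_floor_add_one _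
    have h2 : (2 : ℝ) ≤ (q : ℝ) ^ (1 / 2 - δ) := by
      have := hmono (1 / 4) (1 / 2 - δ) (by linarith)
      linarith
    linarith
  have hN0 : (1 : ℝ) ≤ N := by
    have := hmono (1 / 4) (1 / 2 - δ) (by linarith)
    linarith
  have hN0' : 1 ≤ N := by exact_mod_cast hN0
  have hA1 : (q : ℝ) ^ δ ≤ A := by rw [hA]; exact Nat.le_ceil _
  have hA2 : (A : ℝ) ≤ 2 * (q : ℝ) ^ δ := by
    have h1 : (A : ℝ) < (q : ℝ) ^ δ + 1 := by rw [hA]; exact Nat.ceil_lt_add_one (hpos _).le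
    linarith
  have hA0 : 1 ≤ A := by
    have : (1 : ℝ) ≤ A := by linarith
    exact_mod_cast this
  have hY1 : (Y : ℝ) ≤ (q : ℝ) ^ (1 + δ) := by rw [hY]; exact Nat.floor_le (hpos _).le
  have hτ1 : C * (q : ℝ) ^ (δ / 16) ≤ τ := by rw [hτ]; exact Nat.le_ceil _
  have hτ2 : (τ : ℝ) ≤ (C + 1) * (q : ℝ) ^ (δ / 16) := by
    have h1 : (τ : ℝ) < C * (q : ℝ) ^ (δ / 16) + 1 := by
      rw [hτ]
      exact Nat.ceil_lt_add_one (by have := hpos (δ / 16); positivity)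
    linarith
  have hτ0 : 1 ≤ τ := by
    have : (0 : ℝ) < τ := lt_of_lt_of_le (by have := hpos (δ / 16); positivity) hτ1
    exact_mod_cast this
  have hsY : Real.sqrt Y ≤ (q : ℝ) ^ ((1 + δ) / 2) := by
    calc Real.sqrt Y ≤ Real.sqrt ((q : ℝ) ^ (1 + δ)) := Real.sqrt_le_sqrt hY1
      _ = (q : ℝ) ^ ((1 + δ) / 2) := by
          rw [Real.sqrt_eq_rpow, ← Real.rpow_mul hq0.le]
          congr 1
          ring
  refine ⟨N, A, τ, hN0', hA0, hτ0, ?_, ?_, ?_, ?_, ?_, ?_, ?_⟩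
  · rw [hY]
    refine Nat.le_floor (hN1.trans (hmono _ _ (by linarith)))
  · have h1 : ((A * N * N : ℕ) : ℝ) < q := by
      push_cast
      calc (A : ℝ) * N * N ≤ (2 * (q : ℝ) ^ δ) * (q : ℝ) ^ (1 / 2 - δ) * (q : ℝ) ^ (1 / 2 - δ) := by
            gcongr
        _ = 2 * ((q : ℝ) ^ δ * (q : ℝ) ^ (1 / 2 - δ) * (q : ℝ) ^ (1 / 2 - δ)) := by ring
        _ = 2 * (q : ℝ) ^ (1 - δ) := by
            rw [hmul, hmul]
            congr 2
            ring
        _ < (q : ℝ) ^ δ * (q : ℝ) ^ (1 - δ) := by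
            refine mul_lt_mul_of_pos_right (by linarith) (hpos _)
        _ = q := by
            rw [hmul]
            have : δ + (1 - δ) = 1 := by ring
            rw [this, Real.rpow_one]
    exact_mod_cast h1
  · intro w hw1 hw2
    have h1 := hC w hw1
    have h2 : (w : ℝ) ≤ (q : ℝ) ^ (3 : ℝ) := by
      have h3 : (w : ℝ) ≤ 2 * Y * N := by exact_mod_cast hw2
      calc (w : ℝ) ≤ 2 * Y * N := h3
        _ ≤ (q : ℝ) ^ (1 : ℝ) * (q : ℝ) ^ (1 + δ) * (q : ℝ) ^ (1 / 2 - δ) := by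
            rw [Real.rpow_one]
            have : (2 : ℝ) ≤ q := by linarith
            gcongr
        _ = (q : ℝ) ^ (1 + (1 + δ) + (1 / 2 - δ)) := by rw [hmul, hmul]
        _ ≤ (q : ℝ) ^ (3 : ℝ) := hmono _ _ (by linarith)
    have h3 : (w.divisors.card : ℝ) ≤ τ := by
      refine h1.trans (le_trans ?_ hτ1)
      refine mul_le_mul_of_nonneg_left ?_ hC0.le
      calc (w : ℝ) ^ (δ / 48) ≤ ((q : ℝ) ^ (3 : ℝ)) ^ (δ / 48) :=
            Real.rpow_le_rpow (by positivity) h2 (by positivity)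
        _ = (q : ℝ) ^ (δ / 16) := by
            rw [← Real.rpow_mul hq0.le]
            congr 1
            ring
    exact_mod_cast h3
  · have h1 : Real.log ((q : ℝ) ^ (1 / 2 - δ) / 2) ≤ Real.log N :=
      Real.log_le_log (by have := hpos (1 / 2 - δ); positivity) hN2
    rw [Real.log_div (hpos _).ne' (by norm_num), Real.log_rpow hq0] at h1
    have h2 : Real.log 2 ≤ δ * Real.log q := by
      have h3 := Real.log_le_log (by norm_num) e1
      rw [Real.log_rpow hq0] at h3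
      have h4 : Real.log 2 ≤ Real.log 4 := Real.log_le_log (by norm_num) (by norm_num)
      linarith
    linarith
  · refine Real.log_le_log (by linarith) (hN1.trans ?_)
    calc (q : ℝ) ^ (1 / 2 - δ) ≤ (q : ℝ) ^ (1 : ℝ) := hmono _ _ (by linarith)
      _ = q := Real.rpow_one _
  · intro k E hk0 hE0 hk hE
    have h1 : ((Nat.log 2 Y + 1 : ℕ) : ℝ) ≤ (q : ℝ) ^ (δ / 16) := by
      refine le_trans ?_ e3
      have h2 : ((Nat.log 2 Y : ℕ) : ℝ) * Real.log 2 ≤ 2 * Real.log q := by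
        rcases Nat.eq_zero_or_pos Y with h | h
        · rw [h, Nat.log_zero_right]
          push_cast
          rw [zero_mul]
          linarith
        · have h4 : ((2 : ℝ) ^ (Nat.log 2 Y)) ≤ Y := by
            exact_mod_cast Nat.pow_log_le_self 2 (by omega)
          have h5 := Real.log_le_log (by positivity) (h4.trans hY1)
          rw [Real.log_pow, Real.log_rpow hq0] at h5
          refine h5.trans ?_
          exact mul_le_mul_of_nonneg_right (by linarith) (by linarith)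
      have h3 := Real.log_two_gt_d9
      have h4 : (0 : ℝ) ≤ (Nat.log 2 Y : ℕ) := by positivity
      have h5 : ((Nat.log 2 Y : ℕ) : ℝ) * (1 / 2) ≤ 2 * Real.log q := by
        refine le_trans (mul_le_mul_of_nonneg_left (by linarith) h4) h2
      push_cast
      linarith
    have h2 : 3 * (N : ℝ) * Real.sqrt Y / q + hp A ≤ 4 * (q : ℝ) ^ (-(δ / 2)) := by
      have h3 : 3 * (N : ℝ) * Real.sqrt Y / q ≤ 3 * (q : ℝ) ^ (-(δ / 2)) := by
        rw [div_le_iff₀ hq0]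
        calc 3 * (N : ℝ) * Real.sqrt Y ≤ 3 * (q : ℝ) ^ (1 / 2 - δ) * (q : ℝ) ^ ((1 + δ) / 2) := by
              gcongr
          _ = 3 * (q : ℝ) ^ (1 / 2 - δ + (1 + δ) / 2) := by rw [mul_assoc, hmul]
          _ = 3 * (q : ℝ) ^ (-(δ / 2) + 1) := by
              congr 2
              ring
          _ = 3 * (q : ℝ) ^ (-(δ / 2)) * q := by
              rw [← hmul, Real.rpow_one]
              ring
      have h4 : hp A ≤ (q : ℝ) ^ (-(δ / 2)) := by
        unfold hp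
        calc (A : ℝ) ^ (-(1 / 2) : ℝ) ≤ ((q : ℝ) ^ δ) ^ (-(1 / 2) : ℝ) :=
              Real.rpow_le_rpow_of_nonpos (hpos _) hA1 (by norm_num)
          _ = (q : ℝ) ^ (-(δ / 2)) := by
              rw [← Real.rpow_mul hq0.le]
              congr 1
              ring
      linarith
    have h3 : 0 ≤ 3 * (N : ℝ) * Real.sqrt Y / q + hp A := by
      have := hp_nonneg A
      positivity
    have p1 := hpos (δ / 16)
    have p2 := hpos (-(δ / 2))
    calc k * (E * (((Nat.log 2 Y + 1 : ℕ) : ℝ) *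
          ((τ : ℝ) * (3 * N * Real.sqrt Y / q + hp A))))
        ≤ (q : ℝ) ^ (δ / 16) * ((q : ℝ) ^ (δ / 16) * ((q : ℝ) ^ (δ / 16) *
          (((C + 1) * (q : ℝ) ^ (δ / 16)) * (4 * (q : ℝ) ^ (-(δ / 2)))))) := by gcongr
      _ = 4 * (C + 1) * ((q : ℝ) ^ (δ / 16) * (q : ℝ) ^ (δ / 16) * (q : ℝ) ^ (δ / 16) *
          (q : ℝ) ^ (δ / 16) * (q : ℝ) ^ (-(δ / 2))) := by ring
      _ = 4 * (C + 1) * (q : ℝ) ^ (-(δ / 4)) := by
          rw [hmul, hmul, hmul, hmul]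
          congr 2
          ring
      _ ≤ 1 / 40 * (q : ℝ) ^ (δ / 4) * (q : ℝ) ^ (-(δ / 4)) := by
          refine mul_le_mul_of_nonneg_right ?_ (hpos _).le
          linarith
      _ = 1 / 40 := by
          rw [mul_assoc, hmul]
          have : δ / 4 + -(δ / 4) = 0 := by ring
          rw [this, Real.rpow_zero, mul_one]
      _ ≤ 1 / 20 := by norm_num
  · intro h k hk0 hk hhk
    have h1 : 40 * Real.sqrt Y * N * k ≤ q / 2 := by
      calc 40 * Real.sqrt Y * N * k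
          ≤ 40 * (q : ℝ) ^ ((1 + δ) / 2) * (q : ℝ) ^ (1 / 2 - δ) * (q : ℝ) ^ (δ / 16) := by gcongr
        _ = 40 * ((q : ℝ) ^ ((1 + δ) / 2) * (q : ℝ) ^ (1 / 2 - δ) * (q : ℝ) ^ (δ / 16)) := by ring
        _ = 40 * (q : ℝ) ^ (1 - 7 * δ / 16) := by
            rw [hmul, hmul]
            congr 2
            ring
        _ ≤ 1 / 2 * (q : ℝ) ^ (7 * δ / 16) * (q : ℝ) ^ (1 - 7 * δ / 16) := by
            refine mul_le_mul_of_nonneg_right ?_ (hpos _).le
            linarith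
        _ = q / 2 := by
            rw [mul_assoc, hmul]
            have : 7 * δ / 16 + (1 - 7 * δ / 16) = 1 := by ring
            rw [this, Real.rpow_one]
            ring
    have h2 : 40 * Real.sqrt Y * N * k ≤ h * k := h1.trans hhk
    exact le_of_mul_le_mul_right h2 hk0

/-- the error term of the truncation -/
theorem errB (δ : ℝ) (hδ : 0 < δ) : ∀ᶠ q : ℕ in atTop, ∀ r : ℕ,
    (r : ℝ) ≤ Real.log q ^ (3 / 4 : ℝ) →
      2 ^ r * (24 * Real.sqrt q * (1 + Real.log q) / Real.sqrt ((q : ℝ) ^ (1 + δ))) ≤ 1 := by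
  filter_upwards [evLp (4 / δ) (1 / 4) (by norm_num), evqL 48 (δ / 4) (by positivity), evL 1,
    eventually_ge_atTop 2] with q e1 e2 e3 hq2 r hr
  have hq0 : (0 : ℝ) < q := by
    have : 0 < q := by omega
    exact_mod_cast this
  have hL0 : 0 < Real.log q := by linarith
  have h1 : (r : ℝ) ≤ δ / 4 * Real.log q := by
    have h2 : Real.log q = Real.log q ^ (3 / 4 : ℝ) * Real.log q ^ (1 / 4 : ℝ) := by
      rw [← Real.rpow_add hL0]
      norm_num
    have h3 : 0 < Real.log q ^ (3 / 4 : ℝ) := Real.rpow_pos_of_pos hL0 _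
    refine hr.trans ?_
    rw [div_le_iff₀ hδ] at e1
    calc Real.log q ^ (3 / 4 : ℝ) = 1 / 4 * Real.log q ^ (3 / 4 : ℝ) * 4 := by ring
      _ ≤ 1 / 4 * Real.log q ^ (3 / 4 : ℝ) * (Real.log q ^ (1 / 4 : ℝ) * δ) := by gcongr
      _ = δ / 4 * (Real.log q ^ (3 / 4 : ℝ) * Real.log q ^ (1 / 4 : ℝ)) := by ring
      _ = δ / 4 * Real.log q := by rw [← h2]
  have h2 : (2 : ℝ) ^ r ≤ (q : ℝ) ^ (δ / 4) := by
    have h3 : (2 : ℝ) ^ r ≤ Real.exp 1 ^ r :=
      pow_le_pow_left₀ (by norm_num) (by have := Real.exp_one_gt_d9; linarith) r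
    refine h3.trans ?_
    rw [← Real.exp_nat_mul, Real.rpow_def_of_pos hq0]
    refine Real.exp_le_exp.2 ?_
    linarith
  have h3 : Real.sqrt ((q : ℝ) ^ (1 + δ)) = Real.sqrt q * ((q : ℝ) ^ (δ / 4) * (q : ℝ) ^ (δ / 4)) := by
    rw [Real.sqrt_eq_rpow, Real.sqrt_eq_rpow, ← Real.rpow_mul hq0.le, ← Real.rpow_add hq0,
      ← Real.rpow_add hq0]
    congr 1
    ring
  have h4 : 0 < (q : ℝ) ^ (δ / 4) := Real.rpow_pos_of_pos hq0 _
  have h5 : 0 < Real.sqrt q := Real.sqrt_pos.2 hq0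
  rw [h3, ← mul_div_assoc, div_le_one (by positivity)]
  have h6 : 24 * (1 + Real.log q) ≤ (q : ℝ) ^ (δ / 4) := by linarith
  calc 2 ^ r * (24 * Real.sqrt q * (1 + Real.log q))
      = Real.sqrt q * (2 ^ r * (24 * (1 + Real.log q))) := by ring
    _ ≤ Real.sqrt q * ((q : ℝ) ^ (δ / 4) * (q : ℝ) ^ (δ / 4)) := by gcongr

/-- the comparison of the exponents -/
theorem expB (c : ℝ) (hc : 0 < c) : ∀ᶠ q : ℕ in atTop, ∀ r : ℕ,
    (r : ℝ) ≤ Real.log q ^ (3 / 4 : ℝ) →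
      Real.log 8 + 2 * Real.sqrt r ≤ c * Real.sqrt (Real.log q / Real.log (Real.log q)) := by
  filter_upwards [evLp ((Real.log 8 + 2) / c) (1 / 16) (by norm_num),
    evLLp 1 (1 / 8) (by norm_num) (by norm_num), evL 1, evLL 1] with q e1 e2 e3 e4 r hr
  have hL0 : 0 < Real.log q := by linarith
  obtain ⟨L, hL⟩ : ∃ L : ℝ, L = Real.log q := ⟨_, rfl⟩
  rw [← hL] at e1 e2 e3 e4 hr hL0 ⊢
  have h1 : Real.sqrt r ≤ L ^ (3 / 8 : ℝ) := by
    calc Real.sqrt r ≤ Real.sqrt (L ^ (3 / 4 : ℝ)) := Real.sqrt_le_sqrt hr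
      _ = L ^ (3 / 8 : ℝ) := by
          rw [Real.sqrt_eq_rpow, ← Real.rpow_mul hL0.le]
          norm_num
  have h2 : L ^ (7 / 16 : ℝ) ≤ Real.sqrt (L / Real.log L) := by
    refine Real.le_sqrt_of_sq_le ?_
    rw [le_div_iff₀ (by linarith)]
    calc (L ^ (7 / 16 : ℝ)) ^ 2 * Real.log L ≤ (L ^ (7 / 16 : ℝ)) ^ 2 * (1 * L ^ (1 / 8 : ℝ)) := by
          gcongr
      _ = L := by
          rw [one_mul, ← Real.rpow_natCast, ← Real.rpow_mul hL0.le, ← Real.rpow_add hL0]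
          norm_num
  have h3 : (1 : ℝ) ≤ L ^ (3 / 8 : ℝ) := Real.one_le_rpow e3 (by norm_num)
  have h8 : 0 ≤ Real.log 8 := Real.log_nonneg (by norm_num)
  rw [div_le_iff₀ hc] at e1
  calc Real.log 8 + 2 * Real.sqrt r ≤ Real.log 8 * L ^ (3 / 8 : ℝ) + 2 * L ^ (3 / 8 : ℝ) := by
        refine add_le_add (le_mul_of_one_le_right h8 h3) (by linarith)
    _ = (Real.log 8 + 2) * L ^ (3 / 8 : ℝ) := by ring
    _ ≤ (L ^ (1 / 16 : ℝ) * c) * L ^ (3 / 8 : ℝ) := by gcongr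
    _ = c * (L ^ (1 / 16 : ℝ) * L ^ (3 / 8 : ℝ)) := by ring
    _ = c * L ^ (7 / 16 : ℝ) := by
        rw [← Real.rpow_add hL0]
        norm_num
    _ ≤ _ := mul_le_mul_of_nonneg_left h2 hc.le

theorem mainB (η : ℝ) (hη : 0 < η) (hη1 : η ≤ 1 / 40) : ∃ c : ℝ, 0 < c ∧
    ∀ᶠ q : ℕ in atTop, ∀ [Fact q.Prime], ∀ H : Subgroup (DirichletCharacter ℂ q),
      Real.log (kf H).card ≤ c * Real.sqrt (Real.log q * Real.log (Real.log q)) →
      ∀ χ : DirichletCharacter ℂ q, ∃ ψ ∈ hf H, χ * ψ ≠ 1 ∧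
        Real.exp ((1 / Real.sqrt 2 - 26 * η) *
          Real.sqrt (Real.log q / Real.log (Real.log q))) ≤ ‖(χ * ψ).LFunction (1 / 2)‖ := by
  obtain ⟨β, hβ⟩ : ∃ β : ℝ, β = η / (2 * (1 + η)) := ⟨_, rfl⟩
  have hβ0 : 0 < β := by rw [hβ]; positivity
  have hβ1 : β ≤ 1 / 2 := by
    rw [hβ, div_le_iff₀ (by positivity)]
    linarith
  refine ⟨β / 32, by positivity, ?_⟩
  filter_upwards [hitB β hβ0 hβ1, resB η (η / 16) hη (by linarith) (by positivity),
    parB η hη (by linarith),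
    errB η hη, expB (13 * η) (by positivity), evL 1, evLL 1,
    evLLp ((η / 16) ^ 2 / (β / 32) ^ 2) 1 (by positivity) (by norm_num), eventually_ge_atTop 3]
    with q h1 h2 h3 h4 h5 e1 e2 e3 hq3
  intro _ H hH χ
  have hq3' : (3 : ℝ) ≤ q := by exact_mod_cast hq3
  have hq0 : (0 : ℝ) < q := by linarith
  have hL0 : 0 < Real.log q := by linarith
  have hℓ0 : 0 < Real.log (Real.log q) := by linarith
  rw [Real.rpow_one] at e3
  have hkc : (kf H).card = Nat.card (ann H) := kf_card H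
  have hH' := hH
  rw [hkc] at hH'
  obtain ⟨Q, hQ1, hQ2, hQ3⟩ := h1 (ann H) hH'
  obtain ⟨N, A, τ, hN, hA, hτ, hNY, hANN, hdiv, hlN1, hlN2, hlarge, hprin⟩ := h3
  have hlN1' : (1 / 4) * Real.log q ≤ Real.log N := by
    refine le_trans ?_ hlN1
    exact mul_le_mul_of_nonneg_right (by linarith) hL0.le
  obtain ⟨P, fp, hP, hPQ, hf0, hfβ, hDN, hG, hE⟩ := h2 N Q hlN1' hlN2 hQ2 hN
  rw [← hβ] at hfβ
  have hk0 : (0 : ℝ) < (kf H).card := by
    have : 0 < (kf H).card := card_pos.2 ⟨1, one_mem_kf H⟩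
    exact_mod_cast this
  have hkq : ((kf H).card : ℝ) ≤ (q : ℝ) ^ (η / 16) := by
    rw [← Real.exp_log hk0, Real.rpow_def_of_pos hq0]
    refine Real.exp_le_exp.2 (hH.trans ?_)
    have h6 : β / 32 * Real.sqrt (Real.log q * Real.log (Real.log q)) ≤ η / 16 * Real.log q := by
      refine abs_le_of_sq_le_sq' ?_ (by positivity) |>.2
      rw [mul_pow, Real.sq_sqrt (by positivity)]
      rw [div_mul_eq_mul_div, le_div_iff₀ (by positivity)] at e3
      calc (β / 32) ^ 2 * (Real.log q * Real.log (Real.log q))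
          = Real.log q * (Real.log (Real.log q) * (β / 32) ^ 2) := by ring
        _ ≤ Real.log q * ((η / 16) ^ 2 * Real.log q) := by gcongr
        _ = _ := by ring
    linarith
  have hE0 : 0 ≤ ∑ S ∈ SSt P N, ff fp S ^ 2 := sum_nonneg fun _ _ => sq_nonneg _
  have hl := hlarge _ _ hk0.le hE0 hkq hE
  have hφ : (q : ℝ) / 2 ≤ ((hf H).card : ℝ) * (kf H).card := by
    have h6 : (((hf H).card * (kf H).card : ℕ) : ℝ) = (q.totient : ℝ) := by
      rw [card_mul_card H]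
    push_cast at h6
    rw [h6, Nat.totient_prime (Fact.out : q.Prime), Nat.cast_sub (Fact.out : q.Prime).one_lt.le]
    push_cast
    linarith
  have hpr := hprin _ _ hk0 hkq hφ
  have hcomb := combineB hP hQ1 hPQ hf0 hβ1 hfβ hA hN hNY hANN hτ hdiv H χ
    (fun _ => 1 / (20 * Nat.card (ann H))) (fun _ => by positivity)
    (fun κ hκ _ U V hU hV _ _ hUV hne hUQ hVQ hκUV =>
      hQ3 κ (mem_kf.1 hκ) U V hU hV hUV hne hUQ hVQ hκUV) ?_ hDN hl hpr
    (G := (1 - 14 * η) * Real.sqrt (Real.log N / Real.log (Real.log q))) ?_ hG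
  · obtain ⟨ψ, hψ, hne, hbig⟩ := hcomb
    refine ⟨ψ, hψ, hne, ?_⟩
    have hap := LC_approx hne Q hQ1 ((q : ℝ) ^ (1 + η)) (by positivity)
    have her := h4 Q.card hQ2
    have h6 := hap.trans her
    have h7 : Real.exp ((1 - 14 * η) * Real.sqrt (Real.log N / Real.log (Real.log q))) / 4 - 1 ≤
        Real.exp (2 * Real.sqrt Q.card) * ‖(χ * ψ).LFunction (1 / 2)‖ := by
      have h8 : ‖LC (CQ Q ⌊(q : ℝ) ^ (1 + η)⌋₊) (χ * ψ)‖ ≤
          ‖EP Q (χ * ψ) * (χ * ψ).LFunction (1 / 2)‖ + 1 := by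
        have h9 := norm_sub_norm_le (LC (CQ Q ⌊(q : ℝ) ^ (1 + η)⌋₊) (χ * ψ))
          (EP Q (χ * ψ) * (χ * ψ).LFunction (1 / 2))
        linarith
      rw [norm_mul] at h8
      have h9 : ‖EP Q (χ * ψ)‖ * ‖(χ * ψ).LFunction (1 / 2)‖ ≤
          Real.exp (2 * Real.sqrt Q.card) * ‖(χ * ψ).LFunction (1 / 2)‖ :=
        mul_le_mul_of_nonneg_right (EP_norm Q hQ1 _) (norm_nonneg _)
      linarith
    have h8 := h5 Q.card hQ2
    obtain ⟨V0, hV0⟩ : ∃ V0 : ℝ, V0 = Real.sqrt (Real.log q / Real.log (Real.log q)) := ⟨_, rfl⟩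
    obtain ⟨G, hGd⟩ : ∃ G : ℝ,
      G = (1 - 14 * η) * Real.sqrt (Real.log N / Real.log (Real.log q)) := ⟨_, rfl⟩
    rw [← hV0] at h8 ⊢
    rw [← hGd] at h7
    have hV00 : 0 ≤ V0 := by rw [hV0]; exact Real.sqrt_nonneg _
    have hs2 : 0 < Real.sqrt 2 := Real.sqrt_pos.2 (by norm_num)
    have hG1 : (1 / Real.sqrt 2 - 13 * η) * V0 ≤ G := by
      have k1 : (1 - 4 * η) / Real.sqrt 2 * V0 ≤
          Real.sqrt (Real.log N / Real.log (Real.log q)) := by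
        refine Real.le_sqrt_of_sq_le ?_
        rw [mul_pow, div_pow, Real.sq_sqrt (by norm_num), hV0, Real.sq_sqrt (by positivity),
          ← mul_div_assoc]
        refine div_le_div_of_nonneg_right ?_ hℓ0.le
        refine le_trans (mul_le_mul_of_nonneg_right ?_ hL0.le) hlN1
        nlinarith [mul_pos hη hη]
      have k2 : (1 / Real.sqrt 2 - 13 * η) ≤ (1 - 14 * η) * ((1 - 4 * η) / Real.sqrt 2) := by
        have k3 : (1 - 14 * η) * ((1 - 4 * η) / Real.sqrt 2) =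
            1 / Real.sqrt 2 - (18 * η - 56 * η ^ 2) / Real.sqrt 2 := by
          field_simp
          ring
        rw [k3]
        refine sub_le_sub_left ?_ _
        rw [div_le_iff₀ hs2]
        have k4 : (1.41 : ℝ) ≤ Real.sqrt 2 := Real.le_sqrt_of_sq_le (by norm_num)
        nlinarith [mul_pos hη hη]
      rw [hGd]
      calc (1 / Real.sqrt 2 - 13 * η) * V0
          ≤ ((1 - 14 * η) * ((1 - 4 * η) / Real.sqrt 2)) * V0 :=
            mul_le_mul_of_nonneg_right k2 hV00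
        _ = (1 - 14 * η) * ((1 - 4 * η) / Real.sqrt 2 * V0) := by ring
        _ ≤ _ := mul_le_mul_of_nonneg_left k1 (by linarith)
    obtain ⟨z, hz⟩ : ∃ z : ℝ, z = (1 / Real.sqrt 2 - 26 * η) * V0 := ⟨_, rfl⟩
    rw [← hz]
    have hzG : z + Real.log 8 + 2 * Real.sqrt Q.card ≤ G := by
      have : z = (1 / Real.sqrt 2 - 13 * η) * V0 - 13 * η * V0 := by rw [hz]; ring
      linarith
    have hs20 : 0 ≤ 2 * Real.sqrt (Q.card : ℝ) := by positivity
    -- conclusion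
    by_contra hcon
    push Not at hcon
    have k1 : Real.exp (2 * Real.sqrt Q.card) * ‖(χ * ψ).LFunction (1 / 2)‖ <
        Real.exp (2 * Real.sqrt Q.card) * Real.exp z :=
      mul_lt_mul_of_pos_left hcon (Real.exp_pos _)
    rw [← Real.exp_add] at k1
    have k2 : Real.exp (2 * Real.sqrt Q.card + z) * 8 ≤ Real.exp G := by
      have k3 : Real.exp (2 * Real.sqrt Q.card + z) * 8 =
          Real.exp (2 * Real.sqrt Q.card + z + Real.log 8) := by
        rw [Real.exp_add _ (Real.log 8), Real.exp_log (by norm_num)]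
      rw [k3]
      exact Real.exp_le_exp.2 (by linarith)
    have k3 : 8 ≤ Real.exp G := by
      have k4 : Real.exp (Real.log 8) ≤ Real.exp G := by
        refine Real.exp_le_exp.2 ?_
        have k5 : 0 ≤ G := by
          rw [hGd]
          exact mul_nonneg (by linarith) (Real.sqrt_nonneg _)
        have k6 : 13 * η * V0 ≤ (1 / Real.sqrt 2 - 13 * η) * V0 := by
          refine mul_le_mul_of_nonneg_right ?_ hV00
          have k7 : Real.sqrt 2 ≤ 1.5 := by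
            rw [Real.sqrt_le_left (by norm_num)]
            norm_num
          have k8 : 26 * η ≤ 1 / Real.sqrt 2 := by
            rw [le_div_iff₀ hs2]
            nlinarith
          linarith
        linarith
      rwa [Real.exp_log (by norm_num)] at k4
    linarith
  · rw [sum_const, nsmul_eq_mul]
    have h6 : (((kf H).erase 1).card : ℝ) ≤ Nat.card (ann H) := by
      rw [← hkc]
      exact_mod_cast card_le_card (erase_subset _ _)
    have h7 : (0 : ℝ) < Nat.card (ann H) := by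
      rw [← hkc]
      exact hk0
    rw [mul_one_div, div_le_iff₀ (by positivity)]
    linarith
  · exact mul_nonneg (by linarith) (Real.sqrt_nonneg _)

end Pool.Agent.Q237.LV
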