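import Pool.Agent.Q237.LV.B1

/-!
# Sums over a single coset: the resonator alone
-/

set_option autoImplicit false

namespace Pool.Agent.Q237.LV

open Finset
open scoped Classical

section

variable {q : ℕ} [Fact q.Prime]

theorem trip_sum_one {P : Finset ℕ} (hP : ∀ p ∈ P, p.Prime) {fp : ℕ → ℝ} (hf : ∀ p ∈ P, 0 ≤ fp p)
    {β : ℝ} (hfβ : ∀ p ∈ P, fp p ≤ (p : ℝ) ^ (-β)) {N U V : ℕ}
    (hU : 0 < U) (hV : 0 < V) (hUV : Nat.Coprime U V)
    {T : Finset (ℕ × Finset ℕ × Finset ℕ)} (hT : T ⊆ trip P {1} U V)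
    (hTN : ∀ x ∈ T, nn x.2.2 ≤ N) :
    ∑ x ∈ T, (x.1 : ℝ) ^ (-(1 / 2) : ℝ) * (ff fp x.2.1 * ff fp x.2.2) ≤
      (∑ S ∈ SSt P N, ff fp S ^ 2) * ((U : ℝ) ^ (-β) * (V : ℝ) ^ (-β)) := by
  obtain ⟨F, hF⟩ : ∃ F : (ℕ × Finset ℕ × Finset ℕ) → Finset ℕ,
    F = fun x => x.2.2.filter (fun p => ¬ p ∣ V) := ⟨_, rfl⟩
  have key : ∀ x ∈ T, x.1 = 1 ∧ x.2.1 ⊆ P ∧ x.2.2 ⊆ P ∧
      nn (x.2.1.filter (fun p => p ∣ U)) = U ∧ nn (x.2.2.filter (fun p => p ∣ V)) = V ∧
      x.2.1.filter (fun p => ¬ p ∣ U) = x.2.2.filter (fun p => ¬ p ∣ V) := by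
    intro x hx
    have hx' := hT hx
    obtain ⟨s1, s2, s3⟩ := trip_struct hP hV hUV hx'
    unfold trip at hx'
    rw [mem_filter, mem_product, mem_product, mem_powerset, mem_powerset, mem_singleton] at hx'
    obtain ⟨⟨h1, h2, h3⟩, h4⟩ := hx'
    have pW : ∀ p ∈ x.2.1.filter (fun p => p ∣ U), p.Prime := fun p hp =>
      hP p (h2 (mem_filter.1 hp).1)
    have hWU : nn (x.2.1.filter (fun p => p ∣ U)) ∣ U := nn_dvd pW fun p hp => (mem_filter.1 hp).2
    rw [h1, one_mul] at s3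
    have pT : ∀ p ∈ x.2.2.filter (fun p => ¬ p ∣ V) \ x.2.1.filter (fun p => ¬ p ∣ U), p.Prime :=
      fun p hp => hP p (h3 (mem_filter.1 (mem_sdiff.1 hp).1).1)
    have hT0 := nn_pos pT
    have hWle := Nat.le_of_dvd hU hWU
    have hT1 : nn (x.2.2.filter (fun p => ¬ p ∣ V) \ x.2.1.filter (fun p => ¬ p ∣ U)) = 1 := by
      rw [s3] at hWle
      by_contra hcon
      have h5 : 2 ≤ nn (x.2.2.filter (fun p => ¬ p ∣ V) \ x.2.1.filter (fun p => ¬ p ∣ U)) := by
        omega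
      have h6 : 2 * U ≤ nn (x.2.2.filter (fun p => ¬ p ∣ V) \
        x.2.1.filter (fun p => ¬ p ∣ U)) * U := Nat.mul_le_mul_right U h5
      omega
    refine ⟨h1, h2, h3, ?_, s1.symm, ?_⟩
    · rw [s3, hT1, one_mul]
    · have h5 : x.2.2.filter (fun p => ¬ p ∣ V) \ x.2.1.filter (fun p => ¬ p ∣ U) = ∅ := by
        refine nn_inj pT (fun p hp => absurd hp (notMem_empty p)) ?_
        rw [hT1]
        unfold nn
        simp
      exact Subset.antisymm s2 (sdiff_eq_empty_iff_subset.1 h5)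
  have hinj : Set.InjOn F (T : Set (ℕ × Finset ℕ × Finset ℕ)) := by
    intro x hx x' hx' h
    rw [mem_coe] at hx hx'
    obtain ⟨k1, k2, k3, k4, k5, k6⟩ := key x hx
    obtain ⟨l1, l2, l3, l4, l5, l6⟩ := key x' hx'
    rw [hF] at h
    simp only at h
    have e1 : x.2.2.filter (fun p => p ∣ V) = x'.2.2.filter (fun p => p ∣ V) :=
      nn_inj (fun p hp => hP p (k3 (mem_filter.1 hp).1)) (fun p hp => hP p (l3 (mem_filter.1 hp).1))
        (by rw [k5, l5])
    have e2 : x.2.1.filter (fun p => p ∣ U) = x'.2.1.filter (fun p => p ∣ U) :=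
      nn_inj (fun p hp => hP p (k2 (mem_filter.1 hp).1)) (fun p hp => hP p (l2 (mem_filter.1 hp).1))
        (by rw [k4, l4])
    have e3 : x.2.2 = x'.2.2 := by
      rw [← filter_union_filter_not_eq (fun p => p ∣ V) x.2.2,
        ← filter_union_filter_not_eq (fun p => p ∣ V) x'.2.2, h, e1]
    have e4 : x.2.1 = x'.2.1 := by
      rw [← filter_union_filter_not_eq (fun p => p ∣ U) x.2.1,
        ← filter_union_filter_not_eq (fun p => p ∣ U) x'.2.1, e2, k6, l6, h]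
    exact Prod.ext (by rw [k1, l1]) (Prod.ext e4 e3)
  obtain ⟨G, hG⟩ : ∃ G : Finset ℕ → ℝ,
    G = fun S => ff fp S ^ 2 * ((U : ℝ) ^ (-β) * (V : ℝ) ^ (-β)) := ⟨_, rfl⟩
  have hval : ∀ x ∈ T, (x.1 : ℝ) ^ (-(1 / 2) : ℝ) * (ff fp x.2.1 * ff fp x.2.2) ≤ G (F x) := by
    intro x hx
    obtain ⟨k1, k2, k3, k4, k5, k6⟩ := key x hx
    have n1 : ∀ S : Finset ℕ, S ⊆ P → 0 ≤ ff fp S := fun S hS => ff_nonneg fun p hp => hf p (hS hp)
    have f1 : ff fp x.2.1 = ff fp (x.2.1.filter (fun p => p ∣ U)) *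
        ff fp (x.2.1.filter (fun p => ¬ p ∣ U)) := ff_split fp _ _
    have f2 : ff fp x.2.2 = ff fp (x.2.2.filter (fun p => p ∣ V)) *
        ff fp (x.2.2.filter (fun p => ¬ p ∣ V)) := ff_split fp _ _
    have b1 : ff fp (x.2.1.filter (fun p => p ∣ U)) ≤ (U : ℝ) ^ (-β) := by
      have h5 := ff_le (fp := fp) (β := β) (S := x.2.1.filter (fun p => p ∣ U))
        (fun p hp => hf p (k2 (mem_filter.1 hp).1)) (fun p hp => hfβ p (k2 (mem_filter.1 hp).1))
      rwa [k4] at h5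
    have b2 : ff fp (x.2.2.filter (fun p => p ∣ V)) ≤ (V : ℝ) ^ (-β) := by
      have h5 := ff_le (fp := fp) (β := β) (S := x.2.2.filter (fun p => p ∣ V))
        (fun p hp => hf p (k3 (mem_filter.1 hp).1)) (fun p hp => hfβ p (k3 (mem_filter.1 hp).1))
      rwa [k5] at h5
    have a1 : 0 ≤ ff fp (x.2.1.filter (fun p => p ∣ U)) := n1 _ ((filter_subset _ _).trans k2)
    have a2 : 0 ≤ ff fp (x.2.2.filter (fun p => p ∣ V)) := n1 _ ((filter_subset _ _).trans k3)
    have a3 : 0 ≤ ff fp (x.2.2.filter (fun p => ¬ p ∣ V)) := n1 _ ((filter_subset _ _).trans k3)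
    rw [k1, Nat.cast_one, Real.one_rpow, one_mul, f1, f2, k6, hG, hF]
    simp only
    calc ff fp (x.2.1.filter (fun p => p ∣ U)) * ff fp (x.2.2.filter (fun p => ¬ p ∣ V)) *
          (ff fp (x.2.2.filter (fun p => p ∣ V)) * ff fp (x.2.2.filter (fun p => ¬ p ∣ V)))
        = ff fp (x.2.2.filter (fun p => ¬ p ∣ V)) ^ 2 *
          (ff fp (x.2.1.filter (fun p => p ∣ U)) * ff fp (x.2.2.filter (fun p => p ∣ V))) := by ring
      _ ≤ _ := by
          refine mul_le_mul_of_nonneg_left ?_ (sq_nonneg _)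
          exact mul_le_mul b1 b2 a2 (by positivity)
  calc ∑ x ∈ T, (x.1 : ℝ) ^ (-(1 / 2) : ℝ) * (ff fp x.2.1 * ff fp x.2.2)
      ≤ ∑ x ∈ T, G (F x) := sum_le_sum hval
    _ = ∑ S ∈ T.image F, G S := (sum_image hinj).symm
    _ ≤ ∑ S ∈ SSt P N, G S := by
        refine sum_le_sum_of_subset_of_nonneg ?_ fun S _ _ => ?_
        · intro S hS
          rw [mem_image] at hS
          obtain ⟨x, hx, rfl⟩ := hS
          obtain ⟨k1, k2, k3, k4, k5, k6⟩ := key x hx
          rw [hF, mem_SSt]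
          simp only
          refine ⟨(filter_subset _ _).trans k3, ?_⟩
          refine le_trans ?_ (hTN x hx)
          have h5 := nn_split x.2.2 (fun p => p ∣ V)
          rw [h5]
          exact Nat.le_mul_of_pos_left _ (by rw [k5]; exact hV)
        · rw [hG]
          positivity
    _ = _ := by rw [hG, sum_mul]

/-- the resonator alone in a nontrivial class -/
theorem R2_bound {P : Finset ℕ} (hP : ∀ p ∈ P, p.Prime) {fp : ℕ → ℝ}
    (hf : ∀ p ∈ P, 0 ≤ fp p) {β : ℝ}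
    (hfβ : ∀ p ∈ P, fp p ≤ (p : ℝ) ^ (-β)) {N : ℕ} (hq : N * N < q)
    (κ : (ZMod q)ˣ) (hκ : κ ≠ 1) :
    Ts {1} (SSt P N) fp κ = 0 ∨ ∃ U V : ℕ, 1 ≤ U ∧ 1 ≤ V ∧ U ≤ N ∧ V ≤ N ∧ Nat.Coprime U V ∧
      (κ : ZMod q) * (V : ZMod q) = (U : ZMod q) ∧ ¬ (U = 1 ∧ V = 1) ∧
      (∀ p : ℕ, p.Prime → p ∣ U → p ∈ P) ∧ (∀ p : ℕ, p.Prime → p ∣ V → p ∈ P) ∧
      Ts {1} (SSt P N) fp κ ≤
        (∑ S ∈ SSt P N, ff fp S ^ 2) * ((U : ℝ) ^ (-β) * (V : ℝ) ^ (-β)) := by
  by_cases hne : (cls {1} (SSt P N) κ).Nonempty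
  swap
  · left
    rw [not_nonempty_iff_eq_empty] at hne
    unfold Ts
    rw [hne, sum_empty]
  · right
    obtain ⟨⟨c0, S0', S0⟩, h0⟩ := hne
    unfold cls at h0
    rw [mem_filter, mem_product, mem_product, mem_singleton] at h0
    obtain ⟨⟨hc0, hS0', hS0⟩, he0⟩ := h0
    simp only at hc0 hS0' hS0 he0
    rw [mem_SSt] at hS0' hS0
    have pS0 : ∀ p ∈ S0, p.Prime := fun p hp => hP p (hS0.1 hp)
    have pS0' : ∀ p ∈ S0', p.Prime := fun p hp => hP p (hS0'.1 hp)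
    have hn0 : 0 < nn S0 := nn_pos pS0
    have hn0' : 0 < nn S0' := nn_pos pS0'
    have hNpos : 1 ≤ N := le_trans hn0 hS0.2
    have hNq : N < q := lt_of_le_of_lt (Nat.le_mul_of_pos_right _ hNpos) hq
    obtain ⟨g, hg⟩ : ∃ g : ℕ, g = Nat.gcd (nn S0') (nn S0) := ⟨_, rfl⟩
    have hg0 : 0 < g := by
      rw [hg]
      exact Nat.gcd_pos_of_pos_right _ hn0
    obtain ⟨U, hU⟩ : g ∣ nn S0' := by rw [hg]; exact Nat.gcd_dvd_left _ _
    obtain ⟨V, hV⟩ : g ∣ nn S0 := by rw [hg]; exact Nat.gcd_dvd_right _ _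
    have hUV : Nat.Coprime U V := by
      have h1 : Nat.gcd (g * U) (g * V) = g * Nat.gcd U V := Nat.gcd_mul_left g U V
      rw [← hU, ← hV, ← hg] at h1
      have h2 : g * 1 = g * Nat.gcd U V := by rw [mul_one]; exact h1
      exact (Nat.eq_of_mul_eq_mul_left hg0 h2).symm
    have hU0 : 0 < U := by
      rcases Nat.eq_zero_or_pos U with h | h
      · rw [h, mul_zero] at hU
        omega
      · exact h
    have hV0 : 0 < V := by
      rcases Nat.eq_zero_or_pos V with h | h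
      · rw [h, mul_zero] at hV
        omega
      · exact h
    have hgN : g ≤ N := (Nat.le_of_dvd hn0 ⟨V, hV⟩).trans hS0.2
    have hgq : ((g : ℕ) : ZMod q) ≠ 0 := by
      intro h
      rw [ZMod.natCast_eq_zero_iff] at h
      have := Nat.le_of_dvd hg0 h
      omega
    have hκUV : (κ : ZMod q) * (V : ZMod q) = (U : ZMod q) := by
      rw [hc0, one_mul, hV, hU] at he0
      push_cast at he0
      have h1 : (g : ZMod q) * ((κ : ZMod q) * (V : ZMod q)) = (g : ZMod q) * (U : ZMod q) := by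
        rw [← he0]
        ring
      exact mul_left_cancel₀ hgq h1
    have hsub : cls {1} (SSt P N) κ ⊆ trip P {1} U V := by
      rintro ⟨c, S', S⟩ hx
      unfold cls at hx
      rw [mem_filter, mem_product, mem_product, mem_singleton] at hx
      obtain ⟨⟨hc, hS', hS⟩, he⟩ := hx
      simp only at hc hS' hS he
      rw [mem_SSt] at hS' hS
      unfold trip
      rw [mem_filter, mem_product, mem_product, mem_powerset, mem_powerset, mem_singleton]
      refine ⟨⟨hc, hS'.1, hS.1⟩, ?_⟩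
      simp only
      rw [hc, one_mul]
      rw [hc, one_mul] at he
      rw [hc0, one_mul] at he0
      have h1 : ((nn S' * nn S0 : ℕ) : ZMod q) = ((nn S0' * nn S : ℕ) : ZMod q) := by
        push_cast
        rw [← he, ← he0]
        ring
      have h2 : nn S' * nn S0 ≤ N * N := Nat.mul_le_mul hS'.2 hS0.2
      have h3 : nn S0' * nn S ≤ N * N := Nat.mul_le_mul hS0'.2 hS.2
      have h4 : nn S' * nn S0 = nn S0' * nn S := by
        have h5 := (ZMod.natCast_eq_natCast_iff' _ _ q).1 h1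
        rwa [Nat.mod_eq_of_lt (by omega), Nat.mod_eq_of_lt (by omega)] at h5
      rw [hV, hU] at h4
      have h5 : g * (nn S' * V) = g * (nn S * U) := by
        calc g * (nn S' * V) = nn S' * (g * V) := by ring
          _ = g * U * nn S := h4
          _ = _ := by ring
      exact Nat.eq_of_mul_eq_mul_left hg0 h5
    have hUd : U ∣ nn S0' := ⟨g, by rw [hU, mul_comm]⟩
    have hVd : V ∣ nn S0 := ⟨g, by rw [hV, mul_comm]⟩
    refine ⟨U, V, hU0, hV0, ?_, ?_, hUV, hκUV, ?_, ?_, ?_, ?_⟩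
    · exact (Nat.le_of_dvd hn0' hUd).trans hS0'.2
    · exact (Nat.le_of_dvd hn0 hVd).trans hS0.2
    · rintro ⟨h1, h2⟩
      rw [h1, h2, Nat.cast_one, mul_one] at hκUV
      exact hκ (Units.ext hκUV)
    · intro p hp hpU
      exact hS0'.1 ((dvd_nn_iff pS0' hp).1 (hpU.trans hUd))
    · intro p hp hpV
      exact hS0.1 ((dvd_nn_iff pS0 hp).1 (hpV.trans hVd))
    · unfold Ts
      refine trip_sum_one hP hf hfβ hU0 hV0 hUV hsub ?_
      intro x hx
      unfold cls at hx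
      rw [mem_filter, mem_product, mem_product] at hx
      exact (mem_SSt.1 hx.1.2.2).2

/-- the resonator alone in the trivial class -/
theorem R2_one {P : Finset ℕ} (hP : ∀ p ∈ P, p.Prime) {fp : ℕ → ℝ} {N : ℕ} (hN : N < q) :
    Ts {1} (SSt P N) fp (1 : (ZMod q)ˣ) = ∑ S ∈ SSt P N, ff fp S ^ 2 := by
  unfold Ts
  refine sum_nbij' (fun x => x.2.2) (fun S => (1, S, S)) ?_ ?_ ?_ ?_ ?_
  · intro x hx
    unfold cls at hx
    rw [mem_filter, mem_product, mem_product] at hx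
    exact hx.1.2.2
  · intro S hS
    unfold cls
    rw [mem_filter, mem_product, mem_product, mem_singleton]
    refine ⟨⟨rfl, hS, hS⟩, ?_⟩
    simp
  · intro x hx
    unfold cls at hx
    rw [mem_filter, mem_product, mem_product, mem_singleton, Units.val_one, one_mul] at hx
    obtain ⟨⟨h1, h2, h3⟩, h4⟩ := hx
    rw [h1, one_mul] at h4
    rw [mem_SSt] at h2 h3
    have h5 := (ZMod.natCast_eq_natCast_iff' _ _ q).1 h4
    have h6 := h2.2
    have h7 := h3.2
    rw [Nat.mod_eq_of_lt (by omega), Nat.mod_eq_of_lt (by omega)] at h5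
    have h8 := nn_inj (fun p hp => hP p (h3.1 hp)) (fun p hp => hP p (h2.1 hp)) h5
    exact Prod.ext h1.symm (Prod.ext h8 rfl)
  · intro S _
    rfl
  · intro x hx
    unfold cls at hx
    rw [mem_filter, mem_product, mem_product, mem_singleton, Units.val_one, one_mul] at hx
    obtain ⟨⟨h1, h2, h3⟩, h4⟩ := hx
    rw [h1, one_mul] at h4
    rw [mem_SSt] at h2 h3
    have h5 := (ZMod.natCast_eq_natCast_iff' _ _ q).1 h4
    have h6 := h2.2
    have h7 := h3.2
    rw [Nat.mod_eq_of_lt (by omega), Nat.mod_eq_of_lt (by omega)] at h5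
    have h8 := nn_inj (fun p hp => hP p (h3.1 hp)) (fun p hp => hP p (h2.1 hp)) h5
    rw [h1, h8]
    simp only [Nat.cast_one, Real.one_rpow, one_mul]
    ring

end

end Pool.Agent.Q237.LV
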