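import Pool.Agent.Q237.LV.B2

/-!
# Sums over a single coset: the large part
-/

set_option autoImplicit false

namespace Pool.Agent.Q237.LV

open Finset
open scoped Classical

/-- dyadic summation -/
theorem dyadic_hp {ι : Type*} (E : Finset ι) (a : ι → ℕ) {A Y : ℕ} (hA : 1 ≤ A)
    (hE : ∀ e ∈ E, A < a e ∧ a e ≤ Y) {c1 c2 : ℝ} (hc1 : 0 ≤ c1) (hc2 : 0 ≤ c2)
    (hcard : ∀ B : ℕ, A ≤ B → ((E.filter (fun e => B < a e ∧ a e ≤ 2 * B)).card : ℝ) ≤
      c1 * B + c2) :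
    ∑ e ∈ E, hp (a e) ≤ ((Nat.log 2 Y + 1 : ℕ) : ℝ) * (c1 * Real.sqrt Y + c2 * hp A) := by
  have h1 : ∀ i ∈ range (Nat.log 2 Y + 1),
      ∑ e ∈ E.filter (fun e => A * 2 ^ i < a e ∧ a e ≤ 2 * (A * 2 ^ i)), hp (a e) ≤
        c1 * Real.sqrt Y + c2 * hp A := by
    intro i _
    have hpos : 1 ≤ A * 2 ^ i := Nat.mul_pos hA (by positivity)
    by_cases hY : A * 2 ^ i ≤ Y
    · have h2 := hcard (A * 2 ^ i) (Nat.le_mul_of_pos_right _ (by positivity))
      calc ∑ e ∈ E.filter (fun e => A * 2 ^ i < a e ∧ a e ≤ 2 * (A * 2 ^ i)), hp (a e)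
          ≤ ∑ e ∈ E.filter (fun e => A * 2 ^ i < a e ∧ a e ≤ 2 * (A * 2 ^ i)), hp (A * 2 ^ i) := by
            refine sum_le_sum fun e he => ?_
            rw [mem_filter] at he
            exact hp_anti hpos he.2.1.le
        _ = ((E.filter (fun e => A * 2 ^ i < a e ∧ a e ≤ 2 * (A * 2 ^ i))).card : ℝ) *
            hp (A * 2 ^ i) := by rw [sum_const, nsmul_eq_mul]
        _ ≤ (c1 * ((A * 2 ^ i : ℕ) : ℝ) + c2) * hp (A * 2 ^ i) :=
            mul_le_mul_of_nonneg_right h2 (hp_nonneg _)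
        _ = c1 * (((A * 2 ^ i : ℕ) : ℝ) * hp (A * 2 ^ i)) + c2 * hp (A * 2 ^ i) := by ring
        _ ≤ c1 * Real.sqrt Y + c2 * hp A := by
            have h3 : ((A * 2 ^ i : ℕ) : ℝ) * hp (A * 2 ^ i) =
                Real.sqrt ((A * 2 ^ i : ℕ) : ℝ) := by
              rw [hp_eq, mul_one_div, Real.div_sqrt]
            have h4 : Real.sqrt ((A * 2 ^ i : ℕ) : ℝ) ≤ Real.sqrt Y :=
              Real.sqrt_le_sqrt (by exact_mod_cast hY)
            have h5 : hp (A * 2 ^ i) ≤ hp A := hp_anti hA (Nat.le_mul_of_pos_right _ (by positivity))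
            rw [h3]
            gcongr
    · have h2 : E.filter (fun e => A * 2 ^ i < a e ∧ a e ≤ 2 * (A * 2 ^ i)) = ∅ := by
        rw [filter_eq_empty_iff]
        intro e he h
        have := (hE e he).2
        omega
      rw [h2, sum_empty]
      have := hp_nonneg A
      positivity
  have h2 : ∑ e ∈ E, hp (a e) ≤ ∑ i ∈ range (Nat.log 2 Y + 1),
      ∑ e ∈ E.filter (fun e => A * 2 ^ i < a e ∧ a e ≤ 2 * (A * 2 ^ i)), hp (a e) := by
    have h3 : ∀ i ∈ range (Nat.log 2 Y + 1),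
        ∑ e ∈ E.filter (fun e => A * 2 ^ i < a e ∧ a e ≤ 2 * (A * 2 ^ i)), hp (a e) =
        ∑ e ∈ E, if A * 2 ^ i < a e ∧ a e ≤ 2 * (A * 2 ^ i) then hp (a e) else 0 :=
      fun i _ => sum_filter _ _
    rw [sum_congr rfl h3, sum_comm]
    refine sum_le_sum fun e he => ?_
    have hex : ∃ i : ℕ, a e ≤ 2 * (A * 2 ^ i) := by
      refine ⟨a e, ?_⟩
      have h4 : a e < 2 ^ (a e) := Nat.lt_two_pow_self
      have h5 : 2 ^ (a e) ≤ A * 2 ^ (a e) := Nat.le_mul_of_pos_left _ hA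
      omega
    have hi := Nat.find_spec hex
    have hmin := fun m (hm : m < Nat.find hex) => Nat.find_min hex hm
    have hlow : A * 2 ^ (Nat.find hex) < a e := by
      rcases Nat.eq_zero_or_pos (Nat.find hex) with h | h
      · rw [h, pow_zero, mul_one]
        exact (hE e he).1
      · have h4 := hmin (Nat.find hex - 1) (by omega)
        have h5 : 2 ^ (Nat.find hex) = 2 * 2 ^ (Nat.find hex - 1) := by
          rw [← pow_succ']
          congr 1
          omega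
        rw [h5]
        rw [not_le] at h4
        calc A * (2 * 2 ^ (Nat.find hex - 1)) = 2 * (A * 2 ^ (Nat.find hex - 1)) := by ring
          _ < a e := h4
    have hrange : Nat.find hex ∈ range (Nat.log 2 Y + 1) := by
      rw [mem_range]
      have h4 : 2 ^ (Nat.find hex) ≤ Y := by
        have h5 : 2 ^ (Nat.find hex) ≤ A * 2 ^ (Nat.find hex) := Nat.le_mul_of_pos_left _ hA
        have h6 := (hE e he).2
        omega
      have := Nat.le_log_of_pow_le (by norm_num) h4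
      omega
    have h4 : hp (a e) = if A * 2 ^ (Nat.find hex) < a e ∧ a e ≤ 2 * (A * 2 ^ (Nat.find hex)) then
        hp (a e) else 0 := by
      rw [if_pos ⟨hlow, hi⟩]
    calc hp (a e) = _ := h4
      _ ≤ ∑ i ∈ range (Nat.log 2 Y + 1), if A * 2 ^ i < a e ∧ a e ≤ 2 * (A * 2 ^ i) then
          hp (a e) else 0 := by
          refine single_le_sum (f := fun i => if A * 2 ^ i < a e ∧ a e ≤ 2 * (A * 2 ^ i) then
            hp (a e) else 0) (fun i _ => ?_) hrange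
          split_ifs
          · exact hp_nonneg _
          · exact le_rfl
  refine h2.trans ((sum_le_sum h1).trans (le_of_eq ?_))
  rw [sum_const, nsmul_eq_mul, card_range]

section

variable {q : ℕ} [Fact q.Prime]

/-- primitive vectors of a lattice of determinant `q` in a box -/
theorem count_prim {ι : Type*} (E : Finset ι) (a n : ι → ℕ) (κ m : ZMod q) (hκ : κ ≠ 0)
    (hinj : ∀ e ∈ E, ∀ e' ∈ E, a e = a e' → n e = n e' → e = e') {B N : ℕ}
    (hB : 1 ≤ B)
    (hE : ∀ e ∈ E, (B < a e ∧ a e ≤ 2 * B) ∧ (1 ≤ n e ∧ n e ≤ N) ∧ Nat.Coprime (a e) (n e) ∧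
      κ * (n e : ZMod q) = (a e : ZMod q) * m) :
    (E.card : ℝ) ≤ 4 * (N : ℝ) / q * B + 1 := by
  have hq0 : (0 : ℝ) < q := by exact_mod_cast (Fact.out : q.Prime).pos
  have hB0 : (0 : ℝ) < B := by exact_mod_cast hB
  obtain ⟨F, hF⟩ : ∃ F : ι → ℕ, F = fun e => ⌊4 * (B : ℝ) ^ 2 * n e / (a e * q)⌋₊ := ⟨_, rfl⟩
  have hmaps : Set.MapsTo F (E : Set ι) ((range (⌊4 * (N : ℝ) / q * B⌋₊ + 1) : Finset ℕ) : Set ℕ) := by
    intro e he
    rw [mem_coe] at he
    rw [mem_coe, mem_range, Nat.lt_add_one_iff, hF]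
    refine Nat.floor_le_floor ?_
    obtain ⟨⟨h1, h2⟩, ⟨h3, h4⟩, h5, h6⟩ := hE e he
    have h1' : (B : ℝ) ≤ a e := by exact_mod_cast h1.le
    have h4' : (n e : ℝ) ≤ N := by exact_mod_cast h4
    have ha0 : (0 : ℝ) < a e := lt_of_lt_of_le hB0 h1'
    rw [div_le_iff₀ (by positivity)]
    calc 4 * (B : ℝ) ^ 2 * (n e : ℝ) ≤ 4 * (B : ℝ) ^ 2 * (N : ℝ) := by gcongr
      _ = 4 * (N : ℝ) / q * B * ((B : ℝ) * q) := by field_simp
      _ ≤ 4 * (N : ℝ) / q * B * ((a e : ℝ) * q) := by gcongr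
  have hinjF : Set.InjOn F (E : Set ι) := by
    intro e he e' he' h
    rw [mem_coe] at he he'
    obtain ⟨⟨h1, h2⟩, ⟨h3, h4⟩, h5, h6⟩ := hE e he
    obtain ⟨⟨g1, g2⟩, ⟨g3, g4⟩, g5, g6⟩ := hE e' he'
    have ha0 : (0 : ℝ) < a e := by
      have : 0 < a e := by omega
      exact_mod_cast this
    have ga0 : (0 : ℝ) < a e' := by
      have : 0 < a e' := by omega
      exact_mod_cast this
    rw [hF] at h
    simp only at h
    have k1 : |4 * (B : ℝ) ^ 2 * n e / (a e * q) - 4 * (B : ℝ) ^ 2 * n e' / (a e' * q)| < 1 := by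
      have l1 := Nat.floor_le (a := 4 * (B : ℝ) ^ 2 * n e / (a e * q)) (by positivity)
      have l2 := Nat.lt_floor_add_one (4 * (B : ℝ) ^ 2 * n e / (a e * q))
      have l3 := Nat.floor_le (a := 4 * (B : ℝ) ^ 2 * n e' / (a e' * q)) (by positivity)
      have l4 := Nat.lt_floor_add_one (4 * (B : ℝ) ^ 2 * n e' / (a e' * q))
      rw [h] at l1 l2
      rw [abs_lt]
      constructor <;> linarith
    have k2 : 4 * (B : ℝ) ^ 2 * n e / (a e * q) - 4 * (B : ℝ) ^ 2 * n e' / (a e' * q) =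
        4 * (B : ℝ) ^ 2 * ((n e : ℝ) * a e' - n e' * a e) / (a e * a e' * q) := by
      field_simp
    rw [k2, abs_div, abs_of_pos (by positivity : (0 : ℝ) < a e * a e' * q),
      div_lt_one (by positivity), abs_mul, abs_of_pos (by positivity : (0 : ℝ) < 4 * (B : ℝ) ^ 2)] at k1
    have k3 : |(n e : ℝ) * a e' - n e' * a e| < q := by
      by_contra hcon
      push Not at hcon
      have m1 : (a e : ℝ) * a e' ≤ 4 * (B : ℝ) ^ 2 := by
        have m2 : (a e : ℝ) ≤ 2 * B := by exact_mod_cast h2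
        have m3 : (a e' : ℝ) ≤ 2 * B := by exact_mod_cast g2
        calc (a e : ℝ) * a e' ≤ (2 * B) * (2 * B) := by gcongr
          _ = 4 * (B : ℝ) ^ 2 := by ring
      have m2 : (a e : ℝ) * a e' * q ≤ 4 * (B : ℝ) ^ 2 * |(n e : ℝ) * a e' - n e' * a e| := by
        calc (a e : ℝ) * a e' * q ≤ 4 * (B : ℝ) ^ 2 * q := by gcongr
          _ ≤ _ := by gcongr
      linarith
    have k4 : ((n e * a e' : ℕ) : ZMod q) = ((n e' * a e : ℕ) : ZMod q) := by
      push_cast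
      have m1 : κ * ((n e : ZMod q) * a e') = κ * ((n e' : ZMod q) * a e) := by
        calc κ * ((n e : ZMod q) * a e') = (κ * n e) * a e' := by ring
          _ = (κ * n e') * a e := by rw [h6, g6]; ring
          _ = _ := by ring
      exact mul_left_cancel₀ hκ m1
    have k5 : ((n e * a e' : ℕ) : ℤ) = ((n e' * a e : ℕ) : ℤ) := by
      have m1 : (((n e * a e' : ℕ) : ℤ) : ZMod q) = (((n e' * a e : ℕ) : ℤ) : ZMod q) := by
        exact_mod_cast k4
      have m2 := (ZMod.intCast_eq_intCast_iff_dvd_sub _ _ q).1 m1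
      have m3 : |((n e' * a e : ℕ) : ℤ) - ((n e * a e' : ℕ) : ℤ)| < q := by
        rw [abs_sub_comm]
        have : |(((n e * a e' : ℕ) : ℤ) : ℝ) - (((n e' * a e : ℕ) : ℤ) : ℝ)| < q := by
          push_cast
          exact k3
        exact_mod_cast this
      have m4 := Int.eq_zero_of_abs_lt_dvd m2 m3
      omega
    have k6 : n e * a e' = n e' * a e := by exact_mod_cast k5
    have k7 : a e ∣ a e' := by
      refine h5.dvd_of_dvd_mul_left ?_
      rw [k6]
      exact dvd_mul_left _ _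
    have k8 : a e' ∣ a e := by
      refine g5.dvd_of_dvd_mul_left ?_
      rw [← k6]
      exact dvd_mul_left _ _
    have k9 : a e = a e' := Nat.dvd_antisymm k7 k8
    have k10 : n e = n e' := by
      rw [← k9] at k6
      exact Nat.eq_of_mul_eq_mul_right (by omega) k6
    exact hinj e he e' he' k9 k10
  have h1 := card_le_card_of_injOn F hmaps hinjF
  rw [card_range] at h1
  have h2 : (E.card : ℝ) ≤ ((⌊4 * (N : ℝ) / q * B⌋₊ + 1 : ℕ) : ℝ) := by exact_mod_cast h1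
  refine h2.trans ?_
  push_cast
  have := Nat.floor_le (a := 4 * (N : ℝ) / q * B) (by positivity)
  linarith

/-- factorisations of the integers in a residue class -/
theorem count_res {P : Finset ℕ} (hP : ∀ p ∈ P, p.Prime) {N B τ : ℕ}
    (hτ : ∀ w : ℕ, 1 ≤ w → w ≤ 2 * B * N → w.divisors.card ≤ τ) (r : ZMod q)
    (E : Finset (ℕ × Finset ℕ))
    (hE : ∀ e ∈ E, (B < e.1 ∧ e.1 ≤ 2 * B) ∧ e.2 ∈ SSt P N ∧ ((e.1 * nn e.2 : ℕ) : ZMod q) = r) :
    (E.card : ℝ) ≤ 2 * (τ : ℝ) * N / q * B + τ := by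
  have hq0 : 0 < q := (Fact.out : q.Prime).pos
  have hq0' : (0 : ℝ) < q := by exact_mod_cast hq0
  have hb : ∀ e ∈ E, 1 ≤ e.1 * nn e.2 ∧ e.1 * nn e.2 ≤ 2 * B * N := by
    intro e he
    obtain ⟨⟨h1, h2⟩, h3, h4⟩ := hE e he
    rw [mem_SSt] at h3
    exact ⟨Nat.mul_pos (by omega) (nn_pos fun p hp => hP p (h3.1 hp)), Nat.mul_le_mul h2 h3.2⟩
  have h1 : (E.image (fun e => e.1 * nn e.2)).card ≤ 2 * B * N / q + 1 := by
    have h2 : (E.image (fun e => e.1 * nn e.2)).card ≤ (range (2 * B * N / q + 1)).card := by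
      refine card_le_card_of_injOn (fun w => w / q) ?_ ?_
      · intro w hw
        rw [mem_coe, mem_image] at hw
        obtain ⟨e, he, rfl⟩ := hw
        rw [mem_coe, mem_range, Nat.lt_add_one_iff]
        exact Nat.div_le_div_right (hb e he).2
      · intro w hw w' hw' h
        rw [mem_coe, mem_image] at hw hw'
        obtain ⟨e, he, rfl⟩ := hw
        obtain ⟨e', he', rfl⟩ := hw'
        have h3 := (ZMod.natCast_eq_natCast_iff' _ _ q).1
          ((hE e he).2.2.trans (hE e' he').2.2.symm)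
        simp only at h
        rw [← Nat.div_add_mod (e.1 * nn e.2) q, ← Nat.div_add_mod (e'.1 * nn e'.2) q, h, h3]
    rwa [card_range] at h2
  have h2 : E.card ≤ τ * (E.image (fun e => e.1 * nn e.2)).card := by
    refine card_le_mul_card_image E τ ?_
    intro w hw
    rw [mem_image] at hw
    obtain ⟨e0, he0, rfl⟩ := hw
    have h3 := hb e0 he0
    refine le_trans ?_ (hτ _ h3.1 h3.2)
    refine card_le_card_of_injOn (fun e => nn e.2) ?_ ?_
    · intro e he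
      rw [mem_coe, mem_filter] at he
      rw [mem_coe, Nat.mem_divisors]
      refine ⟨?_, by omega⟩
      rw [← he.2]
      exact dvd_mul_left _ _
    · intro e he e' he' h
      rw [mem_coe, mem_filter] at he he'
      have m1 := (mem_SSt.1 (hE e he.1).2.1).1
      have m2 := (mem_SSt.1 (hE e' he'.1).2.1).1
      have k1 : e.2 = e'.2 := nn_inj (fun p hp => hP p (m1 hp)) (fun p hp => hP p (m2 hp)) h
      have k2 : 0 < nn e.2 := nn_pos fun p hp => hP p (m1 hp)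
      refine Prod.ext ?_ k1
      refine Nat.eq_of_mul_eq_mul_right k2 ?_
      rw [he.2, k1, he'.2]
  have h3 : E.card ≤ τ * (2 * B * N / q + 1) := h2.trans (Nat.mul_le_mul_left τ h1)
  have h4 : (E.card : ℝ) ≤ ((τ * (2 * B * N / q + 1) : ℕ) : ℝ) := by exact_mod_cast h3
  refine h4.trans ?_
  push_cast
  have h5 : ((2 * B * N / q : ℕ) : ℝ) ≤ (2 * B * N : ℝ) / q := by
    have := @Nat.cast_div_le ℝ _ _ _ (2 * B * N) q
    push_cast at this
    exact this
  calc (τ : ℝ) * (((2 * B * N / q : ℕ) : ℝ) + 1) ≤ τ * ((2 * B * N : ℝ) / q + 1) := by gcongr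
    _ = _ := by ring

/-- the primitive triples of a class -/
noncomputable def prim (A Y : ℕ) (SS : Finset (Finset ℕ)) (κ : (ZMod q)ˣ) :
    Finset (ℕ × Finset ℕ × Finset ℕ) :=
  (Ioc A Y ×ˢ SS ×ˢ SS).filter
    (fun x => Nat.Coprime x.1 (nn x.2.2) ∧
      (κ : ZMod q) * ((nn x.2.2 : ℕ) : ZMod q) = ((x.1 * nn x.2.1 : ℕ) : ZMod q))

theorem prim_sum {P : Finset ℕ} (hP : ∀ p ∈ P, p.Prime) {fp : ℕ → ℝ} (hf : ∀ p ∈ P, 0 ≤ fp p)
    {A Y N τ : ℕ} (hA : 1 ≤ A) (hτ1 : 1 ≤ τ) (hNq : N < q)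
    (hτ : ∀ w : ℕ, 1 ≤ w → w ≤ 2 * Y * N → w.divisors.card ≤ τ) (κ : (ZMod q)ˣ) :
    ∑ x ∈ prim A Y (SSt P N) κ, hp x.1 * (ff fp x.2.1 * ff fp x.2.2) ≤
      (∑ S ∈ SSt P N, ff fp S ^ 2) * (((Nat.log 2 Y + 1 : ℕ) : ℝ) *
        ((τ : ℝ) * (3 * N * Real.sqrt Y / q + hp A))) := by
  have hq0 : (0 : ℝ) < q := by exact_mod_cast (Fact.out : q.Prime).pos
  have hτ1' : (1 : ℝ) ≤ τ := by exact_mod_cast hτ1
  have hpA := hp_nonneg A
  have n1 : ∀ S ∈ SSt P N, 0 ≤ ff fp S := fun S hS =>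
    ff_nonneg fun p hp => hf p ((mem_SSt.1 hS).1 hp)
  obtain ⟨I, hI⟩ : ∃ I : ℝ, I = ((Nat.log 2 Y + 1 : ℕ) : ℝ) := ⟨_, rfl⟩
  have hI0 : 0 ≤ I := by rw [hI]; positivity
  rw [← hI]
  have hmem : ∀ x ∈ prim A Y (SSt P N) κ, (A < x.1 ∧ x.1 ≤ Y) ∧ x.2.1 ∈ SSt P N ∧
      x.2.2 ∈ SSt P N ∧ Nat.Coprime x.1 (nn x.2.2) ∧
      (κ : ZMod q) * ((nn x.2.2 : ℕ) : ZMod q) = ((x.1 * nn x.2.1 : ℕ) : ZMod q) := by
    intro x hx
    unfold prim at hx
    rw [mem_filter, mem_product, mem_product, mem_Ioc] at hx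
    exact ⟨hx.1.1, hx.1.2.1, hx.1.2.2, hx.2.1, hx.2.2⟩
  -- the sum with the first resonator variable fixed
  have hI1 : ∀ S' ∈ SSt P N, ∑ x ∈ (prim A Y (SSt P N) κ).filter (fun x => x.2.1 = S'), hp x.1 ≤
      I * (4 * (N : ℝ) / q * Real.sqrt Y + 1 * hp A) := by
    intro S' hS'
    rw [hI]
    refine dyadic_hp (Y := Y) (c1 := 4 * (N : ℝ) / q) (c2 := 1)
      ((prim A Y (SSt P N) κ).filter (fun x => x.2.1 = S')) (fun x => x.1) hA ?_
      (by positivity) (by norm_num) ?_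
    · intro x hx
      rw [mem_filter] at hx
      exact (hmem x hx.1).1
    · intro B hB
      refine count_prim _ (fun x => x.1) (fun x => nn x.2.2) (κ : ZMod q)
        ((nn S' : ℕ) : ZMod q) κ.ne_zero ?_ (by omega) ?_
      · intro x hx x' hx' h1 h2
        rw [mem_filter, mem_filter] at hx hx'
        have m1 := (mem_SSt.1 (hmem x hx.1.1).2.2.1).1
        have m2 := (mem_SSt.1 (hmem x' hx'.1.1).2.2.1).1
        have k1 : x.2.2 = x'.2.2 := nn_inj (fun p hp => hP p (m1 hp)) (fun p hp => hP p (m2 hp)) h2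
        exact Prod.ext h1 (Prod.ext (hx.1.2.trans hx'.1.2.symm) k1)
      · intro x hx
        rw [mem_filter, mem_filter] at hx
        obtain ⟨h1, h2, h3, h4, h5⟩ := hmem x hx.1.1
        have m1 := mem_SSt.1 h3
        refine ⟨hx.2, ⟨nn_pos fun p hp => hP p (m1.1 hp), m1.2⟩, h4, ?_⟩
        rw [h5, hx.1.2]
        push_cast
        rfl
  -- the sum with the second resonator variable fixed
  have hI2 : ∀ S ∈ SSt P N, ∑ x ∈ (prim A Y (SSt P N) κ).filter (fun x => x.2.2 = S), hp x.1 ≤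
      I * (2 * (τ : ℝ) * N / q * Real.sqrt Y + τ * hp A) := by
    intro S hS
    rw [hI]
    refine dyadic_hp (Y := Y) (c1 := 2 * (τ : ℝ) * N / q) (c2 := τ)
      ((prim A Y (SSt P N) κ).filter (fun x => x.2.2 = S)) (fun x => x.1) hA ?_
      (by positivity) (by positivity) ?_
    · intro x hx
      rw [mem_filter] at hx
      exact (hmem x hx.1).1
    · intro B hB
      have h1 : ((((prim A Y (SSt P N) κ).filter (fun x => x.2.2 = S)).filter
          (fun x => B < x.1 ∧ x.1 ≤ 2 * B)).card : ℝ) ≤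
          (((((prim A Y (SSt P N) κ).filter (fun x => x.2.2 = S)).filter
          (fun x => B < x.1 ∧ x.1 ≤ 2 * B)).image (fun x => (x.1, x.2.1))).card : ℝ) := by
        rw [card_image_of_injOn]
        intro x hx x' hx' h
        rw [mem_coe, mem_filter, mem_filter] at hx hx'
        simp only [Prod.mk.injEq] at h
        exact Prod.ext h.1 (Prod.ext h.2 (hx.1.2.trans hx'.1.2.symm))
      refine h1.trans ?_
      by_cases hBY : B ≤ Y
      · refine count_res hP (fun w hw1 hw2 => hτ w hw1 (hw2.trans ?_))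
          ((κ : ZMod q) * ((nn S : ℕ) : ZMod q)) _ ?_
        · exact Nat.mul_le_mul_right N (Nat.mul_le_mul_left 2 hBY)
        · intro e he
          rw [mem_image] at he
          obtain ⟨x, hx, rfl⟩ := he
          rw [mem_filter, mem_filter] at hx
          obtain ⟨h1, h2, h3, h4, h5⟩ := hmem x hx.1.1
          refine ⟨hx.2, h2, ?_⟩
          simp only
          rw [← h5, hx.1.2]
      · have h2 : ((prim A Y (SSt P N) κ).filter (fun x => x.2.2 = S)).filter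
          (fun x => B < x.1 ∧ x.1 ≤ 2 * B) = ∅ := by
          rw [filter_eq_empty_iff]
          intro x hx h
          rw [mem_filter] at hx
          have := (hmem x hx.1).1.2
          omega
        rw [h2, image_empty, card_empty]
        push_cast
        positivity
  -- the combination
  have h1 : ∑ x ∈ prim A Y (SSt P N) κ, hp x.1 * (ff fp x.2.1 * ff fp x.2.2) ≤
      1 / 2 * (∑ x ∈ prim A Y (SSt P N) κ, hp x.1 * ff fp x.2.1 ^ 2 +
        ∑ x ∈ prim A Y (SSt P N) κ, hp x.1 * ff fp x.2.2 ^ 2) := by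
    rw [← sum_add_distrib, mul_sum]
    refine sum_le_sum fun x _ => ?_
    have h2 := hp_nonneg x.1
    have h3 := two_mul_le_add_sq (ff fp x.2.1) (ff fp x.2.2)
    have h4 := mul_le_mul_of_nonneg_left h3 h2
    linarith
  have h2 : ∑ x ∈ prim A Y (SSt P N) κ, hp x.1 * ff fp x.2.1 ^ 2 ≤
      (∑ S ∈ SSt P N, ff fp S ^ 2) * (I * (4 * (N : ℝ) / q * Real.sqrt Y + 1 * hp A)) := by
    rw [← sum_fiberwise_of_maps_to (s := prim A Y (SSt P N) κ) (t := SSt P N)
      (g := fun x => x.2.1) (fun x hx => (hmem x hx).2.1), sum_mul]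
    refine sum_le_sum fun S' hS' => ?_
    have h3 : ∀ x ∈ (prim A Y (SSt P N) κ).filter (fun x => x.2.1 = S'),
        hp x.1 * ff fp x.2.1 ^ 2 = ff fp S' ^ 2 * hp x.1 := by
      intro x hx
      rw [(mem_filter.1 hx).2]
      ring
    rw [sum_congr rfl h3, ← mul_sum]
    exact mul_le_mul_of_nonneg_left (hI1 S' hS') (sq_nonneg _)
  have h3 : ∑ x ∈ prim A Y (SSt P N) κ, hp x.1 * ff fp x.2.2 ^ 2 ≤
      (∑ S ∈ SSt P N, ff fp S ^ 2) * (I * (2 * (τ : ℝ) * N / q * Real.sqrt Y + τ * hp A)) := by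
    rw [← sum_fiberwise_of_maps_to (s := prim A Y (SSt P N) κ) (t := SSt P N)
      (g := fun x => x.2.2) (fun x hx => (hmem x hx).2.2.1), sum_mul]
    refine sum_le_sum fun S hS => ?_
    have h3 : ∀ x ∈ (prim A Y (SSt P N) κ).filter (fun x => x.2.2 = S),
        hp x.1 * ff fp x.2.2 ^ 2 = ff fp S ^ 2 * hp x.1 := by
      intro x hx
      rw [(mem_filter.1 hx).2]
      ring
    rw [sum_congr rfl h3, ← mul_sum]
    exact mul_le_mul_of_nonneg_left (hI2 S hS) (sq_nonneg _)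
  refine h1.trans ?_
  have hE0 : 0 ≤ ∑ S ∈ SSt P N, ff fp S ^ 2 := sum_nonneg fun _ _ => sq_nonneg _
  obtain ⟨X, hX⟩ : ∃ X : ℝ, X = N * Real.sqrt Y / q := ⟨_, rfl⟩
  have hX0 : 0 ≤ X := by rw [hX]; positivity
  have e1 : 4 * (N : ℝ) / q * Real.sqrt Y + 1 * hp A = 4 * X + hp A := by rw [hX]; ring
  have e2 : 2 * (τ : ℝ) * N / q * Real.sqrt Y + τ * hp A = 2 * τ * X + τ * hp A := by
    rw [hX]; ring
  have e3 : 3 * (N : ℝ) * Real.sqrt Y / q = 3 * X := by rw [hX]; ring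
  rw [e1] at h2
  rw [e2] at h3
  rw [e3]
  have h4 : 1 / 2 * ((4 * X + hp A) + (2 * τ * X + τ * hp A)) ≤ τ * (3 * X + hp A) := by
    have k1 : X ≤ τ * X := le_mul_of_one_le_left hX0 hτ1'
    have k2 : hp A ≤ τ * hp A := le_mul_of_one_le_left hpA hτ1'
    linarith
  calc 1 / 2 * (∑ x ∈ prim A Y (SSt P N) κ, hp x.1 * ff fp x.2.1 ^ 2 +
        ∑ x ∈ prim A Y (SSt P N) κ, hp x.1 * ff fp x.2.2 ^ 2)
      ≤ 1 / 2 * ((∑ S ∈ SSt P N, ff fp S ^ 2) * (I * (4 * X + hp A)) +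
        (∑ S ∈ SSt P N, ff fp S ^ 2) * (I * (2 * τ * X + τ * hp A))) := by linarith
    _ = (∑ S ∈ SSt P N, ff fp S ^ 2) * (I *
        (1 / 2 * ((4 * X + hp A) + (2 * τ * X + τ * hp A)))) := by ring
    _ ≤ _ := by
        refine mul_le_mul_of_nonneg_left ?_ hE0
        exact mul_le_mul_of_nonneg_left h4 hI0

theorem gcd_nn {S : Finset ℕ} (hS : ∀ p ∈ S, p.Prime) (a : ℕ) :
    Nat.gcd a (nn S) = nn (S.filter (fun p => p ∣ a)) := by
  have h1 := nn_split S (fun p => p ∣ a)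
  have h2 : nn (S.filter (fun p => p ∣ a)) ∣ a :=
    nn_dvd (fun p hp => hS p (mem_filter.1 hp).1) fun p hp => (mem_filter.1 hp).2
  have h3 : Nat.Coprime (nn (S.filter (fun p => ¬ p ∣ a))) a :=
    nn_coprime (fun p hp => hS p (mem_filter.1 hp).1) fun p hp => (mem_filter.1 hp).2
  rw [h1]
  have h4 := Nat.Coprime.gcd_mul_right_cancel_right (nn (S.filter (fun p => p ∣ a))) h3
  rw [h4]
  exact Nat.gcd_eq_right h2

/-- the large part of a class -/
theorem TL_le {P : Finset ℕ} (hP : ∀ p ∈ P, p.Prime) {fp : ℕ → ℝ} (hf : ∀ p ∈ P, 0 ≤ fp p)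
    {A Y N : ℕ} {C : Finset ℕ} (hC : ∀ c ∈ C, 1 ≤ c ∧ c ≤ Y) (hNq : N < q) (κ : (ZMod q)ˣ) :
    TL A C (SSt P N) fp κ ≤ (∑ J ∈ P.powerset, hp (nn J) * ff fp J) *
      ∑ x ∈ prim A Y (SSt P N) κ, hp x.1 * (ff fp x.2.1 * ff fp x.2.2) := by
  have n1 : ∀ S : Finset ℕ, S ⊆ P → 0 ≤ ff fp S := fun S hS => ff_nonneg fun p hp => hf p (hS hp)
  obtain ⟨F, hF⟩ : ∃ F : (ℕ × Finset ℕ × Finset ℕ) → (Finset ℕ × (ℕ × Finset ℕ × Finset ℕ)),
    F = fun x => (x.2.2.filter (fun p => p ∣ x.1),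
      (x.1 / Nat.gcd x.1 (nn x.2.2), x.2.1, x.2.2.filter (fun p => ¬ p ∣ x.1))) := ⟨_, rfl⟩
  obtain ⟨G, hG⟩ : ∃ G : (Finset ℕ × (ℕ × Finset ℕ × Finset ℕ)) → ℝ,
    G = fun z => (hp (nn z.1) * ff fp z.1) * (hp z.2.1 * (ff fp z.2.2.1 * ff fp z.2.2.2)) :=
    ⟨_, rfl⟩
  have key : ∀ x ∈ clsL A C (SSt P N) κ, (1 ≤ x.1 ∧ x.1 ≤ Y) ∧ x.2.1 ∈ SSt P N ∧
      x.2.2 ∈ SSt P N ∧ A < x.1 / Nat.gcd x.1 (nn x.2.2) ∧
      x.1 = nn (x.2.2.filter (fun p => p ∣ x.1)) * (x.1 / Nat.gcd x.1 (nn x.2.2)) ∧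
      F x ∈ P.powerset ×ˢ prim A Y (SSt P N) κ := by
    intro x hx
    unfold clsL at hx
    rw [mem_filter, not_le] at hx
    obtain ⟨hxc, hxA⟩ := hx
    have hm := hxc
    unfold cls at hm
    rw [mem_filter, mem_product, mem_product] at hm
    obtain ⟨⟨hc, hS', hS⟩, he⟩ := hm
    have hS1 := mem_SSt.1 hS
    have pS : ∀ p ∈ x.2.2, p.Prime := fun p hp => hP p (hS1.1 hp)
    obtain ⟨j, a, m, hj, ha, hm', f1, f2, hcop, f3, f4, f5⟩ :=
      cls_red hP (fun c hc => (hC c hc).1) (fun S hS => mem_SSt.1 hS) hNq hxc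
    have e1 := gcd_nn pS x.1
    have e2 : nn (x.2.2.filter (fun p => p ∣ x.1)) = j := by rw [← e1, ← f3]
    have e3 : nn (x.2.2.filter (fun p => ¬ p ∣ x.1)) = m := by
      have h1 := nn_split x.2.2 (fun p => p ∣ x.1)
      rw [e2, f2] at h1
      exact (Nat.eq_of_mul_eq_mul_left hj h1).symm
    refine ⟨hC _ hc, hS', hS, hxA, ?_, ?_⟩
    · rw [← f4, e2]
      exact f1
    · rw [hF, mem_product, mem_powerset]
      refine ⟨(filter_subset _ _).trans hS1.1, ?_⟩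
      unfold prim
      rw [mem_filter, mem_product, mem_product, mem_Ioc, mem_SSt, mem_SSt]
      simp only
      rw [e3, ← f4]
      rw [← f4] at hxA
      refine ⟨⟨⟨hxA, ?_⟩, mem_SSt.1 hS', (filter_subset _ _).trans hS1.1, ?_⟩, hcop, f5⟩
      · refine le_trans ?_ (hC _ hc).2
        rw [f1]
        exact Nat.le_mul_of_pos_left _ hj
      · refine le_trans ?_ hS1.2
        rw [f2]
        exact Nat.le_mul_of_pos_left _ hj
  have hinj : Set.InjOn F (clsL A C (SSt P N) κ : Set (ℕ × Finset ℕ × Finset ℕ)) := by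
    intro x hx x' hx' h
    rw [mem_coe] at hx hx'
    obtain ⟨-, -, -, -, k1, -⟩ := key x hx
    obtain ⟨-, -, -, -, k2, -⟩ := key x' hx'
    rw [hF] at h
    simp only [Prod.mk.injEq] at h
    obtain ⟨h1, h2, h3, h4⟩ := h
    have e1 : x.1 = x'.1 := by rw [k1, k2, h1, h2]
    have e2 : x.2.2 = x'.2.2 := by
      rw [← filter_union_filter_not_eq (fun p => p ∣ x.1) x.2.2,
        ← filter_union_filter_not_eq (fun p => p ∣ x'.1) x'.2.2, h1, h4]
    exact Prod.ext e1 (Prod.ext h3 e2)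
  have hval : ∀ x ∈ clsL A C (SSt P N) κ,
      (x.1 : ℝ) ^ (-(1 / 2) : ℝ) * (ff fp x.2.1 * ff fp x.2.2) = G (F x) := by
    intro x hx
    obtain ⟨-, -, -, -, k1, -⟩ := key x hx
    have h1 : (x.1 : ℝ) ^ (-(1 / 2) : ℝ) = hp x.1 := rfl
    have h2 : hp x.1 = hp (nn (x.2.2.filter (fun p => p ∣ x.1))) *
        hp (x.1 / Nat.gcd x.1 (nn x.2.2)) := by
      rw [← hp_mul, ← k1]
    have h3 : ff fp x.2.2 = ff fp (x.2.2.filter (fun p => p ∣ x.1)) *
        ff fp (x.2.2.filter (fun p => ¬ p ∣ x.1)) := ff_split fp _ _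
    rw [h1, h2, h3, hG, hF]
    ring
  unfold TL
  calc ∑ x ∈ clsL A C (SSt P N) κ, (x.1 : ℝ) ^ (-(1 / 2) : ℝ) * (ff fp x.2.1 * ff fp x.2.2)
      = ∑ x ∈ clsL A C (SSt P N) κ, G (F x) := sum_congr rfl hval
    _ = ∑ z ∈ (clsL A C (SSt P N) κ).image F, G z := (sum_image hinj).symm
    _ ≤ ∑ z ∈ P.powerset ×ˢ prim A Y (SSt P N) κ, G z := by
        refine sum_le_sum_of_subset_of_nonneg ?_ ?_
        · intro z hz
          rw [mem_image] at hz
          obtain ⟨x, hx, rfl⟩ := hz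
          exact (key x hx).2.2.2.2.2
        · intro z hz _
          rw [mem_product, mem_powerset] at hz
          unfold prim at hz
          rw [mem_filter, mem_product, mem_product, mem_SSt, mem_SSt] at hz
          rw [hG]
          have a1 := n1 _ hz.1
          have a2 := n1 _ hz.2.1.2.1.1
          have a3 := n1 _ hz.2.1.2.2.1
          have a4 := hp_nonneg (nn z.1)
          have a5 := hp_nonneg z.2.1
          positivity
    _ = _ := by
        rw [sum_product, sum_mul_sum]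
        refine sum_congr rfl fun J _ => sum_congr rfl fun x _ => ?_
        rw [hG]

end

end Pool.Agent.Q237.LV
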