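import Pool.Agent.Q237.LV.FamB

/-!
# The number of exceptional cosets
-/

set_option autoImplicit false

namespace Pool.Agent.Q237.LV

open Finset
open scoped Classical

section

variable {q : ℕ} [Fact q.Prime]

theorem markov {ι : Type*} (I : Finset ι) (f : ι → ℝ) (hf : ∀ i ∈ I, 0 ≤ f i) {c : ℝ} (hc : 0 < c) :
    ((I.filter (fun i => c ≤ f i)).card : ℝ) ≤ (∑ i ∈ I, f i) / c := by
  rw [le_div_iff₀ hc]
  calc ((I.filter (fun i => c ≤ f i)).card : ℝ) * c = ∑ i ∈ I.filter (fun i => c ≤ f i), c := by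
        rw [sum_const, nsmul_eq_mul]
    _ ≤ ∑ i ∈ I.filter (fun i => c ≤ f i), f i := sum_le_sum fun i hi => (mem_filter.1 hi).2
    _ ≤ ∑ i ∈ I, f i := sum_le_sum_of_subset_of_nonneg (filter_subset _ _) fun i hi _ => hf i hi

theorem sum_univ_coset (H : Subgroup (DirichletCharacter ℂ q)) (f : DirichletCharacter ℂ q → ℝ) :
    ∑ χ : DirichletCharacter ℂ q, ∑ ψ ∈ hf H, f (χ * ψ) =
      ((hf H).card : ℝ) * ∑ χ : DirichletCharacter ℂ q, f χ := by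
  rw [sum_comm]
  have h1 : ∀ ψ ∈ hf H, ∑ χ : DirichletCharacter ℂ q, f (χ * ψ) = ∑ χ, f χ := fun ψ _ =>
    Fintype.sum_bijective (fun χ => χ * ψ) (Group.mulRight_bijective ψ) _ _ fun χ => rfl
  rw [sum_congr rfl h1, sum_const, nsmul_eq_mul]

/-- the fluctuation of the sum over a coset -/
theorem fluct {y Δ Y N : ℕ} {P : Finset ℕ} (hP : ∀ p ∈ P, p.Prime) (hN : N < q) (fp : ℕ → ℝ)
    (H : Subgroup (DirichletCharacter ℂ q)) :
    ∑ χ : DirichletCharacter ℂ q,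
      ‖∑ ψ ∈ hf H, MM y Δ (χ * ψ) * LL Y (χ * ψ) * ((‖RR N P fp (χ * ψ)‖ ^ 2 : ℝ) : ℂ) -
        (((hf H).card * TT y Δ Y N P fp (1 : (ZMod q)ˣ) : ℝ) : ℂ)‖ ^ 2 =
      ((hf H).card : ℝ) ^ 2 * ((q.totient : ℝ) *
        ∑ κ ∈ (kf H).erase 1, TT y Δ Y N P fp κ ^ 2) := by
  have h1 : ∀ χ : DirichletCharacter ℂ q,
      ‖∑ ψ ∈ hf H, MM y Δ (χ * ψ) * LL Y (χ * ψ) * ((‖RR N P fp (χ * ψ)‖ ^ 2 : ℝ) : ℂ) -
        (((hf H).card * TT y Δ Y N P fp (1 : (ZMod q)ˣ) : ℝ) : ℂ)‖ ^ 2 =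
      ((hf H).card : ℝ) ^ 2 * ‖∑ κ ∈ (kf H).erase 1, χ (κ : ZMod q) *
        ((TT y Δ Y N P fp κ : ℝ) : ℂ)‖ ^ 2 := by
    intro χ
    rw [coset_sum hP hN fp H χ, ← add_sum_erase (kf H) _ (one_mem_kf H), Units.val_one, map_one,
      one_mul]
    have e1 : ((hf H).card : ℂ) * (((TT y Δ Y N P fp (1 : (ZMod q)ˣ) : ℝ) : ℂ) +
        ∑ κ ∈ (kf H).erase 1, χ (κ : ZMod q) * ((TT y Δ Y N P fp κ : ℝ) : ℂ)) -
        (((hf H).card * TT y Δ Y N P fp (1 : (ZMod q)ˣ) : ℝ) : ℂ) =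
        ((hf H).card : ℂ) * ∑ κ ∈ (kf H).erase 1, χ (κ : ZMod q) *
          ((TT y Δ Y N P fp κ : ℝ) : ℂ) := by
      push_cast
      ring
    rw [e1, norm_mul, mul_pow, Complex.norm_natCast]
  rw [sum_congr rfl (fun χ _ => h1 χ), ← mul_sum, parseval]
  congr 2
  refine sum_congr rfl fun κ _ => ?_
  rw [Complex.norm_real, Real.norm_eq_abs, sq_abs]

theorem triv_bound {y Δ Y N : ℕ} {P : Finset ℕ} (hP : ∀ p ∈ P, p.Prime) {fp : ℕ → ℝ}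
    (hf : ∀ p ∈ P, 0 ≤ fp p) (χ : DirichletCharacter ℂ q) :
    ‖MM y Δ χ‖ * ‖LL Y χ‖ * ‖RR N P fp χ‖ ^ 2 ≤
      4 * Real.sqrt Δ * Real.sqrt Y * (N * ∑ S ∈ SSt P N, ff fp S ^ 2) := by
  have h1 : ‖MM y Δ χ‖ ≤ 2 * Real.sqrt Δ := by
    unfold MM
    refine (norm_sum_le _ _).trans (le_trans (sum_le_sum fun E _ => ?_) (sum_DS_hp_le y Δ))
    rw [norm_mul, Complex.norm_real, Real.norm_eq_abs, abs_mul, abs_pow, abs_neg, abs_one, one_pow,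
      one_mul, abs_of_nonneg (hp_nonneg _)]
    exact mul_le_of_le_one_right (hp_nonneg _) (DirichletCharacter.norm_le_one χ _)
  have h2 : ‖LL Y χ‖ ≤ 2 * Real.sqrt Y := by
    unfold LL
    refine (norm_sum_le _ _).trans (le_trans (sum_le_sum fun a _ => ?_) (sum_hp_le Y))
    rw [norm_mul, Complex.norm_real, Real.norm_eq_abs, abs_of_nonneg (hp_nonneg _)]
    exact mul_le_of_le_one_right (hp_nonneg _) (DirichletCharacter.norm_le_one χ _)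
  have h3 : ‖RR N P fp χ‖ ^ 2 ≤ N * ∑ S ∈ SSt P N, ff fp S ^ 2 := by
    refine le_trans ?_ (sum_ff_sq hP fp)
    refine pow_le_pow_left₀ (norm_nonneg _) ?_ 2
    unfold RR
    refine (norm_sum_le _ _).trans (sum_le_sum fun S hS => ?_)
    have h4 : 0 ≤ ff fp S := ff_nonneg fun p hp => hf p ((mem_SSt.1 hS).1 hp)
    rw [norm_mul, Complex.norm_real, Real.norm_eq_abs, abs_of_nonneg h4]
    exact mul_le_of_le_one_right h4 (DirichletCharacter.norm_le_one χ _)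
  calc ‖MM y Δ χ‖ * ‖LL Y χ‖ * ‖RR N P fp χ‖ ^ 2
      ≤ (2 * Real.sqrt Δ) * (2 * Real.sqrt Y) * (N * ∑ S ∈ SSt P N, ff fp S ^ 2) := by
        gcongr
    _ = _ := by ring

/-- the exceptional characters -/
noncomputable def badF (H : Subgroup (DirichletCharacter ℂ q)) (Y : ℕ) (L0 : ℝ) :
    Finset (DirichletCharacter ℂ q) :=
  univ.filter (fun χ => ∀ ψ ∈ hf H, χ * ψ ≠ 1 → ‖LL Y (χ * ψ)‖ ≤ L0)

theorem bad_count {y Δ Y N : ℕ} {P : Finset ℕ} (hP : ∀ p ∈ P, p.Prime) (hy : ∀ p ∈ P, y ≤ p)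
    (hq : Δ * N < q) (hΔ : 1 ≤ Δ) {fp : ℕ → ℝ} (hf0 : ∀ p ∈ P, 0 ≤ fp p)
    (H : Subgroup (DirichletCharacter ℂ q)) {t1 E2 W L0 : ℝ} (ht1 : 0 < t1)
    (hT1 : t1 ≤ TT y Δ Y N P fp (1 : (ZMod q)ˣ)) (hE2 : E2 = ∑ S ∈ SSt P N, ff fp S ^ 2)
    (hE20 : 0 < E2) (hW : 0 < W) (hL00 : 0 ≤ L0)
    (hL0 : L0 * (W * (2 + Real.log Δ) * E2) ≤ t1 / 2) :
    ((badF H Y L0).card : ℝ) ≤ 4 * (q.totient : ℝ) *
        (∑ κ ∈ (kf H).erase 1, TT y Δ Y N P fp κ ^ 2) / t1 ^ 2 + (q.totient : ℝ) / W +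
      (if 4 * Real.sqrt Δ * Real.sqrt Y * (N * E2) ≤ ((hf H).card : ℝ) * t1 / 4 then 0
        else ((hf H).card : ℝ)) := by
  have hNq : N < q := by
    have : 1 * N ≤ Δ * N := Nat.mul_le_mul_right N hΔ
    omega
  have hH0 : (0 : ℝ) < (hf H).card := by exact_mod_cast hf_pos H
  have hlog : 0 ≤ Real.log Δ := Real.log_natCast_nonneg Δ
  obtain ⟨F1, hF1⟩ : ∃ F1 : DirichletCharacter ℂ q → ℝ, F1 = fun χ =>
      ‖∑ ψ ∈ hf H, MM y Δ (χ * ψ) * LL Y (χ * ψ) * ((‖RR N P fp (χ * ψ)‖ ^ 2 : ℝ) : ℂ) -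
        (((hf H).card * TT y Δ Y N P fp (1 : (ZMod q)ˣ) : ℝ) : ℂ)‖ ^ 2 := ⟨_, rfl⟩
  obtain ⟨G2, hG2⟩ : ∃ G2 : DirichletCharacter ℂ q → ℝ, G2 = fun χ =>
      ‖RR N P fp χ‖ ^ 2 + ‖MM y Δ χ‖ ^ 2 * ‖RR N P fp χ‖ ^ 2 := ⟨_, rfl⟩
  obtain ⟨F2, hF2⟩ : ∃ F2 : DirichletCharacter ℂ q → ℝ, F2 = fun χ =>
      ∑ ψ ∈ hf H, G2 (χ * ψ) := ⟨_, rfl⟩
  have hG20 : ∀ χ, 0 ≤ G2 χ := by
    intro χ
    rw [hG2]
    positivity
  have s1 : ∑ χ : DirichletCharacter ℂ q, F1 χ = ((hf H).card : ℝ) ^ 2 * ((q.totient : ℝ) *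
        ∑ κ ∈ (kf H).erase 1, TT y Δ Y N P fp κ ^ 2) := by
    rw [hF1]
    exact fluct hP hNq fp H
  have s2 : ∑ χ : DirichletCharacter ℂ q, F2 χ ≤ ((hf H).card : ℝ) * ((q.totient : ℝ) *
        ((2 + Real.log Δ) * E2)) := by
    rw [hF2]
    simp only
    rw [sum_univ_coset]
    refine mul_le_mul_of_nonneg_left ?_ hH0.le
    rw [hG2]
    simp only
    rw [sum_add_distrib, moment_R hP hNq, moment_MR hP hy hq, ← hE2, ← mul_add]
    refine mul_le_mul_of_nonneg_left ?_ (by positivity)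
    have h1 := mul_le_mul_of_nonneg_right (sum_DS_le y Δ) hE20.le
    linarith
  -- the three exceptional sets
  obtain ⟨B1, hB1⟩ : ∃ B1 : Finset (DirichletCharacter ℂ q), B1 = univ.filter (fun χ =>
      (((hf H).card : ℝ) * t1 / 2) ^ 2 ≤ F1 χ) := ⟨_, rfl⟩
  obtain ⟨B2, hB2⟩ : ∃ B2 : Finset (DirichletCharacter ℂ q), B2 = univ.filter (fun χ =>
      W * (((hf H).card : ℝ) * ((2 + Real.log Δ) * E2)) ≤ F2 χ) := ⟨_, rfl⟩
  obtain ⟨B3, hB3⟩ : ∃ B3 : Finset (DirichletCharacter ℂ q), B3 =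
      if 4 * Real.sqrt Δ * Real.sqrt Y * (N * E2) ≤ ((hf H).card : ℝ) * t1 / 4 then ∅
        else hf H := ⟨_, rfl⟩
  have c1 : (B1.card : ℝ) ≤ 4 * (q.totient : ℝ) *
        (∑ κ ∈ (kf H).erase 1, TT y Δ Y N P fp κ ^ 2) / t1 ^ 2 := by
    rw [hB1]
    refine (markov _ F1 (fun χ _ => by rw [hF1]; positivity) (by positivity)).trans ?_
    rw [s1]
    refine le_of_eq ?_
    field_simp
    ring
  have c2 : (B2.card : ℝ) ≤ (q.totient : ℝ) / W := by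
    rw [hB2]
    refine (markov _ F2 (fun χ _ => by rw [hF2]; exact sum_nonneg fun ψ _ => hG20 _)
      (by positivity)).trans ?_
    rw [div_le_iff₀ (by positivity)]
    refine s2.trans (le_of_eq ?_)
    field_simp
  have c3 : (B3.card : ℝ) ≤ if 4 * Real.sqrt Δ * Real.sqrt Y * (N * E2) ≤
      ((hf H).card : ℝ) * t1 / 4 then 0 else ((hf H).card : ℝ) := by
    rw [hB3]
    split_ifs
    · simp
    · exact le_rfl
  have hsub : badF H Y L0 ⊆ B1 ∪ B2 ∪ B3 := by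
    intro χ hχ
    unfold badF at hχ
    rw [mem_filter] at hχ
    obtain ⟨-, hχ⟩ := hχ
    by_contra hcon
    rw [mem_union, mem_union, not_or, not_or] at hcon
    obtain ⟨⟨n1, n2⟩, n3⟩ := hcon
    rw [hB1, mem_filter, not_and] at n1
    rw [hB2, mem_filter, not_and] at n2
    have n1' := not_le.1 (n1 (mem_univ _))
    have n2' := not_le.1 (n2 (mem_univ _))
    -- the contribution of the principal character
    obtain ⟨tr, htr⟩ : ∃ tr : ℝ, tr = ∑ ψ ∈ (hf H).filter (fun ψ => χ * ψ = 1),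
        ‖MM y Δ (χ * ψ)‖ * ‖LL Y (χ * ψ)‖ * ‖RR N P fp (χ * ψ)‖ ^ 2 := ⟨_, rfl⟩
    have htr1 : tr ≤ ((hf H).card : ℝ) * t1 / 4 := by
      have hcard : ((hf H).filter (fun ψ => χ * ψ = 1)).card ≤ 1 := by
        rw [card_le_one]
        intro ψ hψ ψ' hψ'
        rw [mem_filter] at hψ hψ'
        exact mul_left_cancel (hψ.2.trans hψ'.2.symm)
      by_cases hsm : 4 * Real.sqrt Δ * Real.sqrt Y * (N * E2) ≤ ((hf H).card : ℝ) * t1 / 4
      · refine le_trans ?_ hsm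
        rw [htr]
        refine (sum_le_card_nsmul _ _ (4 * Real.sqrt Δ * Real.sqrt Y * (N * E2))
          (fun ψ _ => ?_)).trans ?_
        · rw [hE2]
          exact triv_bound hP hf0 (χ * ψ)
        · rw [nsmul_eq_mul]
          have h1 : ((((hf H).filter (fun ψ => χ * ψ = 1)).card : ℕ) : ℝ) ≤ 1 := by
            exact_mod_cast hcard
          exact mul_le_of_le_one_left (by positivity) h1
      · rw [hB3, if_neg hsm] at n3
        have h1 : (hf H).filter (fun ψ => χ * ψ = 1) = ∅ := by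
          rw [filter_eq_empty_iff]
          intro ψ hψ h2
          refine n3 (mem_hf.2 ?_)
          have h3 : χ = ψ⁻¹ := eq_inv_of_mul_eq_one_left h2
          rw [h3]
          exact H.inv_mem (mem_hf.1 hψ)
        rw [htr, h1, sum_empty]
        positivity
    have h1 : ‖∑ ψ ∈ hf H, MM y Δ (χ * ψ) * LL Y (χ * ψ) *
        ((‖RR N P fp (χ * ψ)‖ ^ 2 : ℝ) : ℂ)‖ ≤ L0 * (F2 χ / 2) + tr := by
      refine (norm_sum_le _ _).trans ?_
      have h2 : ∀ ψ ∈ hf H, ‖MM y Δ (χ * ψ) * LL Y (χ * ψ) *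
          ((‖RR N P fp (χ * ψ)‖ ^ 2 : ℝ) : ℂ)‖ =
          ‖MM y Δ (χ * ψ)‖ * ‖LL Y (χ * ψ)‖ * ‖RR N P fp (χ * ψ)‖ ^ 2 := by
        intro ψ _
        rw [norm_mul, norm_mul, Complex.norm_real, Real.norm_eq_abs,
          abs_of_nonneg (by positivity : 0 ≤ ‖RR N P fp (χ * ψ)‖ ^ 2)]
      rw [sum_congr rfl h2, ← sum_filter_add_sum_filter_not (hf H) (fun ψ => χ * ψ = 1), ← htr,
        add_comm]
      refine add_le_add ?_ le_rfl
      have h3 : ∀ ψ ∈ (hf H).filter (fun ψ => ¬ χ * ψ = 1),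
          ‖MM y Δ (χ * ψ)‖ * ‖LL Y (χ * ψ)‖ * ‖RR N P fp (χ * ψ)‖ ^ 2 ≤
          L0 * (G2 (χ * ψ) / 2) := by
        intro ψ hψ
        rw [mem_filter] at hψ
        have h4 := hχ ψ hψ.1 hψ.2
        have h5 : ‖MM y Δ (χ * ψ)‖ * ‖RR N P fp (χ * ψ)‖ ^ 2 ≤ G2 (χ * ψ) / 2 := by
          rw [hG2]
          simp only
          have h6 : ‖MM y Δ (χ * ψ)‖ ≤ (1 + ‖MM y Δ (χ * ψ)‖ ^ 2) / 2 := by
            nlinarith [sq_nonneg (‖MM y Δ (χ * ψ)‖ - 1)]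
          have h7 : 0 ≤ ‖RR N P fp (χ * ψ)‖ ^ 2 := by positivity
          nlinarith
        calc ‖MM y Δ (χ * ψ)‖ * ‖LL Y (χ * ψ)‖ * ‖RR N P fp (χ * ψ)‖ ^ 2
            = ‖LL Y (χ * ψ)‖ * (‖MM y Δ (χ * ψ)‖ * ‖RR N P fp (χ * ψ)‖ ^ 2) := by ring
          _ ≤ L0 * (G2 (χ * ψ) / 2) :=
              mul_le_mul h4 h5 (by positivity) hL00
      refine (sum_le_sum h3).trans ?_
      rw [← mul_sum]
      refine mul_le_mul_of_nonneg_left ?_ hL00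
      rw [← sum_div, hF2]
      simp only
      refine div_le_div_of_nonneg_right ?_ (by norm_num)
      exact sum_le_sum_of_subset_of_nonneg (filter_subset _ _) fun ψ _ _ => hG20 _
    have h2 : ‖∑ ψ ∈ hf H, MM y Δ (χ * ψ) * LL Y (χ * ψ) * ((‖RR N P fp (χ * ψ)‖ ^ 2 : ℝ) : ℂ) -
        (((hf H).card * TT y Δ Y N P fp (1 : (ZMod q)ˣ) : ℝ) : ℂ)‖ < ((hf H).card : ℝ) * t1 / 2 := by
      rw [hF1] at n1'
      exact lt_of_pow_lt_pow_left₀ 2 (by positivity) n1'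
    have h3 : ((hf H).card : ℝ) * TT y Δ Y N P fp (1 : (ZMod q)ˣ) ≤
        ‖∑ ψ ∈ hf H, MM y Δ (χ * ψ) * LL Y (χ * ψ) * ((‖RR N P fp (χ * ψ)‖ ^ 2 : ℝ) : ℂ)‖ +
        ‖∑ ψ ∈ hf H, MM y Δ (χ * ψ) * LL Y (χ * ψ) * ((‖RR N P fp (χ * ψ)‖ ^ 2 : ℝ) : ℂ) -
        (((hf H).card * TT y Δ Y N P fp (1 : (ZMod q)ˣ) : ℝ) : ℂ)‖ := by
      have h4 : ‖(((hf H).card * TT y Δ Y N P fp (1 : (ZMod q)ˣ) : ℝ) : ℂ)‖ =
          ((hf H).card : ℝ) * TT y Δ Y N P fp (1 : (ZMod q)ˣ) := by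
        rw [Complex.norm_real, Real.norm_eq_abs, abs_of_nonneg]
        have := ht1.le.trans hT1
        positivity
      refine h4.symm.trans_le ?_
      refine le_trans (le_of_eq ?_) (norm_sub_le _ _)
      rw [sub_sub_cancel]
    have h5 : ((hf H).card : ℝ) * t1 ≤ ((hf H).card : ℝ) * TT y Δ Y N P fp (1 : (ZMod q)ˣ) :=
      mul_le_mul_of_nonneg_left hT1 hH0.le
    have h6 : L0 * (F2 χ / 2) ≤ ((hf H).card : ℝ) * t1 / 4 := by
      have h7 : L0 * F2 χ ≤ L0 * (W * (((hf H).card : ℝ) * ((2 + Real.log Δ) * E2))) :=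
        mul_le_mul_of_nonneg_left n2'.le hL00
      have h8 : L0 * (W * (((hf H).card : ℝ) * ((2 + Real.log Δ) * E2))) =
          ((hf H).card : ℝ) * (L0 * (W * (2 + Real.log Δ) * E2)) := by
        rw [mul_left_comm W, mul_left_comm L0, mul_assoc W]
      have h9 : ((hf H).card : ℝ) * (L0 * (W * (2 + Real.log Δ) * E2)) ≤
          ((hf H).card : ℝ) * (t1 / 2) := mul_le_mul_of_nonneg_left hL0 hH0.le
      clear hL0 h3 h2 h1 htr1 htr n1' n2' n1 n2 c1 c2 c3 s1 s2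
      linarith only [h7, h8, h9]
    linarith only [h1, h2, h3, h5, h6, htr1]
  have hcard : ((badF H Y L0).card : ℝ) ≤ B1.card + B2.card + B3.card := by
    have h1 := card_le_card hsub
    have h2 := card_union_le (B1 ∪ B2) B3
    have h3 := card_union_le B1 B2
    have h4 : (badF H Y L0).card ≤ B1.card + B2.card + B3.card := by omega
    exact_mod_cast h4
  linarith

end

end Pool.Agent.Q237.LV
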