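import Pool.Agent.Q237.LV.B3
import Pool.Agent.Q237.LV.Count

/-!
# Sums over a single coset: the conclusion
-/

set_option autoImplicit false

namespace Pool.Agent.Q237.LV

open Finset
open scoped Classical

section

variable {q : ℕ} [Fact q.Prime]

theorem cls_nonneg {P : Finset ℕ} {fp : ℕ → ℝ} (hf : ∀ p ∈ P, 0 ≤ fp p) {N : ℕ} {C : Finset ℕ}
    {κ : (ZMod q)ˣ} {T : Finset (ℕ × Finset ℕ × Finset ℕ)} (hT : T ⊆ cls C (SSt P N) κ) :
    0 ≤ ∑ x ∈ T, (x.1 : ℝ) ^ (-(1 / 2) : ℝ) * (ff fp x.2.1 * ff fp x.2.2) := by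
  refine sum_nonneg fun x hx => ?_
  have hx' := hT hx
  unfold cls at hx'
  rw [mem_filter, mem_product, mem_product, mem_SSt, mem_SSt] at hx'
  have n1 : ∀ S : Finset ℕ, S ⊆ P → 0 ≤ ff fp S := fun S hS => ff_nonneg fun p hp => hf p (hS hp)
  have a1 := n1 _ hx'.1.2.1.1
  have a2 := n1 _ hx'.1.2.2.1
  positivity

theorem DD_mono {P : Finset ℕ} {fp : ℕ → ℝ} (hf : ∀ p ∈ P, 0 ≤ fp p) :
    ∑ J ∈ P.powerset, hp (nn J) * ff fp J ≤ DD P fp := by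
  rw [DD_eq]
  have h1 : ∑ J ∈ P.powerset, hp (nn J) * ff fp J = ∑ J ∈ P.powerset, ∏ p ∈ J, hp p * fp p := by
    refine sum_congr rfl fun J _ => ?_
    rw [prod_mul_distrib, prod_hp]
    rfl
  rw [h1, ← prod_one_add]
  refine prod_le_prod (fun p hm => ?_) fun p hm => ?_
  · have := hf p hm
    have := hp_nonneg p
    positivity
  · have h2 := hf p hm
    have h3 := hp_nonneg p
    have : fp p * (fp p + hp p) = fp p ^ 2 + hp p * fp p := by ring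
    rw [this]
    have := sq_nonneg (fp p)
    linarith

theorem combineB {P Q : Finset ℕ} (hP : ∀ p ∈ P, p.Prime) (hQ : ∀ p ∈ Q, p.Prime)
    (hPQ : ∀ p ∈ P, p ∉ Q) {fp : ℕ → ℝ} (hf0 : ∀ p ∈ P, 0 ≤ fp p) {β : ℝ} (hβ1 : β ≤ 1 / 2)
    (hfβ : ∀ p ∈ P, fp p ≤ (p : ℝ) ^ (-β)) {A Y N τ : ℕ} (hA : 1 ≤ A) (hN : 1 ≤ N) (hNY : N ≤ Y)
    (hq : A * N * N < q) (hτ1 : 1 ≤ τ)
    (hτ : ∀ w : ℕ, 1 ≤ w → w ≤ 2 * Y * N → w.divisors.card ≤ τ)
    (H : Subgroup (DirichletCharacter ℂ q)) (χ : DirichletCharacter ℂ q)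
    (g : (ZMod q)ˣ → ℝ) (hg0 : ∀ κ, 0 ≤ g κ)
    (hg : ∀ κ ∈ kf H, κ ≠ 1 → ∀ U V : ℕ, 1 ≤ U → 1 ≤ V → U ≤ A * N → V ≤ N → Nat.Coprime U V →
      ¬ (U = 1 ∧ V = 1) → (∀ p ∈ Q, ¬ p ∣ U) → (∀ p ∈ Q, ¬ p ∣ V) →
      (κ : ZMod q) * (V : ZMod q) = (U : ZMod q) →
      (U.divisors.card : ℝ) * ((U : ℝ) ^ (-β) * (V : ℝ) ^ (-β)) ≤ g κ)
    (hgs : ∑ κ ∈ (kf H).erase 1, g κ ≤ 1 / 20)
    (hDN : DD P fp / 2 ≤ DN N P fp)
    (hlarge : ((kf H).card : ℝ) * ((∑ S ∈ SSt P N, ff fp S ^ 2) *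
      (((Nat.log 2 Y + 1 : ℕ) : ℝ) * ((τ : ℝ) * (3 * N * Real.sqrt Y / q + hp A)))) ≤ 1 / 20)
    (hpr : 40 * Real.sqrt Y * N ≤ ((hf H).card : ℝ)) {G : ℝ} (hG0 : 0 ≤ G)
    (hG : (∑ S ∈ SSt P N, ff fp S ^ 2) * Real.exp G ≤ DD P fp) :
    ∃ ψ ∈ hf H, χ * ψ ≠ 1 ∧ Real.exp G / 4 ≤ ‖LC (CQ Q Y) (χ * ψ)‖ := by
  by_contra hcon
  push Not at hcon
  have hNNq : N * N < q := by
    refine lt_of_le_of_lt ?_ hq
    calc N * N = 1 * N * N := by ring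
      _ ≤ A * N * N := Nat.mul_le_mul_right N (Nat.mul_le_mul_right N hA)
  have hNq : N < q := lt_of_le_of_lt (Nat.le_mul_of_pos_right _ hN) hNNq
  have hH0 : (0 : ℝ) < (hf H).card := by exact_mod_cast hf_pos H
  obtain ⟨E2, hE2⟩ : ∃ E2 : ℝ, E2 = ∑ S ∈ SSt P N, ff fp S ^ 2 := ⟨_, rfl⟩
  rw [← hE2] at hlarge hG
  have hempty : (∅ : Finset ℕ) ∈ SSt P N := by
    rw [mem_SSt]
    refine ⟨empty_subset _, ?_⟩
    unfold nn
    simpa using hN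
  have hE20 : 0 < E2 := by
    rw [hE2]
    refine lt_of_lt_of_le one_pos ?_
    refine le_trans ?_ (single_le_sum (f := fun S => ff fp S ^ 2) (fun S _ => sq_nonneg _) hempty)
    unfold ff
    simp
  have hE2D : E2 ≤ DD P fp := le_trans (le_mul_of_one_le_right hE20.le (Real.one_le_exp hG0)) hG
  have hD0 : 0 < DD P fp := lt_of_lt_of_le hE20 hE2D
  have hCpos : ∀ c ∈ CQ Q Y, 1 ≤ c := fun c hc => (mem_CQ.1 hc).1.1
  have hCbd : ∀ c ∈ CQ Q Y, 1 ≤ c ∧ c ≤ Y := fun c hc => (mem_CQ.1 hc).1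
  -- the small parts
  have hTS : ∀ κ ∈ (kf H).erase 1, TS A (CQ Q Y) (SSt P N) fp κ ≤ DD P fp * g κ := by
    intro κ hκ
    rw [mem_erase] at hκ
    rcases TS_bound hP hf0 hβ1 hfβ hCpos (fun S hS => mem_SSt.1 hS) hA hq κ hκ.1 with h | h
    · rw [h]
      exact mul_nonneg hD0.le (hg0 κ)
    · obtain ⟨U, V, hU, hV, hUA, hVN, hUV, hκUV, hne, hpU, hpV, hT⟩ := h
      refine hT.trans (mul_le_mul_of_nonneg_left ?_ hD0.le)
      refine hg κ hκ.2 hκ.1 U V hU hV hUA hVN hUV hne ?_ ?_ hκUV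
      · intro p hpQ hpU'
        rcases hpU p (hQ p hpQ) hpU' with h | ⟨c, hc, h⟩
        · exact hPQ p h hpQ
        · exact (mem_CQ.1 hc).2 p hpQ h
      · intro p hpQ hpV'
        exact hPQ p (hpV p (hQ p hpQ) hpV') hpQ
  have hTS0 : ∀ κ : (ZMod q)ˣ, 0 ≤ TS A (CQ Q Y) (SSt P N) fp κ := fun κ =>
    cls_nonneg hf0 (filter_subset _ _)
  have hTL0 : ∀ κ : (ZMod q)ˣ, 0 ≤ TL A (CQ Q Y) (SSt P N) fp κ := fun κ =>
    cls_nonneg hf0 (filter_subset _ _)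
  have hTSs : ∑ κ ∈ (kf H).erase 1, TS A (CQ Q Y) (SSt P N) fp κ ≤ DD P fp / 20 := by
    refine (sum_le_sum hTS).trans ?_
    rw [← mul_sum]
    have := mul_le_mul_of_nonneg_left hgs hD0.le
    linarith
  -- the resonator
  have hR2 : ∀ κ ∈ (kf H).erase 1, Ts {1} (SSt P N) fp κ ≤ E2 * g κ := by
    intro κ hκ
    rw [mem_erase] at hκ
    rcases R2_bound hP hf0 hfβ hNNq κ hκ.1 with h | h
    · rw [h]
      exact mul_nonneg hE20.le (hg0 κ)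
    · obtain ⟨U, V, hU, hV, hUA, hVN, hUV, hκUV, hne, hpU, hpV, hT⟩ := h
      rw [← hE2] at hT
      refine hT.trans (mul_le_mul_of_nonneg_left ?_ hE20.le)
      have h1 := hg κ hκ.2 hκ.1 U V hU hV (hUA.trans (Nat.le_mul_of_pos_left _ hA)) hVN hUV hne
        (fun p hpQ hd => hPQ p (hpU p (hQ p hpQ) hd) hpQ)
        (fun p hpQ hd => hPQ p (hpV p (hQ p hpQ) hd) hpQ) hκUV
      refine le_trans ?_ h1
      have h2 : (1 : ℝ) ≤ (U.divisors.card : ℝ) := by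
        have : 0 < U.divisors.card := card_pos.2 ⟨1, Nat.one_mem_divisors.2 (by omega)⟩
        exact_mod_cast this
      exact le_mul_of_one_le_left (by positivity) h2
  have hR20 : ∀ κ : (ZMod q)ˣ, 0 ≤ Ts {1} (SSt P N) fp κ := fun κ =>
    cls_nonneg hf0 (Subset.refl _)
  have hR2s : ∑ κ ∈ (kf H).erase 1, Ts {1} (SSt P N) fp κ ≤ E2 / 20 := by
    refine (sum_le_sum hR2).trans ?_
    rw [← mul_sum]
    have := mul_le_mul_of_nonneg_left hgs hE20.le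
    linarith
  have hS2 : ∑ ψ ∈ hf H, ‖RR N P fp (χ * ψ)‖ ^ 2 ≤ ((hf H).card : ℝ) * (E2 * (21 / 20)) := by
    have h1 := coset_sumC hP hNq fp {1} H χ
    have h2 : ∀ ψ : DirichletCharacter ℂ q, LC {1} ψ = 1 := by
      intro ψ
      unfold LC hp
      rw [sum_singleton]
      simp
    have h3 : ∑ ψ ∈ hf H, LC {1} (χ * ψ) * ((‖RR N P fp (χ * ψ)‖ ^ 2 : ℝ) : ℂ) =
        ((∑ ψ ∈ hf H, ‖RR N P fp (χ * ψ)‖ ^ 2 : ℝ) : ℂ) := by
      rw [Complex.ofReal_sum]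
      exact sum_congr rfl fun ψ _ => by rw [h2, one_mul]
    rw [h3] at h1
    have h4 : ∑ ψ ∈ hf H, ‖RR N P fp (χ * ψ)‖ ^ 2 =
        ‖((∑ ψ ∈ hf H, ‖RR N P fp (χ * ψ)‖ ^ 2 : ℝ) : ℂ)‖ := by
      rw [Complex.norm_real, Real.norm_eq_abs, abs_of_nonneg]
      exact sum_nonneg fun _ _ => by positivity
    rw [h4, h1, norm_mul, Complex.norm_natCast]
    refine mul_le_mul_of_nonneg_left ?_ hH0.le
    refine (norm_sum_le _ _).trans ?_
    have h5 : ∀ κ ∈ kf H, ‖χ (κ : ZMod q) * ((Ts {1} (SSt P N) fp κ : ℝ) : ℂ)‖ ≤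
        Ts {1} (SSt P N) fp κ := by
      intro κ _
      rw [norm_mul, Complex.norm_real, Real.norm_eq_abs, abs_of_nonneg (hR20 κ)]
      exact mul_le_of_le_one_left (hR20 κ) (DirichletCharacter.norm_le_one χ _)
    refine (sum_le_sum h5).trans ?_
    rw [← add_sum_erase (kf H) _ (one_mem_kf H), R2_one hP hNq, ← hE2]
    linarith
  -- the large part
  have hTLs : ∑ κ ∈ kf H, TL A (CQ Q Y) (SSt P N) fp κ ≤ DD P fp / 20 := by
    have h1 : ∀ κ ∈ kf H, TL A (CQ Q Y) (SSt P N) fp κ ≤ DD P fp * (E2 *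
        (((Nat.log 2 Y + 1 : ℕ) : ℝ) * ((τ : ℝ) * (3 * N * Real.sqrt Y / q + hp A)))) := by
      intro κ _
      refine (TL_le hP hf0 hCbd hNq κ).trans ?_
      have h2 := prim_sum hP hf0 hA hτ1 hNq hτ κ
      rw [← hE2] at h2
      refine mul_le_mul (DD_mono hf0) h2 ?_ hD0.le
      refine sum_nonneg fun x hx => ?_
      unfold prim at hx
      rw [mem_filter, mem_product, mem_product, mem_SSt, mem_SSt] at hx
      have a1 : 0 ≤ ff fp x.2.1 := ff_nonneg fun p hp => hf0 p (hx.1.2.1.1 hp)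
      have a2 : 0 ≤ ff fp x.2.2 := ff_nonneg fun p hp => hf0 p (hx.1.2.2.1 hp)
      have a3 := hp_nonneg x.1
      positivity
    refine (sum_le_sum h1).trans ?_
    rw [sum_const, nsmul_eq_mul]
    have h2 := mul_le_mul_of_nonneg_left hlarge hD0.le
    calc ((kf H).card : ℝ) * (DD P fp * (E2 *
        (((Nat.log 2 Y + 1 : ℕ) : ℝ) * ((τ : ℝ) * (3 * N * Real.sqrt Y / q + hp A)))))
        = DD P fp * (((kf H).card : ℝ) * (E2 *
        (((Nat.log 2 Y + 1 : ℕ) : ℝ) * ((τ : ℝ) * (3 * N * Real.sqrt Y / q + hp A))))) := by ring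
      _ ≤ DD P fp * (1 / 20) := h2
      _ = _ := by ring
  -- the main sum from below
  have hlow : ((hf H).card : ℝ) * (DD P fp * (2 / 5)) ≤
      ‖∑ ψ ∈ hf H, LC (CQ Q Y) (χ * ψ) * ((‖RR N P fp (χ * ψ)‖ ^ 2 : ℝ) : ℂ)‖ := by
    rw [coset_sumC hP hNq fp (CQ Q Y) H χ, norm_mul, Complex.norm_natCast]
    refine mul_le_mul_of_nonneg_left ?_ hH0.le
    rw [← add_sum_erase (kf H) _ (one_mem_kf H), Units.val_one, map_one, one_mul]
    have h1 : ‖∑ κ ∈ (kf H).erase 1, χ (κ : ZMod q) *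
        ((Ts (CQ Q Y) (SSt P N) fp κ : ℝ) : ℂ)‖ ≤
        ∑ κ ∈ (kf H).erase 1, Ts (CQ Q Y) (SSt P N) fp κ := by
      refine (norm_sum_le _ _).trans (sum_le_sum fun κ _ => ?_)
      have h2 : 0 ≤ Ts (CQ Q Y) (SSt P N) fp κ := cls_nonneg hf0 (Subset.refl _)
      rw [norm_mul, Complex.norm_real, Real.norm_eq_abs, abs_of_nonneg h2]
      exact mul_le_of_le_one_left h2 (DirichletCharacter.norm_le_one χ _)
    have h2 : ‖((Ts (CQ Q Y) (SSt P N) fp (1 : (ZMod q)ˣ) : ℝ) : ℂ)‖ =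
        Ts (CQ Q Y) (SSt P N) fp (1 : (ZMod q)ˣ) := by
      rw [Complex.norm_real, Real.norm_eq_abs, abs_of_nonneg]
      exact cls_nonneg hf0 (Subset.refl _)
    have h3 := norm_sub_norm_le ((Ts (CQ Q Y) (SSt P N) fp (1 : (ZMod q)ˣ) : ℝ) : ℂ)
      (-(∑ κ ∈ (kf H).erase 1, χ (κ : ZMod q) * ((Ts (CQ Q Y) (SSt P N) fp κ : ℝ) : ℂ)))
    rw [sub_neg_eq_add, norm_neg, h2] at h3
    have h4 : ∑ κ ∈ (kf H).erase 1, Ts (CQ Q Y) (SSt P N) fp κ =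
        ∑ κ ∈ (kf H).erase 1, TS A (CQ Q Y) (SSt P N) fp κ +
        ∑ κ ∈ (kf H).erase 1, TL A (CQ Q Y) (SSt P N) fp κ := by
      rw [← sum_add_distrib]
      exact sum_congr rfl fun κ _ => Ts_eq A _ _ _ κ
    have h5 : Ts (CQ Q Y) (SSt P N) fp (1 : (ZMod q)ˣ) =
        TS A (CQ Q Y) (SSt P N) fp (1 : (ZMod q)ˣ) + TL A (CQ Q Y) (SSt P N) fp (1 : (ZMod q)ˣ) :=
      Ts_eq A _ _ _ _
    have h6 := TS_one (q := q) (A := A) (Y := Y) hP hQ hPQ hf0 hNY hA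
    have h7 := hTL0 (1 : (ZMod q)ˣ)
    have h8 : ∑ κ ∈ (kf H).erase 1, TL A (CQ Q Y) (SSt P N) fp κ ≤ DD P fp / 20 :=
      (sum_le_sum_of_subset_of_nonneg (erase_subset _ _) fun κ _ _ => hTL0 κ).trans hTLs
    linarith
  -- the main sum from above
  have hup : ‖∑ ψ ∈ hf H, LC (CQ Q Y) (χ * ψ) * ((‖RR N P fp (χ * ψ)‖ ^ 2 : ℝ) : ℂ)‖ ≤
      Real.exp G / 4 * (((hf H).card : ℝ) * (E2 * (21 / 20))) + 2 * Real.sqrt Y * (N * E2) := by
    refine (norm_sum_le _ _).trans ?_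
    have h1 : ∀ ψ ∈ hf H, ‖LC (CQ Q Y) (χ * ψ) * ((‖RR N P fp (χ * ψ)‖ ^ 2 : ℝ) : ℂ)‖ ≤
        Real.exp G / 4 * ‖RR N P fp (χ * ψ)‖ ^ 2 +
        if ψ = χ⁻¹ then 2 * Real.sqrt Y * (N * E2) else 0 := by
      intro ψ hψ
      rw [norm_mul, Complex.norm_real, Real.norm_eq_abs, abs_of_nonneg (by positivity :
        (0 : ℝ) ≤ ‖RR N P fp (χ * ψ)‖ ^ 2)]
      by_cases h : χ * ψ = 1
      · have h2 : ψ = χ⁻¹ := eq_inv_of_mul_eq_one_right h
        rw [if_pos h2]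
        have h3 : ‖LC (CQ Q Y) (χ * ψ)‖ ≤ 2 * Real.sqrt Y := by
          unfold LC
          refine (norm_sum_le _ _).trans (le_trans (sum_le_sum fun a _ => ?_) (le_trans
            (sum_le_sum_of_subset_of_nonneg (filter_subset _ _) fun _ _ _ => hp_nonneg _)
            (sum_hp_le Y)))
          rw [norm_mul, Complex.norm_real, Real.norm_eq_abs, abs_of_nonneg (hp_nonneg _)]
          exact mul_le_of_le_one_right (hp_nonneg _) (DirichletCharacter.norm_le_one _ _)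
        have h4 : ‖RR N P fp (χ * ψ)‖ ^ 2 ≤ N * E2 := by
          rw [hE2]
          refine le_trans ?_ (sum_ff_sq hP fp)
          refine pow_le_pow_left₀ (norm_nonneg _) ?_ 2
          unfold RR
          refine (norm_sum_le _ _).trans (sum_le_sum fun S hS => ?_)
          have h4 : 0 ≤ ff fp S := ff_nonneg fun p hp => hf0 p ((mem_SSt.1 hS).1 hp)
          rw [norm_mul, Complex.norm_real, Real.norm_eq_abs, abs_of_nonneg h4]
          exact mul_le_of_le_one_right h4 (DirichletCharacter.norm_le_one _ _)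
        have h5 : ‖LC (CQ Q Y) (χ * ψ)‖ * ‖RR N P fp (χ * ψ)‖ ^ 2 ≤
            2 * Real.sqrt Y * (N * E2) := mul_le_mul h3 h4 (by positivity) (by positivity)
        have h6 : 0 ≤ Real.exp G / 4 * ‖RR N P fp (χ * ψ)‖ ^ 2 := by positivity
        linarith
      · have h2 := (hcon ψ hψ h).le
        have h3 : ‖LC (CQ Q Y) (χ * ψ)‖ * ‖RR N P fp (χ * ψ)‖ ^ 2 ≤
            Real.exp G / 4 * ‖RR N P fp (χ * ψ)‖ ^ 2 :=
          mul_le_mul_of_nonneg_right h2 (by positivity)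
        have h4 : (0 : ℝ) ≤ if ψ = χ⁻¹ then 2 * Real.sqrt Y * (N * E2) else 0 := by
          split_ifs <;> positivity
        linarith
    refine (sum_le_sum h1).trans ?_
    rw [sum_add_distrib, ← mul_sum, sum_ite_eq' (hf H)]
    refine add_le_add (mul_le_mul_of_nonneg_left hS2 (by positivity)) ?_
    split_ifs
    · exact le_rfl
    · positivity
  have h1 : 2 * Real.sqrt Y * (N * E2) ≤ ((hf H).card : ℝ) * (DD P fp / 20) := by
    calc 2 * Real.sqrt Y * (N * E2) = (40 * Real.sqrt Y * N) * (E2 / 20) := by ring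
      _ ≤ ((hf H).card : ℝ) * (DD P fp / 20) := by gcongr
  have h2 : Real.exp G / 4 * (((hf H).card : ℝ) * (E2 * (21 / 20))) ≤
      ((hf H).card : ℝ) * (DD P fp * (21 / 80)) := by
    calc Real.exp G / 4 * (((hf H).card : ℝ) * (E2 * (21 / 20)))
        = ((hf H).card : ℝ) * ((E2 * Real.exp G) * (21 / 80)) := by ring
      _ ≤ _ := by gcongr
  have h3 : ((hf H).card : ℝ) * (DD P fp * (2 / 5)) ≤
      ((hf H).card : ℝ) * (DD P fp * (21 / 80)) + ((hf H).card : ℝ) * (DD P fp / 20) :=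
    hlow.trans (hup.trans (add_le_add h2 h1))
  have h4 : 0 < ((hf H).card : ℝ) * DD P fp := by positivity
  nlinarith only [h3, h4]

end

end Pool.Agent.Q237.LV
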