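import Pool.Agent.Q237.LV.Fam
import Pool.Agent.H307R2.LU
import Pool.Agent.H38R2.CG.PV

/-!
# Approximation of the central value
-/

set_option autoImplicit false

namespace Pool.Agent.Q237.LV

open Finset
open scoped Classical

theorem Ech_bound {q : ℕ} [NeZero q] {χ : DirichletCharacter ℂ q} (hq : 2 ≤ q) (hχ : χ ≠ 1)
    (N : ℕ) (t : ℝ) :
    ‖Pool.Agent.H307R2.Ech χ N t‖ ≤ 8 * Real.sqrt q * (1 + Real.log q) := by
  have hlog : 0 ≤ Real.log q := Real.log_natCast_nonneg q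
  unfold Pool.Agent.H307R2.Ech
  rcases le_total N ⌊t⌋₊ with h | h
  · have h1 : ∑ k ∈ Ioc N ⌊t⌋₊, χ (k : ZMod q) =
        ∑ k ∈ Icc 1 ⌊t⌋₊, χ (k : ZMod q) - ∑ k ∈ Icc 1 N, χ (k : ZMod q) := by
      have h2 : Icc 1 ⌊t⌋₊ = Icc 1 N ∪ Ioc N ⌊t⌋₊ := by
        ext k
        simp only [mem_Icc, mem_union, mem_Ioc]
        omega
      have h3 : Disjoint (Icc 1 N) (Ioc N ⌊t⌋₊) := by
        rw [Finset.disjoint_left]
        intro k h4 h5
        rw [mem_Icc] at h4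
        rw [mem_Ioc] at h5
        omega
      rw [h2, sum_union h3]
      ring
    rw [h1]
    have h2 := Pool.Agent.H38R2.CG.PVh.sum_le q χ hq hχ ⌊t⌋₊
    have h3 := Pool.Agent.H38R2.CG.PVh.sum_le q χ hq hχ N
    refine (norm_sub_le _ _).trans ?_
    linarith
  · rw [Ioc_eq_empty_of_le h, sum_empty, norm_zero]
    positivity

theorem hp_cpow {n : ℕ} (hn : 1 ≤ n) : ((hp n : ℝ) : ℂ) = (n : ℂ) ^ (-(1 / 2 : ℂ)) := by
  unfold hp
  rw [Complex.ofReal_cpow (by positivity)]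
  push_cast
  rfl

theorem L_approx {q : ℕ} [Fact q.Prime] {χ : DirichletCharacter ℂ q} (hχ : χ ≠ 1) {Y : ℕ}
    (hY : 1 ≤ Y) :
    ‖χ.LFunction (1 / 2) - LL Y χ‖ ≤ 8 * Real.sqrt q * (1 + Real.log q) / Real.sqrt Y := by
  have hs : (0 : ℝ) < (1 / 2 : ℂ).re := by norm_num
  have h1 := Pool.Agent.H307R2.LFunction_eq hχ hY hs
  have h2 := Pool.Agent.H307R2.TM_norm_le hY
    (Ech_bound (Fact.out : q.Prime).two_le hχ Y) hs
  have h3 : LL Y χ = ∑ n ∈ Icc 1 Y, χ (n : ZMod q) * (n : ℂ) ^ (-(1 / 2 : ℂ)) := by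
    unfold LL
    refine sum_congr rfl fun n hn => ?_
    rw [hp_cpow (mem_Icc.1 hn).1, mul_comm]
  rw [h3, h1, add_sub_cancel_left, norm_mul]
  have h4 : (1 / 2 : ℂ).re = 1 / 2 := by norm_num
  rw [h4] at h2
  have h5 : ‖(1 / 2 : ℂ)‖ = 1 / 2 := by norm_num
  rw [h5]
  have h6 : (Y : ℝ) ^ (-(1 / 2) : ℝ) = 1 / Real.sqrt Y := by
    rw [Real.rpow_neg (by positivity), ← Real.sqrt_eq_rpow, one_div]
  rw [h6] at h2
  calc 1 / 2 * ‖Pool.Agent.H307R2.TM Y (Pool.Agent.H307R2.Ech χ Y) (1 / 2)‖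
      ≤ 1 / 2 * (8 * Real.sqrt q * (1 + Real.log q) * (1 / Real.sqrt Y / (1 / 2))) := by
        gcongr
    _ = _ := by ring

end Pool.Agent.Q237.LV
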