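import Pool.Agent.Q237.LV.B4
import Pool.Agent.Q237.LV.Lap

/-!
# The truncated series without small primes against the central value
-/

set_option autoImplicit false

namespace Pool.Agent.Q237.LV

open Finset
open scoped Classical

section

variable {q : ℕ} [Fact q.Prime]

/-- the finite Euler product -/
noncomputable def EP (Q : Finset ℕ) (χ : DirichletCharacter ℂ q) : ℂ :=
  ∏ p ∈ Q, (1 - ((hp p : ℝ) : ℂ) * χ ((p : ℕ) : ZMod q))

theorem LC_insert {Q : Finset ℕ} (hQ : ∀ p ∈ Q, p.Prime) {p : ℕ} (hp' : p.Prime) (hpQ : p ∉ Q)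
    (χ : DirichletCharacter ℂ q) (Y : ℕ) :
    LC (CQ (insert p Q) Y) χ = LC (CQ Q Y) χ -
      ((hp p : ℝ) : ℂ) * χ ((p : ℕ) : ZMod q) * LC (CQ Q (Y / p)) χ := by
  rw [eq_sub_iff_add_eq]
  unfold LC
  have h1 : CQ (insert p Q) Y = (CQ Q Y).filter (fun a => ¬ p ∣ a) := by
    ext a
    rw [mem_filter, mem_CQ, mem_CQ]
    constructor
    · rintro ⟨h1, h2⟩
      exact ⟨⟨h1, fun l hl => h2 l (mem_insert_of_mem hl)⟩, h2 p (mem_insert_self p Q)⟩
    · rintro ⟨⟨h1, h2⟩, h3⟩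
      refine ⟨h1, fun l hl => ?_⟩
      rcases mem_insert.1 hl with h | h
      · rw [h]
        exact h3
      · exact h2 l h
  have h2 : ((hp p : ℝ) : ℂ) * χ ((p : ℕ) : ZMod q) *
      ∑ a ∈ CQ Q (Y / p), ((hp a : ℝ) : ℂ) * χ ((a : ℕ) : ZMod q) =
      ∑ a ∈ (CQ Q Y).filter (fun a => p ∣ a), ((hp a : ℝ) : ℂ) * χ ((a : ℕ) : ZMod q) := by
    rw [mul_sum]
    symm
    refine sum_nbij' (fun a => a / p) (fun b => p * b) ?_ ?_ ?_ ?_ ?_
    · intro a ha
      rw [mem_filter, mem_CQ] at ha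
      obtain ⟨⟨h3, h4⟩, b, rfl⟩ := ha
      rw [Nat.mul_div_cancel_left _ hp'.pos, mem_CQ]
      have hb : 0 < b := by
        rcases Nat.eq_zero_or_pos b with h | h
        · rw [h, mul_zero] at h3
          omega
        · exact h
      refine ⟨⟨hb, ?_⟩, fun l hl hd => h4 l hl (Dvd.dvd.mul_left hd p)⟩
      rw [Nat.le_div_iff_mul_le hp'.pos, mul_comm]
      exact h3.2
    · intro b hb
      rw [mem_CQ] at hb
      rw [mem_filter, mem_CQ]
      refine ⟨⟨⟨Nat.mul_pos hp'.pos hb.1.1, ?_⟩, fun l hl hd => ?_⟩, dvd_mul_right _ _⟩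
      · have h3 := hb.1.2
        rw [Nat.le_div_iff_mul_le hp'.pos, mul_comm] at h3
        exact h3
      · rcases ((hQ l hl).dvd_mul).1 hd with h | h
        · have h4 := (Nat.prime_dvd_prime_iff_eq (hQ l hl) hp').1 h
          rw [h4] at hl
          exact hpQ hl
        · exact hb.2 l hl h
    · intro a ha
      rw [mem_filter] at ha
      exact Nat.mul_div_cancel' ha.2
    · intro b _
      exact Nat.mul_div_cancel_left _ hp'.pos
    · intro a ha
      rw [mem_filter] at ha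
      obtain ⟨b, rfl⟩ := ha.2
      rw [Nat.mul_div_cancel_left _ hp'.pos, hp_mul]
      push_cast
      rw [map_mul]
      ring
  rw [h1, h2, add_comm]
  exact sum_filter_add_sum_filter_not _ _ _

theorem LC_approx {χ : DirichletCharacter ℂ q} (hχ : χ ≠ 1) (Q : Finset ℕ)
    (hQ : ∀ p ∈ Q, p.Prime) :
    ∀ Z : ℝ, 0 < Z → ‖LC (CQ Q ⌊Z⌋₊) χ - EP Q χ * χ.LFunction (1 / 2)‖ ≤
      2 ^ Q.card * (24 * Real.sqrt q * (1 + Real.log q) / Real.sqrt Z) := by
  have hq1 : (1 : ℝ) ≤ q := by exact_mod_cast (Fact.out : q.Prime).one_lt.le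
  have hlq : 0 ≤ Real.log q := Real.log_nonneg hq1
  have hsq : 1 ≤ Real.sqrt q := by
    rw [Real.one_le_sqrt]
    exact hq1
  have hE1 : 1 ≤ Real.sqrt q * (1 + Real.log q) := by nlinarith
  induction Q using Finset.induction_on with
  | empty =>
    intro Z hZ
    have hCQ : ∀ Y : ℕ, CQ ∅ Y = Icc 1 Y := by
      intro Y
      ext a
      rw [mem_CQ, mem_Icc]
      simp
    have hEP : EP ∅ χ = 1 := by
      unfold EP
      simp
    rw [hCQ, hEP, one_mul, card_empty, pow_zero, one_mul]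
    have hLC : ∀ Y : ℕ, LC (Icc 1 Y) χ = LL Y χ := fun Y => rfl
    rw [hLC]
    have hsZ : 0 < Real.sqrt Z := Real.sqrt_pos.2 hZ
    by_cases h1 : 1 ≤ Z
    · have h2 : 1 ≤ ⌊Z⌋₊ := Nat.le_floor (by exact_mod_cast h1)
      have h3 := L_approx hχ h2
      rw [norm_sub_rev] at h3
      refine h3.trans ?_
      have h4 : Z / 2 ≤ (⌊Z⌋₊ : ℕ) := by
        have h5 := Nat.lt_floor_add_one Z
        have h6 : (1 : ℝ) ≤ (⌊Z⌋₊ : ℕ) := by exact_mod_cast h2
        linarith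
      have h5 : Real.sqrt Z / 2 ≤ Real.sqrt (⌊Z⌋₊ : ℕ) := by
        refine Real.le_sqrt_of_sq_le ?_
        rw [div_pow, Real.sq_sqrt hZ.le]
        linarith
      calc 8 * Real.sqrt q * (1 + Real.log q) / Real.sqrt (⌊Z⌋₊ : ℕ)
          ≤ 8 * Real.sqrt q * (1 + Real.log q) / (Real.sqrt Z / 2) := by
            exact div_le_div_of_nonneg_left (by positivity) (by positivity) h5
        _ = 16 * Real.sqrt q * (1 + Real.log q) / Real.sqrt Z := by
            field_simp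
            ring
        _ ≤ _ := by gcongr; norm_num
    · push Not at h1
      have h2 : ⌊Z⌋₊ = 0 := Nat.floor_eq_zero.2 h1
      rw [h2]
      have h3 : LL 0 χ = 0 := by
        unfold LL
        simp
      rw [h3, zero_sub, norm_neg]
      have h4 := L_approx hχ (le_refl 1)
      have h5 : LL 1 χ = 1 := by
        unfold LL hp
        simp
      rw [h5, Nat.cast_one, Real.sqrt_one, div_one] at h4
      have h6 : ‖χ.LFunction (1 / 2)‖ ≤ 8 * Real.sqrt q * (1 + Real.log q) + 1 := by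
        have h7 := norm_sub_norm_le (χ.LFunction (1 / 2)) 1
        rw [norm_one] at h7
        linarith
      have h7 : Real.sqrt Z ≤ 1 := by
        rw [Real.sqrt_le_left (by norm_num)]
        linarith
      rw [le_div_iff₀ hsZ]
      calc ‖χ.LFunction (1 / 2)‖ * Real.sqrt Z ≤ ‖χ.LFunction (1 / 2)‖ * 1 := by gcongr
        _ ≤ 8 * Real.sqrt q * (1 + Real.log q) + 1 := by rw [mul_one]; exact h6
        _ ≤ _ := by nlinarith
  | insert p Q hpQ ih =>
    intro Z hZ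
    have hQ' : ∀ l ∈ Q, l.Prime := fun l hl => hQ l (mem_insert_of_mem hl)
    have hp' : p.Prime := hQ p (mem_insert_self p Q)
    have hp0 : (0 : ℝ) < p := by exact_mod_cast hp'.pos
    have h1 := ih hQ' Z hZ
    have h2 := ih hQ' (Z / p) (by positivity)
    rw [Nat.floor_div_natCast] at h2
    rw [LC_insert hQ' hp' hpQ, card_insert_of_notMem hpQ]
    have h3 : EP (insert p Q) χ = (1 - ((hp p : ℝ) : ℂ) * χ ((p : ℕ) : ZMod q)) * EP Q χ := by
      unfold EP
      rw [prod_insert hpQ]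
    rw [h3]
    obtain ⟨E, hE⟩ : ∃ E : ℝ, E = 24 * Real.sqrt q * (1 + Real.log q) := ⟨_, rfl⟩
    rw [← hE] at h1 h2 ⊢
    have h4 : LC (CQ Q ⌊Z⌋₊) χ - ((hp p : ℝ) : ℂ) * χ ((p : ℕ) : ZMod q) *
        LC (CQ Q (⌊Z⌋₊ / p)) χ -
        (1 - ((hp p : ℝ) : ℂ) * χ ((p : ℕ) : ZMod q)) * EP Q χ * χ.LFunction (1 / 2) =
        (LC (CQ Q ⌊Z⌋₊) χ - EP Q χ * χ.LFunction (1 / 2)) -
        ((hp p : ℝ) : ℂ) * χ ((p : ℕ) : ZMod q) *
        (LC (CQ Q (⌊Z⌋₊ / p)) χ - EP Q χ * χ.LFunction (1 / 2)) := by ring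
    rw [h4]
    refine (norm_sub_le _ _).trans ?_
    have h5 : ‖((hp p : ℝ) : ℂ) * χ ((p : ℕ) : ZMod q) *
        (LC (CQ Q (⌊Z⌋₊ / p)) χ - EP Q χ * χ.LFunction (1 / 2))‖ ≤
        2 ^ Q.card * (E / Real.sqrt Z) := by
      rw [norm_mul, norm_mul, Complex.norm_real, Real.norm_eq_abs, abs_of_nonneg (hp_nonneg _)]
      calc hp p * ‖χ ((p : ℕ) : ZMod q)‖ *
          ‖LC (CQ Q (⌊Z⌋₊ / p)) χ - EP Q χ * χ.LFunction (1 / 2)‖
          ≤ hp p * 1 * (2 ^ Q.card * (E / Real.sqrt (Z / p))) := by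
            have := hp_nonneg p
            have := DirichletCharacter.norm_le_one χ ((p : ℕ) : ZMod q)
            gcongr
        _ = 2 ^ Q.card * (E / Real.sqrt Z) := by
            rw [hp_eq, Real.sqrt_div hZ.le]
            have h6 : Real.sqrt (p : ℝ) ≠ 0 := (Real.sqrt_pos.2 hp0).ne'
            field_simp
    calc ‖LC (CQ Q ⌊Z⌋₊) χ - EP Q χ * χ.LFunction (1 / 2)‖ +
        ‖((hp p : ℝ) : ℂ) * χ ((p : ℕ) : ZMod q) *
        (LC (CQ Q (⌊Z⌋₊ / p)) χ - EP Q χ * χ.LFunction (1 / 2))‖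
        ≤ 2 ^ Q.card * (E / Real.sqrt Z) + 2 ^ Q.card * (E / Real.sqrt Z) := add_le_add h1 h5
      _ = _ := by ring

theorem sum_hp_set (Q : Finset ℕ) (hQ : ∀ p ∈ Q, 1 ≤ p) :
    ∑ p ∈ Q, hp p ≤ ∑ j ∈ Icc 1 Q.card, hp j := by
  induction Q using Finset.induction_on_max with
  | empty => simp
  | insert a s has ih =>
    have hna : a ∉ s := fun h => lt_irrefl _ (has a h)
    rw [sum_insert hna, card_insert_of_notMem hna, sum_Icc_succ_top (by omega), add_comm]
    have h1 := ih fun p hp => hQ p (mem_insert_of_mem hp)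
    have h2 : s.card + 1 ≤ a := by
      have h3 : s ⊆ Icc 1 (a - 1) := by
        intro x hx
        rw [mem_Icc]
        exact ⟨hQ x (mem_insert_of_mem hx), by have := has x hx; omega⟩
      have h4 := card_le_card h3
      rw [Nat.card_Icc] at h4
      have := hQ a (mem_insert_self a s)
      omega
    exact add_le_add h1 (hp_anti (by omega) h2)

theorem EP_norm (Q : Finset ℕ) (hQ : ∀ p ∈ Q, p.Prime) (χ : DirichletCharacter ℂ q) :
    ‖EP Q χ‖ ≤ Real.exp (2 * Real.sqrt Q.card) := by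
  unfold EP
  rw [norm_prod]
  have h1 : ∀ p ∈ Q, ‖1 - ((hp p : ℝ) : ℂ) * χ ((p : ℕ) : ZMod q)‖ ≤ Real.exp (hp p) := by
    intro p _
    refine (norm_sub_le _ _).trans ?_
    rw [norm_one, norm_mul, Complex.norm_real, Real.norm_eq_abs, abs_of_nonneg (hp_nonneg _)]
    have h2 := DirichletCharacter.norm_le_one χ ((p : ℕ) : ZMod q)
    have h3 := hp_nonneg p
    have h4 := Real.add_one_le_exp (hp p)
    have h5 : hp p * ‖χ ((p : ℕ) : ZMod q)‖ ≤ hp p := mul_le_of_le_one_right h3 h2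
    linarith
  refine (prod_le_prod (fun p _ => norm_nonneg _) h1).trans ?_
  rw [← Real.exp_sum]
  refine Real.exp_le_exp.2 ?_
  exact (sum_hp_set Q fun p hp => (hQ p hp).one_lt.le).trans (sum_hp_le _)

end

end Pool.Agent.Q237.LV
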