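import Pool.Agent.Q237.LV.Cnt

/-!
# A small set of primes meeting all the small relations
-/

set_option autoImplicit false

namespace Pool.Agent.Q237.LV

open Finset
open scoped Classical

/-- triangular systems have distinct partial products -/
theorem tri_aux {r : ℕ} (p U V : ℕ → ℕ) (hp : ∀ i < r, (p i).Prime)
    (hU : ∀ i < r, 0 < U i) (hV : ∀ i < r, 0 < V i)
    (hUV : ∀ i < r, Nat.Coprime (U i) (V i)) (hd : ∀ i < r, p i ∣ U i ∨ p i ∣ V i)
    (htri : ∀ i j, i < j → j < r → ¬ p i ∣ U j ∧ ¬ p i ∣ V j)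
    (I J : Finset ℕ) (hI : I ⊆ range r) (hJ : J ⊆ range r)
    (h : (∏ i ∈ I, U i) * (∏ i ∈ J, V i) = (∏ i ∈ J, U i) * (∏ i ∈ I, V i))
    (i0 : ℕ) (hi0 : i0 ∈ I \ J) (hmin : ∀ j ∈ I \ J ∪ J \ I, i0 ≤ j) : False := by
  have hi0I := (mem_sdiff.1 hi0).1
  have hi0J := (mem_sdiff.1 hi0).2
  have hi0r : i0 < r := mem_range.1 (hI hi0I)
  have e : ∀ (A B : Finset ℕ) (f : ℕ → ℕ), (∏ i ∈ A, f i) =
      (∏ i ∈ A \ B, f i) * ∏ i ∈ A ∩ B, f i := by
    intro A B f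
    rw [← prod_union (disjoint_sdiff_inter A B), sdiff_union_inter]
  have hcU : 0 < ∏ i ∈ I ∩ J, U i :=
    prod_pos fun i hi => hU i (mem_range.1 (hI (mem_inter.1 hi).1))
  have hcV : 0 < ∏ i ∈ I ∩ J, V i :=
    prod_pos fun i hi => hV i (mem_range.1 (hI (mem_inter.1 hi).1))
  have h1 : (∏ i ∈ I \ J, U i) * (∏ i ∈ J \ I, V i) = (∏ i ∈ J \ I, U i) * (∏ i ∈ I \ J, V i) := by
    rw [e I J U, e J I V, e J I U, e I J V, inter_comm J I] at h
    refine Nat.eq_of_mul_eq_mul_right (Nat.mul_pos hcU hcV) ?_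
    calc (∏ i ∈ I \ J, U i) * (∏ i ∈ J \ I, V i) * ((∏ i ∈ I ∩ J, U i) * ∏ i ∈ I ∩ J, V i)
        = ((∏ i ∈ I \ J, U i) * ∏ i ∈ I ∩ J, U i) * ((∏ i ∈ J \ I, V i) * ∏ i ∈ I ∩ J, V i) := by
          ring
      _ = _ := h
      _ = _ := by ring
  have hpp := hp i0 hi0r
  have hnJ : ∀ j ∈ J \ I, ¬ p i0 ∣ U j ∧ ¬ p i0 ∣ V j := by
    intro j hj
    have h2 := hmin j (mem_union_right _ hj)
    have h3 : i0 ≠ j := by
      intro h4
      rw [← h4] at hj
      exact hi0J (mem_sdiff.1 hj).1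
    exact htri i0 j (by omega) (mem_range.1 (hJ (mem_sdiff.1 hj).1))
  have hnI : ∀ j ∈ I \ J, j ≠ i0 → ¬ p i0 ∣ U j ∧ ¬ p i0 ∣ V j := by
    intro j hj hne
    have h2 := hmin j (mem_union_left _ hj)
    exact htri i0 j (by omega) (mem_range.1 (hI (mem_sdiff.1 hj).1))
  have hpr : ∀ (A : Finset ℕ) (f : ℕ → ℕ), p i0 ∣ ∏ i ∈ A, f i → ∃ i ∈ A, p i0 ∣ f i :=
    fun A f hd => (Prime.dvd_finsetProd_iff hpp.prime f).1 hd
  have hcop := hUV i0 hi0r
  rcases hd i0 hi0r with h2 | h2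
  · have h3 : p i0 ∣ (∏ i ∈ J \ I, U i) * (∏ i ∈ I \ J, V i) := by
      rw [← h1]
      exact Dvd.dvd.mul_right (h2.trans (dvd_prod_of_mem U hi0)) _
    rcases (Nat.Prime.dvd_mul hpp).1 h3 with h4 | h4
    · obtain ⟨j, hj, hj2⟩ := hpr _ _ h4
      exact (hnJ j hj).1 hj2
    · obtain ⟨j, hj, hj2⟩ := hpr _ _ h4
      by_cases h5 : j = i0
      · rw [h5] at hj2
        have := Nat.dvd_gcd h2 hj2
        rw [hcop] at this
        exact hpp.one_lt.ne' (Nat.dvd_one.1 this)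
      · exact (hnI j hj h5).2 hj2
  · have h3 : p i0 ∣ (∏ i ∈ I \ J, U i) * (∏ i ∈ J \ I, V i) := by
      rw [h1]
      exact Dvd.dvd.mul_left (h2.trans (dvd_prod_of_mem V hi0)) _
    rcases (Nat.Prime.dvd_mul hpp).1 h3 with h4 | h4
    · obtain ⟨j, hj, hj2⟩ := hpr _ _ h4
      by_cases h5 : j = i0
      · rw [h5] at hj2
        have := Nat.dvd_gcd hj2 h2
        rw [hcop] at this
        exact hpp.one_lt.ne' (Nat.dvd_one.1 this)
      · exact (hnI j hj h5).1 hj2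
    · obtain ⟨j, hj, hj2⟩ := hpr _ _ h4
      exact (hnJ j hj).2 hj2

theorem tri_inj {r : ℕ} (p U V : ℕ → ℕ) (hp : ∀ i < r, (p i).Prime)
    (hU : ∀ i < r, 0 < U i) (hV : ∀ i < r, 0 < V i)
    (hUV : ∀ i < r, Nat.Coprime (U i) (V i)) (hd : ∀ i < r, p i ∣ U i ∨ p i ∣ V i)
    (htri : ∀ i j, i < j → j < r → ¬ p i ∣ U j ∧ ¬ p i ∣ V j)
    (I J : Finset ℕ) (hI : I ⊆ range r) (hJ : J ⊆ range r)
    (h : (∏ i ∈ I, U i) * (∏ i ∈ J, V i) = (∏ i ∈ J, U i) * (∏ i ∈ I, V i)) : I = J := by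
  by_contra hne
  have hne' : (I \ J ∪ J \ I).Nonempty := by
    rw [nonempty_iff_ne_empty]
    intro h1
    rw [union_eq_empty, sdiff_eq_empty_iff_subset, sdiff_eq_empty_iff_subset] at h1
    exact hne (Subset.antisymm h1.1 h1.2)
  have h1 := min'_mem _ hne'
  have h2 : ∀ j ∈ I \ J ∪ J \ I, (I \ J ∪ J \ I).min' hne' ≤ j := fun j hj => min'_le _ j hj
  rcases mem_union.1 h1 with h3 | h3
  · exact tri_aux p U V hp hU hV hUV hd htri I J hI hJ h _ h3 h2
  · exact tri_aux p U V hp hU hV hUV hd htri J I hJ hI h.symm _ h3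
      (fun j hj => h2 j (by rwa [union_comm]))

section

variable {q : ℕ} [Fact q.Prime]

/-- the relations of bounded height -/
def Rel (K : Subgroup (ZMod q)ˣ) (X : ℕ) (U V : ℕ) : Prop :=
  1 ≤ U ∧ 1 ≤ V ∧ U * V ≤ X ∧ Nat.Coprime U V ∧ ¬ (U = 1 ∧ V = 1) ∧
    ∃ κ ∈ K, (κ : ZMod q) * (V : ZMod q) = (U : ZMod q)

/-- triangular systems of relations -/
def Tri (K : Subgroup (ZMod q)ˣ) (X r : ℕ) : Prop :=
  ∃ p U V : ℕ → ℕ, (∀ i < r, (p i).Prime ∧ Rel K X (U i) (V i) ∧ (p i ∣ U i ∨ p i ∣ V i)) ∧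
    ∀ i j, i < j → j < r → ¬ p i ∣ U j ∧ ¬ p i ∣ V j

theorem tri_injOn {r : ℕ} (p U V : ℕ → ℕ) (hd : ∀ i < r, p i ∣ U i ∨ p i ∣ V i)
    (htri : ∀ i j, i < j → j < r → ¬ p i ∣ U j ∧ ¬ p i ∣ V j) :
    Set.InjOn p (range r : Set ℕ) := by
  have h1 : ∀ i j, i < j → j < r → p i ≠ p j := by
    intro i j hij hj h
    rcases hd j hj with h2 | h2
    · exact (htri i j hij hj).1 (h ▸ h2)
    · exact (htri i j hij hj).2 (h ▸ h2)
  intro i hi j hj h
  rw [mem_coe, mem_range] at hi hj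
  rcases lt_trichotomy i j with h2 | h2 | h2
  · exact absurd h (h1 i j h2 hj)
  · exact h2
  · exact absurd h.symm (h1 j i h2 hi)

theorem tri_le {K : Subgroup (ZMod q)ˣ} {X r : ℕ} (h : Tri K X r) : r ≤ X := by
  obtain ⟨p, U, V, h1, h2⟩ := h
  have h3 := tri_injOn p U V (fun i hi => (h1 i hi).2.2) h2
  have h4 : (range r).card ≤ (Icc 1 X).card := by
    refine card_le_card_of_injOn p ?_ h3
    intro i hi
    rw [mem_coe, mem_range] at hi
    obtain ⟨k1, ⟨k2, k3, k4, -⟩, k5⟩ := h1 i hi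
    rw [mem_coe, mem_Icc]
    refine ⟨k1.one_lt.le, ?_⟩
    rcases k5 with k5 | k5
    · exact (Nat.le_of_dvd k2 k5).trans ((Nat.le_mul_of_pos_right _ k3).trans k4)
    · exact (Nat.le_of_dvd k3 k5).trans ((Nat.le_mul_of_pos_left _ k2).trans k4)
  rwa [card_range, Nat.card_Icc, Nat.add_sub_cancel] at h4

theorem tri_choose {K : Subgroup (ZMod q)ˣ} {X r : ℕ} (h : Tri K X r) {s : ℕ}
    (hs : X ^ (2 * s) < q) : r.choose s ≤ Nat.card K := by
  obtain ⟨p, U, V, h1, h2⟩ := h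
  have h3 : ∀ i : ℕ, ∃ κ : (ZMod q)ˣ, i < r → κ ∈ K ∧ (κ : ZMod q) * (V i : ZMod q) = (U i : ZMod q) := by
    intro i
    by_cases hi : i < r
    · obtain ⟨κ, hκ, hκ2⟩ := (h1 i hi).2.1.2.2.2.2.2
      exact ⟨κ, fun _ => ⟨hκ, hκ2⟩⟩
    · exact ⟨1, fun h => absurd h hi⟩
  choose κ hκ using h3
  rw [card_sub]
  have h4 : ((range r).powersetCard s).card = r.choose s := by
    rw [card_powersetCard, card_range]
  rw [← h4]
  refine card_le_card_of_injOn (fun I => ∏ i ∈ I, κ i) ?_ ?_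
  · intro I hI
    rw [mem_coe, mem_powersetCard] at hI
    rw [mem_coe, mem_filter]
    refine ⟨mem_univ _, ?_⟩
    exact Subgroup.prod_mem _ fun i hi => (hκ i (mem_range.1 (hI.1 hi))).1
  · intro I hI J hJ h
    rw [mem_coe, mem_powersetCard] at hI hJ
    simp only at h
    have hprod : ∀ A ⊆ range r, ((∏ i ∈ A, κ i : (ZMod q)ˣ) : ZMod q) *
        ((∏ i ∈ A, V i : ℕ) : ZMod q) = ((∏ i ∈ A, U i : ℕ) : ZMod q) := by
      intro A hA
      push_cast
      rw [← prod_mul_distrib]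
      exact prod_congr rfl fun i hi => (hκ i (mem_range.1 (hA hi))).2
    have hbd : ∀ A ⊆ range r, A.card = s → ∏ i ∈ A, U i ≤ X ^ s ∧ ∏ i ∈ A, V i ≤ X ^ s := by
      intro A hA hc
      constructor
      · rw [← hc, ← prod_const]
        refine prod_le_prod' fun i hi => ?_
        obtain ⟨k2, k3, k4, -⟩ := (h1 i (mem_range.1 (hA hi))).2.1
        exact (Nat.le_mul_of_pos_right _ k3).trans k4
      · rw [← hc, ← prod_const]
        refine prod_le_prod' fun i hi => ?_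
        obtain ⟨k2, k3, k4, -⟩ := (h1 i (mem_range.1 (hA hi))).2.1
        exact (Nat.le_mul_of_pos_left _ k2).trans k4
    have e1 := hprod I hI.1
    have e2 := hprod J hJ.1
    have e3 : (((∏ i ∈ I, U i) * (∏ i ∈ J, V i) : ℕ) : ZMod q) =
        (((∏ i ∈ J, U i) * (∏ i ∈ I, V i) : ℕ) : ZMod q) := by
      rw [Nat.cast_mul, Nat.cast_mul, ← e1, ← e2, h]
      ring
    have b1 := hbd I hI.1 hI.2
    have b2 := hbd J hJ.1 hJ.2
    have hXX : X ^ s * X ^ s < q := by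
      rw [← pow_add]
      convert hs using 2
      ring
    have c1 : (∏ i ∈ I, U i) * (∏ i ∈ J, V i) ≤ X ^ s * X ^ s := Nat.mul_le_mul b1.1 b2.2
    have c2 : (∏ i ∈ J, U i) * (∏ i ∈ I, V i) ≤ X ^ s * X ^ s := Nat.mul_le_mul b2.1 b1.2
    have e4 := (ZMod.natCast_eq_natCast_iff' _ _ q).1 e3
    rw [Nat.mod_eq_of_lt (by omega), Nat.mod_eq_of_lt (by omega)] at e4
    exact tri_inj p U V (fun i hi => (h1 i hi).1) (fun i hi => (h1 i hi).2.1.1)
      (fun i hi => (h1 i hi).2.1.2.1) (fun i hi => (h1 i hi).2.1.2.2.2.1)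
      (fun i hi => (h1 i hi).2.2) h2 I J hI.1 hJ.1 e4

/-- a set of primes meeting all the relations of bounded height -/
theorem hitting (K : Subgroup (ZMod q)ˣ) (X : ℕ) : ∃ Q : Finset ℕ, (∀ p ∈ Q, p.Prime) ∧
    (∀ U V : ℕ, Rel K X U V → ∃ p ∈ Q, p ∣ U ∨ p ∣ V) ∧
    ∀ s : ℕ, X ^ (2 * s) < q → Q.card.choose s ≤ Nat.card K := by
  have h0 : Tri K X 0 := ⟨fun _ => 0, fun _ => 0, fun _ => 0, fun i hi => absurd hi (by omega),
    fun i j _ hj => absurd hj (by omega)⟩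
  have hr := Nat.findGreatest_spec (P := Tri K X) (n := X) (Nat.zero_le X) h0
  have hmax : ∀ k, Nat.findGreatest (Tri K X) X < k → ¬ Tri K X k := by
    intro k hk hT
    exact Nat.findGreatest_is_greatest hk (tri_le hT) hT
  obtain ⟨r, hrr⟩ : ∃ r : ℕ, r = Nat.findGreatest (Tri K X) X := ⟨_, rfl⟩
  rw [← hrr] at hr hmax
  have hr' := hr
  obtain ⟨p, U, V, h1, h2⟩ := hr
  have h3 := tri_injOn p U V (fun i hi => (h1 i hi).2.2) h2
  refine ⟨(range r).image p, ?_, ?_, ?_⟩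
  · intro l hl
    rw [mem_image] at hl
    obtain ⟨i, hi, rfl⟩ := hl
    exact (h1 i (mem_range.1 hi)).1
  · intro U0 V0 hR
    by_contra hcon
    push Not at hcon
    have hR' := hR
    obtain ⟨k1, k2, k3, k4, k5, k6⟩ := hR'
    have hex : ∃ l : ℕ, l.Prime ∧ (l ∣ U0 ∨ l ∣ V0) := by
      by_cases h4 : U0 = 1
      · have h5 : V0 ≠ 1 := fun h => k5 ⟨h4, h⟩
        exact ⟨V0.minFac, Nat.minFac_prime h5, Or.inr (Nat.minFac_dvd V0)⟩
      · exact ⟨U0.minFac, Nat.minFac_prime h4, Or.inl (Nat.minFac_dvd U0)⟩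
    obtain ⟨l, hl, hl2⟩ := hex
    refine hmax (r + 1) (by omega) ⟨fun i => if i = r then l else p i,
      fun i => if i = r then U0 else U i, fun i => if i = r then V0 else V i, ?_, ?_⟩
    · intro i hi
      by_cases h4 : i = r
      · simp only [if_pos h4]
        exact ⟨hl, hR, hl2⟩
      · simp only [if_neg h4]
        exact h1 i (by omega)
    · intro i j hij hj
      have h4 : i ≠ r := by omega
      by_cases h5 : j = r
      · simp only [if_neg h4, if_pos h5]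
        exact hcon (p i) (mem_image_of_mem p (mem_range.2 (by omega)))
      · simp only [if_neg h4, if_neg h5]
        exact h2 i j hij (by omega)
  · intro s hs
    rw [card_image_of_injOn h3, card_range]
    exact tri_choose hr' hs

end

/-- the size of the set -/
theorem choose_bound {r s k : ℕ} (hs : 1 ≤ s) (h : r.choose s ≤ k) (hk : 1 ≤ k) :
    (r : ℝ) ≤ 2 * s * (k : ℝ) ^ (1 / (s : ℝ)) := by
  have hs0 : (0 : ℝ) < s := by exact_mod_cast hs
  have hk1 : (1 : ℝ) ≤ k := by exact_mod_cast hk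
  have hk2 : (1 : ℝ) ≤ (k : ℝ) ^ (1 / (s : ℝ)) := Real.one_le_rpow hk1 (by positivity)
  by_cases hr : r ≤ 2 * s
  · have h1 : (r : ℝ) ≤ 2 * s := by exact_mod_cast hr
    refine h1.trans ?_
    exact le_mul_of_one_le_right (by positivity) hk2
  · push Not at hr
    have h1 := Nat.pow_le_choose (α := ℝ) s r
    have h2 : (s.factorial : ℝ) ≤ (s : ℝ) ^ s := by exact_mod_cast Nat.factorial_le_pow s
    have h3 : ((r : ℝ) / 2) ^ s ≤ ((r + 1 - s : ℕ) : ℝ) ^ s := by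
      refine pow_le_pow_left₀ (by positivity) ?_ s
      rw [div_le_iff₀ (by norm_num)]
      have : r ≤ (r + 1 - s) * 2 := by omega
      exact_mod_cast this
    have h4 : ((r : ℝ) / (2 * s)) ^ s ≤ k := by
      have h5 : ((r : ℝ) / (2 * s)) ^ s = ((r : ℝ) / 2) ^ s / (s : ℝ) ^ s := by
        rw [← div_pow]
        congr 1
        field_simp
      rw [h5]
      calc ((r : ℝ) / 2) ^ s / (s : ℝ) ^ s ≤ ((r + 1 - s : ℕ) : ℝ) ^ s / (s.factorial : ℝ) := by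
            gcongr
        _ ≤ (r.choose s : ℝ) := h1
        _ ≤ k := by exact_mod_cast h
    have h5 : (r : ℝ) / (2 * s) ≤ (k : ℝ) ^ (1 / (s : ℝ)) := by
      have h6 := Real.rpow_le_rpow (by positivity) h4 (by positivity : (0 : ℝ) ≤ 1 / (s : ℝ))
      rwa [← Real.rpow_natCast, ← Real.rpow_mul (by positivity), mul_one_div_cancel hs0.ne',
        Real.rpow_one] at h6
    rw [div_le_iff₀ (by positivity)] at h5
    linarith

end Pool.Agent.Q237.LV
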