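import Pool.Agent.Q237.LV.Ana

/-!
# Sharp estimates for the resonator
-/

set_option autoImplicit false

namespace Pool.Agent.Q237.LV

open Finset
open scoped Classical

/-- the primes of an interval -/
noncomputable def Pw (a b : ℕ) : Finset ℕ := (Ioc a b).filter Nat.Prime

theorem mem_Pw {a b p : ℕ} : p ∈ Pw a b ↔ (a < p ∧ p ≤ b) ∧ p.Prime := by
  unfold Pw
  rw [mem_filter, mem_Ioc]

theorem Pw_split (F : ℕ → ℝ) {t M W : ℕ} (ht : 1 ≤ t) (hMW : M ≤ W) :
    ∑ p ∈ Pw (t ^ M) (t ^ W), F p = ∑ n ∈ Ico M W, ∑ p ∈ Pw (t ^ n) (t ^ (n + 1)), F p := by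
  induction W, hMW using Nat.le_induction with
  | base =>
    rw [Ico_self, sum_empty]
    unfold Pw
    rw [Ioc_self, filter_empty, sum_empty]
  | succ W hMW ih =>
    rw [sum_Ico_succ_top hMW, ← ih]
    have h1 : Pw (t ^ M) (t ^ (W + 1)) = Pw (t ^ M) (t ^ W) ∪ Pw (t ^ W) (t ^ (W + 1)) := by
      ext p
      rw [mem_union, mem_Pw, mem_Pw, mem_Pw]
      have h2 : t ^ M ≤ t ^ W := Nat.pow_le_pow_right ht hMW
      have h3 : t ^ W ≤ t ^ (W + 1) := Nat.pow_le_pow_right ht (Nat.le_succ W)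
      constructor
      · rintro ⟨⟨h4, h5⟩, h6⟩
        by_cases h7 : p ≤ t ^ W
        · exact Or.inl ⟨⟨h4, h7⟩, h6⟩
        · exact Or.inr ⟨⟨by omega, h5⟩, h6⟩
      · rintro (⟨⟨h4, h5⟩, h6⟩ | ⟨⟨h4, h5⟩, h6⟩)
        · exact ⟨⟨h4, by omega⟩, h6⟩
        · exact ⟨⟨by omega, h5⟩, h6⟩
    rw [h1, sum_union]
    rw [disjoint_left]
    intro p hp hp'
    rw [mem_Pw] at hp hp'
    omega

theorem sum_inv_sq_le (M W : ℕ) (hM : 2 ≤ M) (hMW : M ≤ W) :
    ∑ n ∈ Ico M W, 1 / (n : ℝ) ^ 2 ≤ 1 / ((M : ℝ) - 1) - 1 / ((W : ℝ) - 1) := by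
  induction W, hMW using Nat.le_induction with
  | base => simp
  | succ W hMW ih =>
    rw [sum_Ico_succ_top hMW]
    have h1 : (2 : ℝ) ≤ W := by exact_mod_cast hM.trans hMW
    have h2 : 1 / (W : ℝ) ^ 2 ≤ 1 / ((W : ℝ) - 1) - 1 / ((W + 1 : ℕ) - 1 : ℝ) := by
      push_cast
      have h3 : 1 / ((W : ℝ) - 1) - 1 / ((W : ℝ) + 1 - 1) = 1 / (((W : ℝ) - 1) * W) := by
        have h4 : (W : ℝ) - 1 ≠ 0 := by linarith
        have h5 : (W : ℝ) ≠ 0 := by linarith
        have h6 : (W : ℝ) + 1 - 1 = W := by ring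
        rw [h6]
        field_simp
        ring
      rw [h3]
      refine one_div_le_one_div_of_le ?_ ?_
      · have : 0 < (W : ℝ) - 1 := by linarith
        positivity
      · nlinarith
    linarith

theorem sum_inv_sq_ge (M W : ℕ) (hMW : M ≤ W) :
    1 / ((M : ℝ) + 1) - 1 / ((W : ℝ) + 1) ≤ ∑ n ∈ Ico M W, 1 / ((n : ℝ) + 1) ^ 2 := by
  induction W, hMW using Nat.le_induction with
  | base => simp
  | succ W hMW ih =>
    rw [sum_Ico_succ_top hMW]
    have h1 : (0 : ℝ) ≤ W := by positivity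
    have h2 : 1 / ((W : ℝ) + 1) - 1 / (((W + 1 : ℕ) : ℝ) + 1) ≤ 1 / ((W : ℝ) + 1) ^ 2 := by
      push_cast
      have h3 : 1 / ((W : ℝ) + 1) - 1 / ((W : ℝ) + 1 + 1) = 1 / (((W : ℝ) + 1) * (W + 1 + 1)) := by
        field_simp
        ring
      rw [h3]
      refine one_div_le_one_div_of_le (by positivity) ?_
      nlinarith
    linarith

/-- the weighted sums over the primes -/
theorem sums_Pw : ∃ C : ℝ, 0 ≤ C ∧ ∀ t M W : ℕ, 2 ≤ t → 2 ≤ M → M ≤ W →
    ∑ p ∈ Pw (t ^ M) (t ^ W), 1 / ((p : ℝ) * Real.log p) ≤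
      (1 + C / Real.log t) * (1 / ((M : ℝ) - 1)) / Real.log t ∧
    (1 / ((M : ℝ) + 1) - 1 / ((W : ℝ) + 1) - C / Real.log t * (1 / ((M : ℝ) - 1))) / Real.log t ≤
      ∑ p ∈ Pw (t ^ M) (t ^ W), 1 / ((p : ℝ) * Real.log p) ∧
    ∑ p ∈ Pw (t ^ M) (t ^ W), 1 / (p : ℝ) ≤ Real.log ((W : ℝ) / M) + C / Real.log t := by
  obtain ⟨C, hC0, hC⟩ := Pool.Agent.Helper923.HMertens.mertens_ratio
  refine ⟨C, hC0, fun t M W ht hM hMW => ?_⟩
  have htr : (1 : ℝ) < t := by
    have : 1 < t := by omega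
    exact_mod_cast this
  have hlog : 0 < Real.log t := Real.log_pos htr
  have hM' : (2 : ℝ) ≤ M := by exact_mod_cast hM
  have hblock : ∀ n ∈ Ico M W, |∑ p ∈ Pw (t ^ n) (t ^ (n + 1)), 1 / (p : ℝ) -
      Real.log (((n : ℝ) + 1) / n)| ≤ C / (n * Real.log t) := by
    intro n hn
    rw [mem_Ico] at hn
    have hn0 : (0 : ℝ) < n := by
      have : 0 < n := by omega
      exact_mod_cast this
    have h1 := hC (t ^ n) (t ^ (n + 1))
      (ht.trans (Nat.le_self_pow (by omega) t)) (Nat.pow_le_pow_right (by omega) (Nat.le_succ n))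
    have h2 : Real.log (((t ^ (n + 1) : ℕ) : ℝ)) / Real.log (((t ^ n : ℕ) : ℝ)) =
        ((n : ℝ) + 1) / n := by
      push_cast
      rw [Real.log_pow, Real.log_pow]
      push_cast
      field_simp
    have h3 : Real.log (((t ^ n : ℕ) : ℝ)) = n * Real.log t := by
      push_cast
      rw [Real.log_pow]
    rw [h2, h3] at h1
    exact h1
  have hmem : ∀ n ∈ Ico M W, ∀ p ∈ Pw (t ^ n) (t ^ (n + 1)), 0 < (p : ℝ) ∧
      n * Real.log t ≤ Real.log p ∧ Real.log p ≤ (n + 1) * Real.log t := by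
    intro n hn p hpm
    rw [mem_Pw] at hpm
    have hp0 : (0 : ℝ) < p := by exact_mod_cast hpm.2.pos
    refine ⟨hp0, ?_, ?_⟩
    · have h1 : ((t : ℝ) ^ n) ≤ p := by exact_mod_cast hpm.1.1.le
      have h2 := Real.log_le_log (by positivity) h1
      rwa [Real.log_pow] at h2
    · have h1 : (p : ℝ) ≤ (t : ℝ) ^ (n + 1) := by exact_mod_cast hpm.1.2
      have h2 := Real.log_le_log hp0 h1
      rw [Real.log_pow] at h2
      push_cast at h2
      exact h2
  refine ⟨?_, ?_, ?_⟩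
  · rw [Pw_split _ (by omega) hMW]
    have h1 : ∀ n ∈ Ico M W, ∑ p ∈ Pw (t ^ n) (t ^ (n + 1)), 1 / ((p : ℝ) * Real.log p) ≤
        (1 + C / Real.log t) / Real.log t * (1 / (n : ℝ) ^ 2) := by
      intro n hn
      have hn' := hn
      rw [mem_Ico] at hn
      have hn0 : (0 : ℝ) < n := by
        have : 0 < n := by omega
        exact_mod_cast this
      have h2 : ∑ p ∈ Pw (t ^ n) (t ^ (n + 1)), 1 / ((p : ℝ) * Real.log p) ≤
          1 / (n * Real.log t) * ∑ p ∈ Pw (t ^ n) (t ^ (n + 1)), 1 / (p : ℝ) := by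
        rw [mul_sum]
        refine sum_le_sum fun p hpm => ?_
        obtain ⟨k1, k2, k3⟩ := hmem n hn' p hpm
        rw [one_div_mul_one_div, mul_comm ((n : ℝ) * Real.log t)]
        refine one_div_le_one_div_of_le (by positivity) ?_
        exact mul_le_mul_of_nonneg_left k2 k1.le
      have h3 : ∑ p ∈ Pw (t ^ n) (t ^ (n + 1)), 1 / (p : ℝ) ≤ 1 / n + C / (n * Real.log t) := by
        have h4 := (abs_le.1 (hblock n hn')).2
        have h5 : Real.log (((n : ℝ) + 1) / n) ≤ 1 / n := by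
          have h6 := Real.log_le_sub_one_of_pos (by positivity : (0 : ℝ) < ((n : ℝ) + 1) / n)
          have h7 : ((n : ℝ) + 1) / n - 1 = 1 / n := by
            field_simp
            ring
          linarith
        linarith
      refine h2.trans ((mul_le_mul_of_nonneg_left h3 (by positivity)).trans (le_of_eq ?_))
      field_simp
    refine (sum_le_sum h1).trans ?_
    rw [← mul_sum]
    have h2 := sum_inv_sq_le M W hM hMW
    have h3 : (0 : ℝ) ≤ 1 / ((W : ℝ) - 1) := by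
      have : (2 : ℝ) ≤ W := by exact_mod_cast hM.trans hMW
      have : 0 < (W : ℝ) - 1 := by linarith
      positivity
    calc (1 + C / Real.log t) / Real.log t * ∑ n ∈ Ico M W, 1 / (n : ℝ) ^ 2
        ≤ (1 + C / Real.log t) / Real.log t * (1 / ((M : ℝ) - 1)) := by
          refine mul_le_mul_of_nonneg_left (by linarith) (by positivity)
      _ = _ := by ring
  · rw [Pw_split _ (by omega) hMW]
    have h1 : ∀ n ∈ Ico M W, (1 / ((n : ℝ) + 1) ^ 2 - C / Real.log t * (1 / (n : ℝ) ^ 2)) /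
        Real.log t ≤ ∑ p ∈ Pw (t ^ n) (t ^ (n + 1)), 1 / ((p : ℝ) * Real.log p) := by
      intro n hn
      have hn' := hn
      rw [mem_Ico] at hn
      have hn0 : (0 : ℝ) < n := by
        have : 0 < n := by omega
        exact_mod_cast this
      have h2 : 1 / ((n + 1) * Real.log t) * ∑ p ∈ Pw (t ^ n) (t ^ (n + 1)), 1 / (p : ℝ) ≤
          ∑ p ∈ Pw (t ^ n) (t ^ (n + 1)), 1 / ((p : ℝ) * Real.log p) := by
        rw [mul_sum]
        refine sum_le_sum fun p hpm => ?_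
        obtain ⟨k1, k2, k3⟩ := hmem n hn' p hpm
        have k4 : 0 < Real.log p := lt_of_lt_of_le (by positivity) k2
        rw [one_div_mul_one_div, mul_comm (((n : ℝ) + 1) * Real.log t)]
        refine one_div_le_one_div_of_le (by positivity) ?_
        exact mul_le_mul_of_nonneg_left k3 k1.le
      have h3 : 1 / ((n : ℝ) + 1) - C / (n * Real.log t) ≤
          ∑ p ∈ Pw (t ^ n) (t ^ (n + 1)), 1 / (p : ℝ) := by
        have h4 := (abs_le.1 (hblock n hn')).1
        have h5 : 1 / ((n : ℝ) + 1) ≤ Real.log (((n : ℝ) + 1) / n) := by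
          have h6 := Real.one_sub_inv_le_log_of_pos (by positivity : (0 : ℝ) < ((n : ℝ) + 1) / n)
          have h7 : 1 - (((n : ℝ) + 1) / n)⁻¹ = 1 / ((n : ℝ) + 1) := by
            field_simp
            ring
          linarith
        linarith
      refine le_trans ?_ h2
      have h4 : 1 / ((n + 1) * Real.log t) * (1 / ((n : ℝ) + 1) - C / (n * Real.log t)) ≤
          1 / ((n + 1) * Real.log t) * ∑ p ∈ Pw (t ^ n) (t ^ (n + 1)), 1 / (p : ℝ) :=
        mul_le_mul_of_nonneg_left h3 (by positivity)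
      refine le_trans ?_ h4
      have h5 : 1 / ((n + 1) * Real.log t) * (1 / ((n : ℝ) + 1) - C / (n * Real.log t)) =
          (1 / ((n : ℝ) + 1) ^ 2 - C / Real.log t * (1 / ((n : ℝ) * (n + 1)))) / Real.log t := by
        field_simp
      rw [h5]
      refine div_le_div_of_nonneg_right ?_ hlog.le
      refine sub_le_sub_left (mul_le_mul_of_nonneg_left ?_ (by positivity)) _
      refine one_div_le_one_div_of_le (by positivity) ?_
      nlinarith
    refine le_trans ?_ (sum_le_sum h1)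
    rw [← sum_div, sum_sub_distrib, ← mul_sum]
    have h2 := sum_inv_sq_le M W hM hMW
    have h3 := sum_inv_sq_ge M W hMW
    have h4 : (0 : ℝ) ≤ 1 / ((W : ℝ) - 1) := by
      have : (2 : ℝ) ≤ W := by exact_mod_cast hM.trans hMW
      have : 0 < (W : ℝ) - 1 := by linarith
      positivity
    refine div_le_div_of_nonneg_right ?_ hlog.le
    have h5 : C / Real.log t * ∑ n ∈ Ico M W, 1 / (n : ℝ) ^ 2 ≤
        C / Real.log t * (1 / ((M : ℝ) - 1)) :=
      mul_le_mul_of_nonneg_left (by linarith) (by positivity)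
    linarith
  · have h1 := hC (t ^ M) (t ^ W) (ht.trans (Nat.le_self_pow (by omega) t))
      (Nat.pow_le_pow_right (by omega) hMW)
    have h2 : Real.log (((t ^ W : ℕ) : ℝ)) / Real.log (((t ^ M : ℕ) : ℝ)) = (W : ℝ) / M := by
      push_cast
      rw [Real.log_pow, Real.log_pow]
      field_simp
    have h3 : Real.log (((t ^ M : ℕ) : ℝ)) = M * Real.log t := by
      push_cast
      rw [Real.log_pow]
    rw [h2, h3] at h1
    have h4 := (abs_le.1 h1).2
    have h5 : C / (M * Real.log t) ≤ C / Real.log t := by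
      refine div_le_div_of_nonneg_left hC0 hlog ?_
      nlinarith
    unfold Pw
    linarith

/-- the sharp comparison with the diagonal -/
theorem DD_ge_sharp {P : Finset ℕ} {fp : ℕ → ℝ} {η : ℝ} (hη0 : 0 < η) (hη1 : η ≤ 1)
    (hf : ∀ p ∈ P, 0 ≤ fp p) (hf1 : ∀ p ∈ P, fp p ≤ η / 2)
    (hp2 : ∀ p ∈ P, 2 ≤ p) (N : ℕ) :
    (∑ S ∈ SSt P N, ff fp S ^ 2) * Real.exp ((1 - η) * ∑ p ∈ P, fp p * hp p) ≤ DD P fp := by
  have h1 : ∑ S ∈ SSt P N, ff fp S ^ 2 ≤ ∏ p ∈ P, (1 + fp p ^ 2) := by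
    rw [prod_one_add]
    have h2 : ∑ S ∈ SSt P N, ff fp S ^ 2 = ∑ S ∈ SSt P N, ∏ p ∈ S, fp p ^ 2 :=
      sum_congr rfl fun S _ => by unfold ff; rw [prod_pow]
    rw [h2]
    unfold SSt
    exact sum_le_sum_of_subset_of_nonneg (filter_subset _ _) fun S _ _ =>
      prod_nonneg fun p _ => sq_nonneg _
  have h2 : (∏ p ∈ P, (1 + fp p ^ 2)) * Real.exp ((1 - η) * ∑ p ∈ P, fp p * hp p) ≤ DD P fp := by
    rw [DD_eq, mul_sum, Real.exp_sum, ← prod_mul_distrib]
    refine prod_le_prod (fun p _ => by positivity) fun p hm => ?_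
    have a1 := hf p hm
    have a2 := hf1 p hm
    have a3 := hp_nonneg p
    have a4 : hp p ≤ 1 := by
      have := hp_anti (m := 1) (n := p) le_rfl (by have := hp2 p hm; omega)
      refine this.trans ?_
      unfold hp
      norm_num
    obtain ⟨x, hx⟩ : ∃ x : ℝ, x = fp p * hp p := ⟨_, rfl⟩
    rw [← hx]
    have hx0 : 0 ≤ x := by rw [hx]; positivity
    have hx1 : x ≤ η / 2 := by
      rw [hx]
      calc fp p * hp p ≤ fp p * 1 := by gcongr
        _ ≤ η / 2 := by rw [mul_one]; exact a2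
    have h3 : Real.exp ((1 - η) * x) ≤ 1 + (1 - η / 2) * x := by
      have h4 : |(1 - η) * x| ≤ 1 := by
        rw [abs_of_nonneg (mul_nonneg (by linarith) hx0)]
        nlinarith
      have h5 := Real.abs_exp_sub_one_sub_id_le h4
      have h6 := (abs_le.1 h5).2
      have h7 : ((1 - η) * x) ^ 2 ≤ η / 2 * x := by
        have h8 : (1 - η) ^ 2 ≤ 1 := by nlinarith
        calc ((1 - η) * x) ^ 2 = (1 - η) ^ 2 * (x * x) := by ring
          _ ≤ 1 * (x * x) := by gcongr
          _ ≤ η / 2 * x := by rw [one_mul]; exact mul_le_mul_of_nonneg_right hx1 hx0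
      linarith
    have h4 : fp p * (fp p + hp p) = fp p ^ 2 + x := by rw [hx]; ring
    rw [h4]
    have h5 : fp p ^ 2 ≤ η / 2 := by
      calc fp p ^ 2 = fp p * fp p := by ring
        _ ≤ (η / 2) * 1 := mul_le_mul a2 (by linarith) a1 (by linarith)
        _ = η / 2 := mul_one _
    have h6 : (1 - η / 2) * (1 + fp p ^ 2) ≤ 1 := by
      have h7 : (1 - η / 2) * (1 + fp p ^ 2) ≤ (1 - η / 2) * (1 + η / 2) :=
        mul_le_mul_of_nonneg_left (by linarith) (by linarith)
      nlinarith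
    calc (1 + fp p ^ 2) * Real.exp ((1 - η) * x) ≤ (1 + fp p ^ 2) * (1 + (1 - η / 2) * x) := by
          gcongr
      _ = 1 + fp p ^ 2 + ((1 - η / 2) * (1 + fp p ^ 2)) * x := by ring
      _ ≤ 1 + fp p ^ 2 + 1 * x := by gcongr
      _ = 1 + (fp p ^ 2 + x) := by ring
  exact (mul_le_mul_of_nonneg_right h1 (Real.exp_pos _).le).trans h2

/-- the truncation is harmless -/
theorem DN_ge_sharp {P : Finset ℕ} (hP : ∀ p ∈ P, p.Prime) {l : ℝ} (hl : 0 ≤ l) {N : ℕ}
    (hN : 1 ≤ N) {α η s0 s1 : ℝ} (hα : 0 ≤ α) (hη0 : 0 ≤ η) (hη1 : η ≤ 1)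
    (hαp : ∀ p ∈ P, α * Real.log p ≤ η)
    (h1 : ∑ p ∈ P, 1 / ((p : ℝ) * Real.log p) ≤ s1) (h0 : ∑ p ∈ P, 1 / (p : ℝ) ≤ s0)
    (hmain : (1 + η) * α * (l ^ 2 * s1 + l * s0) + 1 ≤ α * Real.log N) :
    DD P (fl l) / 2 ≤ DN N P (fl l) := by
  have hf0 : ∀ p ∈ P, 0 ≤ fl l p := by
    intro p _
    unfold fl
    have := hp_nonneg p
    have := Real.log_natCast_nonneg p
    positivity
  have h3 := rankin hP hf0 hN hα
  have h4 : ∑ p ∈ P, ((p : ℝ) ^ α - 1) * (fl l p * (fl l p + hp p)) ≤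
      (1 + η) * α * (l ^ 2 * s1 + l * s0) := by
    have h5 : ∀ p ∈ P, ((p : ℝ) ^ α - 1) * (fl l p * (fl l p + hp p)) ≤
        (1 + η) * α * (l ^ 2 * (1 / ((p : ℝ) * Real.log p)) + l * (1 / (p : ℝ))) := by
      intro p hm
      have hpp := hP p hm
      have hp0 : (0 : ℝ) < p := by exact_mod_cast hpp.pos
      have hp1 : (1 : ℝ) < p := by exact_mod_cast hpp.one_lt
      have hlp : 0 < Real.log p := Real.log_pos hp1
      have h6 : (p : ℝ) ^ α - 1 ≤ (1 + η) * (α * Real.log p) := by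
        rw [Real.rpow_def_of_pos hp0]
        have h7 := hαp p hm
        have h8 : 0 ≤ α * Real.log p := by positivity
        have h9 : |Real.log p * α| ≤ 1 := by
          rw [mul_comm, abs_of_nonneg h8]
          linarith
        have h10 := (abs_le.1 (Real.abs_exp_sub_one_sub_id_le h9)).2
        have h11 : (Real.log p * α) ^ 2 ≤ η * (α * Real.log p) := by
          calc (Real.log p * α) ^ 2 = (α * Real.log p) * (α * Real.log p) := by ring
            _ ≤ η * (α * Real.log p) := mul_le_mul_of_nonneg_right h7 h8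
        linarith
      have h7 : fl l p * (fl l p + hp p) =
          l ^ 2 * (1 / ((p : ℝ) * Real.log p ^ 2)) + l * (1 / ((p : ℝ) * Real.log p)) := by
        have h8 : fl l p * (fl l p + hp p) =
            l ^ 2 * hp p ^ 2 / Real.log p ^ 2 + l * hp p ^ 2 / Real.log p := by
          unfold fl
          ring
        rw [h8, hp_sq hpp.one_lt.le]
        field_simp
      rw [h7]
      calc ((p : ℝ) ^ α - 1) *
          (l ^ 2 * (1 / ((p : ℝ) * Real.log p ^ 2)) + l * (1 / ((p : ℝ) * Real.log p)))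
          ≤ ((1 + η) * (α * Real.log p)) *
          (l ^ 2 * (1 / ((p : ℝ) * Real.log p ^ 2)) + l * (1 / ((p : ℝ) * Real.log p))) :=
            mul_le_mul_of_nonneg_right h6 (by positivity)
        _ = _ := by
            field_simp
    refine (sum_le_sum h5).trans ?_
    rw [← mul_sum, sum_add_distrib, ← mul_sum, ← mul_sum]
    refine mul_le_mul_of_nonneg_left ?_ (by positivity)
    gcongr
  have hN0 : (0 : ℝ) < N := by exact_mod_cast hN
  have h5 : (N : ℝ) ^ (-α) *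
      Real.exp (∑ p ∈ P, ((p : ℝ) ^ α - 1) * (fl l p * (fl l p + hp p))) ≤ 1 / 2 := by
    rw [Real.rpow_def_of_pos hN0, ← Real.exp_add]
    have h7 : Real.log N * -α +
        ∑ p ∈ P, ((p : ℝ) ^ α - 1) * (fl l p * (fl l p + hp p)) ≤ -1 := by linarith
    refine (Real.exp_le_exp.2 h7).trans ?_
    rw [Real.exp_neg]
    have h8 := Real.exp_one_gt_d9
    rw [inv_eq_one_div]
    exact one_div_le_one_div_of_le (by norm_num) (by linarith)
  have h7 := DD_nonneg hf0
  have h8 := mul_le_mul_of_nonneg_left h5 h7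
  linarith

end Pool.Agent.Q237.LV
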