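import Pool.Agent.Q237.LV.B7
import Pool.Agent.Q237.LV.Ev

/-!
# The resonator with the sharp constant
-/

set_option autoImplicit false

namespace Pool.Agent.Q237.LV

open Finset Filter
open scoped Classical

/-- the choice of the block length -/
theorem block_t {B : ℝ} {M : ℕ} (hB : 0 < B) (hM : 1 ≤ M) {L : ℝ} (hL : 1 ≤ L) : ∃ t : ℕ,
    L ^ B ≤ ((t ^ M : ℕ) : ℝ) ∧ M * Real.log t ≤ B * Real.log L + M * Real.log 2 ∧
    B / M * Real.log L ≤ Real.log t ∧ 1 ≤ t := by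
  have hL0 : 0 < L := by linarith
  have hM0 : (0 : ℝ) < M := by exact_mod_cast hM
  obtain ⟨t, ht⟩ : ∃ t : ℕ, t = ⌈L ^ (B / M)⌉₊ := ⟨_, rfl⟩
  have h0 : (1 : ℝ) ≤ L ^ (B / M) := Real.one_le_rpow hL (by positivity)
  have h1 : L ^ (B / M) ≤ t := by rw [ht]; exact Nat.le_ceil _
  have h2 : (t : ℝ) ≤ 2 * L ^ (B / M) := by
    have h3 : (t : ℝ) < L ^ (B / M) + 1 := by rw [ht]; exact Nat.ceil_lt_add_one (by linarith)
    linarith
  have ht0 : (0 : ℝ) < t := by linarith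
  have h3 : Real.log (L ^ (B / M)) = B / M * Real.log L := Real.log_rpow hL0 _
  refine ⟨t, ?_, ?_, ?_, ?_⟩
  · push_cast
    calc L ^ B = (L ^ (B / M)) ^ M := by
          rw [← Real.rpow_natCast, ← Real.rpow_mul hL0.le]
          congr 1
          field_simp
      _ ≤ (t : ℝ) ^ M := pow_le_pow_left₀ (by linarith) h1 M
  · have h4 := Real.log_le_log ht0 h2
    rw [Real.log_mul (by norm_num) (by positivity), h3] at h4
    calc M * Real.log t ≤ M * (Real.log 2 + B / M * Real.log L) := by gcongr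
      _ = _ := by
          field_simp
          ring
  · rw [← h3]
    exact Real.log_le_log (by linarith) h1
  · have : (1 : ℝ) ≤ t := by linarith
    exact_mod_cast this

/-- the real-variable inequality for the truncation -/
theorem main_ineq {η ν ly α A l s0 s1 : ℝ} (hη : 0 < η) (hη1 : η ≤ 1 / 20) (hly : 0 < ly)
    (hν : 0 ≤ ν) (hA : 1 ≤ A) (hl0 : 0 ≤ l) (hl : l ^ 2 = (1 - 6 * η) * ν * ly)
    (hs1 : s1 = (1 + η) ^ 2 / ly) (hs0 : s0 ≤ A) (hs00 : 0 ≤ s0)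
    (hα : α = η / (A * ly)) (h1 : A ^ 2 * ly ≤ η ^ 2 * ν) :
    (1 + η) * α * (l ^ 2 * s1 + l * s0) + 1 ≤ α * ν := by
  have hα0 : 0 < α := by rw [hα]; positivity
  have e1 : l ^ 2 * s1 = (1 - 6 * η) * (1 + η) ^ 2 * ν := by
    rw [hl, hs1]
    field_simp
  have e2 : l * s0 ≤ η * ν := by
    have h2 : l * s0 ≤ l * A := mul_le_mul_of_nonneg_left hs0 hl0
    have h3 : l * A ≤ η * ν := by
      refine abs_le_of_sq_le_sq' ?_ (by positivity) |>.2
      calc (l * A) ^ 2 = l ^ 2 * A ^ 2 := by ring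
        _ = (1 - 6 * η) * ν * (A ^ 2 * ly) := by rw [hl]; ring
        _ ≤ 1 * ν * (η ^ 2 * ν) := by
            have h4 : 1 - 6 * η ≤ 1 := by linarith
            have h5 : 0 ≤ 1 - 6 * η := by linarith
            gcongr
        _ = (η * ν) ^ 2 := by ring
    linarith
  have e3 : (1 + η) * ((1 - 6 * η) * (1 + η) ^ 2 + η) ≤ 1 - 2 * η := by
    nlinarith [mul_pos hη hη, mul_pos (mul_pos hη hη) hη, mul_pos (mul_pos hη hη) (mul_pos hη hη)]
  have e4 : l ^ 2 * s1 + l * s0 ≤ ((1 - 6 * η) * (1 + η) ^ 2 + η) * ν := by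
    rw [e1]
    linarith
  have e5 : (1 + η) * (l ^ 2 * s1 + l * s0) ≤ (1 - 2 * η) * ν := by
    calc (1 + η) * (l ^ 2 * s1 + l * s0)
        ≤ (1 + η) * (((1 - 6 * η) * (1 + η) ^ 2 + η) * ν) := by gcongr
      _ = ((1 + η) * ((1 - 6 * η) * (1 + η) ^ 2 + η)) * ν := by ring
      _ ≤ _ := mul_le_mul_of_nonneg_right e3 hν
  have e6 : 1 ≤ 2 * η * (α * ν) := by
    rw [hα]
    have h2 : 2 * η * (η / (A * ly) * ν) = 2 * (η ^ 2 * ν) / (A * ly) := by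
      field_simp
    rw [h2, le_div_iff₀ (by positivity)]
    have h3 : A * ly ≤ A ^ 2 * ly := by
      have : A ≤ A ^ 2 := by nlinarith
      exact mul_le_mul_of_nonneg_right this hly.le
    have h4 : 0 ≤ A ^ 2 * ly := by positivity
    linarith
  calc (1 + η) * α * (l ^ 2 * s1 + l * s0) + 1
      = α * ((1 + η) * (l ^ 2 * s1 + l * s0)) + 1 := by ring
    _ ≤ α * ((1 - 2 * η) * ν) + 2 * η * (α * ν) := by
        refine add_le_add (mul_le_mul_of_nonneg_left e5 hα0.le) e6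
    _ = α * ν := by ring

/-- the real-variable inequality for the gain -/
theorem gain_ineq {η ν ly ℓ l S : ℝ} (hη : 0 < η) (hη1 : η ≤ 1 / 20) (hly : 0 < ly)
    (hν : 0 ≤ ν) (hl0 : 0 ≤ l) (hl : l ^ 2 = (1 - 6 * η) * ν * ly)
    (hS : l * ((1 - 5 * η) / ly) ≤ S) (hℓ : ly ≤ (1 + 2 * η) * ℓ) :
    (1 - 14 * η) * Real.sqrt (ν / ℓ) ≤ (1 - η) * S := by
  have hℓ0 : 0 < ℓ := by
    by_contra hcon
    push Not at hcon
    have : (1 + 2 * η) * ℓ ≤ 0 := mul_nonpos_of_nonneg_of_nonpos (by linarith) hcon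
    linarith
  refine le_trans ?_ (mul_le_mul_of_nonneg_left hS (by linarith))
  have h1 : 0 ≤ (1 - η) * (l * ((1 - 5 * η) / ly)) := by
    have h2 : 0 ≤ 1 - η := by linarith
    have h3 : 0 ≤ 1 - 5 * η := by linarith
    positivity
  refine abs_le_of_sq_le_sq' ?_ h1 |>.2
  rw [mul_pow, Real.sq_sqrt (by positivity)]
  have e1 : ((1 - η) * (l * ((1 - 5 * η) / ly))) ^ 2 =
      (1 - η) ^ 2 * (1 - 5 * η) ^ 2 * (1 - 6 * η) * (ν / ly) := by
    have h2 : ((1 - η) * (l * ((1 - 5 * η) / ly))) ^ 2 =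
        (1 - η) ^ 2 * (1 - 5 * η) ^ 2 * l ^ 2 / ly ^ 2 := by ring
    rw [h2, hl]
    field_simp
  rw [e1]
  have e2 : ν / ((1 + 2 * η) * ℓ) ≤ ν / ly := div_le_div_of_nonneg_left hν hly hℓ
  have e3 : ν / ((1 + 2 * η) * ℓ) = 1 / (1 + 2 * η) * (ν / ℓ) := by
    field_simp
  have e4 : (1 - 14 * η) ^ 2 ≤ (1 - η) ^ 2 * (1 - 5 * η) ^ 2 * (1 - 6 * η) * (1 / (1 + 2 * η)) := by
    rw [mul_one_div, le_div_iff₀ (by linarith)]
    have k1 : (1 - 14 * η) ^ 2 * (1 + 2 * η) ≤ 1 - 18 * η := by nlinarith [mul_pos hη hη]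
    have k2 : 1 - 6 * η ≤ (1 - η) * (1 - 5 * η) := by nlinarith
    have k3 : (1 - 6 * η) ^ 2 ≤ ((1 - η) * (1 - 5 * η)) ^ 2 :=
      pow_le_pow_left₀ (by linarith) k2 2
    have k4 : (1 - 6 * η) ^ 3 ≤ (1 - η) ^ 2 * (1 - 5 * η) ^ 2 * (1 - 6 * η) := by
      calc (1 - 6 * η) ^ 3 = (1 - 6 * η) ^ 2 * (1 - 6 * η) := by ring
        _ ≤ ((1 - η) * (1 - 5 * η)) ^ 2 * (1 - 6 * η) :=
            mul_le_mul_of_nonneg_right k3 (by linarith)
        _ = _ := by ring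
    have k5 : 1 - 18 * η ≤ (1 - 6 * η) ^ 3 := by nlinarith [mul_pos hη hη]
    linarith
  have hνℓ : 0 ≤ ν / ℓ := by positivity
  calc (1 - 14 * η) ^ 2 * (ν / ℓ)
      ≤ ((1 - η) ^ 2 * (1 - 5 * η) ^ 2 * (1 - 6 * η) * (1 / (1 + 2 * η))) * (ν / ℓ) :=
        mul_le_mul_of_nonneg_right e4 hνℓ
    _ = (1 - η) ^ 2 * (1 - 5 * η) ^ 2 * (1 - 6 * η) * (ν / ((1 + 2 * η) * ℓ)) := by
        rw [e3]
        ring
    _ ≤ _ := by
        refine mul_le_mul_of_nonneg_left e2 ?_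
        have h3 : 0 ≤ 1 - 6 * η := by linarith
        positivity

end Pool.Agent.Q237.LV
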