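import Mathlib

/-!
# The resonator: products over sets of primes
-/

set_option autoImplicit false

namespace Pool.Agent.Q237.LV

open Finset
open scoped Classical

/-- the product of a set of integers -/
def nn (S : Finset ℕ) : ℕ := ∏ p ∈ S, p

/-- the coefficient of the resonator -/
noncomputable def ff (fp : ℕ → ℝ) (S : Finset ℕ) : ℝ := ∏ p ∈ S, fp p

/-- `p ^ (-1/2)` -/
noncomputable def hp (p : ℕ) : ℝ := (p : ℝ) ^ (-(1 / 2) : ℝ)

/-- the main sum -/
noncomputable def DD (P : Finset ℕ) (fp : ℕ → ℝ) : ℝ :=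
  ∑ S ∈ P.powerset, ∑ S' ∈ S.powerset, ff fp S * (ff fp S' * ∏ p ∈ S \ S', hp p)

theorem hp_nonneg (p : ℕ) : 0 ≤ hp p := by
  unfold hp
  positivity

theorem ff_nonneg {fp : ℕ → ℝ} {S : Finset ℕ} (h : ∀ p ∈ S, 0 ≤ fp p) : 0 ≤ ff fp S :=
  prod_nonneg h

theorem inner_eq (fp : ℕ → ℝ) (S : Finset ℕ) :
    ∑ S' ∈ S.powerset, ff fp S * (ff fp S' * ∏ p ∈ S \ S', hp p) =
      ∏ p ∈ S, fp p * (fp p + hp p) := by
  rw [← mul_sum, prod_mul_distrib, prod_add]
  rfl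

theorem DD_eq (P : Finset ℕ) (fp : ℕ → ℝ) :
    DD P fp = ∏ p ∈ P, (1 + fp p * (fp p + hp p)) := by
  unfold DD
  rw [prod_one_add]
  exact sum_congr rfl fun S _ => inner_eq fp S

theorem nn_pos {S : Finset ℕ} (h : ∀ p ∈ S, p.Prime) : 0 < nn S :=
  prod_pos fun p hp => (h p hp).pos

theorem nn_split (S : Finset ℕ) (r : ℕ → Prop) [DecidablePred r] :
    nn S = nn (S.filter r) * nn (S.filter (fun p => ¬ r p)) :=
  (prod_filter_mul_prod_filter_not S r _).symm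

theorem ff_split (fp : ℕ → ℝ) (S : Finset ℕ) (r : ℕ → Prop) [DecidablePred r] :
    ff fp S = ff fp (S.filter r) * ff fp (S.filter (fun p => ¬ r p)) :=
  (prod_filter_mul_prod_filter_not S r _).symm

theorem dvd_nn_iff {S : Finset ℕ} (h : ∀ p ∈ S, p.Prime) {l : ℕ} (hl : l.Prime) :
    l ∣ nn S ↔ l ∈ S := by
  constructor
  · intro hd
    obtain ⟨p, hp, h1⟩ := hl.prime.exists_mem_finset_dvd hd
    rwa [(Nat.prime_dvd_prime_iff_eq hl (h p hp)).1 h1]
  · intro hm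
    exact dvd_prod_of_mem (fun p => p) hm

theorem nn_inj {S T : Finset ℕ} (hS : ∀ p ∈ S, p.Prime) (hT : ∀ p ∈ T, p.Prime)
    (h : nn S = nn T) : S = T := by
  ext p
  constructor
  · intro hp
    rw [← dvd_nn_iff hT (hS p hp), ← h, dvd_nn_iff hS (hS p hp)]
    exact hp
  · intro hp
    rw [← dvd_nn_iff hS (hT p hp), h, dvd_nn_iff hT (hT p hp)]
    exact hp

theorem nn_dvd {S : Finset ℕ} (hS : ∀ p ∈ S, p.Prime) {n : ℕ} (h : ∀ p ∈ S, p ∣ n) : nn S ∣ n :=
  prod_primes_dvd n (fun p hp => (hS p hp).prime) h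

theorem nn_coprime {S : Finset ℕ} (hS : ∀ p ∈ S, p.Prime) {n : ℕ} (h : ∀ p ∈ S, ¬ p ∣ n) :
    Nat.Coprime (nn S) n := by
  refine Nat.Coprime.prod_left fun p hp => ?_
  exact (Nat.Prime.coprime_iff_not_dvd (hS p hp)).2 (h p hp)

/-- a divisor of a squarefree number -/
theorem eq_nn_filter {S : Finset ℕ} (hS : ∀ p ∈ S, p.Prime) {V : ℕ} (h : V ∣ nn S) :
    V = nn (S.filter (fun p => p ∣ V)) := by
  apply Nat.dvd_antisymm
  · rw [nn_split S (fun p => p ∣ V)] at h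
    refine Nat.Coprime.dvd_of_dvd_mul_right ?_ h
    refine (nn_coprime (fun p hp => hS p (mem_filter.1 hp).1) ?_).symm
    intro p hp
    exact (mem_filter.1 hp).2
  · exact nn_dvd (fun p hp => hS p (mem_filter.1 hp).1) fun p hp => (mem_filter.1 hp).2

theorem nn_rpow (S : Finset ℕ) (a : ℝ) : ((nn S : ℕ) : ℝ) ^ a = ∏ p ∈ S, (p : ℝ) ^ a := by
  unfold nn
  push_cast
  rw [Real.finsetProd_rpow]
  intro p _
  positivity

theorem prod_hp (S : Finset ℕ) : ∏ p ∈ S, hp p = ((nn S : ℕ) : ℝ) ^ (-(1 / 2) : ℝ) :=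
  (nn_rpow S _).symm

theorem ff_le {fp : ℕ → ℝ} {β : ℝ} {S : Finset ℕ} (h0 : ∀ p ∈ S, 0 ≤ fp p)
    (h : ∀ p ∈ S, fp p ≤ (p : ℝ) ^ (-β)) : ff fp S ≤ ((nn S : ℕ) : ℝ) ^ (-β) := by
  rw [nn_rpow]
  exact prod_le_prod h0 h

/-- the triples with a given ratio -/
noncomputable def trip (P : Finset ℕ) (C : Finset ℕ) (U V : ℕ) :
    Finset (ℕ × Finset ℕ × Finset ℕ) :=
  (C ×ˢ P.powerset ×ˢ P.powerset).filter
    (fun x => x.1 * nn x.2.1 * V = nn x.2.2 * U)

theorem trip_struct {P : Finset ℕ} (hP : ∀ p ∈ P, p.Prime) {C : Finset ℕ} {U V : ℕ}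
    (hV : 0 < V) (hUV : Nat.Coprime U V)
    {x : ℕ × Finset ℕ × Finset ℕ} (hx : x ∈ trip P C U V) :
    V = nn (x.2.2.filter (fun p => p ∣ V)) ∧
    x.2.1.filter (fun p => ¬ p ∣ U) ⊆ x.2.2.filter (fun p => ¬ p ∣ V) ∧
    x.1 * nn (x.2.1.filter (fun p => p ∣ U)) =
      nn (x.2.2.filter (fun p => ¬ p ∣ V) \ x.2.1.filter (fun p => ¬ p ∣ U)) * U := by
  obtain ⟨c, S', S⟩ := x
  unfold trip at hx
  rw [mem_filter, mem_product, mem_product, mem_powerset, mem_powerset] at hx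
  obtain ⟨⟨hc, hS', hS⟩, he⟩ := hx
  simp only at hc hS' hS he ⊢
  have pS : ∀ p ∈ S, p.Prime := fun p hp => hP p (hS hp)
  have pS' : ∀ p ∈ S', p.Prime := fun p hp => hP p (hS' hp)
  have h1 : V ∣ nn S := by
    refine Nat.Coprime.dvd_of_dvd_mul_right hUV.symm ?_
    rw [← he]
    exact dvd_mul_left _ _
  have h2 := eq_nn_filter pS h1
  have h3 := nn_split S (fun p => p ∣ V)
  rw [← h2] at h3
  have h4 : c * nn S' = nn (S.filter (fun p => ¬ p ∣ V)) * U := by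
    rw [h3] at he
    have : V * (c * nn S') = V * (nn (S.filter (fun p => ¬ p ∣ V)) * U) := by
      calc V * (c * nn S') = c * nn S' * V := by ring
        _ = V * nn (S.filter (fun p => ¬ p ∣ V)) * U := he
        _ = _ := by ring
    exact Nat.eq_of_mul_eq_mul_left hV this
  have h5 := nn_split S' (fun p => p ∣ U)
  have h6 : Nat.Coprime (nn (S'.filter (fun p => ¬ p ∣ U))) U :=
    nn_coprime (fun p hp => pS' p (mem_filter.1 hp).1) fun p hp => (mem_filter.1 hp).2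
  have h7 : nn (S'.filter (fun p => ¬ p ∣ U)) ∣ nn (S.filter (fun p => ¬ p ∣ V)) := by
    refine Nat.Coprime.dvd_of_dvd_mul_right h6 ?_
    rw [← h4, h5]
    exact Dvd.dvd.mul_left (dvd_mul_left _ _) _
  have h8 : S'.filter (fun p => ¬ p ∣ U) ⊆ S.filter (fun p => ¬ p ∣ V) := by
    intro p hp
    have h9 : p.Prime := pS' p (mem_filter.1 hp).1
    have h10 : p ∣ nn (S'.filter (fun p => ¬ p ∣ U)) :=
      dvd_prod_of_mem (fun p => p) hp
    exact (dvd_nn_iff (fun p hp => pS p (mem_filter.1 hp).1) h9).1 (h10.trans h7)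
  refine ⟨h2, h8, ?_⟩
  have h9 : nn (S.filter (fun p => ¬ p ∣ V)) =
      nn (S.filter (fun p => ¬ p ∣ V) \ S'.filter (fun p => ¬ p ∣ U)) *
        nn (S'.filter (fun p => ¬ p ∣ U)) := (prod_sdiff h8).symm
  have h10 : 0 < nn (S'.filter (fun p => ¬ p ∣ U)) :=
    nn_pos fun p hp => pS' p (mem_filter.1 hp).1
  rw [h9, h5] at h4
  refine Nat.eq_of_mul_eq_mul_right h10 ?_
  calc c * nn (S'.filter (fun p => p ∣ U)) * nn (S'.filter (fun p => ¬ p ∣ U))
      = c * (nn (S'.filter (fun p => p ∣ U)) * nn (S'.filter (fun p => ¬ p ∣ U))) := by ring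
    _ = _ := h4
    _ = _ := by ring

/-- the sum over the triples with a given ratio -/
theorem trip_sum {P : Finset ℕ} (hP : ∀ p ∈ P, p.Prime) {fp : ℕ → ℝ} (hf : ∀ p ∈ P, 0 ≤ fp p)
    {β : ℝ} (hβ1 : β ≤ 1 / 2)
    (hfβ : ∀ p ∈ P, fp p ≤ (p : ℝ) ^ (-β)) {C : Finset ℕ} {U V : ℕ}
    (hU : 0 < U) (hV : 0 < V) (hUV : Nat.Coprime U V) :
    ∑ x ∈ trip P C U V, (x.1 : ℝ) ^ (-(1 / 2) : ℝ) * (ff fp x.2.1 * ff fp x.2.2) ≤
      DD P fp * ((U.divisors.card : ℝ) * ((U : ℝ) ^ (-β) * (V : ℝ) ^ (-β))) := by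
  obtain ⟨W0, hW0⟩ : ∃ W0 : Finset (Finset ℕ), W0 = (P.filter (fun p => p ∣ U)).powerset := ⟨_, rfl⟩
  obtain ⟨R, hR⟩ : ∃ R : Finset (Finset ℕ × (Σ _ : Finset ℕ, Finset ℕ)),
    R = W0 ×ˢ (P.powerset.sigma (fun S => S.powerset)) := ⟨_, rfl⟩
  obtain ⟨F, hF⟩ : ∃ F : (ℕ × Finset ℕ × Finset ℕ) → (Finset ℕ × (Σ _ : Finset ℕ, Finset ℕ)),
    F = fun x => (x.2.1.filter (fun p => p ∣ U),
      ⟨x.2.2.filter (fun p => ¬ p ∣ V), x.2.1.filter (fun p => ¬ p ∣ U)⟩) := ⟨_, rfl⟩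
  obtain ⟨G, hG⟩ : ∃ G : (Finset ℕ × (Σ _ : Finset ℕ, Finset ℕ)) → ℝ,
    G = fun z => ((U : ℝ) ^ (-β) * (V : ℝ) ^ (-β)) *
      (ff fp z.2.1 * (ff fp z.2.2 * ∏ p ∈ z.2.1 \ z.2.2, hp p)) := ⟨_, rfl⟩
  have hmem : ∀ x ∈ trip P C U V, F x ∈ R := by
    intro x hx
    have hst := trip_struct hP hV hUV hx
    unfold trip at hx
    rw [mem_filter, mem_product, mem_product, mem_powerset, mem_powerset] at hx
    obtain ⟨⟨hc, hS', hS⟩, he⟩ := hx
    rw [hF, hR, mem_product, mem_sigma, hW0, mem_powerset, mem_powerset, mem_powerset]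
    refine ⟨?_, ?_, hst.2.1⟩
    · exact filter_subset_filter _ hS'
    · exact (filter_subset _ _).trans hS
  have hinj : Set.InjOn F (trip P C U V : Set (ℕ × Finset ℕ × Finset ℕ)) := by
    intro x hx x' hx' h
    rw [mem_coe] at hx hx'
    have hst := trip_struct hP hV hUV hx
    have hst' := trip_struct hP hV hUV hx'
    obtain ⟨c, S', S⟩ := x
    obtain ⟨c1, S1', S1⟩ := x'
    unfold trip at hx hx'
    rw [mem_filter, mem_product, mem_product, mem_powerset, mem_powerset] at hx hx'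
    obtain ⟨⟨hc, hS', hS⟩, he⟩ := hx
    obtain ⟨⟨hc1, hS1', hS1⟩, he1⟩ := hx'
    simp only at hc hS' hS he hc1 hS1' hS1 he1 hst hst'
    rw [hF] at h
    simp only [Prod.mk.injEq, Sigma.mk.injEq, heq_eq_eq] at h
    obtain ⟨h1, h2, h3⟩ := h
    have e1 : S' = S1' := by
      rw [← filter_union_filter_not_eq (fun p => p ∣ U) S',
        ← filter_union_filter_not_eq (fun p => p ∣ U) S1', h1, h3]
    have e2 : S.filter (fun p => p ∣ V) = S1.filter (fun p => p ∣ V) := by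
      refine nn_inj (fun p hp => hP p (hS (mem_filter.1 hp).1))
        (fun p hp => hP p (hS1 (mem_filter.1 hp).1)) ?_
      rw [← hst.1, ← hst'.1]
    have e3 : S = S1 := by
      rw [← filter_union_filter_not_eq (fun p => p ∣ V) S,
        ← filter_union_filter_not_eq (fun p => p ∣ V) S1, h2, e2]
    subst e1
    subst e3
    have h4 : 0 < nn S' * V := Nat.mul_pos (nn_pos fun p hp => hP p (hS' hp)) hV
    have e4 : c = c1 := by
      refine Nat.eq_of_mul_eq_mul_right h4 ?_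
      rw [← mul_assoc, ← mul_assoc, he, he1]
    rw [e4]
  have hval : ∀ x ∈ trip P C U V, (x.1 : ℝ) ^ (-(1 / 2) : ℝ) * (ff fp x.2.1 * ff fp x.2.2) ≤
      G (F x) := by
    intro x hx
    have hst := trip_struct hP hV hUV hx
    obtain ⟨c, S', S⟩ := x
    unfold trip at hx
    rw [mem_filter, mem_product, mem_product, mem_powerset, mem_powerset] at hx
    obtain ⟨⟨hc, hS', hS⟩, he⟩ := hx
    simp only at hc hS' hS he hst
    obtain ⟨hst1, hst2, hst3⟩ := hst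
    simp only [hG, hF]
    set SV := S.filter (fun p => p ∣ V) with hSV
    set S1 := S.filter (fun p => ¬ p ∣ V) with hS1
    set W := S'.filter (fun p => p ∣ U) with hW
    set S2 := S'.filter (fun p => ¬ p ∣ U) with hS2
    have pS : ∀ p ∈ S, p.Prime := fun p hp => hP p (hS hp)
    have pS' : ∀ p ∈ S', p.Prime := fun p hp => hP p (hS' hp)
    have pW : ∀ p ∈ W, p.Prime := fun p hp => pS' p (mem_filter.1 hp).1
    have hWpos : 0 < nn W := nn_pos pW
    have hWU : nn W ∣ U := nn_dvd pW fun p hp => (mem_filter.1 hp).2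
    have hWU' : nn W ≤ U := Nat.le_of_dvd hU hWU
    have pS12 : ∀ p ∈ S1 \ S2, p.Prime := fun p hp =>
      pS p (mem_filter.1 (mem_sdiff.1 hp).1).1
    have hcpos : 0 < c := by
      rcases Nat.eq_zero_or_pos c with h | h
      · rw [h, zero_mul] at hst3
        have := Nat.mul_pos (nn_pos pS12) hU
        omega
      · exact h
    have c0 : (0 : ℝ) < c := by exact_mod_cast hcpos
    have w0 : (0 : ℝ) < nn W := by exact_mod_cast hWpos
    have u0 : (0 : ℝ) < U := by exact_mod_cast hU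
    have s0 : (0 : ℝ) < nn (S1 \ S2) := by exact_mod_cast nn_pos pS12
    have v0 : (0 : ℝ) < V := by exact_mod_cast hV
    have f1 : ff fp S' = ff fp W * ff fp S2 := ff_split fp S' _
    have f2 : ff fp S = ff fp SV * ff fp S1 := ff_split fp S _
    have n1 : ∀ T : Finset ℕ, T ⊆ P → 0 ≤ ff fp T := fun T hT => ff_nonneg fun p hp => hf p (hT hp)
    have a1 : 0 ≤ ff fp W := n1 W ((filter_subset _ _).trans hS')
    have a2 : 0 ≤ ff fp S2 := n1 S2 ((filter_subset _ _).trans hS')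
    have a3 : 0 ≤ ff fp SV := n1 SV ((filter_subset _ _).trans hS)
    have a4 : 0 ≤ ff fp S1 := n1 S1 ((filter_subset _ _).trans hS)
    have b1 : ff fp W ≤ ((nn W : ℕ) : ℝ) ^ (-β) :=
      ff_le (fun p hp => hf p (hS' (mem_filter.1 hp).1)) fun p hp => hfβ p (hS' (mem_filter.1 hp).1)
    have b2 : ff fp SV ≤ (V : ℝ) ^ (-β) := by
      rw [hst1]
      have e : S.filter (fun p => p ∣ nn SV) = SV := by
        rw [hSV, ← hst1]
      refine (ff_le (fun p hp => hf p (hS (mem_filter.1 hp).1))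
        fun p hp => hfβ p (hS (mem_filter.1 hp).1)).trans ?_
      exact le_rfl
    have c1 : (c : ℝ) * nn W = nn (S1 \ S2) * U := by exact_mod_cast hst3
    have c2 : (c : ℝ) ^ (-(1 / 2) : ℝ) * ((nn W : ℕ) : ℝ) ^ (-(1 / 2) : ℝ) =
        ((nn (S1 \ S2) : ℕ) : ℝ) ^ (-(1 / 2) : ℝ) * (U : ℝ) ^ (-(1 / 2) : ℝ) := by
      rw [← Real.mul_rpow c0.le w0.le, ← Real.mul_rpow s0.le u0.le, c1]
    have c3 : (c : ℝ) ^ (-(1 / 2) : ℝ) = ((nn (S1 \ S2) : ℕ) : ℝ) ^ (-(1 / 2) : ℝ) *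
        ((U : ℝ) / nn W) ^ (-(1 / 2) : ℝ) := by
      rw [Real.div_rpow u0.le w0.le]
      have : ((nn W : ℕ) : ℝ) ^ (-(1 / 2) : ℝ) ≠ 0 := by positivity
      field_simp
      linarith
    have c4 : ((U : ℝ) / nn W) ^ (-(1 / 2) : ℝ) ≤ ((U : ℝ) / nn W) ^ (-β) := by
      refine Real.rpow_le_rpow_of_exponent_le ?_ (by linarith)
      rw [le_div_iff₀ w0, one_mul]
      exact_mod_cast hWU'
    have c5 : ((U : ℝ) / nn W) ^ (-(1 / 2) : ℝ) * ff fp W ≤ (U : ℝ) ^ (-β) := by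
      calc ((U : ℝ) / nn W) ^ (-(1 / 2) : ℝ) * ff fp W
          ≤ ((U : ℝ) / nn W) ^ (-β) * ((nn W : ℕ) : ℝ) ^ (-β) := by
            gcongr
        _ = (U : ℝ) ^ (-β) := by
            rw [← Real.mul_rpow (by positivity) w0.le]
            congr 1
            field_simp
    rw [prod_hp, f1, f2, c3]
    have d1 : 0 ≤ ((nn (S1 \ S2) : ℕ) : ℝ) ^ (-(1 / 2) : ℝ) := by positivity
    calc ((nn (S1 \ S2) : ℕ) : ℝ) ^ (-(1 / 2) : ℝ) * ((U : ℝ) / nn W) ^ (-(1 / 2) : ℝ) *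
          (ff fp W * ff fp S2 * (ff fp SV * ff fp S1))
        = (((U : ℝ) / nn W) ^ (-(1 / 2) : ℝ) * ff fp W) * ff fp SV *
          (ff fp S1 * (ff fp S2 * ((nn (S1 \ S2) : ℕ) : ℝ) ^ (-(1 / 2) : ℝ))) := by ring
      _ ≤ (U : ℝ) ^ (-β) * (V : ℝ) ^ (-β) *
          (ff fp S1 * (ff fp S2 * ((nn (S1 \ S2) : ℕ) : ℝ) ^ (-(1 / 2) : ℝ))) := by
          refine mul_le_mul_of_nonneg_right ?_ (by positivity)
          exact mul_le_mul c5 b2 a3 (by positivity)
  have hGnn : ∀ z ∈ R, 0 ≤ G z := by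
    intro z hz
    rw [hR, mem_product, mem_sigma, mem_powerset, mem_powerset] at hz
    simp only [hG]
    have n1 : ∀ T : Finset ℕ, T ⊆ P → 0 ≤ ff fp T := fun T hT => ff_nonneg fun p hp => hf p (hT hp)
    have a1 := n1 _ hz.2.1
    have a2 := n1 _ (hz.2.2.trans hz.2.1)
    have a3 : 0 ≤ ∏ p ∈ z.2.1 \ z.2.2, hp p := prod_nonneg fun p _ => hp_nonneg p
    positivity
  calc ∑ x ∈ trip P C U V, (x.1 : ℝ) ^ (-(1 / 2) : ℝ) * (ff fp x.2.1 * ff fp x.2.2)
      ≤ ∑ x ∈ trip P C U V, G (F x) := sum_le_sum hval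
    _ = ∑ z ∈ (trip P C U V).image F, G z := (sum_image hinj).symm
    _ ≤ ∑ z ∈ R, G z := by
        refine sum_le_sum_of_subset_of_nonneg ?_ fun z hz _ => hGnn z hz
        intro z hz
        rw [mem_image] at hz
        obtain ⟨x, hx, rfl⟩ := hz
        exact hmem x hx
    _ = (W0.card : ℝ) * (((U : ℝ) ^ (-β) * (V : ℝ) ^ (-β)) * DD P fp) := by
        rw [hR, sum_product]
        simp only [hG]
        rw [sum_const, nsmul_eq_mul]
        congr 1
        rw [← mul_sum, sum_sigma]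
        rfl
    _ ≤ (U.divisors.card : ℝ) * (((U : ℝ) ^ (-β) * (V : ℝ) ^ (-β)) * DD P fp) := by
        have h1 : W0.card ≤ U.divisors.card := by
          refine card_le_card_of_injOn nn ?_ ?_
          · intro W hW
            rw [mem_coe, hW0, mem_powerset] at hW
            rw [mem_coe, Nat.mem_divisors]
            exact ⟨nn_dvd (fun p hp => hP p (mem_filter.1 (hW hp)).1)
              fun p hp => (mem_filter.1 (hW hp)).2, hU.ne'⟩
          · intro W hW W' hW' h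
            rw [mem_coe, hW0, mem_powerset] at hW hW'
            exact nn_inj (fun p hp => hP p (mem_filter.1 (hW hp)).1)
              (fun p hp => hP p (mem_filter.1 (hW' hp)).1) h
        have h2 : (W0.card : ℝ) ≤ U.divisors.card := by exact_mod_cast h1
        refine mul_le_mul_of_nonneg_right h2 ?_
        have h3 : 0 ≤ DD P fp := by
          rw [DD_eq]
          refine prod_nonneg fun p hp => ?_
          have := hf p hp
          have := hp_nonneg p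
          positivity
        positivity
    _ = _ := by ring

end Pool.Agent.Q237.LV
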