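import Pool.Agent.Q237.LV.Cnt
import Pool.Agent.Q237.LV.Res

/-!
# The large part of the sums over a residue class
-/

set_option autoImplicit false

namespace Pool.Agent.Q237.LV

open Finset
open scoped Classical

theorem hp_sq {n : ℕ} (hn : 1 ≤ n) : hp n ^ 2 = 1 / (n : ℝ) := by
  have h0 : (0 : ℝ) < n := by exact_mod_cast hn
  unfold hp
  rw [← Real.rpow_natCast, ← Real.rpow_mul h0.le]
  norm_num
  rw [Real.rpow_neg_one]

theorem hp_eq {n : ℕ} : hp n = 1 / Real.sqrt n := by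
  unfold hp
  rw [Real.rpow_neg (by positivity), ← Real.sqrt_eq_rpow, one_div]

theorem hp_anti {m n : ℕ} (hm : 1 ≤ m) (h : m ≤ n) : hp n ≤ hp m := by
  unfold hp
  exact Real.rpow_le_rpow_of_nonpos (by exact_mod_cast hm) (by exact_mod_cast h) (by norm_num)

theorem hp_mul (m n : ℕ) : hp (m * n) = hp m * hp n := by
  unfold hp
  push_cast
  exact Real.mul_rpow (by positivity) (by positivity)

/-- the sum of the inverse square roots -/
theorem sum_hp_le (n : ℕ) : ∑ j ∈ Icc 1 n, hp j ≤ 2 * Real.sqrt n := by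
  induction n with
  | zero => simp
  | succ n ih =>
    rw [sum_Icc_succ_top (by omega)]
    have h1 : (0 : ℝ) ≤ n := by positivity
    have h2 : 0 < Real.sqrt ((n + 1 : ℕ) : ℝ) := Real.sqrt_pos.2 (by positivity)
    have h3 : Real.sqrt n ≤ Real.sqrt ((n + 1 : ℕ) : ℝ) := Real.sqrt_le_sqrt (by push_cast; linarith)
    have h4 : Real.sqrt ((n + 1 : ℕ) : ℝ) ^ 2 = n + 1 := by
      rw [Real.sq_sqrt (by positivity)]
      push_cast
      rfl
    have h5 : Real.sqrt n ^ 2 = n := Real.sq_sqrt h1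
    have h6 : 0 ≤ Real.sqrt n := Real.sqrt_nonneg _
    have h7 : hp (n + 1) ≤ 2 * (Real.sqrt ((n + 1 : ℕ) : ℝ) - Real.sqrt n) := by
      rw [hp_eq, div_le_iff₀ h2]
      nlinarith
    linarith

/-- the sum of `c ^ (-1/2)` over the large integers of a residue class -/
theorem sum_class_le {q : ℕ} [NeZero q] (g : ZMod q) (Δ M : ℕ) :
    ∑ c ∈ (Ioc Δ M).filter (fun c : ℕ => (c : ZMod q) = g), hp c ≤
      (if Δ < g.val then hp g.val else 0) + 2 * Real.sqrt M / q := by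
  have hq0 : 0 < q := Nat.pos_of_ne_zero (NeZero.ne q)
  have hq0' : (0 : ℝ) < q := by exact_mod_cast hq0
  rw [← sum_filter_add_sum_filter_not ((Ioc Δ M).filter (fun c : ℕ => (c : ZMod q) = g))
    (fun c => c < q)]
  refine add_le_add ?_ ?_
  · have h1 : ((Ioc Δ M).filter (fun c : ℕ => (c : ZMod q) = g)).filter (fun c => c < q) ⊆
        if Δ < g.val then {g.val} else ∅ := by
      intro c hc
      rw [mem_filter, mem_filter, mem_Ioc] at hc
      have h2 : g.val = c := by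
        rw [← hc.1.2, ZMod.val_natCast, Nat.mod_eq_of_lt hc.2]
      rw [if_pos (by rw [h2]; exact hc.1.1.1), mem_singleton, h2]
    refine (sum_le_sum_of_subset_of_nonneg h1 fun _ _ _ => hp_nonneg _).trans ?_
    split_ifs
    · rw [sum_singleton]
    · rw [sum_empty]
  · have h1 : ∀ c ∈ ((Ioc Δ M).filter (fun c : ℕ => (c : ZMod q) = g)).filter (fun c => ¬ c < q),
        hp c ≤ hp q * hp (c / q) := by
      intro c hc
      rw [mem_filter] at hc
      have h2 : 1 ≤ c / q := (Nat.one_le_div_iff hq0).2 (by omega)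
      rw [← hp_mul]
      exact hp_anti (Nat.mul_pos hq0 h2) (Nat.mul_div_le c q)
    refine (sum_le_sum h1).trans ?_
    rw [← mul_sum]
    have h2 : ∑ c ∈ ((Ioc Δ M).filter (fun c : ℕ => (c : ZMod q) = g)).filter (fun c => ¬ c < q),
        hp (c / q) ≤ ∑ j ∈ Icc 1 (M / q), hp j := by
      have h3 : ∑ c ∈ ((Ioc Δ M).filter (fun c : ℕ => (c : ZMod q) = g)).filter (fun c => ¬ c < q),
        hp (c / q) = ∑ j ∈ (((Ioc Δ M).filter (fun c : ℕ => (c : ZMod q) = g)).filter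
          (fun c => ¬ c < q)).image (fun c => c / q), hp j := by
        rw [sum_image]
        intro m hm m' hm' h
        rw [mem_coe, mem_filter, mem_filter] at hm hm'
        have h4 : m % q = m' % q := (ZMod.natCast_eq_natCast_iff' m m' q).1
          (hm.1.2.trans hm'.1.2.symm)
        have h5 : m / q = m' / q := h
        rw [← Nat.div_add_mod m q, ← Nat.div_add_mod m' q, h4, h5]
      rw [h3]
      refine sum_le_sum_of_subset_of_nonneg ?_ fun _ _ _ => hp_nonneg _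
      intro j hj
      rw [mem_image] at hj
      obtain ⟨c, hc, rfl⟩ := hj
      rw [mem_filter, mem_filter, mem_Ioc] at hc
      rw [mem_Icc]
      exact ⟨(Nat.one_le_div_iff hq0).2 (by omega), Nat.div_le_div_right hc.1.1.2⟩
    calc hp q * _ ≤ hp q * (2 * Real.sqrt ((M / q : ℕ) : ℝ)) :=
          mul_le_mul_of_nonneg_left (h2.trans (sum_hp_le _)) (hp_nonneg _)
      _ ≤ hp q * (2 * Real.sqrt ((M : ℝ) / q)) := by
          refine mul_le_mul_of_nonneg_left ?_ (hp_nonneg _)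
          refine mul_le_mul_of_nonneg_left (Real.sqrt_le_sqrt Nat.cast_div_le) (by norm_num)
      _ = 2 * Real.sqrt M / q := by
          rw [hp_eq, Real.sqrt_div (by positivity)]
          have h3 : Real.sqrt q * Real.sqrt q = q := Real.mul_self_sqrt hq0'.le
          have h4 : Real.sqrt (q : ℝ) ≠ 0 := (Real.sqrt_pos.2 hq0').ne'
          field_simp
          rw [sq, h3]
          ring

/-- the sum over a subgroup of the squares -/
theorem sum_class_sq {q : ℕ} [Fact q.Prime] (K : Subgroup (ZMod q)ˣ) (g : (ZMod q)ˣ)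
    (Δ M s D : ℕ) (hs : 1 ≤ s) (hΔ : q ≤ Δ ^ s)
    (hD : ∀ m : ℕ, 1 ≤ m → m ≤ q ^ s → m.divisors.card ≤ D) (X : ℝ) (hX0 : 0 ≤ X)
    (hX : (D : ℝ) ^ s * ((Nat.card K : ℝ) / q * (1 + s * Real.log q)) ≤ X ^ s)
    (KF : Finset (ZMod q)ˣ) (hKF : ∀ κ ∈ KF, κ ∈ K) :
    ∑ κ ∈ KF, (∑ c ∈ (Ioc Δ M).filter (fun c : ℕ => (c : ZMod q) = ((κ * g : (ZMod q)ˣ) : ZMod q)),
      hp c) ^ 2 ≤ 2 * X + 8 * (Nat.card K) * M / (q : ℝ) ^ 2 := by
  have hq0 : 0 < q := Nat.pos_of_ne_zero (NeZero.ne q)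
  have hq0' : (0 : ℝ) < q := by exact_mod_cast hq0
  have h1 : ∀ κ ∈ KF, (∑ c ∈ (Ioc Δ M).filter
      (fun c : ℕ => (c : ZMod q) = ((κ * g : (ZMod q)ˣ) : ZMod q)), hp c) ^ 2 ≤
      2 * (if Δ < ((κ * g : (ZMod q)ˣ) : ZMod q).val then
        (1 : ℝ) / ((((κ * g : (ZMod q)ˣ) : ZMod q).val : ℕ) : ℝ) else 0) +
      8 * M / (q : ℝ) ^ 2 := by
    intro κ _
    have h2 := sum_class_le (((κ * g : (ZMod q)ˣ) : ZMod q)) Δ M
    have h3 : 0 ≤ ∑ c ∈ (Ioc Δ M).filter
      (fun c : ℕ => (c : ZMod q) = ((κ * g : (ZMod q)ˣ) : ZMod q)), hp c :=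
      sum_nonneg fun c _ => hp_nonneg c
    have h4 := pow_le_pow_left₀ h3 h2 2
    refine h4.trans ?_
    have h5 : (2 * Real.sqrt M / q) ^ 2 = 4 * M / (q : ℝ) ^ 2 := by
      rw [div_pow, mul_pow, Real.sq_sqrt (by positivity)]
      norm_num
    have h6 : (if Δ < ((κ * g : (ZMod q)ˣ) : ZMod q).val then
        hp ((κ * g : (ZMod q)ˣ) : ZMod q).val else 0) ^ 2 =
        (if Δ < ((κ * g : (ZMod q)ˣ) : ZMod q).val then
        (1 : ℝ) / ((((κ * g : (ZMod q)ˣ) : ZMod q).val : ℕ) : ℝ) else 0) := by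
      split_ifs with h
      · exact hp_sq (by omega)
      · norm_num
    have h7 := add_sq_le (a := (if Δ < ((κ * g : (ZMod q)ˣ) : ZMod q).val then
        hp ((κ * g : (ZMod q)ˣ) : ZMod q).val else 0)) (b := 2 * Real.sqrt M / q)
    rw [h5, h6] at h7
    refine h7.trans (le_of_eq ?_)
    ring
  refine (sum_le_sum h1).trans ?_
  rw [sum_add_distrib, ← mul_sum, sum_const, nsmul_eq_mul]
  have hKc : (KF.card : ℝ) ≤ Nat.card K := by
    rw [card_sub]
    exact_mod_cast card_le_card (by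
      intro κ hκ
      simp [hKF κ hκ])
  obtain ⟨S, hS⟩ : ∃ S : Finset ℕ, S = (KF.filter (fun κ : (ZMod q)ˣ =>
      Δ < ((κ * g : (ZMod q)ˣ) : ZMod q).val)).image
      (fun κ => ((κ * g : (ZMod q)ˣ) : ZMod q).val) := ⟨_, rfl⟩
  have h2 : ∑ κ ∈ KF, (if Δ < ((κ * g : (ZMod q)ˣ) : ZMod q).val then
        (1 : ℝ) / ((((κ * g : (ZMod q)ˣ) : ZMod q).val : ℕ) : ℝ) else 0) =
      ∑ a ∈ S, (1 : ℝ) / a := by
    rw [← sum_filter, hS, sum_image]
    intro κ _ κ' _ h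
    have h3 := ZMod.val_injective q h
    exact mul_right_cancel (Units.ext h3)
  have h3 : (∑ a ∈ S, (1 : ℝ) / a) ^ s ≤
      (D : ℝ) ^ s * ((Nat.card K : ℝ) / q * (1 + s * Real.log q)) := by
    refine sum_large K g S hs ?_ ?_ hΔ hD
    · intro a ha
      rw [hS, mem_image] at ha
      obtain ⟨κ, hκ, rfl⟩ := ha
      rw [mem_filter] at hκ
      exact ⟨hκ.2.le, (ZMod.val_lt _).le⟩
    · intro a ha
      rw [hS, mem_image] at ha
      obtain ⟨κ, hκ, rfl⟩ := ha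
      rw [mem_filter] at hκ
      exact ⟨κ, hKF κ hκ.1, by rw [ZMod.natCast_zmod_val]⟩
  have h4 : ∑ a ∈ S, (1 : ℝ) / a ≤ X := le_of_pow_le_pow_left₀ (by omega) hX0 (h3.trans hX)
  rw [h2]
  have h5 : (KF.card : ℝ) * (8 * M / (q : ℝ) ^ 2) ≤ (Nat.card K) * (8 * M / (q : ℝ) ^ 2) :=
    mul_le_mul_of_nonneg_right hKc (by positivity)
  calc 2 * ∑ a ∈ S, (1 : ℝ) / a + (KF.card : ℝ) * (8 * M / (q : ℝ) ^ 2)
      ≤ 2 * X + (Nat.card K) * (8 * M / (q : ℝ) ^ 2) := by linarith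
    _ = _ := by ring

end Pool.Agent.Q237.LV
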