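import Mathlib

/-!
# Sums over cosets of subgroups of the group of Dirichlet characters
-/

set_option autoImplicit false

namespace Pool.Agent.Q237.LV

open Finset
open scoped Classical

variable {q : ℕ} [NeZero q]

/-- the residue classes on which all the characters in `H` are equal to one -/
def ann (H : Subgroup (DirichletCharacter ℂ q)) : Subgroup (ZMod q)ˣ where
  carrier := {g | ∀ ψ ∈ H, ψ (g : ZMod q) = 1}
  mul_mem' := by
    intro a b ha hb ψ hψ
    rw [Units.val_mul, map_mul, ha ψ hψ, hb ψ hψ, one_mul]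
  one_mem' := by
    intro ψ _
    simp
  inv_mem' := by
    intro a ha ψ hψ
    have h1 : ψ ((a⁻¹ : (ZMod q)ˣ) : ZMod q) * ψ (a : ZMod q) = 1 := by
      rw [← map_mul, ← Units.val_mul, inv_mul_cancel, Units.val_one, map_one]
    rw [ha ψ hψ, mul_one] at h1
    exact h1

/-- the characters of `H` as a finset -/
noncomputable def hf (H : Subgroup (DirichletCharacter ℂ q)) : Finset (DirichletCharacter ℂ q) :=
  univ.filter (fun ψ => ψ ∈ H)

/-- the annihilator as a finset -/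
noncomputable def kf (H : Subgroup (DirichletCharacter ℂ q)) : Finset (ZMod q)ˣ :=
  univ.filter (fun g => g ∈ ann H)

theorem mem_hf {H : Subgroup (DirichletCharacter ℂ q)} {ψ : DirichletCharacter ℂ q} :
    ψ ∈ hf H ↔ ψ ∈ H := by
  simp [hf]

theorem mem_kf {H : Subgroup (DirichletCharacter ℂ q)} {g : (ZMod q)ˣ} :
    g ∈ kf H ↔ g ∈ ann H := by
  simp [kf]

theorem hf_card (H : Subgroup (DirichletCharacter ℂ q)) : (hf H).card = Nat.card H :=
  (Nat.subtype_card (hf H) (fun _ => mem_hf)).symm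

theorem kf_card (H : Subgroup (DirichletCharacter ℂ q)) : (kf H).card = Nat.card (ann H) :=
  (Nat.subtype_card (kf H) (fun _ => mem_kf)).symm

theorem hf_pos (H : Subgroup (DirichletCharacter ℂ q)) : 0 < (hf H).card :=
  card_pos.2 ⟨1, mem_hf.2 H.one_mem⟩

theorem one_mem_kf (H : Subgroup (DirichletCharacter ℂ q)) : (1 : (ZMod q)ˣ) ∈ kf H :=
  mem_kf.2 (ann H).one_mem

theorem sum_hf (H : Subgroup (DirichletCharacter ℂ q)) (g : (ZMod q)ˣ) :
    ∑ ψ ∈ hf H, ψ (g : ZMod q) = if g ∈ kf H then ((hf H).card : ℂ) else 0 := by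
  split_ifs with h
  · have h1 : ∀ ψ ∈ hf H, ψ (g : ZMod q) = 1 := fun ψ hψ => (mem_kf.1 h) ψ (mem_hf.1 hψ)
    rw [sum_congr rfl h1]
    simp
  · rw [mem_kf] at h
    have h2 : ∃ ψ0 ∈ H, ψ0 (g : ZMod q) ≠ 1 := by
      by_contra hcon
      push Not at hcon
      exact h hcon
    obtain ⟨ψ0, h3, h4⟩ := h2
    refine eq_zero_of_mul_eq_self_left h4 ?_
    rw [mul_sum]
    refine sum_nbij' (fun ψ => ψ0 * ψ) (fun ψ => ψ0⁻¹ * ψ) ?_ ?_ ?_ ?_ ?_
    · intro ψ hψ
      rw [mem_hf] at hψ ⊢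
      exact H.mul_mem h3 hψ
    · intro ψ hψ
      rw [mem_hf] at hψ ⊢
      exact H.mul_mem (H.inv_mem h3) hψ
    · intro ψ _
      simp
    · intro ψ _
      simp
    · intro ψ _
      rw [MulChar.mul_apply]

theorem card_mul_card (H : Subgroup (DirichletCharacter ℂ q)) :
    (hf H).card * (kf H).card = q.totient := by
  have h1 : ∑ g : (ZMod q)ˣ, ∑ ψ ∈ hf H, ψ (g : ZMod q) = ((hf H).card * (kf H).card : ℕ) := by
    rw [sum_congr rfl (fun g _ => sum_hf H g), ← sum_filter]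
    rw [sum_const, nsmul_eq_mul]
    push_cast
    rw [mul_comm]
    congr 3
    ext g
    simp
  have h2 : ∑ g : (ZMod q)ˣ, ∑ ψ ∈ hf H, ψ (g : ZMod q) = (q.totient : ℂ) := by
    rw [sum_comm]
    have h3 : ∀ ψ ∈ hf H, ∑ g : (ZMod q)ˣ, ψ (g : ZMod q) =
        if ψ = 1 then (q.totient : ℂ) else 0 := by
      intro ψ _
      split_ifs with h
      · rw [h]
        simp [MulChar.one_apply_coe, ZMod.card_units_eq_totient]
      · obtain ⟨a, ha⟩ := MulChar.ne_one_iff.1 h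
        refine eq_zero_of_mul_eq_self_left ha ?_
        rw [mul_sum]
        refine Fintype.sum_bijective _ (Group.mulLeft_bijective a) _ _ fun b => ?_
        rw [← map_mul, Units.val_mul]
    rw [sum_congr rfl h3, sum_ite_eq' (hf H) 1, if_pos (mem_hf.2 H.one_mem)]
  have h3 := h1.symm.trans h2
  exact_mod_cast h3

/-- the sum over a coset of the values at a residue class -/
theorem sum_coset [Fact q.Prime] (H : Subgroup (DirichletCharacter ℂ q))
    (χ : DirichletCharacter ℂ q) (z : ZMod q) :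
    ∑ ψ ∈ hf H, (χ * ψ) z =
      ((hf H).card : ℂ) * ∑ κ ∈ kf H, if (κ : ZMod q) = z then χ (κ : ZMod q) else 0 := by
  by_cases hz : z = 0
  · subst hz
    have h1 : ∀ ψ ∈ hf H, (χ * ψ) (0 : ZMod q) = 0 := fun ψ _ => MulChar.map_zero _
    rw [sum_congr rfl h1, sum_const_zero]
    have h2 : ∀ κ ∈ kf H, (if (κ : ZMod q) = 0 then χ (κ : ZMod q) else 0) = 0 := by
      intro κ _
      rw [if_neg κ.ne_zero]
    rw [sum_congr rfl h2, sum_const_zero, mul_zero]
  · obtain ⟨g, hg⟩ : ∃ g : (ZMod q)ˣ, (g : ZMod q) = z := ⟨Units.mk0 z hz, rfl⟩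
    rw [← hg]
    have h1 : ∀ ψ ∈ hf H, (χ * ψ) (g : ZMod q) = χ (g : ZMod q) * ψ (g : ZMod q) :=
      fun ψ _ => MulChar.mul_apply _ _ _
    rw [sum_congr rfl h1, ← mul_sum, sum_hf]
    have h2 : ∀ κ ∈ kf H, (if (κ : ZMod q) = (g : ZMod q) then χ (κ : ZMod q) else 0) =
        if κ = g then χ (g : ZMod q) else 0 := by
      intro κ _
      by_cases h : κ = g
      · rw [if_pos h, if_pos (by rw [h]), h]
      · rw [if_neg h, if_neg]
        intro h3
        exact h (Units.ext h3)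
    rw [sum_congr rfl h2, sum_ite_eq' (kf H) g]
    split_ifs with h
    · ring
    · ring

/-- the sum over a coset of a finite combination of values -/
theorem sum_coset_comb [Fact q.Prime] (H : Subgroup (DirichletCharacter ℂ q))
    (χ : DirichletCharacter ℂ q) {ι : Type*} (I : Finset ι) (w : ι → ℂ) (z : ι → ZMod q) :
    ∑ ψ ∈ hf H, ∑ i ∈ I, w i * (χ * ψ) (z i) =
      ((hf H).card : ℂ) * ∑ κ ∈ kf H, χ (κ : ZMod q) *
        ∑ i ∈ I, if (κ : ZMod q) = z i then w i else 0 := by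
  rw [sum_comm]
  have h1 : ∀ i ∈ I, ∑ ψ ∈ hf H, w i * (χ * ψ) (z i) =
      ((hf H).card : ℂ) * ∑ κ ∈ kf H, χ (κ : ZMod q) * if (κ : ZMod q) = z i then w i else 0 := by
    intro i _
    rw [← mul_sum, sum_coset, mul_left_comm, mul_sum (kf H)]
    congr 1
    refine sum_congr rfl fun κ _ => ?_
    split_ifs with h <;> ring
  rw [sum_congr rfl h1, ← mul_sum, sum_comm]
  congr 1
  refine sum_congr rfl fun κ _ => ?_
  rw [mul_sum]

theorem conj_apply (χ : DirichletCharacter ℂ q) (g : (ZMod q)ˣ) :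
    (starRingEnd ℂ) (χ (g : ZMod q)) = χ ((g : ZMod q)⁻¹) := by
  have h1 : ‖χ (g : ZMod q)‖ = 1 := DirichletCharacter.unit_norm_eq_one χ g
  have h2 : (starRingEnd ℂ) (χ (g : ZMod q)) * χ (g : ZMod q) = 1 := by
    rw [Complex.conj_mul', h1]
    norm_num
  have h3 : χ ((g : ZMod q)⁻¹) * χ (g : ZMod q) = 1 := by
    rw [← map_mul, ZMod.inv_mul_of_unit _ g.isUnit, map_one]
  have h4 : χ (g : ZMod q) ≠ 0 := by
    intro h
    rw [h, norm_zero] at h1
    exact zero_ne_one h1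
  exact mul_right_cancel₀ h4 (h2.trans h3.symm)

/-- orthogonality over all the characters -/
theorem parseval (K : Finset (ZMod q)ˣ) (T : (ZMod q)ˣ → ℂ) :
    ∑ χ : DirichletCharacter ℂ q, ‖∑ κ ∈ K, χ (κ : ZMod q) * T κ‖ ^ 2 =
      (q.totient : ℝ) * ∑ κ ∈ K, ‖T κ‖ ^ 2 := by
  have h1 : ∀ χ : DirichletCharacter ℂ q,
      ((‖∑ κ ∈ K, χ (κ : ZMod q) * T κ‖ ^ 2 : ℝ) : ℂ) =
      ∑ κ ∈ K, ∑ κ' ∈ K, (T κ * (starRingEnd ℂ) (T κ')) *
        (χ ((κ' : ZMod q)⁻¹) * χ (κ : ZMod q)) := by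
    intro χ
    rw [← Complex.normSq_eq_norm_sq, Complex.normSq_eq_conj_mul_self, map_sum, sum_mul_sum,
      sum_comm]
    refine sum_congr rfl fun κ _ => sum_congr rfl fun κ' _ => ?_
    rw [map_mul]
    have h2 : (starRingEnd ℂ) (χ (κ' : ZMod q)) = χ ((κ' : ZMod q)⁻¹) := conj_apply χ κ'
    rw [h2]
    ring
  have h2 : ((∑ χ : DirichletCharacter ℂ q, ‖∑ κ ∈ K, χ (κ : ZMod q) * T κ‖ ^ 2 : ℝ) : ℂ) =
      (((q.totient : ℝ) * ∑ κ ∈ K, ‖T κ‖ ^ 2 : ℝ) : ℂ) := by
    push_cast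
    have h3 : ∀ χ : DirichletCharacter ℂ q,
      ((‖∑ κ ∈ K, χ (κ : ZMod q) * T κ‖ : ℂ) ^ 2) =
      ∑ κ ∈ K, ∑ κ' ∈ K, (T κ * (starRingEnd ℂ) (T κ')) *
        (χ ((κ' : ZMod q)⁻¹) * χ (κ : ZMod q)) := by
      intro χ
      rw [← h1 χ]
      push_cast
      rfl
    rw [sum_congr rfl (fun χ _ => h3 χ), sum_comm, mul_sum]
    refine sum_congr rfl fun κ hκ => ?_
    rw [sum_comm]
    have h4 : ∀ κ' ∈ K, ∑ χ : DirichletCharacter ℂ q, (T κ * (starRingEnd ℂ) (T κ')) *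
        (χ ((κ' : ZMod q)⁻¹) * χ (κ : ZMod q)) =
        if κ' = κ then (q.totient : ℂ) * (T κ * (starRingEnd ℂ) (T κ)) else 0 := by
      intro κ' _
      rw [← mul_sum, DirichletCharacter.sum_char_inv_mul_char_eq ℂ κ'.isUnit]
      by_cases h : κ' = κ
      · rw [if_pos h, if_pos (by rw [h]), h]
        ring
      · rw [if_neg h, if_neg, mul_zero]
        intro h3
        exact h (Units.ext h3)
    rw [sum_congr rfl h4, sum_ite_eq' K κ, if_pos hκ]
    rw [Complex.mul_conj, Complex.normSq_eq_norm_sq]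
    push_cast
    ring
  exact_mod_cast h2

end Pool.Agent.Q237.LV
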