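import Mathlib

/-!
# Small integers in a coset of a subgroup of the units modulo `q`
-/

set_option autoImplicit false

namespace Pool.Agent.Q237.LV

open Finset
open scoped Classical

/-- the number of ordered factorisations into `s` factors -/
theorem card_fact_le (s m : ℕ) (hm : m ≠ 0) :
    (Nat.finMulAntidiag s m).card ≤ s ^ (ArithmeticFunction.cardFactors m) := by
  induction m using induction_on_primes with
  | zero => exact absurd rfl hm
  | one =>
    have h1 : Nat.finMulAntidiag s 1 ⊆ {fun _ => 1} := by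
      intro f hf
      rw [Nat.mem_finMulAntidiag] at hf
      rw [mem_singleton]
      funext i
      have h2 : f i ∣ 1 := by
        rw [← hf.1]
        exact dvd_prod_of_mem f (mem_univ i)
      exact Nat.dvd_one.1 h2
    refine (card_le_card h1).trans ?_
    simp
  | prime_mul p a hp ih =>
    have ha : a ≠ 0 := by
      intro h
      exact hm (by rw [h, mul_zero])
    have h1 : Nat.finMulAntidiag s (p * a) ⊆
        ((univ : Finset (Fin s)) ×ˢ Nat.finMulAntidiag s a).image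
          (fun x => Function.update x.2 x.1 (p * x.2 x.1)) := by
      intro g hg
      rw [Nat.mem_finMulAntidiag] at hg
      have h2 : p ∣ ∏ i, g i := by
        rw [hg.1]
        exact dvd_mul_right p a
      obtain ⟨i, -, hi⟩ := hp.prime.exists_mem_finset_dvd h2
      obtain ⟨b, hb⟩ := hi
      rw [mem_image]
      refine ⟨(i, Function.update g i b), ?_, ?_⟩
      · rw [mem_product]
        refine ⟨mem_univ _, ?_⟩
        rw [Nat.mem_finMulAntidiag]
        refine ⟨?_, ha⟩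
        have h3 : p * ∏ j, Function.update g i b j = p * a := by
          rw [← hg.1, prod_update_of_mem (mem_univ i), ← mul_assoc, ← hb,
            ← prod_sdiff (subset_univ {i}), prod_singleton, mul_comm]
        exact Nat.eq_of_mul_eq_mul_left hp.pos h3
      · simp only [Function.update_self, Function.update_idem]
        rw [← hb]
        exact Function.update_eq_self i g
    refine (card_le_card h1).trans (card_image_le.trans ?_)
    rw [card_product, card_univ, Fintype.card_fin, ArithmeticFunction.cardFactors_mul hp.ne_zero ha,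
      ArithmeticFunction.cardFactors_apply_prime hp, pow_add, pow_one]
    exact Nat.mul_le_mul_left _ (ih ha)

theorem pow_cardFactors_le {y m : ℕ} (hm : m ≠ 0) (h : ∀ p : ℕ, p.Prime → p ∣ m → y ≤ p) :
    y ^ (ArithmeticFunction.cardFactors m) ≤ m := by
  rw [ArithmeticFunction.cardFactors_apply]
  calc y ^ m.primeFactorsList.length ≤ m.primeFactorsList.prod := by
        refine List.pow_card_le_prod _ _ ?_
        intro p hp
        exact h p (Nat.prime_of_mem_primeFactorsList hp) (Nat.dvd_of_mem_primeFactorsList hp)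
    _ = m := Nat.prod_primeFactorsList hm

section

variable {q : ℕ} [NeZero q]

/-- the classes of the products -/
theorem prod_class (U : Subgroup (ZMod q)ˣ) (c : (ZMod q)ˣ) {s : ℕ} (f : Fin s → ℕ)
    (h : ∀ i, ∃ κ ∈ U, ((κ * c : (ZMod q)ˣ) : ZMod q) = (f i : ZMod q)) :
    ∃ κ ∈ U, ((κ * c ^ s : (ZMod q)ˣ) : ZMod q) = ((∏ i, f i : ℕ) : ZMod q) := by
  choose κ hκ using h
  refine ⟨∏ i, κ i, Subgroup.prod_mem _ fun i _ => (hκ i).1, ?_⟩
  have h1 : (∏ i, κ i) * c ^ s = ∏ i, (κ i * c) := by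
    rw [prod_mul_distrib, prod_const, card_univ, Fintype.card_fin]
  rw [h1]
  push_cast
  exact prod_congr rfl fun i _ => by
    rw [← (hκ i).2]
    push_cast
    rfl

theorem card_sub (U : Subgroup (ZMod q)ˣ) :
    Nat.card U = (univ.filter fun u : (ZMod q)ˣ => u ∈ U).card := by
  rw [Nat.card_eq_fintype_card, Fintype.card_subtype]

/-- few integers without small prime factors -/
theorem cnt_rough (U : Subgroup (ZMod q)ˣ) (c : (ZMod q)ˣ) (hq : 1 < q) (S : Finset ℕ)
    {Z y s w : ℕ} (hs : 1 ≤ s) (hy : 2 ≤ y)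
    (h1 : ∀ u ∈ S, 1 ≤ u ∧ u ≤ Z) (h2 : ∀ u ∈ S, ∀ p : ℕ, p.Prime → p ∣ u → y ≤ p)
    (h3 : ∀ u ∈ S, ∃ κ ∈ U, ((κ * c : (ZMod q)ˣ) : ZMod q) = (u : ZMod q))
    (hZ : Z ^ s ≤ q) (hw : q ≤ y ^ w) :
    S.card ^ s ≤ Nat.card U * s ^ w := by
  obtain ⟨T, hT⟩ : ∃ T : Finset ℕ, T = (range q).filter (fun m : ℕ =>
    (m ≠ 0 ∧ ∀ p : ℕ, p.Prime → p ∣ m → y ≤ p) ∧
      ∃ κ ∈ U, ((κ * c ^ s : (ZMod q)ˣ) : ZMod q) = (m : ZMod q)) := ⟨_, rfl⟩
  have e1 : S.card ^ s = (Fintype.piFinset fun _ : Fin s => S).card := by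
    rw [Fintype.card_piFinset, prod_const, card_univ, Fintype.card_fin]
  have hmem : ∀ f ∈ (Fintype.piFinset fun _ : Fin s => S), ∏ i, f i ∈ T := by
    intro f hf
    rw [Fintype.mem_piFinset] at hf
    have hcl := prod_class U c f (fun i => h3 _ (hf i))
    have hne : ∏ i, f i ≠ 0 := prod_ne_zero_iff.2 fun i _ => by
      have := (h1 _ (hf i)).1
      omega
    rw [hT, mem_filter, mem_range]
    refine ⟨?_, ⟨hne, ?_⟩, hcl⟩
    · have h4 : ∏ i, f i ≤ q := by
        calc ∏ i, f i ≤ ∏ _i : Fin s, Z := prod_le_prod' fun i _ => (h1 _ (hf i)).2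
          _ = Z ^ s := by rw [prod_const, card_univ, Fintype.card_fin]
          _ ≤ q := hZ
      refine lt_of_le_of_ne h4 ?_
      intro h5
      obtain ⟨κ, -, hκ⟩ := hcl
      rw [h5, ZMod.natCast_self] at hκ
      haveI : Fact (1 < q) := ⟨hq⟩
      exact (Units.ne_zero _) hκ
    · intro p hp hpd
      obtain ⟨i, -, hi⟩ := hp.prime.exists_mem_finset_dvd hpd
      exact h2 _ (hf i) p hp hi
  have hfib : ∀ m ∈ T, ((Fintype.piFinset fun _ : Fin s => S).filter
      fun f => ∏ i, f i = m).card ≤ s ^ w := by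
    intro m hm
    rw [hT, mem_filter, mem_range] at hm
    obtain ⟨hm1, ⟨hm2, hm3⟩, -⟩ := hm
    have h4 : ((Fintype.piFinset fun _ : Fin s => S).filter fun f => ∏ i, f i = m) ⊆
        Nat.finMulAntidiag s m := by
      intro f hf
      rw [mem_filter] at hf
      rw [Nat.mem_finMulAntidiag]
      exact ⟨hf.2, hm2⟩
    refine (card_le_card h4).trans ((card_fact_le s m hm2).trans ?_)
    refine Nat.pow_le_pow_right (by omega) ?_
    have h5 := pow_cardFactors_le hm2 hm3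
    have h6 : y ^ (ArithmeticFunction.cardFactors m) < y ^ w :=
      lt_of_le_of_lt h5 (lt_of_lt_of_le hm1 hw)
    exact ((Nat.pow_lt_pow_iff_right (by omega)).1 h6).le
  have hTc : T.card ≤ Nat.card U := by
    rw [card_sub]
    have h4 : T.card ≤ ((univ.filter fun u : (ZMod q)ˣ => u ∈ U).image
        (fun κ => ((κ * c ^ s : (ZMod q)ˣ) : ZMod q))).card := by
      refine card_le_card_of_injOn (fun m : ℕ => (m : ZMod q)) ?_ ?_
      · intro m hm
        rw [mem_coe, hT, mem_filter] at hm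
        obtain ⟨κ, h5, h6⟩ := hm.2.2
        rw [mem_coe, mem_image]
        exact ⟨κ, by simp [h5], h6⟩
      · intro m hm m' hm' h
        rw [mem_coe, hT, mem_filter, mem_range] at hm hm'
        have h7 := (ZMod.natCast_eq_natCast_iff' m m' q).1 h
        rwa [Nat.mod_eq_of_lt hm.1, Nat.mod_eq_of_lt hm'.1] at h7
    exact h4.trans card_image_le
  rw [e1]
  calc (Fintype.piFinset fun _ : Fin s => S).card ≤ s ^ w * T.card :=
        card_le_mul_card_image_of_maps_to hmem (s ^ w) hfib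
    _ ≤ s ^ w * Nat.card U := Nat.mul_le_mul_left _ hTc
    _ = Nat.card U * s ^ w := by ring

/-- the sum of the inverses of the large integers in a coset -/
theorem sum_large (U : Subgroup (ZMod q)ˣ) (c : (ZMod q)ˣ) (S : Finset ℕ)
    {Δ s D : ℕ} (hs : 1 ≤ s)
    (h1 : ∀ a ∈ S, Δ ≤ a ∧ a ≤ q) (h3 : ∀ u ∈ S, ∃ κ ∈ U, ((κ * c : (ZMod q)ˣ) : ZMod q) = (u : ZMod q))
    (hΔ : q ≤ Δ ^ s) (hD : ∀ m : ℕ, 1 ≤ m → m ≤ q ^ s → m.divisors.card ≤ D) :
    (∑ a ∈ S, (1 : ℝ) / a) ^ s ≤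
      (D : ℝ) ^ s * ((Nat.card U : ℝ) / q * (1 + s * Real.log q)) := by
  have hq0 : 0 < q := Nat.pos_of_ne_zero (NeZero.ne q)
  have hq0' : (0 : ℝ) < q := by exact_mod_cast hq0
  obtain ⟨T, hT⟩ : ∃ T : Finset ℕ, T = (Icc q (q ^ s)).filter (fun m : ℕ =>
      ∃ κ ∈ U, ((κ * c ^ s : (ZMod q)ˣ) : ZMod q) = (m : ZMod q)) := ⟨_, rfl⟩
  have e1 : (∑ a ∈ S, (1 : ℝ) / a) ^ s = ∑ f ∈ (Fintype.piFinset fun _ : Fin s => S),
      (1 : ℝ) / ((∏ i, f i : ℕ) : ℝ) := by
    have := prod_univ_sum (fun _ : Fin s => S) (fun _ a => (1 : ℝ) / (a : ℝ))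
    rw [prod_const, card_univ, Fintype.card_fin] at this
    rw [this]
    refine sum_congr rfl fun f _ => ?_
    push_cast
    rw [prod_div_distrib, prod_const_one]
  have hmem : ∀ f ∈ (Fintype.piFinset fun _ : Fin s => S), ∏ i, f i ∈ T := by
    intro f hf
    rw [Fintype.mem_piFinset] at hf
    have hcl := prod_class U c f (fun i => h3 _ (hf i))
    rw [hT, mem_filter, mem_Icc]
    refine ⟨⟨?_, ?_⟩, hcl⟩
    · calc q ≤ Δ ^ s := hΔ
        _ = ∏ _i : Fin s, Δ := by rw [prod_const, card_univ, Fintype.card_fin]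
        _ ≤ ∏ i, f i := prod_le_prod' fun i _ => (h1 _ (hf i)).1
    · calc ∏ i, f i ≤ ∏ _i : Fin s, q := prod_le_prod' fun i _ => (h1 _ (hf i)).2
        _ = q ^ s := by rw [prod_const, card_univ, Fintype.card_fin]
  have hfib : ∀ m ∈ T, ((Fintype.piFinset fun _ : Fin s => S).filter
      fun f => ∏ i, f i = m).card ≤ D ^ s := by
    intro m hm
    rw [hT, mem_filter, mem_Icc] at hm
    have h2 : ((Fintype.piFinset fun _ : Fin s => S).filter fun f => ∏ i, f i = m) ⊆
        Fintype.piFinset fun _ : Fin s => m.divisors := by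
      intro f hf
      rw [mem_filter] at hf
      rw [Fintype.mem_piFinset]
      intro i
      rw [Nat.mem_divisors]
      refine ⟨?_, by omega⟩
      rw [← hf.2]
      exact dvd_prod_of_mem f (mem_univ i)
    refine (card_le_card h2).trans ?_
    rw [Fintype.card_piFinset, prod_const, card_univ, Fintype.card_fin]
    exact Nat.pow_le_pow_left (hD m (by omega) hm.1.2) s
  have e2 : ∑ f ∈ (Fintype.piFinset fun _ : Fin s => S), (1 : ℝ) / ((∏ i, f i : ℕ) : ℝ) ≤
      (D : ℝ) ^ s * ∑ m ∈ T, (1 : ℝ) / m := by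
    rw [← sum_fiberwise_of_maps_to hmem, mul_sum]
    refine sum_le_sum fun m hm => ?_
    have h4 : ∀ f ∈ (Fintype.piFinset fun _ : Fin s => S).filter (fun f => ∏ i, f i = m),
        (1 : ℝ) / ((∏ i, f i : ℕ) : ℝ) = 1 / m := by
      intro f hf
      rw [(mem_filter.1 hf).2]
    rw [sum_congr rfl h4, sum_const, nsmul_eq_mul]
    have h5 : ((((Fintype.piFinset fun _ : Fin s => S).filter
      fun f => ∏ i, f i = m).card : ℕ) : ℝ) ≤ (D : ℝ) ^ s := by
      exact_mod_cast hfib m hm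
    exact mul_le_mul_of_nonneg_right h5 (by positivity)
  have e3 : ∑ m ∈ T, (1 : ℝ) / m ≤ (Nat.card U : ℝ) / q * (1 + s * Real.log q) := by
    obtain ⟨C, hC⟩ : ∃ C : Finset (ZMod q), C = (univ.filter fun u : (ZMod q)ˣ => u ∈ U).image
        (fun κ => ((κ * c ^ s : (ZMod q)ˣ) : ZMod q)) := ⟨_, rfl⟩
    have hCc : C.card ≤ Nat.card U := by
      rw [hC, card_sub]
      exact card_image_le
    have h4 : ∀ m ∈ T, (1 : ℝ) / m ≤ 1 / (q * ((m / q : ℕ) : ℝ)) := by
      intro m hm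
      rw [hT, mem_filter, mem_Icc] at hm
      have h5 : 1 ≤ m / q := (Nat.one_le_div_iff hq0).2 hm.1.1
      have h6 : q * (m / q) ≤ m := Nat.mul_div_le m q
      have h7 : (1 : ℝ) ≤ ((m / q : ℕ) : ℝ) := by exact_mod_cast h5
      have h8 : (q : ℝ) * ((m / q : ℕ) : ℝ) ≤ m := by exact_mod_cast h6
      exact one_div_le_one_div_of_le (by positivity) h8
    have h5 : ∑ m ∈ T, (1 : ℝ) / (q * ((m / q : ℕ) : ℝ)) ≤
        ∑ x ∈ C ×ˢ Icc 1 (q ^ (s - 1)), (1 : ℝ) / (q * (x.2 : ℝ)) := by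
      have h6 : ∑ m ∈ T, (1 : ℝ) / (q * ((m / q : ℕ) : ℝ)) =
          ∑ x ∈ T.image (fun m : ℕ => ((m : ZMod q), m / q)), (1 : ℝ) / (q * (x.2 : ℝ)) := by
        rw [sum_image]
        intro m _ m' _ h
        simp only [Prod.mk.injEq] at h
        have h4 : m % q = m' % q := (ZMod.natCast_eq_natCast_iff' m m' q).1 h.1
        rw [← Nat.div_add_mod m q, ← Nat.div_add_mod m' q, h4, h.2]
      rw [h6]
      refine sum_le_sum_of_subset_of_nonneg ?_ fun x _ _ => by positivity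
      intro x hx
      rw [mem_image] at hx
      obtain ⟨m, hm, rfl⟩ := hx
      rw [hT, mem_filter, mem_Icc] at hm
      rw [mem_product, mem_Icc]
      refine ⟨?_, (Nat.one_le_div_iff hq0).2 hm.1.1, ?_⟩
      · obtain ⟨κ, h5, h6⟩ := hm.2
        rw [hC, mem_image]
        exact ⟨κ, by simp [h5], h6⟩
      · have h7 : q ^ s = q ^ (s - 1) * q := by
          rw [← pow_succ]
          congr 1
          omega
        show m / q ≤ q ^ (s - 1)
        calc m / q ≤ q ^ s / q := Nat.div_le_div_right hm.1.2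
          _ = q ^ (s - 1) := by rw [h7, Nat.mul_div_cancel _ hq0]
    have h6 : ∑ x ∈ C ×ˢ Icc 1 (q ^ (s - 1)), (1 : ℝ) / (q * (x.2 : ℝ)) =
        C.card * ((1 / q) * ∑ j ∈ Icc 1 (q ^ (s - 1)), ((j : ℝ))⁻¹) := by
      rw [sum_product]
      simp only [sum_const, nsmul_eq_mul]
      congr 1
      rw [mul_sum]
      refine sum_congr rfl fun j _ => ?_
      rw [one_div, mul_inv, one_div]
    have h7 : ∑ j ∈ Icc 1 (q ^ (s - 1)), ((j : ℝ))⁻¹ ≤ 1 + s * Real.log q := by
      have h8 := harmonic_le_one_add_log (q ^ (s - 1))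
      have h9 : ((harmonic (q ^ (s - 1)) : ℚ) : ℝ) = ∑ j ∈ Icc 1 (q ^ (s - 1)), ((j : ℝ))⁻¹ := by
        rw [harmonic_eq_sum_Icc]
        push_cast
        rfl
      rw [h9] at h8
      refine h8.trans ?_
      push_cast
      rw [Real.log_pow]
      have h10 : ((s - 1 : ℕ) : ℝ) ≤ s := by exact_mod_cast Nat.sub_le s 1
      have h11 : 0 ≤ Real.log q := Real.log_natCast_nonneg q
      nlinarith
    have h8 : (0 : ℝ) ≤ 1 + s * Real.log q := by
      have h11 : 0 ≤ Real.log q := Real.log_natCast_nonneg q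
      positivity
    have h9 : (C.card : ℝ) ≤ Nat.card U := by exact_mod_cast hCc
    calc ∑ m ∈ T, (1 : ℝ) / m ≤ ∑ m ∈ T, (1 : ℝ) / (q * ((m / q : ℕ) : ℝ)) := sum_le_sum h4
      _ ≤ _ := h5
      _ = _ := h6
      _ ≤ (Nat.card U) * ((1 / q) * (1 + s * Real.log q)) := by gcongr
      _ = (Nat.card U : ℝ) / q * (1 + s * Real.log q) := by ring
  rw [e1]
  exact e2.trans (mul_le_mul_of_nonneg_left e3 (by positivity))

end

/-- sums over sets with few elements -/
theorem sum_sparse {θ α : ℝ} (h0 : 0 ≤ θ) (hθ : θ < α) (S : Finset ℕ) (hS : ∀ u ∈ S, 1 ≤ u)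
    (hc : ∀ j : ℕ, ((S.filter (fun u => u ≤ 2 ^ (j + 1))).card : ℝ) ≤ ((2 : ℝ) ^ (j + 1)) ^ θ) :
    ∑ u ∈ S, (u : ℝ) ^ (-α) ≤ 2 ^ θ / (1 - 2 ^ (θ - α)) := by
  obtain ⟨J, hJ⟩ : ∃ J : ℕ, ∀ u ∈ S, Nat.log 2 u < J := by
    refine ⟨S.sup (fun u => Nat.log 2 u) + 1, fun u hu => Nat.lt_succ_of_le ?_⟩
    exact le_sup (f := fun u => Nat.log 2 u) hu
  have hmaps : ∀ u ∈ S, Nat.log 2 u ∈ range J := fun u hu => mem_range.2 (hJ u hu)
  rw [← sum_fiberwise_of_maps_to hmaps]
  have h1 : ∀ j ∈ range J, ∑ u ∈ S.filter (fun u => Nat.log 2 u = j), (u : ℝ) ^ (-α) ≤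
      2 ^ θ * ((2 : ℝ) ^ (θ - α)) ^ j := by
    intro j _
    have h2 : ∀ u ∈ S.filter (fun u => Nat.log 2 u = j), (u : ℝ) ^ (-α) ≤ ((2 : ℝ) ^ j) ^ (-α) := by
      intro u hu
      rw [mem_filter] at hu
      have h3 : 2 ^ j ≤ u := by
        rw [← hu.2]
        exact Nat.pow_log_le_self 2 (by have := hS u hu.1; omega)
      have h4 : ((2 : ℝ) ^ j) ≤ u := by exact_mod_cast h3
      exact Real.rpow_le_rpow_of_nonpos (by positivity) h4 (by linarith)
    refine (sum_le_sum h2).trans ?_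
    rw [sum_const, nsmul_eq_mul]
    have h3 : ((S.filter (fun u => Nat.log 2 u = j)).card : ℝ) ≤ ((2 : ℝ) ^ (j + 1)) ^ θ := by
      refine le_trans ?_ (hc j)
      exact_mod_cast card_le_card (by
        intro u hu
        rw [mem_filter] at hu ⊢
        refine ⟨hu.1, ?_⟩
        rw [← hu.2]
        exact (Nat.lt_pow_succ_log_self (by norm_num) u).le)
    have h4 : ((2 : ℝ) ^ (j + 1)) ^ θ * ((2 : ℝ) ^ j) ^ (-α) = 2 ^ θ * ((2 : ℝ) ^ (θ - α)) ^ j := by
      rw [← Real.rpow_natCast 2 (j + 1), ← Real.rpow_natCast 2 j, ← Real.rpow_mul (by norm_num),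
        ← Real.rpow_mul (by norm_num), ← Real.rpow_natCast (2 ^ (θ - α)) j,
        ← Real.rpow_mul (by norm_num), ← Real.rpow_add (by norm_num), ← Real.rpow_add (by norm_num)]
      congr 1
      push_cast
      ring
    rw [← h4]
    exact mul_le_mul_of_nonneg_right h3 (by positivity)
  refine (sum_le_sum h1).trans ?_
  rw [← mul_sum]
  have hr : (2 : ℝ) ^ (θ - α) < 1 := Real.rpow_lt_one_of_one_lt_of_neg (by norm_num) (by linarith)
  have hr0 : (0 : ℝ) < (2 : ℝ) ^ (θ - α) := by positivity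
  have h5 : ∑ j ∈ range J, ((2 : ℝ) ^ (θ - α)) ^ j ≤ (1 - 2 ^ (θ - α))⁻¹ := by
    rw [← tsum_geometric_of_lt_one hr0.le hr]
    exact (summable_geometric_of_lt_one hr0.le hr).sum_le_tsum _ fun _ _ => by positivity
  rw [div_eq_mul_inv]
  exact mul_le_mul_of_nonneg_left h5 (by positivity)

end Pool.Agent.Q237.LV
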