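import Pool.Agent.Q237.LV.Pairs

/-!
# The counting hypothesis holds for subgroups of size at most `q ^ (1 - ε)`
-/

set_option autoImplicit false

namespace Pool.Agent.Q237.LV

open Finset
open scoped Classical

theorem cntHyp_of {q : ℕ} [NeZero q] (hq : 1 < q) (K : Subgroup (ZMod q)ˣ) {ε : ℝ} (hε : 0 < ε)
    (hε1 : ε ≤ 1) (hK : (Nat.card K : ℝ) ≤ (q : ℝ) ^ (1 - ε)) {y w Z : ℕ} (hy : 2 ≤ y)
    (hw : q ≤ y ^ w) (hlog : ((Nat.log 2 q : ℕ) : ℝ) ^ w ≤ (q : ℝ) ^ (ε / 8)) (hZ2 : 2 ≤ Z)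
    (hZ : (Z : ℝ) ≤ (q : ℝ) ^ (ε / 8)) :
    CntHyp K y Z (1 - ε / 2) := by
  intro c S h1 h2 h3 z hz
  have hq1 : (1 : ℝ) < q := by exact_mod_cast hq
  have hq0 : (0 : ℝ) < q := by linarith
  obtain ⟨z', hz'⟩ : ∃ z' : ℕ, z' = min z Z := ⟨_, rfl⟩
  have hz2 : 2 ≤ z' := by rw [hz']; exact le_min hz hZ2
  have hzZ : z' ≤ Z := by rw [hz']; exact min_le_right _ _
  have hzz : z' ≤ z := by rw [hz']; exact min_le_left _ _
  have hsub : S.filter (fun u => u ≤ z) ⊆ S.filter (fun u => u ≤ z') := by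
    intro u hu
    rw [mem_filter] at hu ⊢
    refine ⟨hu.1, ?_⟩
    rw [hz']
    exact le_min hu.2 (h1 u hu.1).2
  obtain ⟨T, hT⟩ : ∃ T : Finset ℕ, T = S.filter (fun u => u ≤ z') := ⟨_, rfl⟩
  obtain ⟨s, hs⟩ : ∃ s : ℕ, s = Nat.log z' q := ⟨_, rfl⟩
  have z0 : (0 : ℝ) < z' := by
    have : 0 < z' := by omega
    exact_mod_cast this
  have z1 : (1 : ℝ) < z' := by
    have : 1 < z' := by omega
    exact_mod_cast this
  have hpow1 : z' ^ s ≤ q := by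
    rw [hs]
    exact Nat.pow_log_le_self z' (by omega)
  have hpow2 : q < z' ^ (s + 1) := by
    rw [hs]
    exact Nat.lt_pow_succ_log_self (by omega) q
  have hzr : (z' : ℝ) ≤ (q : ℝ) ^ (ε / 8) := le_trans (by exact_mod_cast hzZ) hZ
  have hs1 : 8 / ε < s + 1 := by
    have h4 : (q : ℝ) < (z' : ℝ) ^ (s + 1) := by exact_mod_cast hpow2
    have h5 : (z' : ℝ) ^ (s + 1) ≤ ((q : ℝ) ^ (ε / 8)) ^ (s + 1) :=
      pow_le_pow_left₀ z0.le hzr _
    have h6 : ((q : ℝ) ^ (ε / 8)) ^ (s + 1) = (q : ℝ) ^ (ε / 8 * (s + 1)) := by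
      rw [← Real.rpow_natCast, ← Real.rpow_mul hq0.le]
      push_cast
      rfl
    have h7 : (q : ℝ) ^ (1 : ℝ) < (q : ℝ) ^ (ε / 8 * (s + 1)) := by
      rw [Real.rpow_one]
      linarith
    have h8 : 1 < ε / 8 * (s + 1) := (Real.rpow_lt_rpow_left_iff hq1).1 h7
    rw [div_lt_iff₀ hε]
    linarith
  have hs2 : 8 / (3 * ε) ≤ s := by
    have h4 : 8 / (3 * ε) ≤ 8 / ε - 1 := by
      rw [div_le_iff₀ (by positivity)]
      have : 8 / ε * (3 * ε) = 24 := by field_simp; norm_num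
      nlinarith
    linarith
  have hs0 : 1 ≤ s := by
    have h4 : (0 : ℝ) < s := lt_of_lt_of_le (by positivity) hs2
    exact_mod_cast h4
  have hcnt := cnt_rough K c hq T (Z := z') (s := s) (w := w) hs0 hy
    (by
      intro u hu
      rw [hT, mem_filter] at hu
      exact ⟨(h1 u hu.1).1, hu.2⟩)
    (by
      intro u hu
      rw [hT, mem_filter] at hu
      exact h2 u hu.1)
    (by
      intro u hu
      rw [hT, mem_filter] at hu
      exact h3 u hu.1) hpow1 hw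
  have hsl : s ≤ Nat.log 2 q := by
    rw [hs]
    exact Nat.log_anti_left (by norm_num) hz2
  have h4 : (T.card : ℝ) ^ s ≤ (q : ℝ) ^ (1 - 7 * ε / 8) := by
    have h5 : (T.card : ℝ) ^ s ≤ (Nat.card K : ℝ) * (s : ℝ) ^ w := by exact_mod_cast hcnt
    have h6 : (s : ℝ) ^ w ≤ (q : ℝ) ^ (ε / 8) := by
      refine le_trans ?_ hlog
      exact pow_le_pow_left₀ (by positivity) (by exact_mod_cast hsl) _
    calc (T.card : ℝ) ^ s ≤ (Nat.card K : ℝ) * (s : ℝ) ^ w := h5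
      _ ≤ (q : ℝ) ^ (1 - ε) * (q : ℝ) ^ (ε / 8) := by gcongr
      _ = (q : ℝ) ^ (1 - 7 * ε / 8) := by
          rw [← Real.rpow_add hq0]
          congr 1
          ring
  have h5 : (q : ℝ) ^ (1 - 7 * ε / 8) ≤ ((z' : ℝ) ^ (1 - ε / 2)) ^ s := by
    have h6 : (q : ℝ) ≤ (z' : ℝ) ^ ((s : ℝ) + 1) := by
      have h7 : (q : ℝ) ≤ (z' : ℝ) ^ (s + 1) := by exact_mod_cast hpow2.le
      rw [← Real.rpow_natCast] at h7
      push_cast at h7
      exact h7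
    calc (q : ℝ) ^ (1 - 7 * ε / 8) ≤ ((z' : ℝ) ^ ((s : ℝ) + 1)) ^ (1 - 7 * ε / 8) :=
          Real.rpow_le_rpow hq0.le h6 (by linarith)
      _ = (z' : ℝ) ^ (((s : ℝ) + 1) * (1 - 7 * ε / 8)) := by rw [← Real.rpow_mul z0.le]
      _ ≤ (z' : ℝ) ^ ((1 - ε / 2) * s) := by
          refine Real.rpow_le_rpow_of_exponent_le z1.le ?_
          have h7 : 1 ≤ s * (3 * ε / 8) := by
            rw [div_le_iff₀ (by positivity)] at hs2
            linarith
          nlinarith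
      _ = ((z' : ℝ) ^ (1 - ε / 2)) ^ s := by
          rw [← Real.rpow_natCast, ← Real.rpow_mul z0.le]
  have h6 : (T.card : ℝ) ≤ (z' : ℝ) ^ (1 - ε / 2) :=
    le_of_pow_le_pow_left₀ (by omega) (by positivity) (h4.trans h5)
  calc ((S.filter (fun u => u ≤ z)).card : ℝ) ≤ T.card := by
        rw [hT]
        exact_mod_cast card_le_card hsub
    _ ≤ (z' : ℝ) ^ (1 - ε / 2) := h6
    _ ≤ (z : ℝ) ^ (1 - ε / 2) := by
        refine Real.rpow_le_rpow z0.le ?_ (by linarith)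
        exact_mod_cast hzz

end Pool.Agent.Q237.LV
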