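import Pool.Agent.Q237.LV.Cnt
import Pool.Agent.Q237.LV.Res

/-!
# The small part of the sums over a residue class
-/

set_option autoImplicit false

namespace Pool.Agent.Q237.LV

open Finset
open scoped Classical

/-- the triples in a residue class -/
noncomputable def cls {q : ℕ} (C : Finset ℕ) (SS : Finset (Finset ℕ)) (κ : (ZMod q)ˣ) :
    Finset (ℕ × Finset ℕ × Finset ℕ) :=
  (C ×ˢ SS ×ˢ SS).filter
    (fun x => (κ : ZMod q) * ((nn x.2.2 : ℕ) : ZMod q) = ((x.1 * nn x.2.1 : ℕ) : ZMod q))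

/-- the sum over a residue class -/
noncomputable def Ts {q : ℕ} (C : Finset ℕ) (SS : Finset (Finset ℕ)) (fp : ℕ → ℝ)
    (κ : (ZMod q)ˣ) : ℝ :=
  ∑ x ∈ cls C SS κ, (x.1 : ℝ) ^ (-(1 / 2) : ℝ) * (ff fp x.2.1 * ff fp x.2.2)

theorem Ts_bound {q : ℕ} [Fact q.Prime] {P : Finset ℕ} (hP : ∀ p ∈ P, p.Prime) {fp : ℕ → ℝ}
    (hf : ∀ p ∈ P, 0 ≤ fp p) {β : ℝ} (hβ1 : β ≤ 1 / 2)
    (hfβ : ∀ p ∈ P, fp p ≤ (p : ℝ) ^ (-β)) {C : Finset ℕ} {SS : Finset (Finset ℕ)} {A N : ℕ}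
    (hC : ∀ c ∈ C, 1 ≤ c ∧ c ≤ A) (hSS : ∀ S ∈ SS, S ⊆ P ∧ nn S ≤ N) (hq : A * N * N < q)
    (κ : (ZMod q)ˣ) (hκ : κ ≠ 1) :
    Ts C SS fp κ = 0 ∨ ∃ U V : ℕ, 1 ≤ U ∧ 1 ≤ V ∧ U ≤ A * N ∧ V ≤ N ∧
      (κ : ZMod q) * (V : ZMod q) = (U : ZMod q) ∧ ¬ (U = 1 ∧ V = 1) ∧
      (∀ p : ℕ, p.Prime → p ∣ U → p ∈ P ∨ ∃ c ∈ C, p ∣ c) ∧
      (∀ p : ℕ, p.Prime → p ∣ V → p ∈ P) ∧
      Ts C SS fp κ ≤ DD P fp * ((U.divisors.card : ℝ) * ((U : ℝ) ^ (-β) * (V : ℝ) ^ (-β))) := by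
  by_cases hne : (cls C SS κ).Nonempty
  swap
  · left
    rw [not_nonempty_iff_eq_empty] at hne
    unfold Ts
    rw [hne, sum_empty]
  · right
    obtain ⟨⟨c0, S0', S0⟩, h0⟩ := hne
    unfold cls at h0
    rw [mem_filter, mem_product, mem_product] at h0
    obtain ⟨⟨hc0, hS0', hS0⟩, he0⟩ := h0
    simp only at hc0 hS0' hS0 he0
    have pS0 : ∀ p ∈ S0, p.Prime := fun p hp => hP p ((hSS S0 hS0).1 hp)
    have pS0' : ∀ p ∈ S0', p.Prime := fun p hp => hP p ((hSS S0' hS0').1 hp)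
    have hn0 : 0 < nn S0 := nn_pos pS0
    have hn0' : 0 < nn S0' := nn_pos pS0'
    have hc0' := hC c0 hc0
    obtain ⟨g, hg⟩ : ∃ g : ℕ, g = Nat.gcd (c0 * nn S0') (nn S0) := ⟨_, rfl⟩
    have hg0 : 0 < g := by
      rw [hg]
      exact Nat.gcd_pos_of_pos_right _ hn0
    obtain ⟨U, hU⟩ : g ∣ c0 * nn S0' := by rw [hg]; exact Nat.gcd_dvd_left _ _
    obtain ⟨V, hV⟩ : g ∣ nn S0 := by rw [hg]; exact Nat.gcd_dvd_right _ _
    have hUV : Nat.Coprime U V := by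
      have h1 : Nat.gcd (g * U) (g * V) = g * Nat.gcd U V := Nat.gcd_mul_left g U V
      rw [← hU, ← hV, ← hg] at h1
      have h2 : g * 1 = g * Nat.gcd U V := by rw [mul_one]; exact h1
      exact (Nat.eq_of_mul_eq_mul_left hg0 h2).symm
    have hcn : 0 < c0 * nn S0' := Nat.mul_pos (by omega) hn0'
    have hU0 : 0 < U := by
      rcases Nat.eq_zero_or_pos U with h | h
      · rw [h, mul_zero] at hU
        omega
      · exact h
    have hV0 : 0 < V := by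
      rcases Nat.eq_zero_or_pos V with h | h
      · rw [h, mul_zero] at hV
        omega
      · exact h
    have hN0 := (hSS S0 hS0).2
    have hN0' := (hSS S0' hS0').2
    have hNpos : 1 ≤ N := le_trans hn0 hN0
    have hApos : 1 ≤ A := le_trans hc0'.1 hc0'.2
    have hANle : c0 * nn S0' ≤ A * N := Nat.mul_le_mul hc0'.2 hN0'
    have hgN : g ≤ N := (Nat.le_of_dvd hn0 ⟨V, hV⟩).trans hN0
    have hNq : N < q := by
      have h1 : 1 * N * 1 ≤ A * N * N := Nat.mul_le_mul (Nat.mul_le_mul hApos le_rfl) hNpos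
      omega
    have hgq : ((g : ℕ) : ZMod q) ≠ 0 := by
      intro h
      rw [ZMod.natCast_eq_zero_iff] at h
      have := Nat.le_of_dvd hg0 h
      omega
    have hκUV : (κ : ZMod q) * (V : ZMod q) = (U : ZMod q) := by
      rw [hV, hU] at he0
      push_cast at he0
      have h1 : (g : ZMod q) * ((κ : ZMod q) * (V : ZMod q)) = (g : ZMod q) * (U : ZMod q) := by
        rw [← he0]
        ring
      exact mul_left_cancel₀ hgq h1
    have hsub : cls C SS κ ⊆ trip P C U V := by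
      rintro ⟨c, S', S⟩ hx
      unfold cls at hx
      rw [mem_filter, mem_product, mem_product] at hx
      obtain ⟨⟨hc, hS', hS⟩, he⟩ := hx
      simp only at hc hS' hS he
      unfold trip
      rw [mem_filter, mem_product, mem_product, mem_powerset, mem_powerset]
      refine ⟨⟨hc, (hSS S' hS').1, (hSS S hS).1⟩, ?_⟩
      simp only
      have h1 : ((c * nn S' * nn S0 : ℕ) : ZMod q) = ((c0 * nn S0' * nn S : ℕ) : ZMod q) := by
        push_cast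
        push_cast at he he0
        rw [← he, ← he0]
        ring
      have h2 : c * nn S' * nn S0 ≤ A * N * N :=
        Nat.mul_le_mul (Nat.mul_le_mul (hC c hc).2 (hSS S' hS').2) hN0
      have h3 : c0 * nn S0' * nn S ≤ A * N * N := Nat.mul_le_mul hANle (hSS S hS).2
      have h4 : c * nn S' * nn S0 = c0 * nn S0' * nn S := by
        have h5 := (ZMod.natCast_eq_natCast_iff' _ _ q).1 h1
        rwa [Nat.mod_eq_of_lt (by omega), Nat.mod_eq_of_lt (by omega)] at h5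
      rw [hV, hU] at h4
      have h5 : g * (c * nn S' * V) = g * (nn S * U) := by
        calc g * (c * nn S' * V) = c * nn S' * (g * V) := by ring
          _ = g * U * nn S := h4
          _ = _ := by ring
      exact Nat.eq_of_mul_eq_mul_left hg0 h5
    refine ⟨U, V, hU0, hV0, ?_, ?_, hκUV, ?_, ?_, ?_, ?_⟩
    · exact (Nat.le_of_dvd hcn ⟨g, by rw [hU, mul_comm]⟩).trans hANle
    · exact (Nat.le_of_dvd hn0 ⟨g, by rw [hV, mul_comm]⟩).trans hN0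
    · rintro ⟨h1, h2⟩
      rw [h1, h2, Nat.cast_one, mul_one] at hκUV
      exact hκ (Units.ext hκUV)
    · intro p hp hpU
      have h1 : p ∣ c0 * nn S0' := by
        rw [hU]
        exact Dvd.dvd.mul_left hpU g
      rcases (Nat.Prime.dvd_mul hp).1 h1 with h | h
      · exact Or.inr ⟨c0, hc0, h⟩
      · exact Or.inl ((hSS S0' hS0').1 ((dvd_nn_iff pS0' hp).1 h))
    · intro p hp hpV
      have h1 : p ∣ nn S0 := by
        rw [hV]
        exact Dvd.dvd.mul_left hpV g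
      exact (hSS S0 hS0).1 ((dvd_nn_iff pS0 hp).1 h1)
    · refine le_trans ?_ (trip_sum (C := C) hP hf hβ1 hfβ hU0 hV0 hUV)
      unfold Ts
      refine sum_le_sum_of_subset_of_nonneg hsub fun x hx _ => ?_
      unfold trip at hx
      rw [mem_filter, mem_product, mem_product, mem_powerset, mem_powerset] at hx
      have n1 : ∀ T : Finset ℕ, T ⊆ P → 0 ≤ ff fp T := fun T hT => ff_nonneg fun p hp => hf p (hT hp)
      have a1 := n1 _ hx.1.2.1
      have a2 := n1 _ hx.1.2.2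
      positivity

/-- the pairs of integers with ratio in a subgroup -/
noncomputable def prs {q : ℕ} (K : Subgroup (ZMod q)ˣ) (y Z : ℕ) : Finset (ℕ × ℕ) :=
  (Icc 1 Z ×ˢ Icc 1 Z).filter (fun x => ¬ (x.1 = 1 ∧ x.2 = 1) ∧
    (∀ p : ℕ, p.Prime → p ∣ x.1 → y ≤ p) ∧ (∀ p : ℕ, p.Prime → p ∣ x.2 → y ≤ p) ∧
    ∃ κ ∈ K, (κ : ZMod q) * (x.2 : ZMod q) = (x.1 : ZMod q))

theorem mem_prs {q : ℕ} {K : Subgroup (ZMod q)ˣ} {y Z : ℕ} {x : ℕ × ℕ} :
    x ∈ prs K y Z ↔ ((1 ≤ x.1 ∧ x.1 ≤ Z) ∧ 1 ≤ x.2 ∧ x.2 ≤ Z) ∧ ¬ (x.1 = 1 ∧ x.2 = 1) ∧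
    (∀ p : ℕ, p.Prime → p ∣ x.1 → y ≤ p) ∧ (∀ p : ℕ, p.Prime → p ∣ x.2 → y ≤ p) ∧
    ∃ κ ∈ K, (κ : ZMod q) * (x.2 : ZMod q) = (x.1 : ZMod q) := by
  unfold prs
  rw [mem_filter, mem_product, mem_Icc, mem_Icc]

theorem sum_Ts_sq {q : ℕ} [Fact q.Prime] {P : Finset ℕ} (hP : ∀ p ∈ P, p.Prime) {fp : ℕ → ℝ}
    (hf : ∀ p ∈ P, 0 ≤ fp p) {β : ℝ} (hβ1 : β ≤ 1 / 2)
    (hfβ : ∀ p ∈ P, fp p ≤ (p : ℝ) ^ (-β)) {C : Finset ℕ} {SS : Finset (Finset ℕ)} {A N y : ℕ}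
    (hC : ∀ c ∈ C, 1 ≤ c ∧ c ≤ A) (hSS : ∀ S ∈ SS, S ⊆ P ∧ nn S ≤ N) (hq : A * N * N < q)
    (hy : ∀ p ∈ P, y ≤ p) (hCy : ∀ c ∈ C, ∀ p : ℕ, p.Prime → p ∣ c → y ≤ p) (hA : 1 ≤ A)
    (hN : 1 ≤ N)
    (K : Subgroup (ZMod q)ˣ) (KF : Finset (ZMod q)ˣ) (hKF : ∀ κ ∈ KF, κ ∈ K ∧ κ ≠ 1) :
    ∑ κ ∈ KF, Ts C SS fp κ ^ 2 ≤ (DD P fp) ^ 2 * ∑ x ∈ prs K y (A * N),
      ((x.1.divisors.card : ℝ) * ((x.1 : ℝ) ^ (-β) * (x.2 : ℝ) ^ (-β))) ^ 2 := by
  have hTnn : ∀ κ : (ZMod q)ˣ, 0 ≤ Ts C SS fp κ := by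
    intro κ
    unfold Ts
    refine sum_nonneg fun x hx => ?_
    unfold cls at hx
    rw [mem_filter, mem_product, mem_product] at hx
    have n1 : ∀ T : Finset ℕ, T ∈ SS → 0 ≤ ff fp T := fun T hT =>
      ff_nonneg fun p hp => hf p ((hSS T hT).1 hp)
    have a1 := n1 _ hx.1.2.1
    have a2 := n1 _ hx.1.2.2
    positivity
  obtain ⟨G, hG⟩ : ∃ G : ℕ × ℕ → ℝ, G = fun x => (DD P fp) ^ 2 *
      ((x.1.divisors.card : ℝ) * ((x.1 : ℝ) ^ (-β) * (x.2 : ℝ) ^ (-β))) ^ 2 := ⟨_, rfl⟩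
  have hGnn : ∀ x, 0 ≤ G x := by
    intro x
    rw [hG]
    positivity
  have h1 : ∀ κ ∈ KF, Ts C SS fp κ ^ 2 ≤
      ∑ x ∈ prs K y (A * N), if (κ : ZMod q) * (x.2 : ZMod q) = (x.1 : ZMod q) then G x else 0 := by
    intro κ hκ
    rcases Ts_bound hP hf hβ1 hfβ hC hSS hq κ (hKF κ hκ).2 with h | h
    · rw [h]
      simp only [ne_eq, OfNat.ofNat_ne_zero, not_false_eq_true, zero_pow]
      refine sum_nonneg fun x _ => ?_
      split_ifs
      · exact hGnn x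
      · exact le_rfl
    · obtain ⟨U, V, hU, hV, hUA, hVN, hκUV, hne, hpU, hpV, hT⟩ := h
      have hmem : (U, V) ∈ prs K y (A * N) := by
        rw [mem_prs]
        refine ⟨⟨⟨hU, hUA⟩, hV, hVN.trans (Nat.le_mul_of_pos_left N hA)⟩, hne, ?_, ?_, κ,
          (hKF κ hκ).1, hκUV⟩
        · intro p hp hd
          rcases hpU p hp hd with h | ⟨c, hc, h⟩
          · exact hy p h
          · exact hCy c hc p hp h
        · intro p hp hd
          exact hy p (hpV p hp hd)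
      have h2 : (if (κ : ZMod q) * ((U, V).2 : ZMod q) = ((U, V).1 : ZMod q) then G (U, V) else 0)
          ≤ ∑ x ∈ prs K y (A * N),
            if (κ : ZMod q) * (x.2 : ZMod q) = (x.1 : ZMod q) then G x else 0 := by
        refine single_le_sum (f := fun x : ℕ × ℕ =>
          if (κ : ZMod q) * (x.2 : ZMod q) = (x.1 : ZMod q) then G x else 0) (fun x _ => ?_) hmem
        split_ifs
        · exact hGnn x
        · exact le_rfl
      refine le_trans ?_ h2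
      simp only
      rw [if_pos hκUV, hG]
      simp only
      rw [← mul_pow]
      exact pow_le_pow_left₀ (hTnn κ) hT 2
  refine (sum_le_sum h1).trans ?_
  rw [sum_comm, mul_sum]
  refine sum_le_sum fun x hx => ?_
  have h3 : ∑ κ ∈ KF, (if (κ : ZMod q) * (x.2 : ZMod q) = (x.1 : ZMod q) then G x else 0) ≤ G x := by
    rw [← sum_filter, sum_const, nsmul_eq_mul]
    have h4 : (KF.filter (fun κ : (ZMod q)ˣ =>
        (κ : ZMod q) * (x.2 : ZMod q) = (x.1 : ZMod q))).card ≤ 1 := by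
      rw [card_le_one]
      intro κ hκ κ' hκ'
      rw [mem_filter] at hκ hκ'
      rw [mem_prs] at hx
      have hx2 : (x.2 : ZMod q) ≠ 0 := by
        intro h
        rw [ZMod.natCast_eq_zero_iff] at h
        have h5 := Nat.le_of_dvd (by omega) h
        have h6 : A * N ≤ A * N * N := Nat.le_mul_of_pos_right _ hN
        omega
      exact Units.ext (mul_right_cancel₀ hx2 (hκ.2.trans hκ'.2.symm))
    have h5 : (((KF.filter (fun κ : (ZMod q)ˣ =>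
        (κ : ZMod q) * (x.2 : ZMod q) = (x.1 : ZMod q))).card : ℕ) : ℝ) ≤ 1 := by exact_mod_cast h4
    calc _ ≤ 1 * G x := mul_le_mul_of_nonneg_right h5 (hGnn x)
      _ = G x := one_mul _
  refine h3.trans ?_
  rw [hG]

end Pool.Agent.Q237.LV
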