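import Pool.Agent.Q237.LV.Chars
import Pool.Agent.Q237.LV.Small
import Pool.Agent.Q237.LV.Big

/-!
# The twisted sums over a coset
-/

set_option autoImplicit false

namespace Pool.Agent.Q237.LV

open Finset
open scoped Classical

/-- the sets of small primes with a bounded product -/
noncomputable def DS (y Δ : ℕ) : Finset (Finset ℕ) :=
  ((range y).filter Nat.Prime).powerset.filter (fun E => nn E ≤ Δ)

/-- the sets of resonator primes with a bounded product -/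
noncomputable def SSt (P : Finset ℕ) (N : ℕ) : Finset (Finset ℕ) :=
  P.powerset.filter (fun S => nn S ≤ N)

theorem mem_DS {y Δ : ℕ} {E : Finset ℕ} :
    E ∈ DS y Δ ↔ E ⊆ (range y).filter Nat.Prime ∧ nn E ≤ Δ := by
  unfold DS
  rw [mem_filter, mem_powerset]

theorem mem_SSt {P : Finset ℕ} {N : ℕ} {S : Finset ℕ} : S ∈ SSt P N ↔ S ⊆ P ∧ nn S ≤ N := by
  unfold SSt
  rw [mem_filter, mem_powerset]

theorem prime_of_DS {y Δ : ℕ} {E : Finset ℕ} (h : E ∈ DS y Δ) : ∀ p ∈ E, p.Prime := fun _ hp =>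
  (mem_filter.1 ((mem_DS.1 h).1 hp)).2

/-- the rough integers up to `Δ` -/
noncomputable def RC (y Δ : ℕ) : Finset ℕ :=
  (Icc 1 Δ).filter (fun c => ∀ p : ℕ, p.Prime → p ∣ c → y ≤ p)

/-- the sieve identity -/
theorem sieve_id {y Δ Y c : ℕ} (hΔY : Δ ≤ Y) (hc : c ∈ Icc 1 Δ) :
    ∑ x ∈ (DS y Δ ×ˢ Icc 1 Y).filter (fun x => nn x.1 * x.2 = c), (-1 : ℝ) ^ x.1.card =
      if c ∈ RC y Δ then 1 else 0 := by
  rw [mem_Icc] at hc
  obtain ⟨A, hA⟩ : ∃ A : Finset ℕ, A = ((range y).filter Nat.Prime).filter (fun p => p ∣ c) :=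
    ⟨_, rfl⟩
  have pA : ∀ E ⊆ A, ∀ p ∈ E, p.Prime := by
    intro E hE p hp
    have := hE hp
    rw [hA, mem_filter, mem_filter] at this
    exact this.1.2
  have dA : ∀ E ⊆ A, nn E ∣ c := by
    intro E hE
    refine nn_dvd (pA E hE) fun p hp => ?_
    have := hE hp
    rw [hA, mem_filter, mem_filter] at this
    exact this.2
  have h1 : ∑ x ∈ (DS y Δ ×ˢ Icc 1 Y).filter (fun x => nn x.1 * x.2 = c), (-1 : ℝ) ^ x.1.card =
      ∑ E ∈ A.powerset, (-1 : ℝ) ^ E.card := by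
    refine sum_nbij' (fun x => x.1) (fun E => (E, c / nn E)) ?_ ?_ ?_ ?_ ?_
    · intro x hx
      rw [mem_filter, mem_product] at hx
      rw [mem_powerset]
      intro p hp
      rw [hA, mem_filter]
      refine ⟨(mem_DS.1 hx.1.1).1 hp, ?_⟩
      rw [← hx.2]
      exact Dvd.dvd.mul_right (dvd_prod_of_mem (fun p => p) hp) _
    · intro E hE
      rw [mem_powerset] at hE
      have h2 := dA E hE
      have h3 := pA E hE
      have h4 : 0 < nn E := nn_pos h3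
      rw [mem_filter, mem_product, mem_DS, mem_Icc]
      refine ⟨⟨⟨?_, ?_⟩, ?_, ?_⟩, ?_⟩
      · intro p hp
        have := hE hp
        rw [hA, mem_filter] at this
        exact this.1
      · exact (Nat.le_of_dvd (by omega) h2).trans hc.2
      · exact (Nat.one_le_div_iff h4).2 (Nat.le_of_dvd (by omega) h2)
      · exact (Nat.div_le_self _ _).trans (hc.2.trans hΔY)
      · exact Nat.mul_div_cancel' h2
    · intro x hx
      rw [mem_filter, mem_product] at hx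
      have h4 : 0 < nn x.1 := nn_pos (prime_of_DS hx.1.1)
      refine Prod.ext rfl ?_
      show c / nn x.1 = x.2
      rw [← hx.2, Nat.mul_div_cancel_left _ h4]
    · intro E _
      rfl
    · intro x _
      rfl
  rw [h1]
  have h2 := sum_powerset_neg_one_pow_card (x := A)
  have h3 : ∑ E ∈ A.powerset, (-1 : ℝ) ^ E.card = ((∑ E ∈ A.powerset, (-1 : ℤ) ^ E.card : ℤ) : ℝ) := by
    push_cast
    rfl
  rw [h3, h2]
  by_cases h : A = ∅
  · rw [if_pos h, if_pos]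
    · norm_num
    · unfold RC
      rw [mem_filter, mem_Icc]
      refine ⟨hc, fun p hp hd => ?_⟩
      by_contra hcon
      have : p ∈ A := by
        rw [hA, mem_filter, mem_filter, mem_range]
        exact ⟨⟨by omega, hp⟩, hd⟩
      rw [h] at this
      exact absurd this (notMem_empty p)
  · rw [if_neg h, if_neg]
    · norm_num
    · intro hcr
      unfold RC at hcr
      rw [mem_filter] at hcr
      obtain ⟨p, hp⟩ := nonempty_iff_ne_empty.2 h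
      rw [hA, mem_filter, mem_filter, mem_range] at hp
      have := hcr.2 p hp.1.2 hp.2
      omega

/-- the number of factorisations -/
theorem card_fact_DS {y Δ Y c : ℕ} (hc : 1 ≤ c) :
    ((DS y Δ ×ˢ Icc 1 Y).filter (fun x => nn x.1 * x.2 = c)).card ≤ c.divisors.card := by
  refine card_le_card_of_injOn (fun x => nn x.1) ?_ ?_
  · intro x hx
    rw [mem_coe, mem_filter] at hx
    rw [mem_coe, Nat.mem_divisors]
    exact ⟨⟨x.2, hx.2.symm⟩, by omega⟩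
  · intro x hx x' hx' h
    rw [mem_coe, mem_filter, mem_product] at hx hx'
    have h1 : x.1 = x'.1 := nn_inj (prime_of_DS hx.1.1) (prime_of_DS hx'.1.1) h
    refine Prod.ext h1 ?_
    have h2 : 0 < nn x.1 := nn_pos (prime_of_DS hx.1.1)
    refine Nat.eq_of_mul_eq_mul_left h2 ?_
    rw [hx.2, h1, hx'.2]

section

variable {q : ℕ} [Fact q.Prime]

/-- the index set -/
noncomputable def II (y Δ Y N : ℕ) (P : Finset ℕ) :
    Finset ((Finset ℕ × ℕ) × (Finset ℕ × Finset ℕ)) :=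
  (DS y Δ ×ˢ Icc 1 Y) ×ˢ (SSt P N ×ˢ SSt P N)

/-- the weights -/
noncomputable def wt (fp : ℕ → ℝ) (i : (Finset ℕ × ℕ) × (Finset ℕ × Finset ℕ)) : ℝ :=
  (-1 : ℝ) ^ i.1.1.card * hp (nn i.1.1 * i.1.2) * (ff fp i.2.1 * ff fp i.2.2)

/-- the congruence -/
def cg (κ : (ZMod q)ˣ) (i : (Finset ℕ × ℕ) × (Finset ℕ × Finset ℕ)) : Prop :=
  (κ : ZMod q) * ((nn i.2.2 : ℕ) : ZMod q) = ((nn i.1.1 * i.1.2 * nn i.2.1 : ℕ) : ZMod q)

/-- the sum over a class -/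
noncomputable def TT (y Δ Y N : ℕ) (P : Finset ℕ) (fp : ℕ → ℝ) (κ : (ZMod q)ˣ) : ℝ :=
  ∑ i ∈ II y Δ Y N P, if cg κ i then wt fp i else 0

/-- the large part of the sum over a class -/
noncomputable def TB (y Δ Y N : ℕ) (P : Finset ℕ) (fp : ℕ → ℝ) (κ : (ZMod q)ˣ) : ℝ :=
  ∑ i ∈ (II y Δ Y N P).filter (fun i => Δ < nn i.1.1 * i.1.2), if cg κ i then wt fp i else 0

/-- the mollifier -/
noncomputable def MM (y Δ : ℕ) (χ : DirichletCharacter ℂ q) : ℂ :=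
  ∑ E ∈ DS y Δ, (((-1 : ℝ) ^ E.card * hp (nn E) : ℝ) : ℂ) * χ ((nn E : ℕ) : ZMod q)

/-- the truncated series -/
noncomputable def LL (Y : ℕ) (χ : DirichletCharacter ℂ q) : ℂ :=
  ∑ a ∈ Icc 1 Y, ((hp a : ℝ) : ℂ) * χ ((a : ℕ) : ZMod q)

/-- the resonator -/
noncomputable def RR (N : ℕ) (P : Finset ℕ) (fp : ℕ → ℝ) (χ : DirichletCharacter ℂ q) : ℂ :=
  ∑ S ∈ SSt P N, ((ff fp S : ℝ) : ℂ) * χ ((nn S : ℕ) : ZMod q)

theorem nn_ne_zero {N : ℕ} {P : Finset ℕ} (hP : ∀ p ∈ P, p.Prime) (hN : N < q) {S : Finset ℕ}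
    (hS : S ∈ SSt P N) : ((nn S : ℕ) : ZMod q) ≠ 0 := by
  intro h
  rw [ZMod.natCast_eq_zero_iff] at h
  rw [mem_SSt] at hS
  have h1 : 0 < nn S := nn_pos fun p hp => hP p (hS.1 hp)
  have h2 := Nat.le_of_dvd h1 h
  omega

/-- the unit of a product -/
noncomputable def un (S : Finset ℕ) : (ZMod q)ˣ :=
  if h : ((nn S : ℕ) : ZMod q) ≠ 0 then Units.mk0 _ h else 1

theorem un_val {S : Finset ℕ} (h : ((nn S : ℕ) : ZMod q) ≠ 0) :
    ((un S : (ZMod q)ˣ) : ZMod q) = ((nn S : ℕ) : ZMod q) := by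
  unfold un
  rw [dif_pos h]
  rfl

theorem prod_eq {y Δ Y N : ℕ} {P : Finset ℕ} (hP : ∀ p ∈ P, p.Prime) (hN : N < q) (fp : ℕ → ℝ)
    (χ : DirichletCharacter ℂ q) :
    MM y Δ χ * LL Y χ * ((‖RR N P fp χ‖ ^ 2 : ℝ) : ℂ) =
      ∑ i ∈ II y Δ Y N P, ((wt fp i : ℝ) : ℂ) *
        χ (((nn i.1.1 * i.1.2 * nn i.2.1 : ℕ) : ZMod q) * (((nn i.2.2 : ℕ) : ZMod q))⁻¹) := by
  have h1 : ((‖RR N P fp χ‖ ^ 2 : ℝ) : ℂ) = ∑ x ∈ SSt P N ×ˢ SSt P N,
      ((ff fp x.1 * ff fp x.2 : ℝ) : ℂ) *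
        (χ ((nn x.1 : ℕ) : ZMod q) * χ ((((nn x.2 : ℕ) : ZMod q))⁻¹)) := by
    rw [← Complex.normSq_eq_norm_sq, Complex.normSq_eq_conj_mul_self]
    unfold RR
    rw [map_sum, mul_comm, sum_mul_sum, sum_product]
    refine sum_congr rfl fun S' _ => sum_congr rfl fun S hS => ?_
    have h2 := nn_ne_zero hP hN hS
    rw [map_mul, ← un_val h2, conj_apply, un_val h2, Complex.conj_ofReal]
    push_cast
    ring
  have h2 : MM y Δ χ * LL Y χ = ∑ x ∈ DS y Δ ×ˢ Icc 1 Y,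
      (((-1 : ℝ) ^ x.1.card * hp (nn x.1 * x.2) : ℝ) : ℂ) *
        χ ((nn x.1 * x.2 : ℕ) : ZMod q) := by
    unfold MM LL
    rw [sum_mul_sum, sum_product]
    refine sum_congr rfl fun E _ => sum_congr rfl fun a _ => ?_
    rw [hp_mul]
    push_cast
    rw [map_mul]
    ring
  rw [h1, h2]
  unfold II
  rw [sum_mul_sum]
  symm
  rw [sum_product]
  refine sum_congr rfl fun x _ => sum_congr rfl fun z _ => ?_
  unfold wt
  push_cast
  rw [map_mul, map_mul, map_mul]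
  ring

theorem cg_iff {y Δ Y N : ℕ} {P : Finset ℕ} (hP : ∀ p ∈ P, p.Prime) (hN : N < q)
    {i : (Finset ℕ × ℕ) × (Finset ℕ × Finset ℕ)} (hi : i ∈ II y Δ Y N P) (κ : (ZMod q)ˣ) :
    cg κ i ↔ (κ : ZMod q) =
      ((nn i.1.1 * i.1.2 * nn i.2.1 : ℕ) : ZMod q) * (((nn i.2.2 : ℕ) : ZMod q))⁻¹ := by
  unfold II at hi
  rw [mem_product, mem_product, mem_product] at hi
  have h2 := nn_ne_zero hP hN hi.2.2
  unfold cg
  rw [eq_mul_inv_iff_mul_eq₀ h2]

/-- the sum over a coset -/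
theorem coset_sum {y Δ Y N : ℕ} {P : Finset ℕ} (hP : ∀ p ∈ P, p.Prime) (hN : N < q) (fp : ℕ → ℝ)
    (H : Subgroup (DirichletCharacter ℂ q)) (χ : DirichletCharacter ℂ q) :
    ∑ ψ ∈ hf H, MM y Δ (χ * ψ) * LL Y (χ * ψ) * ((‖RR N P fp (χ * ψ)‖ ^ 2 : ℝ) : ℂ) =
      ((hf H).card : ℂ) * ∑ κ ∈ kf H, χ (κ : ZMod q) * ((TT y Δ Y N P fp κ : ℝ) : ℂ) := by
  have h1 : ∀ ψ ∈ hf H, MM y Δ (χ * ψ) * LL Y (χ * ψ) * ((‖RR N P fp (χ * ψ)‖ ^ 2 : ℝ) : ℂ) =
      ∑ i ∈ II y Δ Y N P, ((wt fp i : ℝ) : ℂ) *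
        (χ * ψ) (((nn i.1.1 * i.1.2 * nn i.2.1 : ℕ) : ZMod q) * (((nn i.2.2 : ℕ) : ZMod q))⁻¹) :=
    fun ψ _ => prod_eq hP hN fp (χ * ψ)
  rw [sum_congr rfl h1, sum_coset_comb]
  congr 1
  refine sum_congr rfl fun κ _ => ?_
  congr 1
  unfold TT
  rw [Complex.ofReal_sum]
  refine sum_congr rfl fun i hi => ?_
  have h2 := cg_iff hP hN hi κ
  by_cases h : cg κ i
  · rw [if_pos h, if_pos (h2.1 h)]
  · rw [if_neg h, if_neg (fun h3 => h (h2.2 h3))]
    norm_num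

/-- the splitting into the small and the large part -/
theorem TT_split {y Δ Y N : ℕ} {P : Finset ℕ} (fp : ℕ → ℝ) (hΔY : Δ ≤ Y) (κ : (ZMod q)ˣ) :
    TT y Δ Y N P fp κ = Ts (RC y Δ) (SSt P N) fp κ + TB y Δ Y N P fp κ := by
  unfold TT TB
  rw [← sum_filter_add_sum_filter_not (II y Δ Y N P) (fun i => Δ < nn i.1.1 * i.1.2), add_comm]
  congr 1
  obtain ⟨F, hF⟩ : ∃ F : ℕ → ℝ, F = fun c => hp c * ∑ z ∈ SSt P N ×ˢ SSt P N,
      if (κ : ZMod q) * ((nn z.2 : ℕ) : ZMod q) = ((c * nn z.1 : ℕ) : ZMod q) then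
        ff fp z.1 * ff fp z.2 else 0 := ⟨_, rfl⟩
  have h1 : ∑ i ∈ (II y Δ Y N P).filter (fun i => ¬ Δ < nn i.1.1 * i.1.2),
      (if cg κ i then wt fp i else 0) =
      ∑ x ∈ (DS y Δ ×ˢ Icc 1 Y).filter (fun x => ¬ Δ < nn x.1 * x.2),
        (-1 : ℝ) ^ x.1.card * F (nn x.1 * x.2) := by
    unfold II
    rw [sum_filter, sum_product, sum_filter]
    refine sum_congr rfl fun x _ => ?_
    simp only
    split_ifs with h
    · simp only [sum_const_zero]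
    · rw [hF]
      simp only
      rw [mul_sum, mul_sum]
      refine sum_congr rfl fun z _ => ?_
      unfold cg wt
      simp only
      split_ifs with h2
      · ring
      · ring
  have hmaps : ∀ x ∈ (DS y Δ ×ˢ Icc 1 Y).filter (fun x => ¬ Δ < nn x.1 * x.2),
      nn x.1 * x.2 ∈ Icc 1 Δ := by
    intro x hx
    rw [mem_filter, mem_product, mem_Icc] at hx
    rw [mem_Icc]
    exact ⟨Nat.mul_pos (nn_pos (prime_of_DS hx.1.1)) hx.1.2.1, by omega⟩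
  rw [h1, ← sum_fiberwise_of_maps_to hmaps]
  have h2 : ∀ c ∈ Icc 1 Δ, ∑ x ∈ ((DS y Δ ×ˢ Icc 1 Y).filter (fun x => ¬ Δ < nn x.1 * x.2)).filter
      (fun x => nn x.1 * x.2 = c), (-1 : ℝ) ^ x.1.card * F (nn x.1 * x.2) =
      if c ∈ RC y Δ then F c else 0 := by
    intro c hc
    have h3 : ((DS y Δ ×ˢ Icc 1 Y).filter (fun x => ¬ Δ < nn x.1 * x.2)).filter
      (fun x => nn x.1 * x.2 = c) = (DS y Δ ×ˢ Icc 1 Y).filter (fun x => nn x.1 * x.2 = c) := by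
      ext x
      rw [mem_Icc] at hc
      simp only [mem_filter]
      constructor
      · rintro ⟨⟨h4, -⟩, h5⟩
        exact ⟨h4, h5⟩
      · rintro ⟨h4, h5⟩
        exact ⟨⟨h4, by omega⟩, h5⟩
    rw [h3]
    have h4 : ∀ x ∈ (DS y Δ ×ˢ Icc 1 Y).filter (fun x => nn x.1 * x.2 = c),
        (-1 : ℝ) ^ x.1.card * F (nn x.1 * x.2) = (-1 : ℝ) ^ x.1.card * F c := by
      intro x hx
      rw [(mem_filter.1 hx).2]
    rw [sum_congr rfl h4, ← sum_mul, sieve_id hΔY hc]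
    split_ifs <;> ring
  rw [sum_congr rfl h2, ← sum_filter]
  have h5 : (Icc 1 Δ).filter (fun c => c ∈ RC y Δ) = RC y Δ := by
    ext c
    rw [mem_filter]
    constructor
    · exact fun h => h.2
    · intro h
      refine ⟨?_, h⟩
      unfold RC at h
      exact (mem_filter.1 h).1
  rw [h5]
  unfold Ts cls
  rw [sum_filter, sum_product]
  refine sum_congr rfl fun c _ => ?_
  rw [hF]
  simp only
  rw [mul_sum]
  refine sum_congr rfl fun z _ => ?_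
  unfold hp
  split_ifs with h
  · rfl
  · ring

end

end Pool.Agent.Q237.LV
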