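import Pool.Agent.Q237.LV.Fam

/-!
# Mean squares
-/

set_option autoImplicit false

namespace Pool.Agent.Q237.LV

open Finset
open scoped Classical

section

variable {q : ℕ} [Fact q.Prime]

theorem parseval' {ι : Type*} (I : Finset ι) (u : ι → (ZMod q)ˣ) (hu : Set.InjOn u (I : Set ι))
    (w : ι → ℂ) :
    ∑ χ : DirichletCharacter ℂ q, ‖∑ i ∈ I, w i * χ (u i : ZMod q)‖ ^ 2 =
      (q.totient : ℝ) * ∑ i ∈ I, ‖w i‖ ^ 2 := by
  obtain ⟨T, hT⟩ : ∃ T : (ZMod q)ˣ → ℂ, T = fun κ => ∑ i ∈ I, if u i = κ then w i else 0 := ⟨_, rfl⟩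
  have hTu : ∀ i ∈ I, T (u i) = w i := by
    intro i hi
    rw [hT]
    simp only
    rw [sum_eq_single i]
    · rw [if_pos rfl]
    · intro j hj hne
      rw [if_neg]
      intro h
      exact hne (hu hj hi h)
    · intro h
      exact absurd hi h
  have h1 := parseval (I.image u) T
  have h2 : ∀ χ : DirichletCharacter ℂ q, ∑ κ ∈ I.image u, χ (κ : ZMod q) * T κ =
      ∑ i ∈ I, w i * χ (u i : ZMod q) := by
    intro χ
    rw [sum_image hu]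
    refine sum_congr rfl fun i hi => ?_
    rw [hTu i hi, mul_comm]
  rw [sum_congr rfl (fun χ _ => by rw [h2 χ])] at h1
  rw [h1, sum_image hu]
  congr 1
  exact sum_congr rfl fun i hi => by rw [hTu i hi]

/-- the second moment of the mollified resonator -/
theorem moment_MR {y Δ N : ℕ} {P : Finset ℕ} (hP : ∀ p ∈ P, p.Prime) (hy : ∀ p ∈ P, y ≤ p)
    (hq : Δ * N < q) (fp : ℕ → ℝ) :
    ∑ χ : DirichletCharacter ℂ q, ‖MM y Δ χ‖ ^ 2 * ‖RR N P fp χ‖ ^ 2 =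
      (q.totient : ℝ) * ((∑ E ∈ DS y Δ, hp (nn E) ^ 2) * ∑ S ∈ SSt P N, ff fp S ^ 2) := by
  have hpr : ∀ x ∈ DS y Δ ×ˢ SSt P N, ∀ p ∈ x.1 ∪ x.2, p.Prime := by
    intro x hx p hp
    rw [mem_product, mem_SSt] at hx
    rcases mem_union.1 hp with h | h
    · exact prime_of_DS hx.1 p h
    · exact hP p (hx.2.1 h)
  have hdis : ∀ x ∈ DS y Δ ×ˢ SSt P N, Disjoint x.1 x.2 := by
    intro x hx
    rw [mem_product, mem_DS, mem_SSt] at hx
    rw [Finset.disjoint_left]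
    intro p h1 h2
    have h3 := hx.1.1 h1
    rw [mem_filter, mem_range] at h3
    have h4 := hy p (hx.2.1 h2)
    omega
  have hlt : ∀ x ∈ DS y Δ ×ˢ SSt P N, nn x.1 * nn x.2 < q := by
    intro x hx
    rw [mem_product, mem_DS, mem_SSt] at hx
    exact lt_of_le_of_lt (Nat.mul_le_mul hx.1.2 hx.2.2) hq
  have hpos : ∀ x ∈ DS y Δ ×ˢ SSt P N, 0 < nn x.1 * nn x.2 := by
    intro x hx
    exact Nat.mul_pos (nn_pos fun p hp => hpr x hx p (mem_union_left _ hp))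
      (nn_pos fun p hp => hpr x hx p (mem_union_right _ hp))
  have hne : ∀ x ∈ DS y Δ ×ˢ SSt P N, ((nn x.1 * nn x.2 : ℕ) : ZMod q) ≠ 0 := by
    intro x hx h
    rw [ZMod.natCast_eq_zero_iff] at h
    have h1 := Nat.le_of_dvd (hpos x hx) h
    have h2 := hlt x hx
    omega
  obtain ⟨u, hu⟩ : ∃ u : (Finset ℕ × Finset ℕ) → (ZMod q)ˣ, ∀ x ∈ DS y Δ ×ˢ SSt P N,
      ((u x : (ZMod q)ˣ) : ZMod q) = ((nn x.1 * nn x.2 : ℕ) : ZMod q) := by
    refine ⟨fun x => if h : ((nn x.1 * nn x.2 : ℕ) : ZMod q) ≠ 0 then Units.mk0 _ h else 1, ?_⟩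
    intro x hx
    simp only
    rw [dif_pos (hne x hx)]
    rfl
  have hinj : Set.InjOn u ((DS y Δ ×ˢ SSt P N : Finset _) : Set (Finset ℕ × Finset ℕ)) := by
    intro x hx x' hx' h
    rw [mem_coe] at hx hx'
    have h1 : ((nn x.1 * nn x.2 : ℕ) : ZMod q) = ((nn x'.1 * nn x'.2 : ℕ) : ZMod q) := by
      rw [← hu x hx, ← hu x' hx', h]
    have h2 := (ZMod.natCast_eq_natCast_iff' _ _ q).1 h1
    rw [Nat.mod_eq_of_lt (hlt x hx), Nat.mod_eq_of_lt (hlt x' hx')] at h2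
    have h3 : nn (x.1 ∪ x.2) = nn (x'.1 ∪ x'.2) := by
      unfold nn at h2 ⊢
      rw [prod_union (hdis x hx), prod_union (hdis x' hx'), h2]
    have h4 := nn_inj (hpr x hx) (hpr x' hx') h3
    have hx1 := hx
    have hx1' := hx'
    rw [mem_product, mem_DS, mem_SSt] at hx1 hx1'
    refine Prod.ext ?_ ?_
    · ext p
      constructor
      · intro h5
        have h6 : p ∈ x'.1 ∪ x'.2 := by rw [← h4]; exact mem_union_left _ h5
        rcases mem_union.1 h6 with h7 | h7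
        · exact h7
        · have h8 := hx1.1.1 h5
          rw [mem_filter, mem_range] at h8
          have h9 := hy p (hx1'.2.1 h7)
          omega
      · intro h5
        have h6 : p ∈ x.1 ∪ x.2 := by rw [h4]; exact mem_union_left _ h5
        rcases mem_union.1 h6 with h7 | h7
        · exact h7
        · have h8 := hx1'.1.1 h5
          rw [mem_filter, mem_range] at h8
          have h9 := hy p (hx1.2.1 h7)
          omega
    · ext p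
      constructor
      · intro h5
        have h6 : p ∈ x'.1 ∪ x'.2 := by rw [← h4]; exact mem_union_right _ h5
        rcases mem_union.1 h6 with h7 | h7
        · have h8 := hx1'.1.1 h7
          rw [mem_filter, mem_range] at h8
          have h9 := hy p (hx1.2.1 h5)
          omega
        · exact h7
      · intro h5
        have h6 : p ∈ x.1 ∪ x.2 := by rw [h4]; exact mem_union_right _ h5
        rcases mem_union.1 h6 with h7 | h7
        · have h8 := hx1.1.1 h7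
          rw [mem_filter, mem_range] at h8
          have h9 := hy p (hx1'.2.1 h5)
          omega
        · exact h7
  have h1 := parseval' (DS y Δ ×ˢ SSt P N) u hinj
    (fun x => (((-1 : ℝ) ^ x.1.card * hp (nn x.1) * ff fp x.2 : ℝ) : ℂ))
  have h2 : ∀ χ : DirichletCharacter ℂ q, ‖MM y Δ χ‖ ^ 2 * ‖RR N P fp χ‖ ^ 2 =
      ‖∑ x ∈ DS y Δ ×ˢ SSt P N,
        (((-1 : ℝ) ^ x.1.card * hp (nn x.1) * ff fp x.2 : ℝ) : ℂ) * χ (u x : ZMod q)‖ ^ 2 := by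
    intro χ
    rw [← mul_pow, ← norm_mul]
    congr 2
    unfold MM RR
    rw [sum_mul_sum]
    symm
    rw [sum_product]
    refine sum_congr rfl fun E hE => sum_congr rfl fun S hS => ?_
    rw [hu (E, S) (mem_product.2 ⟨hE, hS⟩)]
    push_cast
    rw [map_mul]
    ring
  rw [sum_congr rfl (fun χ _ => h2 χ), h1]
  congr 1
  rw [sum_mul_sum]
  rw [sum_product]
  refine sum_congr rfl fun E _ => sum_congr rfl fun S _ => ?_
  rw [Complex.norm_real, Real.norm_eq_abs, sq_abs, mul_pow, mul_pow, ← pow_mul, mul_comm E.card,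
    pow_mul]
  norm_num

/-- the second moment of the resonator -/
theorem moment_R {N : ℕ} {P : Finset ℕ} (hP : ∀ p ∈ P, p.Prime) (hN : N < q) (fp : ℕ → ℝ) :
    ∑ χ : DirichletCharacter ℂ q, ‖RR N P fp χ‖ ^ 2 =
      (q.totient : ℝ) * ∑ S ∈ SSt P N, ff fp S ^ 2 := by
  have hinj : Set.InjOn (un : Finset ℕ → (ZMod q)ˣ) ((SSt P N : Finset _) : Set (Finset ℕ)) := by
    intro S hS S' hS' h
    rw [mem_coe] at hS hS'
    have h1 : ((nn S : ℕ) : ZMod q) = ((nn S' : ℕ) : ZMod q) := by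
      rw [← un_val (nn_ne_zero hP hN hS), ← un_val (nn_ne_zero hP hN hS'), h]
    rw [mem_SSt] at hS hS'
    have h2 := (ZMod.natCast_eq_natCast_iff' _ _ q).1 h1
    rw [Nat.mod_eq_of_lt (by omega), Nat.mod_eq_of_lt (by omega)] at h2
    exact nn_inj (fun p hp => hP p (hS.1 hp)) (fun p hp => hP p (hS'.1 hp)) h2
  have h1 := parseval' (SSt P N) (un : Finset ℕ → (ZMod q)ˣ) hinj (fun S => ((ff fp S : ℝ) : ℂ))
  have h2 : ∀ χ : DirichletCharacter ℂ q, ‖RR N P fp χ‖ ^ 2 =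
      ‖∑ S ∈ SSt P N, ((ff fp S : ℝ) : ℂ) * χ ((un S : (ZMod q)ˣ) : ZMod q)‖ ^ 2 := by
    intro χ
    congr 2
    unfold RR
    refine sum_congr rfl fun S hS => ?_
    rw [un_val (nn_ne_zero hP hN hS)]
  rw [sum_congr rfl (fun χ _ => h2 χ), h1]
  congr 1
  refine sum_congr rfl fun S _ => ?_
  rw [Complex.norm_real, Real.norm_eq_abs, sq_abs]

theorem sum_DS_le (y Δ : ℕ) : ∑ E ∈ DS y Δ, hp (nn E) ^ 2 ≤ 1 + Real.log Δ := by
  have h1 : ∑ E ∈ DS y Δ, hp (nn E) ^ 2 = ∑ c ∈ (DS y Δ).image nn, hp c ^ 2 := by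
    rw [sum_image]
    intro E hE E' hE' h
    exact nn_inj (prime_of_DS hE) (prime_of_DS hE') h
  rw [h1]
  have h2 : ∑ c ∈ (DS y Δ).image nn, hp c ^ 2 ≤ ∑ c ∈ Icc 1 Δ, hp c ^ 2 := by
    refine sum_le_sum_of_subset_of_nonneg ?_ fun _ _ _ => by positivity
    intro c hc
    rw [mem_image] at hc
    obtain ⟨E, hE, rfl⟩ := hc
    rw [mem_Icc]
    exact ⟨nn_pos (prime_of_DS hE), (mem_DS.1 hE).2⟩
  refine h2.trans ?_
  have h3 : ∑ c ∈ Icc 1 Δ, hp c ^ 2 = ∑ c ∈ Icc 1 Δ, ((c : ℝ))⁻¹ := by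
    refine sum_congr rfl fun c hc => ?_
    rw [hp_sq (mem_Icc.1 hc).1, one_div]
  have h8 := harmonic_le_one_add_log Δ
  have h9 : ((harmonic Δ : ℚ) : ℝ) = ∑ j ∈ Icc 1 Δ, ((j : ℝ))⁻¹ := by
    rw [harmonic_eq_sum_Icc]
    push_cast
    rfl
  rw [h3, ← h9]
  exact h8

theorem sum_DS_hp_le (y Δ : ℕ) : ∑ E ∈ DS y Δ, hp (nn E) ≤ 2 * Real.sqrt Δ := by
  have h1 : ∑ E ∈ DS y Δ, hp (nn E) = ∑ c ∈ (DS y Δ).image nn, hp c := by
    rw [sum_image]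
    intro E hE E' hE' h
    exact nn_inj (prime_of_DS hE) (prime_of_DS hE') h
  rw [h1]
  have h2 : ∑ c ∈ (DS y Δ).image nn, hp c ≤ ∑ c ∈ Icc 1 Δ, hp c := by
    refine sum_le_sum_of_subset_of_nonneg ?_ fun _ _ _ => hp_nonneg _
    intro c hc
    rw [mem_image] at hc
    obtain ⟨E, hE, rfl⟩ := hc
    rw [mem_Icc]
    exact ⟨nn_pos (prime_of_DS hE), (mem_DS.1 hE).2⟩
  exact h2.trans (sum_hp_le Δ)

/-- Cauchy's inequality for the resonator -/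
theorem sum_ff_sq {N : ℕ} {P : Finset ℕ} (hP : ∀ p ∈ P, p.Prime) (fp : ℕ → ℝ) :
    (∑ S ∈ SSt P N, ff fp S) ^ 2 ≤ (N : ℝ) * ∑ S ∈ SSt P N, ff fp S ^ 2 := by
  have h1 := sq_sum_le_card_mul_sum_sq (s := SSt P N) (f := fun S => ff fp S)
  refine h1.trans ?_
  refine mul_le_mul_of_nonneg_right ?_ (sum_nonneg fun _ _ => by positivity)
  have h2 : (SSt P N).card ≤ (Icc 1 N).card := by
    refine card_le_card_of_injOn nn ?_ ?_
    · intro S hS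
      rw [mem_coe, mem_SSt] at hS
      rw [mem_coe, mem_Icc]
      exact ⟨nn_pos fun p hp => hP p (hS.1 hp), hS.2⟩
    · intro S hS S' hS' h
      rw [mem_coe, mem_SSt] at hS hS'
      exact nn_inj (fun p hp => hP p (hS.1 hp)) (fun p hp => hP p (hS'.1 hp)) h
  rw [Nat.card_Icc] at h2
  exact_mod_cast h2

/-- the large sums in a class -/
noncomputable def Vh (Δ M : ℕ) (g : (ZMod q)ˣ) : ℝ :=
  ∑ c ∈ (Ioc Δ M).filter (fun c : ℕ => (c : ZMod q) = (g : ZMod q)), hp c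

theorem TB_abs {y Δ Y N τ : ℕ} {P : Finset ℕ} (hP : ∀ p ∈ P, p.Prime) (hN : N < q) {fp : ℕ → ℝ}
    (hf : ∀ p ∈ P, 0 ≤ fp p) (hτ : ∀ c : ℕ, 1 ≤ c → c ≤ Δ * Y → c.divisors.card ≤ τ)
    (κ : (ZMod q)ˣ) :
    |TB y Δ Y N P fp κ| ≤ ∑ z ∈ SSt P N ×ˢ SSt P N, (ff fp z.1 * ff fp z.2) *
      ((τ : ℝ) * Vh Δ (Δ * Y) (κ * (un z.2 * (un z.1)⁻¹))) := by
  have n1 : ∀ S ∈ SSt P N, 0 ≤ ff fp S := fun S hS =>
    ff_nonneg fun p hp => hf p ((mem_SSt.1 hS).1 hp)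
  unfold TB
  have h1 : ∑ i ∈ (II y Δ Y N P).filter (fun i => Δ < nn i.1.1 * i.1.2),
      (if cg κ i then wt fp i else 0) = ∑ z ∈ SSt P N ×ˢ SSt P N, (ff fp z.1 * ff fp z.2) *
        ∑ x ∈ (DS y Δ ×ˢ Icc 1 Y).filter (fun x => Δ < nn x.1 * x.2),
          if cg κ (x, z) then (-1 : ℝ) ^ x.1.card * hp (nn x.1 * x.2) else 0 := by
    unfold II
    rw [sum_filter, sum_product, sum_comm]
    refine sum_congr rfl fun z _ => ?_
    rw [sum_filter, mul_sum]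
    refine sum_congr rfl fun x _ => ?_
    unfold wt
    simp only
    split_ifs with h1 h2
    · ring
    · ring
    · ring
  rw [h1]
  refine (abs_sum_le_sum_abs _ _).trans (sum_le_sum fun z hz => ?_)
  rw [mem_product] at hz
  have h2 : 0 ≤ ff fp z.1 * ff fp z.2 := mul_nonneg (n1 _ hz.1) (n1 _ hz.2)
  rw [abs_mul, abs_of_nonneg h2]
  refine mul_le_mul_of_nonneg_left ?_ h2
  have hcg : ∀ x : Finset ℕ × ℕ, cg κ (x, z) ↔
      ((nn x.1 * x.2 : ℕ) : ZMod q) = ((κ * (un z.2 * (un z.1)⁻¹) : (ZMod q)ˣ) : ZMod q) := by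
    intro x
    have e1 := nn_ne_zero hP hN hz.1
    have e2 := nn_ne_zero hP hN hz.2
    unfold cg
    simp only
    rw [Units.val_mul, Units.val_mul, Units.val_inv_eq_inv_val, un_val e1, un_val e2, ← mul_assoc,
      eq_mul_inv_iff_mul_eq₀ e1]
    push_cast
    exact eq_comm
  refine (abs_sum_le_sum_abs _ _).trans ?_
  have h3 : ∀ x ∈ (DS y Δ ×ˢ Icc 1 Y).filter (fun x => Δ < nn x.1 * x.2),
      |if cg κ (x, z) then (-1 : ℝ) ^ x.1.card * hp (nn x.1 * x.2) else 0| =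
      if ((nn x.1 * x.2 : ℕ) : ZMod q) = ((κ * (un z.2 * (un z.1)⁻¹) : (ZMod q)ˣ) : ZMod q) then
        hp (nn x.1 * x.2) else 0 := by
    intro x _
    by_cases h : cg κ (x, z)
    · rw [if_pos h, if_pos ((hcg x).1 h), abs_mul, abs_pow, abs_neg, abs_one, one_pow, one_mul,
        abs_of_nonneg (hp_nonneg _)]
    · rw [if_neg h, if_neg (fun h4 => h ((hcg x).2 h4)), abs_zero]
  rw [sum_congr rfl h3]
  have hmaps : ∀ x ∈ (DS y Δ ×ˢ Icc 1 Y).filter (fun x => Δ < nn x.1 * x.2),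
      nn x.1 * x.2 ∈ Ioc Δ (Δ * Y) := by
    intro x hx
    rw [mem_filter, mem_product, mem_DS, mem_Icc] at hx
    rw [mem_Ioc]
    exact ⟨hx.2, Nat.mul_le_mul hx.1.1.2 hx.1.2.2⟩
  rw [← sum_fiberwise_of_maps_to hmaps]
  unfold Vh
  rw [sum_filter, mul_sum]
  refine sum_le_sum fun c hc => ?_
  rw [mem_Ioc] at hc
  have h4 : ∀ x ∈ ((DS y Δ ×ˢ Icc 1 Y).filter (fun x => Δ < nn x.1 * x.2)).filter
      (fun x => nn x.1 * x.2 = c),
      (if ((nn x.1 * x.2 : ℕ) : ZMod q) = ((κ * (un z.2 * (un z.1)⁻¹) : (ZMod q)ˣ) : ZMod q) then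
        hp (nn x.1 * x.2) else 0) =
      if ((c : ℕ) : ZMod q) = ((κ * (un z.2 * (un z.1)⁻¹) : (ZMod q)ˣ) : ZMod q) then
        hp c else 0 := by
    intro x hx
    rw [(mem_filter.1 hx).2]
  rw [sum_congr rfl h4, sum_const, nsmul_eq_mul]
  refine mul_le_mul_of_nonneg_right ?_ ?_
  · have h5 : (((DS y Δ ×ˢ Icc 1 Y).filter (fun x => Δ < nn x.1 * x.2)).filter
      (fun x => nn x.1 * x.2 = c)).card ≤ τ := by
      refine le_trans (card_le_card ?_)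
        ((card_fact_DS (y := y) (Δ := Δ) (Y := Y) (c := c) (by omega)).trans (hτ c (by omega) hc.2))
      intro x hx
      rw [mem_filter, mem_filter] at hx
      rw [mem_filter]
      exact ⟨hx.1.1, hx.2⟩
    exact_mod_cast h5
  · split_ifs
    · exact hp_nonneg _
    · exact le_rfl

theorem sum_TB_sq {y Δ Y N τ : ℕ} {P : Finset ℕ} (hP : ∀ p ∈ P, p.Prime) (hN : N < q)
    {fp : ℕ → ℝ}
    (hf : ∀ p ∈ P, 0 ≤ fp p) (hτ : ∀ c : ℕ, 1 ≤ c → c ≤ Δ * Y → c.divisors.card ≤ τ)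
    (KF : Finset (ZMod q)ˣ) {B : ℝ} (hB : ∀ g : (ZMod q)ˣ, ∑ κ ∈ KF, Vh Δ (Δ * Y) (κ * g) ^ 2 ≤ B) :
    ∑ κ ∈ KF, TB y Δ Y N P fp κ ^ 2 ≤
      ((N : ℝ) * ∑ S ∈ SSt P N, ff fp S ^ 2) ^ 2 * ((τ : ℝ) ^ 2 * B) := by
  have n1 : ∀ S ∈ SSt P N, 0 ≤ ff fp S := fun S hS =>
    ff_nonneg fun p hp => hf p ((mem_SSt.1 hS).1 hp)
  obtain ⟨w, hw⟩ : ∃ w : Finset ℕ × Finset ℕ → ℝ, w = fun z => ff fp z.1 * ff fp z.2 := ⟨_, rfl⟩
  have hw0 : ∀ z ∈ SSt P N ×ˢ SSt P N, 0 ≤ w z := by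
    intro z hz
    rw [mem_product] at hz
    rw [hw]
    exact mul_nonneg (n1 _ hz.1) (n1 _ hz.2)
  obtain ⟨v, hv⟩ : ∃ v : (ZMod q)ˣ → Finset ℕ × Finset ℕ → ℝ, v = fun κ z =>
    ((τ : ℝ) * Vh Δ (Δ * Y) (κ * (un z.2 * (un z.1)⁻¹))) := ⟨_, rfl⟩
  have hsw : ∑ z ∈ SSt P N ×ˢ SSt P N, w z = (∑ S ∈ SSt P N, ff fp S) ^ 2 := by
    rw [hw, sq, sum_mul_sum, sum_product]
  have h1 : ∀ κ ∈ KF, TB y Δ Y N P fp κ ^ 2 ≤
      (∑ z ∈ SSt P N ×ˢ SSt P N, w z) * ∑ z ∈ SSt P N ×ˢ SSt P N, w z * v κ z ^ 2 := by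
    intro κ _
    have h2 := TB_abs (y := y) (Y := Y) hP hN hf hτ κ
    have h3 : |TB y Δ Y N P fp κ| ≤ ∑ z ∈ SSt P N ×ˢ SSt P N, w z * v κ z := by
      rw [hw, hv]
      exact h2
    calc TB y Δ Y N P fp κ ^ 2 = |TB y Δ Y N P fp κ| ^ 2 := (sq_abs _).symm
      _ ≤ (∑ z ∈ SSt P N ×ˢ SSt P N, w z * v κ z) ^ 2 := pow_le_pow_left₀ (abs_nonneg _) h3 2
      _ ≤ _ := by
          refine sum_sq_le_sum_mul_sum_of_sq_le_mul _ hw0 ?_ ?_
          · intro z hz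
            exact mul_nonneg (hw0 z hz) (sq_nonneg _)
          · intro z _
            exact le_of_eq (by ring)
  refine (sum_le_sum h1).trans ?_
  rw [← mul_sum, sum_comm]
  have h2 : ∀ z ∈ SSt P N ×ˢ SSt P N, ∑ κ ∈ KF, w z * v κ z ^ 2 ≤ w z * ((τ : ℝ) ^ 2 * B) := by
    intro z hz
    rw [← mul_sum]
    refine mul_le_mul_of_nonneg_left ?_ (hw0 z hz)
    rw [hv]
    simp only [mul_pow]
    rw [← mul_sum]
    exact mul_le_mul_of_nonneg_left (hB _) (by positivity)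
  have h3 : 0 ≤ ∑ z ∈ SSt P N ×ˢ SSt P N, w z := sum_nonneg hw0
  have hB0 : 0 ≤ B := (sum_nonneg fun κ _ => sq_nonneg _).trans (hB 1)
  calc (∑ z ∈ SSt P N ×ˢ SSt P N, w z) * ∑ z ∈ SSt P N ×ˢ SSt P N, ∑ κ ∈ KF, w z * v κ z ^ 2
      ≤ (∑ z ∈ SSt P N ×ˢ SSt P N, w z) * ∑ z ∈ SSt P N ×ˢ SSt P N, w z * ((τ : ℝ) ^ 2 * B) :=
        mul_le_mul_of_nonneg_left (sum_le_sum h2) h3
    _ = (∑ z ∈ SSt P N ×ˢ SSt P N, w z) ^ 2 * ((τ : ℝ) ^ 2 * B) := by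
        rw [← sum_mul]
        ring
    _ ≤ _ := by
        refine mul_le_mul_of_nonneg_right ?_ (by positivity)
        rw [hsw]
        exact pow_le_pow_left₀ (by positivity) (sum_ff_sq hP fp) 2

/-- the truncated main sum -/
noncomputable def DN (N : ℕ) (P : Finset ℕ) (fp : ℕ → ℝ) : ℝ :=
  ∑ S ∈ SSt P N, ∑ S' ∈ S.powerset, ff fp S * (ff fp S' * ∏ p ∈ S \ S', hp p)

theorem Ts_one {y Δ N : ℕ} {P : Finset ℕ} (hP : ∀ p ∈ P, p.Prime) (hy : ∀ p ∈ P, y ≤ p)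
    {fp : ℕ → ℝ} (hf : ∀ p ∈ P, 0 ≤ fp p) (hNΔ : N ≤ Δ) :
    DN N P fp ≤ Ts (RC y Δ) (SSt P N) fp (1 : (ZMod q)ˣ) := by
  have n1 : ∀ S ∈ SSt P N, 0 ≤ ff fp S := fun S hS =>
    ff_nonneg fun p hp => hf p ((mem_SSt.1 hS).1 hp)
  unfold DN Ts
  obtain ⟨F, hF⟩ : ∃ F : (Σ _ : Finset ℕ, Finset ℕ) → ℕ × Finset ℕ × Finset ℕ,
    F = fun z => (nn (z.1 \ z.2), z.2, z.1) := ⟨_, rfl⟩
  have e1 : ∑ S ∈ SSt P N, ∑ S' ∈ S.powerset, ff fp S * (ff fp S' * ∏ p ∈ S \ S', hp p) =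
      ∑ z ∈ (SSt P N).sigma (fun S => S.powerset),
        ((F z).1 : ℝ) ^ (-(1 / 2) : ℝ) * (ff fp (F z).2.1 * ff fp (F z).2.2) := by
    rw [sum_sigma]
    refine sum_congr rfl fun S _ => sum_congr rfl fun S' _ => ?_
    rw [hF, prod_hp]
    simp only
    ring
  have hinj : Set.InjOn F (((SSt P N).sigma (fun S => S.powerset) : Finset _) :
      Set (Σ _ : Finset ℕ, Finset ℕ)) := by
    intro z _ z' _ h
    rw [hF] at h
    simp only [Prod.mk.injEq] at h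
    exact Sigma.ext h.2.2 (heq_of_eq h.2.1)
  rw [e1, ← sum_image (g := F)
    (f := fun x => (x.1 : ℝ) ^ (-(1 / 2) : ℝ) * (ff fp x.2.1 * ff fp x.2.2)) hinj]
  refine sum_le_sum_of_subset_of_nonneg ?_ ?_
  · intro x hx
    rw [mem_image] at hx
    obtain ⟨z, hz, rfl⟩ := hx
    rw [mem_sigma, mem_powerset, mem_SSt] at hz
    obtain ⟨⟨h1, h2⟩, h3⟩ := hz
    have pS : ∀ p ∈ z.1, p.Prime := fun p hp => hP p (h1 hp)
    have h4 : nn z.1 = nn (z.1 \ z.2) * nn z.2 := (prod_sdiff h3).symm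
    have h5 : 0 < nn z.2 := nn_pos fun p hp => pS p (h3 hp)
    have h6 : 0 < nn (z.1 \ z.2) := nn_pos fun p hp => pS p (mem_sdiff.1 hp).1
    have h7 : nn (z.1 \ z.2) ≤ nn z.1 := by
      rw [h4]
      exact Nat.le_mul_of_pos_right _ h5
    have h8 : nn z.2 ≤ nn z.1 := by
      rw [h4]
      exact Nat.le_mul_of_pos_left _ h6
    rw [hF]
    unfold cls
    rw [mem_filter, mem_product, mem_product, mem_SSt, mem_SSt]
    refine ⟨⟨?_, ⟨h3.trans h1, by simp only; omega⟩, h1, h2⟩, ?_⟩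
    · unfold RC
      rw [mem_filter, mem_Icc]
      refine ⟨⟨h6, by simp only; omega⟩, ?_⟩
      intro p hp hd
      have h9 := (dvd_nn_iff (fun p hp => pS p (mem_sdiff.1 hp).1) hp).1 hd
      exact hy p (h1 (mem_sdiff.1 h9).1)
    · simp only
      rw [Units.val_one, one_mul, h4]
  · intro x hx _
    unfold cls at hx
    rw [mem_filter, mem_product, mem_product] at hx
    have a1 := n1 _ hx.1.2.1
    have a2 := n1 _ hx.1.2.2
    positivity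

end

end Pool.Agent.Q237.LV
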