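import Pool.Agent.Q237.LV.Asy

/-!
# Real-variable facts for the final step
-/

set_option autoImplicit false

namespace Pool.Agent.Q237.LV

open Finset Filter
open scoped Classical

theorem card_ann {q : ℕ} [Fact q.Prime] (H : Subgroup (DirichletCharacter ℂ q)) {ε : ℝ}
    (hH : (q : ℝ) ^ ε ≤ (hf H).card) : (Nat.card (ann H) : ℝ) ≤ (q : ℝ) ^ (1 - ε) := by
  have hq0 : (0 : ℝ) < q := by exact_mod_cast (Fact.out : q.Prime).pos
  have h1 := card_mul_card H
  have h2 : (hf H).card * Nat.card (ann H) ≤ q := by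
    rw [← kf_card, h1]
    exact Nat.totient_le q
  have h3 : ((hf H).card : ℝ) * Nat.card (ann H) ≤ q := by exact_mod_cast h2
  have h4 : (q : ℝ) ^ ε * Nat.card (ann H) ≤ q :=
    le_trans (mul_le_mul_of_nonneg_right hH (by positivity)) h3
  have h5 : 0 < (q : ℝ) ^ ε := Real.rpow_pos_of_pos hq0 ε
  rw [Real.rpow_sub hq0, Real.rpow_one, le_div_iff₀ h5]
  linarith

/-- facts on `x = L / V ^ 2` -/
theorem xfacts {L V c u : ℝ} (hL0 : 0 < L) (hLL : 1 ≤ Real.log L) (hu3 : u ^ 3 = L) (hu0 : 0 < u)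
    (hV1 : u ≤ V) (hc0 : 0 < c) (hcs : c ≤ 1 / 256) (hV2 : V ≤ c * Real.sqrt (L / Real.log L)) :
    0 < L / V ^ 2 ∧ Real.log L ≤ c ^ 2 * (L / V ^ 2) ∧ Real.log L ≤ L / V ^ 2 ∧
      L / V ^ 2 ≤ u := by
  have hV0 : 0 < V := by linarith
  have hLL0 : 0 < Real.log L := by linarith
  have hx0 : 0 < L / V ^ 2 := by positivity
  have hV2sq : V ^ 2 ≤ c ^ 2 * (L / Real.log L) := by
    calc V ^ 2 ≤ (c * Real.sqrt (L / Real.log L)) ^ 2 := pow_le_pow_left₀ hV0.le hV2 2
      _ = c ^ 2 * (L / Real.log L) := by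
          rw [mul_pow, Real.sq_sqrt (by positivity)]
  have h1 : Real.log L ≤ c ^ 2 * (L / V ^ 2) := by
    rw [← mul_div_assoc, le_div_iff₀ (by positivity)]
    rw [← mul_div_assoc, le_div_iff₀ hLL0] at hV2sq
    linarith
  refine ⟨hx0, h1, h1.trans ?_, ?_⟩
  · have : c ^ 2 ≤ 1 := by nlinarith
    exact mul_le_of_le_one_left hx0.le this
  · rw [div_le_iff₀ (by positivity)]
    have h2 : u ^ 2 ≤ V ^ 2 := pow_le_pow_left₀ hu0.le hV1 2
    have h3 : u * u ^ 2 = L := by rw [← hu3]; ring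
    calc L = u * u ^ 2 := h3.symm
      _ ≤ u * V ^ 2 := mul_le_mul_of_nonneg_left h2 hu0.le

/-- facts on `y = ⌊exp T⌋` -/
theorem yfacts {T : ℝ} (hT2 : 2 ≤ T) : ∃ y : ℕ, (0 : ℝ) < y ∧ Real.log y ≤ T ∧
    T / 2 ≤ Real.log y := by
  have hyT : ((⌊Real.exp T⌋₊ : ℕ) : ℝ) ≤ Real.exp T := Nat.floor_le (Real.exp_pos _).le
  have hyT2 : Real.exp T / 2 ≤ (⌊Real.exp T⌋₊ : ℕ) := by
    have h5 : Real.exp T < (⌊Real.exp T⌋₊ : ℕ) + 1 := Nat.lt_floor_add_one _
    have h6 : T + 1 ≤ Real.exp T := Real.add_one_le_exp T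
    linarith
  have hy0' : (0 : ℝ) < (⌊Real.exp T⌋₊ : ℕ) := lt_of_lt_of_le (by positivity) hyT2
  refine ⟨⌊Real.exp T⌋₊, hy0', ?_, ?_⟩
  · have h5 := Real.log_le_log hy0' hyT
    rwa [Real.log_exp] at h5
  · have h5 := Real.log_le_log (by positivity) hyT2
    rw [Real.log_div (Real.exp_pos _).ne' (by norm_num), Real.log_exp] at h5
    have := Real.log_two_lt_d9
    linarith

/-- the weights are small -/
theorem fl_le {y p : ℕ} {l L ε lN : ℝ} (hy0 : (0 : ℝ) < y) (hly1 : 1 ≤ Real.log y) (hε : 0 < ε)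
    (hl2 : l ^ 2 = lN * Real.log y / 28) (hlN0 : 0 ≤ lN) (hlN : lN ≤ L)
    (hLy : L ≤ (y : ℝ) ^ (ε / 32)) (hpm : p ∈ Py y) :
    fl l p ≤ (p : ℝ) ^ (-(1 / 2 - ε / 64)) := by
  rw [mem_Py] at hpm
  have hpy : (y : ℝ) ≤ p := by exact_mod_cast hpm.1.1.le
  have hp0 : (0 : ℝ) < p := by linarith
  have hlp : Real.log y ≤ Real.log p := Real.log_le_log hy0 hpy
  have hlp0 : 0 < Real.log p := by linarith
  have h7 : ((p : ℝ) ^ (ε / 64) * Real.log p) ^ 2 = (p : ℝ) ^ (ε / 32) * Real.log p ^ 2 := by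
    rw [mul_pow, ← Real.rpow_natCast, ← Real.rpow_mul hp0.le]
    congr 2
    push_cast
    ring
  have h8 : L ≤ (p : ℝ) ^ (ε / 32) :=
    hLy.trans (Real.rpow_le_rpow hy0.le hpy (by positivity))
  have h9 : Real.log y ≤ Real.log p ^ 2 := by
    calc Real.log y ≤ Real.log p := hlp
      _ = Real.log p * 1 := (mul_one _).symm
      _ ≤ Real.log p * Real.log p := mul_le_mul_of_nonneg_left (by linarith) hlp0.le
      _ = Real.log p ^ 2 := by ring
  have h6 : l ≤ (p : ℝ) ^ (ε / 64) * Real.log p := by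
    refine (abs_le_of_sq_le_sq' ?_ (by positivity)).2
    rw [h7, hl2]
    have h10 : 0 ≤ lN * Real.log y := mul_nonneg hlN0 (by linarith)
    calc lN * Real.log y / 28 ≤ lN * Real.log y := by linarith
      _ ≤ (p : ℝ) ^ (ε / 32) * Real.log p ^ 2 := by
          have : lN ≤ (p : ℝ) ^ (ε / 32) := by linarith
          have h11 : (0 : ℝ) ≤ (p : ℝ) ^ (ε / 32) := by positivity
          exact mul_le_mul this h9 (by linarith) h11
  have h5 : l / Real.log p ≤ (p : ℝ) ^ (ε / 64) := by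
    rw [div_le_iff₀ hlp0]
    exact h6
  unfold fl
  have h6 : l * hp p / Real.log p = (l / Real.log p) * hp p := by ring
  rw [h6]
  calc (l / Real.log p) * hp p ≤ (p : ℝ) ^ (ε / 64) * hp p :=
        mul_le_mul_of_nonneg_right h5 (hp_nonneg p)
    _ = (p : ℝ) ^ (-(1 / 2 - ε / 64)) := by
        unfold hp
        rw [← Real.rpow_add hp0]
        congr 1
        ring

/-- the number of factors -/
theorem wfacts {q y : ℕ} {L ε : ℝ} (hq3 : 3 ≤ q) (hL : L = Real.log q) (hL2 : 2 ≤ L)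
    (hy0 : (0 : ℝ) < y) (hly1 : 1 ≤ Real.log y) (hlyL : Real.log y ≤ L) (hε : 0 < ε)
    (hlyLL : 32 / ε * Real.log L ≤ Real.log y) : ∃ w : ℕ, q ≤ y ^ w ∧
    ((Nat.log 2 q : ℕ) : ℝ) ^ w ≤ (q : ℝ) ^ (ε / 8) := by
  have hly0 : 0 < Real.log y := by linarith
  have hL0 : 0 < L := by linarith
  have hq0 : (0 : ℝ) < q := by
    have : 0 < q := by omega
    exact_mod_cast this
  obtain ⟨w, hw⟩ : ∃ w : ℕ, w = ⌈L / Real.log y⌉₊ := ⟨_, rfl⟩
  have hw1 : L / Real.log y ≤ w := by rw [hw]; exact Nat.le_ceil _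
  have hw2 : (w : ℝ) ≤ 2 * (L / Real.log y) := by
    have h5 : (w : ℝ) < L / Real.log y + 1 := by
      rw [hw]
      exact Nat.ceil_lt_add_one (by positivity)
    have h6 : 1 ≤ L / Real.log y := by
      rw [le_div_iff₀ hly0]
      linarith
    linarith
  refine ⟨w, ?_, ?_⟩
  · have h5 : (q : ℝ) ≤ (y : ℝ) ^ w := by
      rw [← Real.exp_log hq0, ← Real.exp_log hy0, ← Real.exp_nat_mul, ← hL]
      refine Real.exp_le_exp.2 ?_
      rw [div_le_iff₀ hly0] at hw1
      exact hw1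
    exact_mod_cast h5
  · have h5 : ((Nat.log 2 q : ℕ) : ℝ) ≤ 2 * L := by
      have h6 : ((2 : ℝ) ^ (Nat.log 2 q)) ≤ q := by
        exact_mod_cast Nat.pow_log_le_self 2 (by omega)
      have h7 := Real.log_le_log (by positivity) h6
      rw [Real.log_pow, ← hL] at h7
      have := Real.log_two_gt_d9
      have h8 : (0 : ℝ) ≤ (Nat.log 2 q : ℕ) := by positivity
      nlinarith only [h7, this, h8]
    have h6 : Real.log (2 * L) ≤ 2 * Real.log L := by
      rw [Real.log_mul (by norm_num) hL0.ne']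
      have := Real.log_le_log (by norm_num) hL2
      linarith
    have h7 : 0 ≤ Real.log (2 * L) := Real.log_nonneg (by linarith)
    have hLL0 : 0 ≤ Real.log L := by linarith
    calc ((Nat.log 2 q : ℕ) : ℝ) ^ w ≤ (2 * L) ^ w := pow_le_pow_left₀ (by positivity) h5 w
      _ = Real.exp (w * Real.log (2 * L)) := by
          rw [Real.exp_nat_mul, Real.exp_log (by positivity)]
      _ ≤ Real.exp (ε / 8 * L) := by
          refine Real.exp_le_exp.2 ?_
          have h8 : Real.log L ≤ ε / 32 * Real.log y := by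
            have h9 : 32 / ε * Real.log L * (ε / 32) = Real.log L := by field_simp
            rw [← h9]
            have h10 : 0 ≤ ε / 32 := by positivity
            have h11 := mul_le_mul_of_nonneg_right hlyLL h10
            linarith
          calc (w : ℝ) * Real.log (2 * L) ≤ (2 * (L / Real.log y)) * (2 * Real.log L) := by gcongr
            _ = 4 * L * Real.log L / Real.log y := by ring
            _ ≤ ε / 8 * L := by
                rw [div_le_iff₀ hly0]
                have h12 := mul_le_mul_of_nonneg_left h8 (by positivity : (0 : ℝ) ≤ 4 * L)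
                linarith
      _ = (q : ℝ) ^ (ε / 8) := by
          rw [Real.rpow_def_of_pos hq0, hL]
          congr 1
          ring

/-- the level -/
theorem levfacts {V u L lΔ G : ℝ} (hu48 : 48 ≤ u) (hu3 : u ^ 3 = L) (hV1 : u ≤ V)
    (hL2 : 2 ≤ L) (hΔ : lΔ ≤ L) (hG : 4 * V ≤ G) :
    (Real.exp V + 1) * (Real.exp V * (2 + lΔ)) ≤ Real.exp G / 8 := by
  have hV0 : 0 < V := by linarith
  have hu0 : 0 < u := by linarith
  have h5 : Real.exp (4 * V) ≤ Real.exp G := Real.exp_le_exp.2 hG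
  have h6 : 16 * (2 + L) ≤ Real.exp (2 * V) := by
    have h7 : Real.exp (2 * u) ≤ Real.exp (2 * V) := Real.exp_le_exp.2 (by linarith)
    refine le_trans ?_ h7
    have h8 := Real.pow_div_factorial_le_exp (2 * u) (by linarith) 4
    have h9 : ((Nat.factorial 4 : ℕ) : ℝ) = 24 := by norm_num [Nat.factorial]
    rw [h9] at h8
    refine le_trans ?_ h8
    rw [← hu3]
    have h10 : u ^ 3 * 48 ≤ u ^ 4 := by
      have h13 : 0 ≤ u ^ 3 := by positivity
      have h14 : u ^ 4 = u ^ 3 * u := by ring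
      rw [h14]
      exact mul_le_mul_of_nonneg_left hu48 h13
    have h11 : (2 : ℝ) ≤ u ^ 3 := by rw [hu3]; exact hL2
    have h12 : (2 * u) ^ 4 = 16 * u ^ 4 := by ring
    rw [h12]
    linarith
  have h7 : (1 : ℝ) ≤ Real.exp V := Real.one_le_exp hV0.le
  have h8 : Real.exp (4 * V) = Real.exp (2 * V) * (Real.exp V * Real.exp V) := by
    rw [← Real.exp_add, ← Real.exp_add]
    congr 1
    ring
  calc (Real.exp V + 1) * (Real.exp V * (2 + lΔ))
      ≤ (Real.exp V + 1) * (Real.exp V * (2 + L)) := by gcongr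
    _ ≤ (2 * Real.exp V) * (Real.exp V * (2 + L)) := by
        refine mul_le_mul_of_nonneg_right (by linarith) (by positivity)
    _ = 16 * (2 + L) * (Real.exp V * Real.exp V) / 8 := by ring
    _ ≤ Real.exp (2 * V) * (Real.exp V * Real.exp V) / 8 := by gcongr
    _ = Real.exp (4 * V) / 8 := by rw [h8]
    _ ≤ _ := by gcongr

/-- the final comparison -/
theorem cmpfacts {q y : ℕ} {L V u x c c2 C3 a ε : ℝ} (hq1 : (1 : ℝ) < q) (hL : L = Real.log q)
    (hy0 : (0 : ℝ) < y) (hε : 0 < ε) (hc0 : 0 < c) (hcs : c ≤ 1 / 256) (hC30 : 0 < C3)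
    (hc : c = ε * c2 / 64) (hx0 : 0 < x)
    (hlyx : c2 / 2 * x ≤ Real.log y) (hxC : 2 / c * Real.log (512 * (C3 + 1)) ≤ x)
    (hx4 : 4 * Real.log 4 ≤ x) (hxu : x ≤ u) (hV1 : u ≤ V) (ha0 : 0 < a) (ha4 : a ≤ 1 / 4)
    (hua : 16 / a ≤ u) (hu512 : Real.log 512 ≤ u) (hu48 : 48 ≤ u) (hu3 : u ^ 3 = L) :
    128 * (C3 * (y : ℝ) ^ (-(ε / 16)) + (q : ℝ) ^ (-a)) + Real.exp (-V) +
      (q : ℝ) ^ (-(1 / 4) : ℝ) ≤ Real.exp (-(c * x)) := by
  have hq0 : (0 : ℝ) < q := by linarith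
  have hu0 : 0 < u := by linarith
  have hE0 : 0 < Real.exp (-(c * x)) := Real.exp_pos _
  have hcx2 : c * x ≤ x / 2 := by
    have := mul_le_mul_of_nonneg_right hcs hx0.le
    linarith
  have t1 : 128 * (C3 * (y : ℝ) ^ (-(ε / 16))) ≤ 1 / 4 * Real.exp (-(c * x)) := by
    have h5 : (y : ℝ) ^ (-(ε / 16)) ≤ Real.exp (-(2 * c * x)) := by
      rw [Real.rpow_def_of_pos hy0]
      refine Real.exp_le_exp.2 ?_
      have h6 : 2 * c * x = c2 / 2 * x * (ε / 16) := by rw [hc]; ring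
      rw [h6]
      have := mul_le_mul_of_nonneg_right hlyx (by positivity : (0 : ℝ) ≤ ε / 16)
      linarith
    have h6 : Real.exp (-(2 * c * x)) = Real.exp (-(c * x)) * Real.exp (-(c * x)) := by
      rw [← Real.exp_add]
      congr 1
      ring
    have h7 : Real.exp (-(c * x)) ≤ 1 / (512 * (C3 + 1)) := by
      have h11 : 0 ≤ Real.log (512 * (C3 + 1)) := Real.log_nonneg (by linarith)
      have h8 : Real.log (512 * (C3 + 1)) ≤ c * x := by
        have h10 : 2 / c * Real.log (512 * (C3 + 1)) * c = 2 * Real.log (512 * (C3 + 1)) := by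
          field_simp
        have h12 := mul_le_mul_of_nonneg_right hxC hc0.le
        rw [h10] at h12
        linarith
      rw [Real.exp_neg, inv_eq_one_div]
      refine one_div_le_one_div_of_le (by positivity) ?_
      rw [← Real.exp_log (by positivity : (0 : ℝ) < 512 * (C3 + 1))]
      exact Real.exp_le_exp.2 h8
    rw [h6] at h5
    have h8 : 128 * C3 * (1 / (512 * (C3 + 1))) ≤ 1 / 4 := by
      rw [mul_one_div, div_le_iff₀ (by positivity)]
      linarith
    calc 128 * (C3 * (y : ℝ) ^ (-(ε / 16)))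
        ≤ 128 * (C3 * (Real.exp (-(c * x)) * (1 / (512 * (C3 + 1))))) := by
          refine mul_le_mul_of_nonneg_left (mul_le_mul_of_nonneg_left (h5.trans ?_) hC30.le)
            (by norm_num)
          exact mul_le_mul_of_nonneg_left h7 hE0.le
      _ = (128 * C3 * (1 / (512 * (C3 + 1)))) * Real.exp (-(c * x)) := by ring
      _ ≤ _ := mul_le_mul_of_nonneg_right h8 hE0.le
  have hcx : c * x ≤ u := by linarith
  have hEu : Real.exp (-u) ≤ Real.exp (-(c * x)) := Real.exp_le_exp.2 (by linarith)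
  have hau : 16 * u ≤ a * L := by
    rw [← hu3]
    rw [div_le_iff₀ ha0] at hua
    have h5 : 16 * u ≤ (u * a) * u := mul_le_mul_of_nonneg_right hua hu0.le
    have h6 : u * a * u ≤ a * u ^ 3 := by
      have h7 : a * u ^ 3 = (u * a * u) * u := by ring
      rw [h7]
      exact le_mul_of_one_le_right (by positivity) (by linarith)
    linarith
  have t2 : 128 * (q : ℝ) ^ (-a) ≤ 1 / 4 * Real.exp (-(c * x)) := by
    have h5 : (q : ℝ) ^ (-a) ≤ Real.exp (-(Real.log 512) - u) := by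
      rw [Real.rpow_def_of_pos hq0, ← hL]
      refine Real.exp_le_exp.2 ?_
      linarith
    have h6 : Real.exp (-(Real.log 512) - u) = 1 / 512 * Real.exp (-u) := by
      rw [sub_eq_add_neg, Real.exp_add, Real.exp_neg, Real.exp_log (by norm_num)]
      norm_num
    rw [h6] at h5
    linarith
  have t3 : Real.exp (-V) ≤ 1 / 4 * Real.exp (-(c * x)) := by
    have h5 : Real.exp (-V) ≤ Real.exp (-(Real.log 4) - c * x) := by
      refine Real.exp_le_exp.2 ?_
      have h8 : 0 ≤ Real.log 4 := Real.log_nonneg (by norm_num)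
      linarith
    have h6 : Real.exp (-(Real.log 4) - c * x) = 1 / 4 * Real.exp (-(c * x)) := by
      rw [sub_eq_add_neg, Real.exp_add, Real.exp_neg, Real.exp_log (by norm_num)]
      norm_num
    rw [h6] at h5
    exact h5
  have t4 : (q : ℝ) ^ (-(1 / 4) : ℝ) ≤ 1 / 4 * Real.exp (-(c * x)) := by
    have h5 : (q : ℝ) ^ (-(1 / 4) : ℝ) ≤ (q : ℝ) ^ (-a) :=
      Real.rpow_le_rpow_of_exponent_le hq1.le (by linarith)
    have h6 : 0 < (q : ℝ) ^ (-a) := Real.rpow_pos_of_pos hq0 _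
    linarith
  linarith

end Pool.Agent.Q237.LV
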