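import Pool.Agent.Q237.LV.FinA

/-!
# Almost all cosets of a subgroup contain a large central value
-/

set_option autoImplicit false

namespace Pool.Agent.Q237.LV

open Finset Filter
open scoped Classical

/-- the central values against the truncated series -/
theorem badL_sub {q : ℕ} [Fact q.Prime] (H : Subgroup (DirichletCharacter ℂ q)) {V : ℝ} {Y : ℕ}
    (hY : 1 ≤ Y) (happ : 8 * Real.sqrt q * (1 + Real.log q) / Real.sqrt Y ≤ 1) :
    badL H V ⊆ badF H Y (Real.exp V + 1) := by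
  intro χ hχ
  unfold badL at hχ
  unfold badF
  rw [mem_filter] at hχ ⊢
  refine ⟨mem_univ _, fun ψ hψ hne => ?_⟩
  have h5 := hχ.2 ψ hψ hne
  have h6 := L_approx hne hY
  have h7 : ‖LL Y (χ * ψ)‖ ≤ ‖(χ * ψ).LFunction (1 / 2)‖ +
      ‖(χ * ψ).LFunction (1 / 2) - LL Y (χ * ψ)‖ := by
    have h8 := norm_sub_le ((χ * ψ).LFunction (1 / 2))
      ((χ * ψ).LFunction (1 / 2) - LL Y (χ * ψ))
    rwa [sub_sub_cancel] at h8
  linarith

/-- the contribution of the principal character -/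
theorem triv_part {q Δ N Y : ℕ} {h φ : ℝ} (hq0 : (0 : ℝ) < q) (hφ : (q : ℝ) / 2 ≤ φ)
    (hq12 : 2 ≤ (q : ℝ) ^ (1 / 12 : ℝ))
    (htriv : 64 * Real.sqrt Δ * Real.sqrt Y * N ≤ (q : ℝ) ^ (2 / 3 : ℝ)) :
    (if 64 * Real.sqrt Δ * Real.sqrt Y * N ≤ h then 0 else h) ≤
      φ * (q : ℝ) ^ (-(1 / 4) : ℝ) := by
  split_ifs with hh
  · have : 0 ≤ φ := by linarith
    positivity
  · have h5 : h ≤ (q : ℝ) ^ (2 / 3 : ℝ) := by linarith
    refine h5.trans ?_
    calc (q : ℝ) ^ (2 / 3 : ℝ) = (q : ℝ) ^ (-(1 / 12) : ℝ) * (q : ℝ) ^ (3 / 4 : ℝ) := by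
          rw [← Real.rpow_add hq0]
          norm_num
      _ ≤ 1 / 2 * (q : ℝ) ^ (3 / 4 : ℝ) := by
          refine mul_le_mul_of_nonneg_right ?_ (by positivity)
          rw [Real.rpow_neg hq0.le, inv_eq_one_div]
          exact one_div_le_one_div_of_le (by norm_num) hq12
      _ = q / 2 * (q : ℝ) ^ (-(1 / 4) : ℝ) := by
          have h6 : (q : ℝ) ^ (3 / 4 : ℝ) = q * (q : ℝ) ^ (-(1 / 4) : ℝ) := by
            have h7 : (q : ℝ) * (q : ℝ) ^ (-(1 / 4) : ℝ) =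
                (q : ℝ) ^ (1 : ℝ) * (q : ℝ) ^ (-(1 / 4) : ℝ) := by rw [Real.rpow_one]
            rw [h7, ← Real.rpow_add hq0]
            norm_num
          rw [h6]
          ring
      _ ≤ _ := by gcongr

theorem main_small (ε : ℝ) (hε : 0 < ε) (hε4 : ε ≤ 1 / 4) : ∃ c : ℝ, 0 < c ∧
    ∀ᶠ q : ℕ in atTop, ∀ [Fact q.Prime], ∀ H : Subgroup (DirichletCharacter ℂ q),
      (q : ℝ) ^ ε ≤ (hf H).card → ∀ V : ℝ, Real.log q ^ (1 / 3 : ℝ) ≤ V →
      V ≤ c * Real.sqrt (Real.log q / Real.log (Real.log q)) →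
      ((badL H V).card : ℝ) ≤ Real.exp (-(c * (Real.log q / V ^ 2))) * q.totient := by
  obtain ⟨a, ha0, ha4, hpar⟩ := par1 ε hε hε4
  obtain ⟨C3, hC30, hTs⟩ := Ts_total ε hε (by linarith)
  obtain ⟨y0, hy03, hmass⟩ := mass_Py
  obtain ⟨c2, hc2⟩ : ∃ c2 : ℝ, c2 = a / 160000 := ⟨_, rfl⟩
  have hc20 : 0 < c2 := by rw [hc2]; positivity
  have hc21 : c2 ≤ 1 := by rw [hc2]; linarith
  obtain ⟨c, hc⟩ : ∃ c : ℝ, c = ε * c2 / 64 := ⟨_, rfl⟩
  have hc0 : 0 < c := by rw [hc]; positivity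
  have hcs : c ≤ 1 / 256 := by
    rw [hc]
    have : ε * c2 ≤ 1 / 4 * 1 := mul_le_mul hε4 hc21 hc20.le (by norm_num)
    linarith
  have hcc : c ^ 2 ≤ c2 * ε / 64 := by
    have h1 : c = c2 * ε / 64 := by rw [hc]; ring
    calc c ^ 2 = c * c := by ring
      _ ≤ 1 * c := mul_le_mul_of_nonneg_right (by linarith) hc0.le
      _ = c2 * ε / 64 := by rw [one_mul, h1]
  refine ⟨c, hc0, ?_⟩
  filter_upwards [hpar, eventually_ge_atTop 3, ev3 2, ev4 1, ev4 (Real.log y0),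
    ev4 (2 / c2), ev4 (2 / c * Real.log (512 * (C3 + 1))), ev4 (4 * Real.log 4), ev5 48,
    ev5 (16 / a), ev5 (Real.log 512), ev1 2 (1 / 12) (by norm_num), ev1 16 a ha0]
    with q hpar h3 hL2 hLL1 hLLy hLLc hLLC hLL4 hu48 hua hu512 hq12 hqa
  intro _ H hH V hV1 hV2
  obtain ⟨Δ, N, Y, hΔ1, hN1, hNΔ, hΔY, hNN, hΔN2, hZ, hlogN, hlogN2, hlogΔ, htriv, happ, hTB⟩ := hpar
  have hK := card_ann H hH
  have hsub := badL_sub (V := V) H (hΔ1.trans hΔY) happ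
  have hq1 : (1 : ℝ) < q := by
    have : 1 < q := by omega
    exact_mod_cast this
  have hq0 : (0 : ℝ) < q := by linarith
  have hρ1 : (q : ℝ) ^ (-a) ≤ 1 / 16 := by
    rw [Real.rpow_neg hq0.le, inv_eq_one_div]
    exact one_div_le_one_div_of_le (by norm_num) hqa
  obtain ⟨L, hL⟩ : ∃ L : ℝ, L = Real.log q := ⟨_, rfl⟩
  obtain ⟨u, hu⟩ : ∃ u : ℝ, u = L ^ (1 / 3 : ℝ) := ⟨_, rfl⟩
  rw [← hL] at hL2 hLL1 hLLy hLLc hLLC hLL4 hu48 hua hu512 hlogN hlogN2 hlogΔ hV1 hV2 ⊢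
  rw [← hu] at hu48 hua hu512 hV1
  have hL0 : 0 < L := by linarith
  have hu0 : 0 < u := by linarith
  have hu3 : u ^ 3 = L := by
    rw [hu, ← Real.rpow_natCast, ← Real.rpow_mul hL0.le]
    norm_num
  have hV0 : 0 < V := by linarith
  obtain ⟨hx0, hxLL, hxLL', hxu⟩ := xfacts hL0 hLL1 hu3 hu0 hV1 hc0 hcs hV2
  obtain ⟨x, hx⟩ : ∃ x : ℝ, x = L / V ^ 2 := ⟨_, rfl⟩
  rw [← hx] at hx0 hxLL hxLL' hxu ⊢
  have hlN0 : 0 ≤ Real.log N := Real.log_natCast_nonneg N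
  -- the parameter y
  obtain ⟨T, hT⟩ : ∃ T : ℝ, T = Real.log N / (160000 * V ^ 2) := ⟨_, rfl⟩
  have hT1 : c2 * x ≤ T := by
    rw [hT, hx, hc2]
    have : a / 160000 * (L / V ^ 2) = a * L / (160000 * V ^ 2) := by
      field_simp
    rw [this]
    exact div_le_div_of_nonneg_right hlogN (by positivity)
  have hTx : T ≤ x := by
    rw [hT, hx]
    have hV2p : 0 < V ^ 2 := by positivity
    exact div_le_div₀ hL0.le hlogN2 hV2p (by linarith)
  have hT2 : 2 ≤ T := by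
    refine le_trans ?_ hT1
    have h5 : 2 / c2 ≤ x := hLLc.trans hxLL'
    rw [div_le_iff₀ hc20] at h5
    linarith
  obtain ⟨y, hy0', hly1, hly2⟩ := yfacts hT2
  have hlyx : c2 / 2 * x ≤ Real.log y := by linarith
  have hlyLL : 32 / ε * Real.log L ≤ Real.log y := by
    refine le_trans ?_ hlyx
    calc 32 / ε * Real.log L ≤ 32 / ε * (c ^ 2 * x) := by gcongr
      _ ≤ 32 / ε * (c2 * ε / 64 * x) := by gcongr
      _ = c2 / 2 * x := by field_simp; ring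
  have h32 : 32 ≤ 32 / ε := by
    rw [le_div_iff₀ hε]
    linarith
  have hlyLL' : 32 * Real.log L ≤ Real.log y :=
    (mul_le_mul_of_nonneg_right h32 (by linarith)).trans hlyLL
  have hly1' : 1 ≤ Real.log y := by linarith
  have hly0 : 0 < Real.log y := by linarith
  have hyy0 : y0 ≤ y := by
    have h5 : Real.log y0 ≤ Real.log y := by linarith
    have h6 : (0 : ℝ) < y0 := by
      have : 0 < y0 := by omega
      exact_mod_cast this
    have h7 := (Real.log_le_log_iff h6 hy0').1 h5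
    exact_mod_cast h7
  have hy3 : 3 ≤ y := hy03.trans hyy0
  obtain ⟨hm1, hm2⟩ := hmass y hyy0
  have hlyL : Real.log y ≤ L := by
    have h5 : u ≤ u ^ 3 := by
      have h6 : u ^ 3 = u * (u * u) := by ring
      rw [h6]
      exact le_mul_of_one_le_right hu0.le (by nlinarith only [hu48])
    linarith
  -- the resonator
  obtain ⟨R, hR⟩ : ∃ R : ℝ, R = Real.log N / Real.log y := ⟨_, rfl⟩
  have hRV : 160000 * V ^ 2 ≤ R := by
    rw [hR, le_div_iff₀ hly0]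
    have h5 : 160000 * V ^ 2 * T = Real.log N := by
      rw [hT]
      field_simp
    calc 160000 * V ^ 2 * Real.log y ≤ 160000 * V ^ 2 * T := by gcongr
      _ = Real.log N := h5
  have hR28 : 28 ≤ R := by
    have h5 : 1 ≤ V ^ 2 := one_le_pow₀ (by linarith)
    linarith
  have hsR : 400 * V ≤ Real.sqrt R := by
    refine Real.le_sqrt_of_sq_le ?_
    have h5 : (400 * V) ^ 2 = 160000 * V ^ 2 := by ring
    rw [h5]
    exact hRV
  obtain ⟨l, hl⟩ : ∃ l : ℝ, l = Real.sqrt (Real.log N * Real.log y / 28) := ⟨_, rfl⟩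
  have hl0 : 0 ≤ l := by rw [hl]; exact Real.sqrt_nonneg _
  have hl2 : l ^ 2 = Real.log N * Real.log y / 28 := by
    rw [hl, Real.sq_sqrt (by positivity)]
  have hLy : L ≤ (y : ℝ) ^ (ε / 32) := by
    rw [Real.rpow_def_of_pos hy0']
    nth_rewrite 1 [← Real.exp_log hL0]
    refine Real.exp_le_exp.2 ?_
    have h5 : 32 / ε * Real.log L * (ε / 32) = Real.log L := by field_simp
    calc Real.log L = 32 / ε * Real.log L * (ε / 32) := h5.symm
      _ ≤ Real.log y * (ε / 32) := mul_le_mul_of_nonneg_right hlyLL (by positivity)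
  have hfβ : ∀ p ∈ Py y, fl l p ≤ (p : ℝ) ^ (-(1 / 2 - ε / 64)) := fun p hpm =>
    fl_le hy0' hly1' hε hl2 hlN0 hlogN2 hLy hpm
  have hP : ∀ p ∈ Py y, p.Prime := fun p hpm => (mem_Py.1 hpm).2
  have hfl1 : ∀ p ∈ Py y, fl l p ≤ 1 := by
    intro p hpm
    refine (hfβ p hpm).trans ?_
    refine Real.rpow_le_one_of_one_le_of_nonpos ?_ (by linarith)
    exact_mod_cast (hP p hpm).one_lt.le
  have hf0 : ∀ p ∈ Py y, 0 ≤ fl l p := by
    intro p hpm
    unfold fl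
    have h5 := hp_nonneg p
    have h6 := Real.log_natCast_nonneg p
    positivity
  have hyP : ∀ p ∈ Py y, y ≤ p := fun p hpm => (mem_Py.1 hpm).1.1.le
  obtain ⟨hDN, hG⟩ := res_main hy3 hm1 hm2 hl0 hR hR28 hl2 hN1 hfl1
  obtain ⟨w, hqw, hlogw⟩ := wfacts h3 hL hL2 hy0' hly1' hlyL hε hlyLL
  have hTs' := hTs q H y Δ N w (Py y) (fl l) hP hf0 hfβ hyP (by omega) hNN hΔ1 hN1 hΔN2 hZ hK hqw
    hlogw
  have hTB' := hTB H hK y (Py y) (fl l) hP hf0
  have hlev := levfacts (G := Real.sqrt R / 100) hu48 hu3 hV1 hL2 hlogΔ (by linarith)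
  have hΔNq : Δ * N < q := lt_of_le_of_lt (Nat.le_mul_of_pos_right _ hN1) hNN
  have hmain := combine hP hyP hΔNq hΔ1 hN1 hNΔ hΔY hf0 H (by positivity) hDN hG
    (by positivity) hTs' hTB' (Real.rpow_nonneg hq0.le _) hρ1 hlev
  have hcard : ((badL H V).card : ℝ) ≤ (badF H Y (Real.exp V + 1)).card := by
    exact_mod_cast card_le_card hsub
  have hφ : (q : ℝ) / 2 ≤ q.totient := by
    rw [Nat.totient_prime (Fact.out : q.Prime), Nat.cast_sub (Fact.out : q.Prime).one_lt.le]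
    push_cast
    have : (3 : ℝ) ≤ q := by exact_mod_cast h3
    linarith
  have hφ0 : (0 : ℝ) < q.totient := lt_of_lt_of_le (by positivity) hφ
  have htr := triv_part (h := ((hf H).card : ℝ)) hq0 hφ hq12 htriv
  have hcmp := cmpfacts hq1 hL hy0' hε hc0 hcs hC30 hc hx0 hlyx (hLLC.trans hxLL')
    (hLL4.trans hxLL') hxu hV1 ha0 ha4 hua hu512 hu48 hu3
  calc ((badL H V).card : ℝ) ≤ (badF H Y (Real.exp V + 1)).card := hcard
    _ ≤ _ := hmain
    _ ≤ (q.totient : ℝ) * (128 * (C3 * (y : ℝ) ^ (-(ε / 16)) + (q : ℝ) ^ (-a)) +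
        Real.exp (-V)) + (q.totient : ℝ) * (q : ℝ) ^ (-(1 / 4) : ℝ) := by
        exact add_le_add le_rfl htr
    _ = (q.totient : ℝ) * (128 * (C3 * (y : ℝ) ^ (-(ε / 16)) + (q : ℝ) ^ (-a)) +
        Real.exp (-V) + (q : ℝ) ^ (-(1 / 4) : ℝ)) := by ring
    _ ≤ (q.totient : ℝ) * Real.exp (-(c * x)) := mul_le_mul_of_nonneg_left hcmp hφ0.le
    _ = _ := mul_comm _ _

end Pool.Agent.Q237.LV
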