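import Pool.Agent.Q237.LV.Small

/-!
# The sum over the pairs with ratio in a subgroup
-/

set_option autoImplicit false

namespace Pool.Agent.Q237.LV

open Finset
open scoped Classical

theorem rough_big {y u : ℕ} (hu : 1 ≤ u) (h : ∀ p : ℕ, p.Prime → p ∣ u → y ≤ p) (h1 : u ≠ 1) :
    y ≤ u := by
  obtain ⟨p, hp, hd⟩ := Nat.exists_prime_and_dvd h1
  exact (h p hp hd).trans (Nat.le_of_dvd hu hd)

/-- the counting hypothesis -/
def CntHyp {q : ℕ} (K : Subgroup (ZMod q)ˣ) (y Z : ℕ) (θ : ℝ) : Prop :=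
  ∀ (c : (ZMod q)ˣ) (S : Finset ℕ), (∀ u ∈ S, 1 ≤ u ∧ u ≤ Z) →
    (∀ u ∈ S, ∀ p : ℕ, p.Prime → p ∣ u → y ≤ p) →
    (∀ u ∈ S, ∃ κ ∈ K, ((κ * c : (ZMod q)ˣ) : ZMod q) = (u : ZMod q)) →
    ∀ z : ℕ, 2 ≤ z → ((S.filter (fun u => u ≤ z)).card : ℝ) ≤ (z : ℝ) ^ θ

theorem sum_coset_rough {q : ℕ} {K : Subgroup (ZMod q)ˣ} {y Z : ℕ} {θ α : ℝ}
    (h0 : 0 ≤ θ) (hθ : θ < α) (hcnt : CntHyp K y Z θ) (c : (ZMod q)ˣ) (S : Finset ℕ)
    (h1 : ∀ u ∈ S, 1 ≤ u ∧ u ≤ Z) (h2 : ∀ u ∈ S, ∀ p : ℕ, p.Prime → p ∣ u → y ≤ p)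
    (h3 : ∀ u ∈ S, ∃ κ ∈ K, ((κ * c : (ZMod q)ˣ) : ZMod q) = (u : ZMod q)) :
    ∑ u ∈ S, (u : ℝ) ^ (-α) ≤ 2 ^ θ / (1 - 2 ^ (θ - α)) := by
  refine sum_sparse h0 hθ S (fun u hu => (h1 u hu).1) fun j => ?_
  have h4 := hcnt c S h1 h2 h3 (2 ^ (j + 1)) (by
    calc 2 = 2 ^ 1 := by norm_num
      _ ≤ 2 ^ (j + 1) := Nat.pow_le_pow_right (by norm_num) (by omega))
  push_cast at h4
  exact h4

theorem pair_sum (ε : ℝ) (hε : 0 < ε) (hε1 : ε ≤ 1) : ∃ C : ℝ, 0 < C ∧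
    ∀ (q : ℕ) [Fact q.Prime] (K : Subgroup (ZMod q)ˣ) (y Z : ℕ), 2 ≤ y → Z < q →
    CntHyp K y Z (1 - ε / 2) →
    ∑ x ∈ prs K y Z, ((x.1 : ℝ) ^ (-(1 - ε / 16)) * (x.2 : ℝ) ^ (-(1 - ε / 16))) ≤
      C * (y : ℝ) ^ (-(ε / 16)) := by
  obtain ⟨Cs, hCs⟩ : ∃ Cs : ℝ, Cs = 2 ^ (1 - ε / 2) / (1 - 2 ^ ((1 - ε / 2) - (1 - ε / 4))) :=
    ⟨_, rfl⟩
  have hCs0 : 0 < Cs := by
    rw [hCs]
    have hr : (2 : ℝ) ^ ((1 - ε / 2) - (1 - ε / 4)) < 1 :=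
      Real.rpow_lt_one_of_one_lt_of_neg (by norm_num) (by linarith)
    exact div_pos (by positivity) (by linarith)
  have hsm : Summable (fun n : ℕ => (n : ℝ) ^ (-(1 + ε / 16))) :=
    Real.summable_nat_rpow.mpr (by linarith)
  obtain ⟨C2, hC2⟩ : ∃ C2 : ℝ, C2 = ∑' n : ℕ, (n : ℝ) ^ (-(1 + ε / 16)) := ⟨_, rfl⟩
  have hC20 : 0 ≤ C2 := by
    rw [hC2]
    exact tsum_nonneg fun n => by positivity
  have hpart : ∀ T : Finset ℕ, ∑ n ∈ T, (n : ℝ) ^ (-(1 + ε / 16)) ≤ C2 := by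
    intro T
    rw [hC2]
    exact hsm.sum_le_tsum T fun n _ => by positivity
  refine ⟨2 * (Cs * C2) + 1, by positivity, ?_⟩
  intro q _ K y Z hy hZq hcnt
  have hy0 : (0 : ℝ) < y := by
    have : 0 < y := by omega
    exact_mod_cast this
  have hunit : ∀ u : ℕ, 1 ≤ u → u ≤ Z → ∃ c : (ZMod q)ˣ, (c : ZMod q) = (u : ZMod q) := by
    intro u h1 h2
    have h3 : (u : ZMod q) ≠ 0 := by
      intro h
      rw [ZMod.natCast_eq_zero_iff] at h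
      have := Nat.le_of_dvd (by omega) h
      omega
    exact ⟨Units.mk0 _ h3, rfl⟩
  have hkey : ∀ u v : ℕ, y ≤ u → 1 ≤ v → v ≤ u →
      (u : ℝ) ^ (-(1 - ε / 16)) * (v : ℝ) ^ (-(1 - ε / 16)) ≤
      (y : ℝ) ^ (-(ε / 16)) * ((u : ℝ) ^ (-(1 - ε / 4)) * (v : ℝ) ^ (-(1 + ε / 16))) := by
    intro u v h1 h2 h3
    have u0 : (0 : ℝ) < u := by
      have : 0 < u := by omega
      exact_mod_cast this
    have v0 : (0 : ℝ) < v := by
      have : 0 < v := by omega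
      exact_mod_cast this
    have e1 : (u : ℝ) ^ (-(1 - ε / 16)) =
        (u : ℝ) ^ (-(1 - ε / 4)) * ((u : ℝ) ^ (-(ε / 8)) * (u : ℝ) ^ (-(ε / 16))) := by
      rw [← Real.rpow_add u0, ← Real.rpow_add u0]
      congr 1
      ring
    have e2 : (u : ℝ) ^ (-(ε / 8)) ≤ (v : ℝ) ^ (-(ε / 8)) :=
      Real.rpow_le_rpow_of_nonpos v0 (by exact_mod_cast h3) (by linarith)
    have e3 : (u : ℝ) ^ (-(ε / 16)) ≤ (y : ℝ) ^ (-(ε / 16)) :=
      Real.rpow_le_rpow_of_nonpos hy0 (by exact_mod_cast h1) (by linarith)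
    have e4 : (v : ℝ) ^ (-(1 + ε / 16)) = (v : ℝ) ^ (-(ε / 8)) * (v : ℝ) ^ (-(1 - ε / 16)) := by
      rw [← Real.rpow_add v0]
      congr 1
      ring
    rw [e1, e4]
    calc (u : ℝ) ^ (-(1 - ε / 4)) * ((u : ℝ) ^ (-(ε / 8)) * (u : ℝ) ^ (-(ε / 16))) *
          (v : ℝ) ^ (-(1 - ε / 16))
        ≤ (u : ℝ) ^ (-(1 - ε / 4)) * ((v : ℝ) ^ (-(ε / 8)) * (y : ℝ) ^ (-(ε / 16))) *
          (v : ℝ) ^ (-(1 - ε / 16)) := by gcongr
      _ = _ := by ring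
  obtain ⟨f, hf⟩ : ∃ f : ℕ × ℕ → ℝ, f = fun x =>
    ((x.1 : ℝ) ^ (-(1 - ε / 16)) * (x.2 : ℝ) ^ (-(1 - ε / 16))) := ⟨_, rfl⟩
  have hfnn : ∀ x, 0 ≤ f x := by
    intro x
    rw [hf]
    positivity
  have hsplit : ∑ x ∈ prs K y Z, f x ≤
      ∑ x ∈ (prs K y Z).filter (fun x => x.2 ≤ x.1), f x +
      ∑ x ∈ (prs K y Z).filter (fun x => x.1 ≤ x.2), f x := by
    rw [← sum_filter_add_sum_filter_not (prs K y Z) (fun x => x.2 ≤ x.1)]
    refine add_le_add le_rfl ?_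
    refine sum_le_sum_of_subset_of_nonneg ?_ fun x _ _ => hfnn x
    intro x hx
    rw [mem_filter] at hx ⊢
    exact ⟨hx.1, by omega⟩
  have hA : ∑ x ∈ (prs K y Z).filter (fun x => x.2 ≤ x.1), f x ≤
      (y : ℝ) ^ (-(ε / 16)) * (Cs * C2) := by
    have h1 : ∀ x ∈ (prs K y Z).filter (fun x => x.2 ≤ x.1), f x ≤
        (y : ℝ) ^ (-(ε / 16)) * ((x.1 : ℝ) ^ (-(1 - ε / 4)) * (x.2 : ℝ) ^ (-(1 + ε / 16))) := by
      intro x hx
      rw [mem_filter, mem_prs] at hx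
      obtain ⟨⟨⟨h1, h2⟩, h3, h4, h5, h6⟩, h7⟩ := hx
      rw [hf]
      refine hkey _ _ ?_ h2.1 h7
      refine rough_big h1.1 h4 ?_
      intro h8
      exact h3 ⟨h8, by omega⟩
    refine (sum_le_sum h1).trans ?_
    rw [← mul_sum]
    refine mul_le_mul_of_nonneg_left ?_ (by positivity)
    have hmaps : ∀ x ∈ (prs K y Z).filter (fun x => x.2 ≤ x.1), x.2 ∈ Icc 1 Z := by
      intro x hx
      rw [mem_filter, mem_prs] at hx
      rw [mem_Icc]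
      exact hx.1.1.2
    rw [← sum_fiberwise_of_maps_to hmaps]
    have h2 : ∀ v ∈ Icc 1 Z, ∑ x ∈ ((prs K y Z).filter (fun x => x.2 ≤ x.1)).filter
        (fun x => x.2 = v), (x.1 : ℝ) ^ (-(1 - ε / 4)) * (x.2 : ℝ) ^ (-(1 + ε / 16)) ≤
        Cs * (v : ℝ) ^ (-(1 + ε / 16)) := by
      intro v hv
      rw [mem_Icc] at hv
      have h3 : ∀ x ∈ ((prs K y Z).filter (fun x => x.2 ≤ x.1)).filter
        (fun x => x.2 = v), (x.1 : ℝ) ^ (-(1 - ε / 4)) * (x.2 : ℝ) ^ (-(1 + ε / 16)) =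
        (x.1 : ℝ) ^ (-(1 - ε / 4)) * (v : ℝ) ^ (-(1 + ε / 16)) := by
        intro x hx
        rw [(mem_filter.1 hx).2]
      rw [sum_congr rfl h3, ← sum_mul]
      refine mul_le_mul_of_nonneg_right ?_ (by positivity)
      have h4 : ∑ x ∈ ((prs K y Z).filter (fun x => x.2 ≤ x.1)).filter
        (fun x => x.2 = v), (x.1 : ℝ) ^ (-(1 - ε / 4)) =
          ∑ u ∈ (((prs K y Z).filter (fun x => x.2 ≤ x.1)).filter
        (fun x => x.2 = v)).image Prod.fst, (u : ℝ) ^ (-(1 - ε / 4)) := by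
        rw [sum_image]
        intro x hx x' hx' h
        rw [mem_coe, mem_filter] at hx hx'
        exact Prod.ext h (hx.2.trans hx'.2.symm)
      rw [h4, hCs]
      obtain ⟨c, hc⟩ := hunit v hv.1 hv.2
      refine sum_coset_rough (by linarith) (by linarith) hcnt c _ ?_ ?_ ?_
      · intro u hu
        rw [mem_image] at hu
        obtain ⟨x, hx, rfl⟩ := hu
        rw [mem_filter, mem_filter, mem_prs] at hx
        exact hx.1.1.1.1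
      · intro u hu
        rw [mem_image] at hu
        obtain ⟨x, hx, rfl⟩ := hu
        rw [mem_filter, mem_filter, mem_prs] at hx
        exact hx.1.1.2.2.1
      · intro u hu
        rw [mem_image] at hu
        obtain ⟨x, hx, rfl⟩ := hu
        rw [mem_filter, mem_filter, mem_prs] at hx
        obtain ⟨κ, hκ, hκ2⟩ := hx.1.1.2.2.2.2
        refine ⟨κ, hκ, ?_⟩
        rw [Units.val_mul, hc, ← hκ2, hx.2]
    refine (sum_le_sum h2).trans ?_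
    rw [← mul_sum]
    exact mul_le_mul_of_nonneg_left (hpart _) hCs0.le
  have hB : ∑ x ∈ (prs K y Z).filter (fun x => x.1 ≤ x.2), f x ≤
      (y : ℝ) ^ (-(ε / 16)) * (Cs * C2) := by
    have h1 : ∀ x ∈ (prs K y Z).filter (fun x => x.1 ≤ x.2), f x ≤
        (y : ℝ) ^ (-(ε / 16)) * ((x.2 : ℝ) ^ (-(1 - ε / 4)) * (x.1 : ℝ) ^ (-(1 + ε / 16))) := by
      intro x hx
      rw [mem_filter, mem_prs] at hx
      obtain ⟨⟨⟨h1, h2⟩, h3, h4, h5, h6⟩, h7⟩ := hx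
      rw [hf]
      simp only
      rw [mul_comm ((x.1 : ℝ) ^ (-(1 - ε / 16)))]
      refine hkey _ _ ?_ h1.1 h7
      refine rough_big h2.1 h5 ?_
      intro h8
      exact h3 ⟨by omega, h8⟩
    refine (sum_le_sum h1).trans ?_
    rw [← mul_sum]
    refine mul_le_mul_of_nonneg_left ?_ (by positivity)
    have hmaps : ∀ x ∈ (prs K y Z).filter (fun x => x.1 ≤ x.2), x.1 ∈ Icc 1 Z := by
      intro x hx
      rw [mem_filter, mem_prs] at hx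
      rw [mem_Icc]
      exact hx.1.1.1
    rw [← sum_fiberwise_of_maps_to hmaps]
    have h2 : ∀ v ∈ Icc 1 Z, ∑ x ∈ ((prs K y Z).filter (fun x => x.1 ≤ x.2)).filter
        (fun x => x.1 = v), (x.2 : ℝ) ^ (-(1 - ε / 4)) * (x.1 : ℝ) ^ (-(1 + ε / 16)) ≤
        Cs * (v : ℝ) ^ (-(1 + ε / 16)) := by
      intro v hv
      rw [mem_Icc] at hv
      have h3 : ∀ x ∈ ((prs K y Z).filter (fun x => x.1 ≤ x.2)).filter
        (fun x => x.1 = v), (x.2 : ℝ) ^ (-(1 - ε / 4)) * (x.1 : ℝ) ^ (-(1 + ε / 16)) =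
        (x.2 : ℝ) ^ (-(1 - ε / 4)) * (v : ℝ) ^ (-(1 + ε / 16)) := by
        intro x hx
        rw [(mem_filter.1 hx).2]
      rw [sum_congr rfl h3, ← sum_mul]
      refine mul_le_mul_of_nonneg_right ?_ (by positivity)
      have h4 : ∑ x ∈ ((prs K y Z).filter (fun x => x.1 ≤ x.2)).filter
        (fun x => x.1 = v), (x.2 : ℝ) ^ (-(1 - ε / 4)) =
          ∑ u ∈ (((prs K y Z).filter (fun x => x.1 ≤ x.2)).filter
        (fun x => x.1 = v)).image Prod.snd, (u : ℝ) ^ (-(1 - ε / 4)) := by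
        rw [sum_image]
        intro x hx x' hx' h
        rw [mem_coe, mem_filter] at hx hx'
        exact Prod.ext (hx.2.trans hx'.2.symm) h
      rw [h4, hCs]
      obtain ⟨c, hc⟩ := hunit v hv.1 hv.2
      refine sum_coset_rough (by linarith) (by linarith) hcnt c _ ?_ ?_ ?_
      · intro u hu
        rw [mem_image] at hu
        obtain ⟨x, hx, rfl⟩ := hu
        rw [mem_filter, mem_filter, mem_prs] at hx
        exact hx.1.1.1.2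
      · intro u hu
        rw [mem_image] at hu
        obtain ⟨x, hx, rfl⟩ := hu
        rw [mem_filter, mem_filter, mem_prs] at hx
        exact hx.1.1.2.2.2.1
      · intro u hu
        rw [mem_image] at hu
        obtain ⟨x, hx, rfl⟩ := hu
        rw [mem_filter, mem_filter, mem_prs] at hx
        obtain ⟨κ, hκ, hκ2⟩ := hx.1.1.2.2.2.2
        refine ⟨κ⁻¹, K.inv_mem hκ, ?_⟩
        rw [Units.val_mul, hc, ← hx.2, ← hκ2, ← mul_assoc, ← Units.val_mul, inv_mul_cancel,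
          Units.val_one, one_mul]
    refine (sum_le_sum h2).trans ?_
    rw [← mul_sum]
    exact mul_le_mul_of_nonneg_left (hpart _) hCs0.le
  have hf' : ∑ x ∈ prs K y Z, ((x.1 : ℝ) ^ (-(1 - ε / 16)) * (x.2 : ℝ) ^ (-(1 - ε / 16))) =
      ∑ x ∈ prs K y Z, f x := by rw [hf]
  rw [hf']
  have hyp : 0 ≤ (y : ℝ) ^ (-(ε / 16)) := by positivity
  calc ∑ x ∈ prs K y Z, f x ≤ _ := hsplit
    _ ≤ (y : ℝ) ^ (-(ε / 16)) * (Cs * C2) + (y : ℝ) ^ (-(ε / 16)) * (Cs * C2) := add_le_add hA hB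
    _ ≤ (2 * (Cs * C2) + 1) * (y : ℝ) ^ (-(ε / 16)) := by linarith

end Pool.Agent.Q237.LV
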