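import Pool.Agent.Q237.LV.Ana
import Pool.Agent.Q237.LV.Count
import Pool.Agent.Q237.LV.CntHyp
import Pool.Agent.Q237.LV.Lap
import Pool.Agent.Helper112.Arith

/-!
# Combination of the estimates
-/

set_option autoImplicit false

namespace Pool.Agent.Q237.LV

open Finset
open scoped Classical

section

variable {q : ℕ} [Fact q.Prime]

theorem TB_total {y Δ Y N D s : ℕ} {P : Finset ℕ} (hP : ∀ p ∈ P, p.Prime) (hN : N < q)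
    {fp : ℕ → ℝ} (hf0 : ∀ p ∈ P, 0 ≤ fp p) (H : Subgroup (DirichletCharacter ℂ q))
    (hs : 1 ≤ s) (hΔs : q ≤ Δ ^ s) (hD : ∀ m : ℕ, 1 ≤ m → m ≤ q ^ s → m.divisors.card ≤ D)
    (hYs : Δ * Y ≤ q ^ s) {X : ℝ} (hX0 : 0 ≤ X)
    (hX : (D : ℝ) ^ s * ((Nat.card (ann H) : ℝ) / q * (1 + s * Real.log q)) ≤ X ^ s)
    (KF : Finset (ZMod q)ˣ) (hKF : KF ⊆ kf H) :
    ∑ κ ∈ KF, TB y Δ Y N P fp κ ^ 2 ≤ (∑ S ∈ SSt P N, ff fp S ^ 2) ^ 2 *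
      (((N : ℝ) * D) ^ 2 * (2 * X + 8 * (Nat.card (ann H)) * (Δ * Y) / (q : ℝ) ^ 2)) := by
  have h1 : ∀ g : (ZMod q)ˣ, ∑ κ ∈ KF, Vh Δ (Δ * Y) (κ * g) ^ 2 ≤
      2 * X + 8 * (Nat.card (ann H)) * (Δ * Y) / (q : ℝ) ^ 2 := by
    intro g
    have h2 := sum_class_sq (ann H) g Δ (Δ * Y) s D hs hΔs hD X hX0 hX KF
      (fun κ hκ => mem_kf.1 (hKF hκ))
    push_cast at h2
    exact h2
  have h2 := sum_TB_sq (y := y) (Δ := Δ) (Y := Y) (τ := D) hP hN hf0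
    (fun c hc1 hc2 => hD c hc1 (hc2.trans hYs)) KF h1
  refine h2.trans (le_of_eq ?_)
  ring

theorem Ts_total (ε : ℝ) (hε : 0 < ε) (hε1 : ε ≤ 1) : ∃ C : ℝ, 0 < C ∧
    ∀ (q : ℕ) [Fact q.Prime] (H : Subgroup (DirichletCharacter ℂ q)) (y Δ N w : ℕ) (P : Finset ℕ)
      (fp : ℕ → ℝ), (∀ p ∈ P, p.Prime) → (∀ p ∈ P, 0 ≤ fp p) →
      (∀ p ∈ P, fp p ≤ (p : ℝ) ^ (-(1 / 2 - ε / 64))) → (∀ p ∈ P, y ≤ p) → 2 ≤ y →
      Δ * N * N < q → 1 ≤ Δ → 1 ≤ N → 2 ≤ Δ * N → ((Δ * N : ℕ) : ℝ) ≤ (q : ℝ) ^ (ε / 8) →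
      (Nat.card (ann H) : ℝ) ≤ (q : ℝ) ^ (1 - ε) → q ≤ y ^ w →
      ((Nat.log 2 q : ℕ) : ℝ) ^ w ≤ (q : ℝ) ^ (ε / 8) →
      ∑ κ ∈ (kf H).erase 1, Ts (RC y Δ) (SSt P N) fp κ ^ 2 ≤
        DD P fp ^ 2 * (C * (y : ℝ) ^ (-(ε / 16))) := by
  obtain ⟨Cp, hCp0, hCp⟩ := pair_sum ε hε hε1
  obtain ⟨Cd, hCd0, hCd⟩ := Pool.Agent.Helper112.divisor_bound (ε / 64) (by positivity)
  refine ⟨Cd ^ 2 * Cp, by positivity, ?_⟩
  intro q _ H y Δ N w P fp hP hf0 hfβ hy hy2 hq hΔ hN hZ2 hZ hK hw hlog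
  have hq1 : 1 < q := (Fact.out : q.Prime).one_lt
  have hcnt := cntHyp_of hq1 (ann H) hε hε1 hK hy2 hw hlog hZ2 hZ
  have hZq : Δ * N < q := lt_of_le_of_lt (Nat.le_mul_of_pos_right _ hN) hq
  have h1 := sum_Ts_sq (C := RC y Δ) (SS := SSt P N) (A := Δ) (N := N) (y := y) hP hf0
    (β := 1 / 2 - ε / 64) (by linarith) hfβ
    (fun c hc => by
      unfold RC at hc
      rw [mem_filter, mem_Icc] at hc
      exact hc.1)
    (fun S hS => mem_SSt.1 hS) hq hy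
    (fun c hc => by
      unfold RC at hc
      rw [mem_filter] at hc
      exact hc.2) hΔ hN (ann H) ((kf H).erase 1)
    (fun κ hκ => by
      rw [mem_erase] at hκ
      exact ⟨mem_kf.1 hκ.2, hκ.1⟩)
  refine h1.trans (mul_le_mul_of_nonneg_left ?_ (sq_nonneg _))
  have h2 := hCp q (ann H) y (Δ * N) hy2 hZq hcnt
  have h3 : ∀ x ∈ prs (ann H) y (Δ * N),
      ((x.1.divisors.card : ℝ) * ((x.1 : ℝ) ^ (-(1 / 2 - ε / 64)) *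
        (x.2 : ℝ) ^ (-(1 / 2 - ε / 64)))) ^ 2 ≤
      Cd ^ 2 * ((x.1 : ℝ) ^ (-(1 - ε / 16)) * (x.2 : ℝ) ^ (-(1 - ε / 16))) := by
    intro x hx
    rw [mem_prs] at hx
    obtain ⟨⟨⟨a1, a2⟩, a3, a4⟩, -⟩ := hx
    have b1 : (1 : ℝ) ≤ x.1 := by exact_mod_cast a1
    have b2 : (1 : ℝ) ≤ x.2 := by exact_mod_cast a3
    have b10 : (0 : ℝ) < x.1 := by linarith
    have b20 : (0 : ℝ) < x.2 := by linarith
    have c1 := hCd x.1 a1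
    have e1 : ((x.1 : ℝ) ^ (-(1 / 2 - ε / 64))) ^ 2 = (x.1 : ℝ) ^ (-(1 - ε / 32)) := by
      rw [← Real.rpow_natCast, ← Real.rpow_mul b10.le]
      congr 1
      push_cast
      ring
    have e2 : ((x.2 : ℝ) ^ (-(1 / 2 - ε / 64))) ^ 2 = (x.2 : ℝ) ^ (-(1 - ε / 32)) := by
      rw [← Real.rpow_natCast, ← Real.rpow_mul b20.le]
      congr 1
      push_cast
      ring
    have e3 : (((x.1 : ℝ) ^ (ε / 64))) ^ 2 = (x.1 : ℝ) ^ (ε / 32) := by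
      rw [← Real.rpow_natCast, ← Real.rpow_mul b10.le]
      congr 1
      push_cast
      ring
    have e4 : (x.2 : ℝ) ^ (-(1 - ε / 32)) ≤ (x.2 : ℝ) ^ (-(1 - ε / 16)) :=
      Real.rpow_le_rpow_of_exponent_le b2 (by linarith)
    have e5 : (x.1 : ℝ) ^ (ε / 32) * (x.1 : ℝ) ^ (-(1 - ε / 32)) = (x.1 : ℝ) ^ (-(1 - ε / 16)) := by
      rw [← Real.rpow_add b10]
      congr 1
      ring
    have c2 : ((x.1.divisors.card : ℝ)) ^ 2 ≤ (Cd * (x.1 : ℝ) ^ (ε / 64)) ^ 2 :=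
      pow_le_pow_left₀ (by positivity) c1 2
    rw [mul_pow, mul_pow, e1, e2]
    rw [mul_pow, e3] at c2
    calc ((x.1.divisors.card : ℝ)) ^ 2 * ((x.1 : ℝ) ^ (-(1 - ε / 32)) * (x.2 : ℝ) ^ (-(1 - ε / 32)))
        ≤ (Cd ^ 2 * (x.1 : ℝ) ^ (ε / 32)) *
          ((x.1 : ℝ) ^ (-(1 - ε / 32)) * (x.2 : ℝ) ^ (-(1 - ε / 16))) := by gcongr
      _ = Cd ^ 2 * (((x.1 : ℝ) ^ (ε / 32) * (x.1 : ℝ) ^ (-(1 - ε / 32))) *
          (x.2 : ℝ) ^ (-(1 - ε / 16))) := by ring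
      _ = _ := by rw [e5]
  refine (sum_le_sum h3).trans ?_
  rw [← mul_sum, mul_assoc]
  exact mul_le_mul_of_nonneg_left h2 (by positivity)

/-- the combination -/
theorem combine {y Δ Y N : ℕ} {P : Finset ℕ} (hP : ∀ p ∈ P, p.Prime) (hy : ∀ p ∈ P, y ≤ p)
    (hq : Δ * N < q) (hΔ : 1 ≤ Δ) (hN : 1 ≤ N) (hNΔ : N ≤ Δ) (hΔY : Δ ≤ Y) {fp : ℕ → ℝ}
    (hf0 : ∀ p ∈ P, 0 ≤ fp p)
    (H : Subgroup (DirichletCharacter ℂ q)) {G V L0 σ ρ : ℝ} (hL00 : 0 ≤ L0)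
    (hDN : DD P fp / 2 ≤ DN N P fp)
    (hG : (∑ S ∈ SSt P N, ff fp S ^ 2) * Real.exp G ≤ DD P fp) (hG0 : 0 ≤ G)
    (hTs : ∑ κ ∈ (kf H).erase 1, Ts (RC y Δ) (SSt P N) fp κ ^ 2 ≤ DD P fp ^ 2 * σ)
    (hTB : ∀ KF ⊆ kf H, ∑ κ ∈ KF, TB y Δ Y N P fp κ ^ 2 ≤
      (∑ S ∈ SSt P N, ff fp S ^ 2) ^ 2 * ρ) (hρ0 : 0 ≤ ρ) (hρ1 : ρ ≤ 1 / 16)
    (hL0 : L0 * (Real.exp V * (2 + Real.log Δ)) ≤ Real.exp G / 8) :
    ((badF H Y L0).card : ℝ) ≤ (q.totient : ℝ) * (128 * (σ + ρ) + Real.exp (-V)) +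
      (if 64 * Real.sqrt Δ * Real.sqrt Y * N ≤ ((hf H).card : ℝ) then 0
        else ((hf H).card : ℝ)) := by
  have hempty : (∅ : Finset ℕ) ∈ SSt P N := by
    rw [mem_SSt]
    refine ⟨empty_subset _, ?_⟩
    unfold nn
    simpa using hN
  have hE20 : 0 < ∑ S ∈ SSt P N, ff fp S ^ 2 := by
    refine lt_of_lt_of_le one_pos ?_
    refine le_trans ?_ (single_le_sum (f := fun S => ff fp S ^ 2) (fun S _ => sq_nonneg _) hempty)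
    unfold ff
    simp
  have hE2D : ∑ S ∈ SSt P N, ff fp S ^ 2 ≤ DD P fp := by
    refine le_trans ?_ hG
    exact le_mul_of_one_le_right hE20.le (Real.one_le_exp hG0)
  have hD0 : 0 < DD P fp := lt_of_lt_of_le hE20 hE2D
  have hTB' : ∀ KF ⊆ kf H, ∑ κ ∈ KF, TB y Δ Y N P fp κ ^ 2 ≤ DD P fp ^ 2 * ρ := by
    intro KF hKF
    refine (hTB KF hKF).trans ?_
    gcongr
  have h1 : DD P fp / 4 ≤ TT y Δ Y N P fp (1 : (ZMod q)ˣ) := by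
    have h2 := hTB' {1} (singleton_subset_iff.2 (one_mem_kf H))
    rw [sum_singleton] at h2
    have h3 : |TB y Δ Y N P fp (1 : (ZMod q)ˣ)| ≤ DD P fp / 4 := by
      refine abs_le_of_sq_le_sq ?_ (by positivity)
      calc TB y Δ Y N P fp (1 : (ZMod q)ˣ) ^ 2 ≤ DD P fp ^ 2 * ρ := h2
        _ ≤ DD P fp ^ 2 * (1 / 16) := by gcongr
        _ = (DD P fp / 4) ^ 2 := by ring
    have h4 := Ts_one (q := q) (y := y) (Δ := Δ) hP hy hf0 hNΔ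
    rw [TT_split fp hΔY]
    have h5 := abs_le.1 h3
    linarith [h5.1]
  have h2 : L0 * (Real.exp V * (2 + Real.log Δ) * ∑ S ∈ SSt P N, ff fp S ^ 2) ≤
      DD P fp / 4 / 2 := by
    calc L0 * (Real.exp V * (2 + Real.log Δ) * ∑ S ∈ SSt P N, ff fp S ^ 2)
        = (L0 * (Real.exp V * (2 + Real.log Δ))) * ∑ S ∈ SSt P N, ff fp S ^ 2 := by ring
      _ ≤ (Real.exp G / 8) * ∑ S ∈ SSt P N, ff fp S ^ 2 :=
          mul_le_mul_of_nonneg_right hL0 hE20.le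
      _ = ((∑ S ∈ SSt P N, ff fp S ^ 2) * Real.exp G) / 8 := by ring
      _ ≤ DD P fp / 8 := by gcongr
      _ = _ := by ring
  have h3 := bad_count hP hy hq hΔ hf0 H (t1 := DD P fp / 4) (by positivity) h1 rfl hE20
    (Real.exp_pos V) hL00 h2
  refine h3.trans ?_
  have h4 : ∑ κ ∈ (kf H).erase 1, TT y Δ Y N P fp κ ^ 2 ≤ 2 * (DD P fp ^ 2 * (σ + ρ)) := by
    calc ∑ κ ∈ (kf H).erase 1, TT y Δ Y N P fp κ ^ 2
        ≤ ∑ κ ∈ (kf H).erase 1, (2 * Ts (RC y Δ) (SSt P N) fp κ ^ 2 +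
          2 * TB y Δ Y N P fp κ ^ 2) := by
          refine sum_le_sum fun κ _ => ?_
          rw [TT_split fp hΔY]
          have := add_sq_le (a := Ts (RC y Δ) (SSt P N) fp κ) (b := TB y Δ Y N P fp κ)
          linarith
      _ = 2 * (∑ κ ∈ (kf H).erase 1, Ts (RC y Δ) (SSt P N) fp κ ^ 2 +
          ∑ κ ∈ (kf H).erase 1, TB y Δ Y N P fp κ ^ 2) := by
          rw [sum_add_distrib, ← mul_sum, ← mul_sum]
          ring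
      _ ≤ 2 * (DD P fp ^ 2 * σ + DD P fp ^ 2 * ρ) := by
          have h5 := hTB' ((kf H).erase 1) (erase_subset _ _)
          linarith
      _ = _ := by ring
  have h5 : 4 * (q.totient : ℝ) * (∑ κ ∈ (kf H).erase 1, TT y Δ Y N P fp κ ^ 2) /
      (DD P fp / 4) ^ 2 ≤ (q.totient : ℝ) * (128 * (σ + ρ)) := by
    rw [div_le_iff₀ (by positivity)]
    calc 4 * (q.totient : ℝ) * (∑ κ ∈ (kf H).erase 1, TT y Δ Y N P fp κ ^ 2)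
        ≤ 4 * (q.totient : ℝ) * (2 * (DD P fp ^ 2 * (σ + ρ))) := by gcongr
      _ = _ := by ring
  have h6 : (q.totient : ℝ) / Real.exp V = (q.totient : ℝ) * Real.exp (-V) := by
    rw [Real.exp_neg, div_eq_mul_inv]
  have h7 : (if 4 * Real.sqrt Δ * Real.sqrt Y * (N * ∑ S ∈ SSt P N, ff fp S ^ 2) ≤
      ((hf H).card : ℝ) * (DD P fp / 4) / 4 then 0 else ((hf H).card : ℝ)) ≤
      (if 64 * Real.sqrt Δ * Real.sqrt Y * N ≤ ((hf H).card : ℝ) then 0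
        else ((hf H).card : ℝ)) := by
    by_cases h : 64 * Real.sqrt Δ * Real.sqrt Y * N ≤ ((hf H).card : ℝ)
    · rw [if_pos h, if_pos]
      calc 4 * Real.sqrt Δ * Real.sqrt Y * (N * ∑ S ∈ SSt P N, ff fp S ^ 2)
          = (64 * Real.sqrt Δ * Real.sqrt Y * N) * (∑ S ∈ SSt P N, ff fp S ^ 2) / 16 := by ring
        _ ≤ ((hf H).card : ℝ) * (DD P fp) / 16 := by gcongr
        _ = _ := by ring
    · rw [if_neg h]
      split_ifs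
      · positivity
      · exact le_rfl
  rw [h6]
  linarith

end

end Pool.Agent.Q237.LV
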